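import Pool.Agent.MP_d1f1f3_co.H47.Blev2
import Pool.Agent.MP_d1f1f3_co.H2.A

/-!
The levels of the colours.
-/

namespace Pool.Agent.MP_d1f1f3_co.H47

open Finset Relation
open scoped Classical

noncomputable section

namespace Blev

variable {V : Type} [Fintype V] {G : SimpleGraph V} {A : V → V → Prop} {z ρ : V} {τ : ZMod 2}
  {κ : V → ZMod 2} {P : Finset (V × V)} {R : Finset V} {i o : V → V}

/-- The standing hypotheses. -/
structure Hy (G : SimpleGraph V) (A : V → V → Prop) (z ρ : V) (τ : ZMod 2) (κ : V → ZMod 2)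
    (P : Finset (V × V)) (R : Finset V) (i o : V → V) : Prop where
  ori : Ori G A z ρ
  cnt : Cnt G A z ρ τ κ P R
  hi : ∀ v, Yv G A κ v → A (i v) v ∧ G.Adj v (i v) ∧ (i v, v) ∉ P ∧ i v ∉ R ∧
    (v ∈ R → Fe G κ (i v) v ∨ i v = z)
  ho : ∀ v, Yv G A κ v → A v (o v) ∧ (v, o v) ∉ P ∧ (v ∈ R ∨ ¬Fe G κ v (o v))
  nr : NoRet A (Yv G A κ) i o

/-- The coefficients. -/
def cc (G : SimpleGraph V) (A : V → V → Prop) (z ρ : V) (κ : V → ZMod 2) (R : Finset V)
    (i o : V → V) : V → V × V → ℤ :=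
  co G A (org A (Yv G A κ) i o (z, ρ)) (z, ρ) (eps G κ R)

lemma Hy.sign (H : Hy G A z ρ τ κ P R i o) (v : V) (hv : Yv G A κ v) :
    eps G κ R (i v, v) = -eps G κ R (v, o v) :=
  eps_neg (by rw [sgn_in (H.hi v hv).2.1.symm hv.k (H.hi v hv).2.2.2.1,
    sgn_out hv.k (H.ho v hv).2.2])

lemma Hy.key (H : Hy G A z ρ τ κ P R i o) {s : V × V} (hs : Start A (Yv G A κ) o s)
    (hk : K G s.1) : ∃ (q : V) (δ : ℤ), q ≠ s.1 ∧ (Last (Yv G A κ) i s → q = s.2) ∧
      (K G q → ∃ e, ReflTransGen (Nxt (Yv G A κ) i o) s e ∧ e.2 = q ∧ δ = eps G κ R e) ∧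
      ∀ j : V × V, j.1 ≠ j.2 → cc G A z ρ κ R i o j.2 s - cc G A z ρ κ R i o j.1 s = 0 →
        (In s.1 j ↔ K G q ∧ In q j) ∧ (In s.1 j → δ = eps G κ R s) := by
  obtain ⟨q, δ, h1, h2, h3, h4, h5⟩ := co_spec H.ori (fun _ h => h.k)
    (fun v h => ⟨(H.hi v h).1, (H.hi v h).2.1⟩) (fun v h => (H.ho v h).1) H.sign eps_ne H.nr hs hk
  exact ⟨q, δ, h2, h4, h5, fun j hj h =>
    occ (C := fun v => cc G A z ρ κ R i o v s) (eps_ne s) h1 h2
      h3 hj h⟩

lemma Hy.iso (H : Hy G A z ρ τ κ P R i o) {j : V × V} (hj : Fe G κ j.1 j.2) {u : V}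
    (hu : In u j) : ∃ s : V × V, s.1 = u ∧ s ∉ P ∧
      cc G A z ρ κ R i o j.2 s - cc G A z ρ κ R i o j.1 s ≠ 0 := by
  obtain ⟨w, hw, hx⟩ : ∃ w, Fe G κ u w ∧ ∀ x, In x j → x = u ∨ x = w := by
    rcases hu with rfl | rfl
    · exact ⟨j.2, hj, fun _ h => h⟩
    · exact ⟨j.1, ⟨hj.1.symm, hj.2.2.1, hj.2.1, hj.2.2.2.symm⟩, fun _ h => h.symm⟩
  have ku := hw.2.1
  obtain ⟨b, hb, b1, b2⟩ : ∃ b ∈ Ov G A κ P R u, ¬(Yv G A κ u ∧ b = o u) ∧ (u ∈ R → b ≠ w) := by
    obtain ⟨c1, c2, c3⟩ := H.cnt.outs u ku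
    by_cases r : u ∈ R
    · obtain ⟨b, hb, hn⟩ := exists_mem_notMem_of_card_lt_card
        (show #({o u, w} : Finset V) < #(Ov G A κ P R u) by
          have := c3 r
          have := card_le_two (a := o u) (b := w)
          omega)
      simp only [mem_insert, mem_singleton, not_or] at hn
      exact ⟨b, hb, fun h => hn.1 h.2, fun _ => hn.2⟩
    · by_cases y : Yv G A κ u
      · obtain ⟨b, hb, hn⟩ := exists_mem_ne (show 1 < #(Ov G A κ P R u) from c2 y) (o u)
        exact ⟨b, hb, fun h => hn h.2, fun h => absurd h r⟩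
      · obtain ⟨b, hb⟩ := card_pos.1 c1
        exact ⟨b, hb, fun h => y h.1, fun h => absurd h r⟩
  obtain ⟨a1, a2, a3⟩ := (mem_filter.1 hb).2
  have hs : Start A (Yv G A κ) o (u, b) := ⟨a1, b1⟩
  refine ⟨(u, b), rfl, a2, fun h0 => ?_⟩
  obtain ⟨q, δ, h1, h2, h3, h4⟩ := H.key hs ku
  obtain ⟨h5, h6⟩ := h4 j hj.1.ne h0
  obtain ⟨kq, h7⟩ := h5.1 hu
  have hq : q = w := (hx q h7).resolve_left h1
  by_cases r : u ∈ R
  · refine b2 r ((h2 fun h => (H.hi b h.1).2.2.2.1 ?_).symm.trans hq)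
    exact (show u = i b from h.2) ▸ r
  · obtain ⟨⟨a, q'⟩, e1, rfl, e3⟩ := h3 kq
    subst hq
    have f1 : A a q' := arc_of (fun v h => (H.ho v h).1) e1 hs.1
    have f2 : G.Adj a q' := by
      rcases H.ori.inK _ _ kq f1 with h | h
      · exact h.symm
      · have hβ : Start A (Yv G A κ) o (a, q') := ⟨f1, fun c => H.ori.kz (h.1 ▸ c.1.k)⟩
        have := congrArg Prod.fst (start_eq e1 hβ)
        exact absurd (h.1 ▸ (show u = a from this) ▸ ku) H.ori.kz
    have f3 : a ∉ R := by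
      intro ha
      rcases e1.cases_tail with h | ⟨⟨c1, c2⟩, g1, g2, g3, g4⟩
      · exact r ((show a = u from congrArg Prod.fst h) ▸ ha)
      · obtain rfl : a = c2 := congrArg Prod.fst g4
        obtain rfl : c1 = i a := g3
        obtain ⟨k1, -, -, k2, k3⟩ := H.hi a g2
        have hc : Start A (Yv G A κ) o (i a, a) := ⟨k1, fun c => by
          have c1 : Yv G A κ (i a) := c.1
          have c2 : a = o (i a) := c.2
          have d := (k3 ha).resolve_right fun e => H.ori.kz (e ▸ c1.k)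
          exact (H.ho _ c1).2.2.resolve_left k2 (c2 ▸ d)⟩
        have e := start_eq g1 hc
        obtain rfl : u = i a := congrArg Prod.fst e
        obtain rfl : b = a := congrArg Prod.snd e
        rcases k3 ha with d | d
        · exact a3.resolve_left r d
        · exact H.ori.kz (d ▸ ku)
    have f4 : eps G κ R (a, q') = -eps G κ R (u, b) :=
      eps_neg (by rw [sgn_in f2 kq f3, sgn_out ku a3, hw.2.2.2])
    have f5 := h6 hu
    have f6 := eps_ne (G := G) (κ := κ) (R := R) (u, b)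
    omega

lemma Hy.hall (H : Hy G A z ρ τ κ P R i o) (S : Finset (V × V))
    (hS : ∀ j ∈ S, Cj G A z ρ τ κ j) :
    2 * #S ≤ #(univ.filter fun s : V × V => ∃ j ∈ S,
      2 * (cc G A z ρ κ R i o j.2 s - cc G A z ρ κ R i o j.1 s) ≠ 0) + 1 := by
  set Oc := univ.filter fun s : V × V => ∃ j ∈ S,
    2 * (cc G A z ρ κ R i o j.2 s - cc G A z ρ κ R i o j.1 s) ≠ 0 with hO
  have mO : ∀ s, s ∉ Oc → ∀ j ∈ S,
      cc G A z ρ κ R i o j.2 s - cc G A z ρ κ R i o j.1 s = 0 := fun s hs j hj => by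
    by_contra h
    exact hs (mem_filter.2 ⟨mem_univ _, j, hj, by omega⟩)
  let iso : V × V → Prop := fun j => j ≠ (z, ρ) ∧ ∀ j' ∈ S, ∀ x, In x j → In x j' → j' = j
  set X := univ.filter fun v => K G v ∧ ∃ j ∈ S, ¬iso j ∧ In v j with hX
  have mX : ∀ v, v ∈ X ↔ K G v ∧ ∃ j ∈ S, ¬iso j ∧ In v j := fun v => by simp [hX]
  have kX : ∀ v ∈ X, K G v := fun v hv => ((mX v).1 hv).1
  have c0 := card_filter_add_card_filter_not (s := S) iso
  have c1 := count1 H.ori (S.filter fun j => ¬iso j) X (fun j hj => hS j (mem_filter.1 hj).1)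
    fun j hj v kv h => (mX v).2 ⟨kv, j, (mem_filter.1 hj).1, (mem_filter.1 hj).2, h⟩
  have c2 := count2 (o := o) H.ori (fun v h => (H.ho v h).1) X kX
  have c3 := count3 (S.filter iso) ((Oc.filter fun s => s.1 ∉ X ∧ s ∉ P).image Prod.fst)
    (fun j hj => (hS j (mem_filter.1 hj).1).ne H.ori)
    (fun j hj j' hj' => (mem_filter.1 hj).2.2 j' (mem_filter.1 hj').1) fun j hj v hv => by
      obtain ⟨j1, j2⟩ := mem_filter.1 hj
      have f := ((hS j j1).resolve_right fun h => j2.1 h.1).2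
      obtain ⟨s, rfl, s1, s2⟩ := H.iso f hv
      refine mem_image_of_mem _ (mem_filter.2 ⟨by_contra fun h => s2 (mO s h j j1), ?_, s1⟩)
      intro h
      obtain ⟨-, j', k1, k2, k3⟩ := (mX _).1 h
      exact k2 (j2.2 j' k1 _ hv k3 ▸ j2)
  have c4 := c3.trans card_image_le
  have c5 : (univ.filter fun s : V × V => s.1 ∈ X ∧ Start A (Yv G A κ) o (s.1, s.2)) ⊆
      Oc.filter fun s => s.1 ∈ X := by
    intro s hs
    obtain ⟨s1, s2⟩ := (mem_filter.1 hs).2
    refine mem_filter.2 ⟨by_contra fun h => ?_, s1⟩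
    obtain ⟨kp, j, j1, j2, j3⟩ := (mX _).1 s1
    obtain ⟨q, δ, h1, -, -, h4⟩ := H.key (s := s) s2 kp
    have h5 : ∀ j ∈ S, In s.1 j ↔ K G q ∧ In q j := fun j hj =>
      (h4 j ((hS j hj).ne H.ori) (mO s h j hj)).1
    obtain ⟨kq, j4⟩ := (h5 j j1).1 j3
    have h6 : ∀ j : V × V, In s.1 j → In q j → j = (s.1, q) ∨ j = (q, s.1) := by
      rintro ⟨u, w⟩ (a | a) (b | b)
      · exact absurd (b.trans a.symm) h1
      · exact Or.inl (Prod.ext a.symm b.symm)
      · exact Or.inr (Prod.ext b.symm a.symm)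
      · exact absurd (b.trans a.symm) h1
    have h7 := h6 j j3 j4
    refine j2 ⟨fun e => ?_, fun j' k1 x x1 x2 => ?_⟩
    · rcases h7 with a | a <;> rw [e] at a
      · exact H.ori.kz ((show z = s.1 from congrArg Prod.fst a) ▸ kp)
      · exact H.ori.kz ((show z = q from congrArg Prod.fst a) ▸ kq)
    · have h8 : In s.1 j' := by
        have : x = s.1 ∨ x = q := by
          rcases h7 with a | a <;> rw [a] at x1
          exacts [x1, x1.symm]
        rcases this with rfl | rfl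
        · exact x2
        · exact (h5 j' k1).2 ⟨kq, x2⟩
      have a1 := (hS j j1).arc H.ori
      have a2 := (hS j' k1).arc H.ori
      rcases h7 with a | a <;> rcases h6 j' h8 ((h5 j' k1).1 h8).2 with b | b
      · rw [a, b]
      · rw [a] at a1
        rw [b] at a2
        exact absurd a1 (H.ori.asym _ _ a2)
      · rw [a] at a1
        rw [b] at a2
        exact absurd a1 (H.ori.asym _ _ a2)
      · rw [a, b]
  have c6 : (P.filter fun e => e.1 ∉ X ∧ e.2 ∈ X) ⊆ Oc.filter fun s => s.1 ∉ X ∧ s ∈ P := by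
    intro s hs
    obtain ⟨s0, s1, s2⟩ := mem_filter.1 hs
    refine mem_filter.2 ⟨by_contra fun h => ?_, s1, s0⟩
    obtain ⟨a, kp, -⟩ := H.cnt.arc s s0
    obtain ⟨kq, j, j1, j2, j3⟩ := (mX _).1 s2
    obtain ⟨q, δ, -, h2, -, h4⟩ := H.key (s := s)
      ⟨a, fun c => (H.ho _ c.1).2.1 (by rw [← c.2]; exact s0)⟩ kp
    obtain rfl := h2 fun c => (H.hi _ c.1).2.2.1 (by rw [← c.2]; exact s0)
    exact s1 ((mX _).2 ⟨kp, j, j1, j2,
      (h4 j ((hS j j1).ne H.ori) (mO s h j j1)).1.2 ⟨kq, j3⟩⟩)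
  have c7 := card_le_card c5
  have c8 := card_le_card c6
  have c9 := card_filter_add_card_filter_not (s := Oc) fun s => s.1 ∈ X
  have c10 : #(Oc.filter fun s => s.1 ∉ X ∧ s ∈ P) + #(Oc.filter fun s => s.1 ∉ X ∧ s ∉ P) ≤
      #(Oc.filter fun s => s.1 ∉ X) := by
    rw [← card_union_of_disjoint (disjoint_left.2 fun s a b =>
      (mem_filter.1 b).2.2 (mem_filter.1 a).2.2)]
    refine card_le_card fun s hs => ?_
    rcases mem_union.1 hs with a | a <;>
      exact mem_filter.2 ⟨(mem_filter.1 a).1, (mem_filter.1 a).2.1⟩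
  have c11 := H.cnt.hall X kX
  simp only [tt, sum_sub_distrib] at c11 c2
  omega

lemma avoid2 {ι : Type} [Fintype ι] (J : ι → Prop) (M : ι → ι → ℤ) (c : ι → ℤ)
    (h : ∀ S : Finset ι, (∀ j ∈ S, J j) →
      2 * #S ≤ #(univ.filter fun s => ∃ j ∈ S, M j s ≠ 0) + 1) :
    ∃ x : ι → ℤ, (∀ s, x s = 0 ∨ x s = 1) ∧ ∀ j, J j → c j + ∑ s, M j s * x s ≠ 0 := by
  obtain ⟨x, h1, h2⟩ := H2.avoid (J := {j // J j}) (fun j => M j.1) (fun j => c j.1)
    fun S _ => by
      have := h (S.map (Function.Embedding.subtype J)) fun j hj => by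
        obtain ⟨j, -, rfl⟩ := mem_map.1 hj
        exact j.2
      rw [card_map] at this
      refine this.trans (Nat.add_le_add_right (card_le_card fun s hs => ?_) 1)
      obtain ⟨j, hj, hn⟩ := (mem_filter.1 hs).2
      obtain ⟨j, hj', rfl⟩ := mem_map.1 hj
      exact mem_filter.2 ⟨mem_univ _, j, hj', hn⟩
  exact ⟨x, h1, fun j hj => h2 ⟨j, hj⟩⟩

/-- The level of an arc. -/
def be (g : V × V → V × V) (β : V × V) (ε : V × V → ℤ) (x₀ : ℤ) (x : V × V → ℤ) (e : V × V) : ℤ :=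
  if ε e = 1 then (if g e = β then x₀ else x (g e)) else 1 - if g e = β then x₀ else x (g e)

/-- The level of an edge. -/
def bb (A : V → V → Prop) (f : V × V → ℤ) (u w : V) : ℤ :=
  if A u w then f (u, w) else if A w u then f (w, u) else 0

lemma be_aff (g : V × V → V × V) (β : V × V) {ε : V × V → ℤ} (hε : ∀ e, ε e = 1 ∨ ε e = -1)
    (x₀ : ℤ) (x : V × V → ℤ) (e : V × V) :
    be g β ε x₀ x e = be g β ε x₀ 0 e + ∑ s, cf g β ε e s * x s := by
  rw [sum_eq_single (g e) (fun s _ hs => by simp [cf, hs.symm]) (by simp)]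
  rcases hε e with h | h <;> by_cases a : g e = β <;> simp [be, cf, h, a]
  ring

lemma sum_aff (H : Ori G A z ρ) (g : V × V → V × V) (β : V × V) {ε : V × V → ℤ}
    (hε : ∀ e, ε e = 1 ∨ ε e = -1) (x₀ : ℤ) (x : V × V → ℤ) {v : V} (hv : K G v) :
    ∑ w ∈ N G v, bb A (be g β ε x₀ x) v w =
      ∑ w ∈ N G v, bb A (be g β ε x₀ 0) v w + ∑ s, co G A g β ε v s * x s := by
  simp only [co, if_pos hv, sum_mul]
  rw [sum_comm (s := univ), ← sum_add_distrib]
  refine sum_congr rfl fun w hw => ?_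
  by_cases a : A v w
  · simp only [bb, if_pos a]
    exact be_aff g β hε x₀ x _
  · simp only [bb, if_neg a, if_pos ((H.real v w (mem_N.1 hw)).resolve_left a)]
    exact be_aff g β hε x₀ x _

end Blev

open Blev in
theorem blev : SBlev := by
  intro V _ G A z ρ τ κ P R i o cs τ' b₀ H1 H2 H3 H4 hb
  have H : Hy G A z ρ τ κ P R i o := ⟨H1, H2, fun v h => (mem_filter.1 (H3 v h).1).2,
    fun v h => (mem_filter.1 (H3 v h).2).2, H4⟩
  have hε : ∀ e, eps G κ R e = 1 ∨ eps G κ R e = -1 := fun e => by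
    rw [eps]
    split_ifs <;> simp
  set g := org A (Yv G A κ) i o (z, ρ) with hg
  set x₀ : ℤ := if eps G κ R (z, ρ) = 1 then b₀ else 1 - b₀ with hx₀
  let val : (V × V → ℤ) → V → ℤ := fun x v =>
    if K G v then cs v + 2 * ∑ w ∈ N G v, bb A (be g (z, ρ) (eps G κ R) x₀ x) v w else τ'
  have hval : ∀ x v, val x v = val 0 v + 2 * ∑ s, cc G A z ρ κ R i o v s * x s := fun x v => by
    by_cases hv : K G v
    · simp only [val, if_pos hv]
      rw [sum_aff H1 g _ hε x₀ x hv, cc]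
      ring
    · simp [val, cc, co, hv]
  obtain ⟨x, h1, h2⟩ := avoid2 (Cj G A z ρ τ κ)
    (fun j s => 2 * (cc G A z ρ κ R i o j.2 s - cc G A z ρ κ R i o j.1 s))
    (fun j => val 0 j.2 - val 0 j.1) fun S hS => by convert H.hall S hS
  have h3 : ∀ j, Cj G A z ρ τ κ j → val x j.2 ≠ val x j.1 := fun j hj e => h2 j hj (by
    rw [hval x j.2, hval x j.1] at e
    simp only [mul_assoc, sub_mul, ← mul_sum, sum_sub_distrib]
    linarith)
  have h4 : x₀ = 0 ∨ x₀ = 1 := by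
    rw [hx₀]
    split_ifs <;> omega
  have h5 : ∀ e, be g (z, ρ) (eps G κ R) x₀ x e = 0 ∨ be g (z, ρ) (eps G κ R) x₀ x e = 1 :=
    fun e => by
      have := h1 (g e)
      rw [be]
      split_ifs <;> omega
  refine ⟨bb A (be g (z, ρ) (eps G κ R) x₀ x), fun u w => ?_, fun u w => ?_, ?_, fun v hv => ?_,
    fun u w huw => ?_, fun a b => ?_⟩
  · rw [bb, bb]
    split_ifs with a b
    · exact absurd b (H1.asym _ _ a)
    all_goals rfl
  · rw [bb]
    split_ifs
    exacts [h5 _, h5 _, Or.inl rfl]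
  · have : g (z, ρ) = (z, ρ) :=
      org_eq ⟨H1.root, fun c => H1.kz c.1.k⟩ ReflTransGen.refl
    rw [bb, if_pos H1.root, be, if_pos this, hx₀]
    split_ifs <;> omega
  · have a := (H.hi v hv).1
    have e : g (i v, v) = g (v, o v) := org_nxt hv
    have s := H.sign v hv
    have := h1 (g (v, o v))
    have := hε (v, o v)
    rw [bb, bb, if_neg (H1.asym _ _ a), if_pos a, if_pos (H.ho v hv).1, be, be, e]
    split_ifs <;> omega
  · rcases H1.real u w huw.1 with a | a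
    · have := h3 (u, w) (Or.inl ⟨a, huw⟩)
      simp only [val, if_pos huw.2.1, if_pos huw.2.2.1] at this
      exact this.symm
    · have := h3 (w, u) (Or.inl ⟨a, huw.1.symm, huw.2.2.1, huw.2.1, huw.2.2.2.symm⟩)
      simp only [val, if_pos huw.2.1, if_pos huw.2.2.1] at this
      exact this
  · have := h3 (z, ρ) (Or.inr ⟨rfl, a, b⟩)
    simp only [val, if_pos H1.kr, if_neg H1.kz] at this
    exact this

end

end Pool.Agent.MP_d1f1f3_co.H47
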