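import Pool.Agent.MP_d1f1f3_co.H47.Spec

/-!
The base case without leaves.
-/

namespace Pool.Agent.MP_d1f1f3_co.H47

open Finset Relation
open scoped Classical

namespace Asm0

variable {V : Type} [Fintype V] {G : SimpleGraph V}

theorem mem_N {v w : V} : w ∈ N G v ↔ G.Adj v w := by simp [N]

theorem one_le {v w : V} (h : G.Adj v w) : 1 ≤ dg G v := card_pos.2 ⟨w, mem_N.2 h⟩

theorem sum_out (D : V → V → Prop) : ∑ v, #(Out D v) = ∑ v, #(Inn D v) := by
  simp only [Out, Inn, card_filter]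
  exact sum_comm

theorem dg_eq {D : V → V → Prop} (h1 : ∀ u w, D u w → G.Adj u w)
    (h2 : ∀ u w, G.Adj u w → (D u w ↔ ¬D w u)) (v : V) : dg G v = #(Out D v) + #(Inn D v) := by
  have e1 : Out D v = (N G v).filter fun w => D v w := by
    ext w
    simp only [Out, mem_filter, mem_univ, true_and, mem_N]
    exact ⟨fun h => ⟨h1 _ _ h, h⟩, fun h => h.2⟩
  have e2 : Inn D v = (N G v).filter fun w => ¬D v w := by
    ext w
    simp only [Inn, mem_filter, mem_univ, true_and, mem_N]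
    exact ⟨fun h => ⟨(h1 _ _ h).symm, (h2 _ _ (h1 _ _ h)).1 h⟩, fun h => (h2 _ _ h.1.symm).2 h.2⟩
  rw [e1, e2, card_filter_add_card_filter_not, dg]

/-- Some vertex has many arcs going out. -/
theorem root {D : V → V → Prop} (h1 : ∀ u w, D u w → G.Adj u w)
    (h2 : ∀ u w, G.Adj u w → (D u w ↔ ¬D w u))
    (h3 : ∀ v, dg G v / 2 ≤ #(Out D v) ∧ #(Out D v) ≤ (dg G v + 1) / 2) (hl : ∀ v, dg G v ≠ 1)
    {r : V} (hr : K G r) : ∃ ρ, K G ρ ∧ #(Out D ρ) = (dg G ρ + 1) / 2 := by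
  by_contra hn
  have key : ∀ v, K G v → #(Out D v) < #(Inn D v) := fun v hv => by
    have a1 := h3 v
    have a2 := dg_eq h1 h2 v
    have a3 : #(Out D v) ≠ (dg G v + 1) / 2 := fun h => hn ⟨v, hv, h⟩
    omega
  refine (sum_lt_sum (fun v _ => ?_) ⟨r, mem_univ r, key r hr⟩).ne (sum_out D)
  by_cases hv : K G v
  · exact (key v hv).le
  · have a1 := h3 v
    have a2 := hl v
    unfold K at hv
    omega

theorem cert {z ρ ρ' : V} {τ : ZMod 2} {κ : V → ZMod 2} {Q Dn R : Finset V} {g : Option (V × V)}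
    (hz : ∀ w, ¬G.Adj z w) (h : Cert G z ρ τ κ Q Dn R g) : Cert G z ρ' τ κ Q Dn R g := by
  have e : tt G z ρ' τ κ = tt G z ρ τ κ := by
    funext v
    simp only [tt, hz, false_and, and_false]
  refine ⟨h.cardR, h.qr, ?_, ?_, ?_, ?_, ?_⟩ <;> rw [e]
  exacts [h.low, h.neg, h.don, h.ext, h.hall]

/-- The rooted digraph. -/
theorem ori {D : V → V → Prop} {h ρ : V} (hh : dg G h = 0) (h1 : ∀ u w, D u w → G.Adj u w)
    (h2 : ∀ u w, G.Adj u w → (D u w ↔ ¬D w u))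
    (h3 : ∀ v, dg G v / 2 ≤ #(Out D v) ∧ #(Out D v) ≤ (dg G v + 1) / 2)
    (h4 : ∀ (X : Finset V) u w, u ∈ X → w ∉ X → 1 ≤ dg G u → 1 ≤ dg G w →
      ∃ a b, a ∉ X ∧ b ∈ X ∧ D a b)
    (hρ : K G ρ) (hρ' : #(Out D ρ) = (dg G ρ + 1) / 2) :
    Ori G (fun u w => D u w ∨ (u = h ∧ w = ρ)) h ρ := by
  have hz : ∀ w, ¬G.Adj h w := fun w a => by have := one_le a; omega
  have kz : ¬K G h := by unfold K; omega
  have noin : ∀ w, ¬(D w h ∨ (w = h ∧ h = ρ)) := by
    rintro w (a | ⟨-, rfl⟩)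
    · exact hz w (h1 _ _ a).symm
    · exact kz hρ
  have eo : ∀ v, K G v → Out (fun u w => D u w ∨ (u = h ∧ w = ρ)) v = Out D v := fun v hv => by
    have : v ≠ h := fun e => kz (e ▸ hv)
    ext w
    simp [Out, this]
  refine ⟨Or.inr ⟨rfl, rfl⟩, noin, ?_, hρ, kz, ?_, ?_, ?_, ?_, ?_, ?_, ?_⟩
  · rintro w (a | a)
    · exact absurd (h1 _ _ a) (hz w)
    · exact a.2
  · rintro u w (a | ⟨rfl, rfl⟩)
    · rintro (b | ⟨rfl, rfl⟩)
      · exact (h2 _ _ (h1 _ _ a)).1 a b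
      · exact noin _ (Or.inl a)
    · exact noin _
  · intro u w a
    by_cases b : D w u
    · exact Or.inr (Or.inl b)
    · exact Or.inl (Or.inl ((h2 _ _ a).2 b))
  · rintro v w hv (a | ⟨rfl, -⟩)
    · exact h1 _ _ a
    · exact absurd hv kz
  · rintro v w - (a | a)
    · exact Or.inl (h1 _ _ a).symm
    · exact Or.inr a
  · intro v hv
    rw [eo v hv]
    exact h3 v
  · intro _
    rw [eo ρ hρ, hρ']
  · set A : V → V → Prop := fun u w => D u w ∨ (u = h ∧ w = ρ) with hA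
    have step : ∀ a v b, ReflTransGen (Tr A (St.free V)) (h, ρ) (a, v) → D v b →
        ReflTransGen (Tr A (St.free V)) (h, ρ) (v, b) := fun a v b r d =>
      r.tail ⟨Or.inl d, rfl, Or.inr ⟨rfl, fun f => f⟩⟩
    have all : ∀ v, 1 ≤ dg G v → ∃ a, ReflTransGen (Tr A (St.free V)) (h, ρ) (a, v) := by
      intro v hv
      by_contra hn
      obtain ⟨a, b, ha, hb, d⟩ := h4
        (univ.filter fun v => ¬∃ a, ReflTransGen (Tr A (St.free V)) (h, ρ) (a, v)) v ρ
        (mem_filter.2 ⟨mem_univ _, hn⟩) (fun m => (mem_filter.1 m).2 ⟨h, ReflTransGen.refl⟩) hv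
        (by unfold K at hρ; omega)
      have ha' : ∃ a', ReflTransGen (Tr A (St.free V)) (h, ρ) (a', a) := by
        by_contra hn'
        exact ha (mem_filter.2 ⟨mem_univ _, hn'⟩)
      obtain ⟨a', r⟩ := ha'
      exact (mem_filter.1 hb).2 ⟨a, step a' a b r d⟩
    rintro u w (d | ⟨rfl, rfl⟩)
    · obtain ⟨a, r⟩ := all u (one_le (h1 _ _ d))
      exact step a u w r d
    · exact ReflTransGen.refl

end Asm0

open Asm0

theorem asm0 : SAsm0 := by
  intro hKev hOri hCnt hOf hFr V _ G h hh hB hT hl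
  have hz : ∀ w, ¬G.Adj h w := fun w a => by have := one_le a; omega
  have kz : ¬K G h := by unfold K; omega
  have kd : ∀ v, 1 ≤ dg G v → K G v := fun v hv => by
    have := hl v
    unfold K
    omega
  have ka : ∀ u w, G.Adj u w → K G u := fun u w a => kd u (one_le a)
  by_cases hK : ∃ r, K G r
  swap
  · have ne : ∀ u w, ¬G.Adj u w := fun u w a => hK ⟨u, ka u w a⟩
    refine ⟨fun _ _ => 0, fun _ _ => rfl, fun u w a => absurd a (ne u w),
      fun u w a => absurd a (ne u w), fun u α => ?_⟩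
    have : N G u = ∅ := eq_empty_of_forall_notMem fun w m => ne u w (mem_N.1 m)
    simp [this]
  obtain ⟨r, hr⟩ := hK
  have ka' : ∀ u w, G.Adj u w → K G w ∨ (u = r ∧ w = h) := fun u w a => Or.inl (ka w u a.symm)
  rcases hCnt V G h r 0 ((0 : ℕ) : ZMod 2) hB hT hr kz ka' with ⟨c1, c2⟩ | ⟨κ, Q, Dn, R, g, s0, hc⟩
  · refine (hKev V G h r 1 0 hr kz c1 ka' c2 ?_ le_rfl (by norm_num)).imp fun c hc => hc.1
    have a1 : dg G r ≤ #(univ.filter (K G)) :=
      card_le_card fun w m => mem_filter.2 ⟨mem_univ _, ka w r (mem_N.1 m).symm⟩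
    have a2 := hB r
    unfold K at hr
    omega
  have ec : core G = G := by
    ext u w
    exact ⟨fun a => a.1, fun a => ⟨a, ka u w a, ka w u a.symm⟩⟩
  have h2 : Two G := fun X u w a b c d => by
    have := hT X u w a b (kd u c) (kd w d)
    rwa [ec] at this
  obtain ⟨u₀, w₀, e₀, hg⟩ : ∃ u₀ w₀, G.Adj u₀ w₀ ∧ ∀ u x, g = some (u, x) → u = u₀ ∧ x = w₀ := by
    rcases g with _ | ⟨u, x⟩
    · obtain ⟨w, m⟩ : (N G r).Nonempty := card_pos.1 (lt_of_lt_of_le two_pos hr)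
      exact ⟨r, w, mem_N.1 m, fun _ _ e => nomatch e⟩
    · refine ⟨u, x, (hc.ext u x rfl).1, fun u' x' e => ?_⟩
      cases e
      exact ⟨rfl, rfl⟩
  obtain ⟨D, d1, d2, d3, d4, d5, -, d7⟩ := hOri V G (Hs G κ)
    (fun w => Q.filter fun x => G.Adj w x ∧ κ w ≠ κ x) (fun _ => none) u₀ w₀ h2
    (fun v => ⟨fun x m => mem_filter.2 ⟨mem_N.2 (mem_filter.1 m).2.1,
      fun f => (mem_filter.1 m).2.2 f.2.2.2⟩, filter_subset _ _⟩) (fun _ _ _ e => nomatch e) e₀
  obtain ⟨ρ, hρ, hρ'⟩ := root d1 d2 d4 hl hr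
  have ho := Asm0.ori hh d1 d2 d4 d5 hρ hρ'
  obtain ⟨P, hP⟩ := hOf V G _ h ρ _ κ Q Dn R g hB ho (cert hz hc)
    (fun v _ => (d7 v fun _ _ e => nomatch e).1.trans (card_le_card fun x m => by
      simp only [mem_filter] at m ⊢
      exact ⟨m.1, Or.inl m.2⟩))
    (fun w m => by
      have a1 := (hc.don w m).2.2
      obtain ⟨x, m', d⟩ := (d7 w fun _ _ e => nomatch e).2 (by
        rw [if_pos rfl]
        refine le_trans ?_ a1
        split_ifs <;> norm_num)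
      exact ⟨x, (mem_filter.1 m').1, Or.inl d, (mem_filter.1 m').2.2⟩)
    (fun u x e => by
      obtain ⟨rfl, rfl⟩ := hg u x e
      exact Or.inl d3)
  exact (hFr V G _ h ρ 2 0 κ P R one_le_two (by norm_num) (fun u w a => Or.inl (ka u w a)) ho
    (Or.inr (by rw [if_neg (hz ρ), s0])) hP).imp fun c hc => hc.1

end Pool.Agent.MP_d1f1f3_co.H47
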