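import Pool.Agent.MP_d1f1f3_co.H47.Spec

/-!
From the parity classes and the levels to the colouring.
-/

namespace Pool.Agent.MP_d1f1f3_co.H47

open Finset Relation
open scoped Classical

namespace Frame

variable {V : Type} [Fintype V]

theorem mem_N {G : SimpleGraph V} {v w : V} : w ∈ N G v ↔ G.Adj v w := by simp [N]

theorem not_T {G : SimpleGraph V} {A : V → V → Prop} {z ρ : V} (hO : Ori G A z ρ)
    {κ : V → ZMod 2} (v : V) (hW : Wv G κ v) : ¬Tv G A v := by
  rintro ⟨hK, hT⟩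
  obtain ⟨-, ⟨r, hr⟩, -⟩ := hW
  have h1 := (hO.smooth v hK).2
  have h2 : N G v ⊆ Inn A v ∪ Out A v := fun w hw => by
    simpa [Inn, Out, or_comm] using hO.real v w (mem_N.1 hw)
  have h3 := (card_le_card h2).trans (card_union_le _ _)
  change dg G v ≤ _ at h3
  omega

/-- The colour with parity `a` and level `b`. -/
def col (a : ZMod 2) (b : ℤ) : ℕ := (if a = 1 then 1 else 2) + 2 * b.toNat

theorem col_cast (a : ZMod 2) (b : ℤ) : (col a b : ZMod 2) = a := by
  have h : (2 : ZMod 2) = 0 := rfl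
  unfold col
  push_cast
  rw [h, zero_mul, add_zero]
  revert a
  decide

theorem col_int (a : ZMod 2) {b : ℤ} (hb : b = 0 ∨ b = 1) :
    (col a b : ℤ) = (if a = 1 then 1 else 2) + 2 * b := by
  unfold col
  rcases hb with rfl | rfl <;> split_ifs <;> rfl

theorem col_range (a : ZMod 2) {b : ℤ} (hb : b = 0 ∨ b = 1) : 1 ≤ col a b ∧ col a b ≤ 4 := by
  have := col_int a hb
  split_ifs at this <;> omega

theorem col_root {γ : ℕ} (h1 : 1 ≤ γ) (h4 : γ ≤ 4) : col (γ : ZMod 2) ((γ - 1) / 2 : ℕ) = γ := by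
  interval_cases γ <;> decide

theorem leaf {G : SimpleGraph V} {c : V → V → ℕ} (hs : ∀ u w, c u w = c w u)
    (h1 : ∀ u w, 1 ≤ c u w) {u w : V} (h : G.Adj u w) (hu : ¬K G u) (hw : K G w) :
    sg G c u < sg G c w := by
  have e : N G u = {w} := by
    refine (eq_of_subset_of_card_le (singleton_subset_iff.2 (mem_N.2 h)) ?_).symm
    unfold K dg at hu
    rw [card_singleton]
    omega
  obtain ⟨x, hx, hxu⟩ := exists_mem_ne (s := N G w) hw u
  have h2 : ({u, x} : Finset V) ⊆ N G w :=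
    insert_subset (mem_N.2 h.symm) (singleton_subset_iff.2 hx)
  have h3 := sum_le_sum_of_subset (f := c w) h2
  rw [sum_pair hxu.symm] at h3
  have h4 := h1 w x
  unfold sg
  rw [e, sum_singleton, hs u w]
  omega

end Frame

open _root_.Pool.Agent.MP_d1f1f3_co.H47.Frame in
theorem frame (h1 : SExc) (h2 : SAlev) (h3 : SBlev) : SFrame := by
  intro V _ G A z ρ γ τ κ P R hγ1 hγ4 hK hO hP hC
  have hY : ∀ v, Wv G κ v ∨ Tv G A v → K G v := fun v h => h.elim (·.1) (·.1)
  obtain ⟨i, o, hio, hrt, hnr⟩ := h1 V A (z, ρ) (Wv G κ) (Tv G A) (Iv G A κ z P R) (Ov G A κ P R)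
    (fun v h => hO.asym v v h h) hO.root hO.noin hO.rt (not_T hO) fun v h =>
      ⟨fun x hx => mem_filter.2 ⟨mem_univ _, (mem_filter.1 hx).2.1⟩,
        fun x hx => mem_filter.2 ⟨mem_univ _, (mem_filter.1 hx).2.1⟩, hC.ins v h,
        (hC.outs v (hY v h)).2.1 h⟩
  have hio' : ∀ v, Wv G κ v ∨ Tv G A v → A (i v) v ∧ G.Adj v (i v) ∧ A v (o v) := fun v h =>
    ⟨(mem_filter.1 (hio v h).1).2.1, (mem_filter.1 (hio v h).1).2.2.1,
      (mem_filter.1 (hio v h).2).2.1⟩
  obtain ⟨a, as, aρ, ha⟩ := h2 V G A z ρ κ γ i o hO hP hio' hrt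
  obtain ⟨b, bs, b01, bρ, bio, bF, bτ⟩ := h3 V G A z ρ τ κ P R i o
    (fun v => ∑ w ∈ N G v, if a v w = 1 then 1 else 2) τ ((γ - 1) / 2 : ℕ) hO hC hio hnr
    (by omega)
  set c : V → V → ℕ := fun u w => col (a u w) (b u w) with hc
  have cs : ∀ u w, c u w = c w u := fun u w => by simp only [hc, as u w, bs u w]
  have cr : ∀ u w, 1 ≤ c u w ∧ c u w ≤ 4 := fun u w => col_range _ (b01 u w)
  have sI : ∀ v, (sg G c v : ℤ) =
      (∑ w ∈ N G v, if a v w = 1 then 1 else 2) + 2 * ∑ w ∈ N G v, b v w := fun v => by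
    rw [sg, Nat.cast_sum, mul_sum, ← sum_add_distrib]
    exact sum_congr rfl fun w _ => col_int _ (b01 v w)
  have sP : ∀ v, K G v → (sg G c v : ZMod 2) = κ v := fun v hv => by
    rw [sg, Nat.cast_sum, ← (ha v hv).1]
    exact sum_congr rfl fun w _ => col_cast _ _
  refine ⟨c, ⟨cs, fun u w _ => cr u w, fun u w h e => ?_, fun u α => ?_⟩, fun h => ⟨?_, fun e => ?_⟩⟩
  · by_cases hu : K G u
    · by_cases hw : K G w
      · refine bF u w ⟨h, hu, hw, by rw [← sP u hu, ← sP w hw, e]⟩ ?_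
        rw [← sI, ← sI, e]
      · exact (leaf cs (fun u w => (cr u w).1) h.symm hw hu).ne' e
    · exact (leaf cs (fun u w => (cr u w).1) h hu ((hK u w h).resolve_left hu)).ne e
  · by_cases hu : K G u
    · have hs : ((N G u).filter fun w => c u w = α) ⊆ (N G u).filter fun w => a u w = α :=
        fun w hw => mem_filter.2 ⟨(mem_filter.1 hw).1, by
          rw [← (mem_filter.1 hw).2]
          exact (col_cast _ _).symm⟩
      rcases (ha u hu).2 α with h | ⟨hy, e1, e2, h⟩
      · exact (card_le_card hs).trans h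
      · refine Nat.le_of_lt_succ ((card_lt_card ⟨hs, fun h' => ?_⟩).trans_le h)
        have f1 := (mem_filter.1 (h' (mem_filter.2 ⟨mem_N.2 (hio' u hy).2.1, e1⟩))).2
        have f2 := (mem_filter.1 (h' (mem_filter.2
          ⟨mem_N.2 (hO.outK u _ hu (hio' u hy).2.2), e2⟩))).2
        have g1 := col_int (a u (i u)) (b01 u (i u))
        have g2 := col_int (a u (o u)) (b01 u (o u))
        simp only [hc] at f1 f2
        rw [f1, e1] at g1
        rw [f2, e2] at g2
        have := bio u hy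
        omega
    · have := card_filter_le (N G u) fun w => c u w = α
      unfold K at hu
      unfold dg at hu ⊢
      omega
  · simp only [hc, aρ h, bρ]
    exact col_root hγ1 hγ4
  · refine bτ h (by rw [← sP ρ hO.kr, e]) ?_
    rw [← sI, e]

end Pool.Agent.MP_d1f1f3_co.H47
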