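import Pool.Agent.MP_d1f1f3_co.H47.Spec

/-! The base case with exactly one leaf. -/

namespace Pool.Agent.MP_d1f1f3_co.H47

open Finset Relation
open scoped Classical

namespace AsmL

variable {V : Type} [Fintype V]

theorem mem_N {G : SimpleGraph V} {v w : V} : w ∈ N G v ↔ G.Adj v w := by simp [N]

theorem mem_Out {A : V → V → Prop} {v w : V} : w ∈ Out A v ↔ A v w := by simp [Out]

theorem dg_pos {G : SimpleGraph V} {v w : V} (h : G.Adj v w) : 1 ≤ dg G v :=
  card_pos.2 ⟨w, mem_N.2 h⟩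

theorem dg_eq (G : SimpleGraph V) (v : V) : dg G v = G.degree v := by
  rw [dg, ← SimpleGraph.card_neighborFinset_eq_degree]
  congr 1
  ext w
  simp [N]

theorem cut_eq (G : SimpleGraph V) (X : Finset V) :
    cut G X = #(X.sigma fun v => (N G v).filter fun w => w ∉ X) := by
  rw [card_sigma, cut]

theorem two_le_cut {G : SimpleGraph V} {X : Finset V} {a b a' b' : V} (h1 : a ∈ X) (h2 : b ∉ X)
    (h3 : G.Adj a b) (h4 : a' ∈ X) (h5 : b' ∉ X) (h6 : G.Adj a' b') (h7 : a ≠ a' ∨ b ≠ b') :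
    2 ≤ cut G X := by
  rw [cut_eq]
  refine one_lt_card.2 ⟨⟨a, b⟩, by simp [mem_N, *], ⟨a', b'⟩, by simp [mem_N, *], fun h => ?_⟩
  simp only [Sigma.mk.injEq, heq_eq_eq] at h
  tauto

theorem cut_mono {G G' : SimpleGraph V} (h : ∀ a b, G.Adj a b → G'.Adj a b) (X : Finset V) :
    cut G X ≤ cut G' X :=
  sum_le_sum fun _ _ =>
    card_le_card (filter_subset_filter _ fun _ hw => mem_N.2 (h _ _ (mem_N.1 hw)))

/-- The graph with the path `z h y` added. -/
def ext (G : SimpleGraph V) (h z y : V) : SimpleGraph V where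
  Adj a b := G.Adj a b ∨ (a ≠ b ∧ ((a = h ∧ (b = z ∨ b = y)) ∨ (b = h ∧ (a = z ∨ a = y))))
  symm := ⟨fun _ _ h => h.imp (fun h => h.symm) fun h => ⟨h.1.symm, h.2.symm⟩⟩
  loopless := ⟨fun _ h => h.elim (fun h => h.ne rfl) fun h => h.1 rfl⟩

theorem seq {G : SimpleGraph V} (hT : TwoK G) {z ρ u x : V} (hz : ¬K G z) (hzρ : G.Adj z ρ)
    (hρ : K G ρ) (hu : K G u) (hx : K G x) (hux : G.Adj u x) :
    ∃ (n : ℕ) (f : ℕ → V), f 0 = z ∧ f 1 = ρ ∧ f (n + 1) = u ∧ f (n + 2) = x ∧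
      (∀ j ≤ n + 1, G.Adj (f j) (f (j + 1))) ∧ (∀ j ≤ n, f j ≠ f (j + 2)) ∧
      ∀ i ≤ n, ∀ j ≤ n, f (i + 1) = f (j + 1) → i = j := by
  let G' : SimpleGraph V := (core G).deleteEdges {s(u, x)}
  have hr : G'.Reachable ρ u := by
    by_contra hr
    have h2 := hT (univ.filter fun v => G'.Reachable ρ v) ρ u (by simp) (by simpa using hr) hρ hu
    rw [cut_eq] at h2
    have key : ∀ e ∈ (univ.filter fun v => G'.Reachable ρ v).sigma fun v =>
        (N (core G) v).filter fun w => w ∉ univ.filter fun v => G'.Reachable ρ v,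
        e = ⟨x, u⟩ := by
      rintro ⟨a, b⟩ he
      simp only [mem_sigma, mem_filter, mem_univ, true_and, mem_N] at he
      have h3 : s(a, b) = s(u, x) := by
        by_contra h3
        exact he.2.2 (he.1.trans (SimpleGraph.Adj.reachable (by simpa [G', h3] using he.2.1)))
      rcases Sym2.eq_iff.1 h3 with ⟨rfl, rfl⟩ | ⟨rfl, rfl⟩
      · exact absurd he.1 hr
      · rfl
    obtain ⟨a, ha, b, hb, hab⟩ := one_lt_card.1 h2
    exact hab ((key a ha).trans (key b hb).symm)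
  obtain ⟨p, hp⟩ := hr.exists_isPath
  have hadj : ∀ j < p.length, G.Adj (p.getVert j) (p.getVert (j + 1)) ∧ K G (p.getVert (j + 1)) ∧
      s(p.getVert j, p.getVert (j + 1)) ≠ s(u, x) := fun j hj => by
    have := p.adj_getVert_succ hj
    simp only [G', SimpleGraph.deleteEdges_adj, Set.mem_singleton_iff] at this
    exact ⟨this.1.1, this.1.2.2, this.2⟩
  have hinj : ∀ i ≤ p.length, ∀ j ≤ p.length, p.getVert i = p.getVert j → i = j :=
    fun i hi j hj h => hp.getVert_injOn hi hj h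
  let f : ℕ → V := fun j => if j = 0 then z else if j ≤ p.length + 1 then p.getVert (j - 1) else x
  have f1 : ∀ j ≤ p.length, f (j + 1) = p.getVert j := fun j hj => by simp [f, hj]
  have f2 : f (p.length + 2) = x := by simp [f]
  refine ⟨p.length, f, rfl, by simp [f1 0], by simp [f1], f2, fun j hj => ?_, fun j hj => ?_,
    fun i hi j hj h => hinj i hi j hj (by rwa [f1 i hi, f1 j hj] at h)⟩
  · rcases j with _ | j
    · simpa [f1 0, f] using hzρ
    rcases (Nat.le_of_succ_le_succ hj).lt_or_eq with h | rfl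
    · rw [f1 j h.le, f1 (j + 1) h]
      exact (hadj j h).1
    · rw [f2, f1 _ le_rfl, p.getVert_length]
      exact hux
  · rcases hj.lt_or_eq with h | rfl
    · rw [f1 (j + 1) h]
      rcases j with _ | j
      · exact fun h1 : z = _ => hz (h1 ▸ (hadj 0 h).2.1)
      · rw [f1 j (by omega)]
        exact fun h1 => absurd (hinj _ (by omega) _ h h1) (by omega)
    · rw [f2]
      rcases h1 : p.length with _ | j
      · exact fun h2 : z = x => hz (h2 ▸ hx)
      · rw [f1 j (by omega)]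
        intro h2
        refine (hadj j (by omega)).2.2 ?_
        rw [h2, ← h1, p.getVert_length, Sym2.eq_swap]

theorem links {G : SimpleGraph V} (hT : TwoK G) {z ρ : V} (hz : ¬K G z) (hzρ : G.Adj z ρ)
    (hρ : K G ρ) (g : Option (V × V))
    (hg : ∀ u x, g = some (u, x) → G.Adj u x ∧ K G u ∧ K G x) :
    ∃ l : V → Option (V × V), (g = none → ∀ v, l v = none) ∧
      (∀ v a b, l v = some (a, b) → a ≠ b ∧ G.Adj v a ∧ G.Adj v b) ∧
      ∀ D : V → V → Prop, (∀ a b, G.Adj a b → (D a b ↔ ¬D b a)) →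
        (∀ v a b, l v = some (a, b) → (D v a ↔ ¬D v b)) → D z ρ →
        (∀ v a b, l v = some (a, b) → D v b) ∧ ∀ u x, g = some (u, x) → D u x := by
  rcases g with _ | ⟨u, x⟩
  · exact ⟨fun _ => none, by simp, by simp, by simp⟩
  obtain ⟨h1, h2, h3⟩ := hg u x rfl
  obtain ⟨n, f, f0, f1, fu, fx, fa, fn, fi⟩ := seq hT hz hzρ hρ h2 h3 h1
  let l : V → Option (V × V) := fun v =>
    if h : ∃ j ≤ n, f (j + 1) = v then some (f h.choose, f (h.choose + 2)) else none
  have l1 : ∀ j ≤ n, l (f (j + 1)) = some (f j, f (j + 2)) := fun j hj => by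
    have h : ∃ i ≤ n, f (i + 1) = f (j + 1) := ⟨j, hj, rfl⟩
    simp only [l, dif_pos h, fi _ h.choose_spec.1 j hj h.choose_spec.2]
  have l2 : ∀ v a b, l v = some (a, b) → ∃ j ≤ n, v = f (j + 1) ∧ a = f j ∧ b = f (j + 2) := by
    intro v a b h
    by_cases h4 : ∃ j ≤ n, f (j + 1) = v
    · obtain ⟨j, hj, rfl⟩ := h4
      rw [l1 j hj] at h
      simp only [Option.some.injEq, Prod.mk.injEq] at h
      exact ⟨j, hj, rfl, h.1.symm, h.2.symm⟩
    · simp [l, dif_neg h4] at h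
  refine ⟨l, by simp, fun v a b h => ?_, fun D d1 d2 d3 => ?_⟩
  · obtain ⟨j, hj, rfl, rfl, rfl⟩ := l2 v a b h
    exact ⟨fn j hj, (fa j (by omega)).symm, fa (j + 1) (by omega)⟩
  have key : ∀ j ≤ n + 1, D (f j) (f (j + 1)) := by
    intro j
    induction j with
    | zero => intro _; rwa [f0, f1]
    | succ j ih =>
      intro hj
      have h4 := (d1 _ _ (fa j (by omega))).1 (ih (by omega))
      exact by_contra fun h5 => h4 ((d2 _ _ _ (l1 j (by omega))).2 h5)
  refine ⟨fun v a b h => ?_, fun u' x' h => ?_⟩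
  · obtain ⟨j, hj, rfl, rfl, rfl⟩ := l2 v a b h
    exact key (j + 1) (by omega)
  · simp only [Option.some.injEq, Prod.mk.injEq] at h
    rw [← h.1, ← h.2, ← fu, ← fx]
    exact key (n + 1) le_rfl

theorem two_ext {G : SimpleGraph V} (hT : TwoK G) {h z ρ y : V} (hh : ¬K G h) (hz : ¬K G z)
    (hhz : h ≠ z) (hzρ : G.Adj z ρ) (hρ : K G ρ) (hy : K G y)
    (hl : ∀ a b, G.Adj a b → K G a ∨ a = z) : Two (ext G h z y) := by
  intro X u w hu hw du dw
  have pos : ∀ v, 1 ≤ dg (ext G h z y) v → K G v ∨ v = z ∨ v = h := fun v hv => by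
    obtain ⟨b, hb⟩ := card_pos.1 hv
    rcases mem_N.1 hb with h1 | ⟨-, h1 | ⟨-, h1 | h1⟩⟩
    · exact (hl _ _ h1).imp_right Or.inl
    · exact Or.inr (Or.inr h1.1)
    · exact Or.inr (Or.inl h1)
    · exact Or.inl (h1 ▸ hy)
  have hρh : ρ ≠ h := fun e => hh (e ▸ hρ)
  have hyh : y ≠ h := fun e => hh (e ▸ hy)
  have hyz : y ≠ z := fun e => hz (e ▸ hy)
  have e1 : (ext G h z y).Adj z ρ := Or.inl hzρ
  have e2 : (ext G h z y).Adj h z := Or.inr ⟨hhz, Or.inl ⟨rfl, Or.inl rfl⟩⟩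
  have e3 : (ext G h z y).Adj h y := Or.inr ⟨hyh.symm, Or.inl ⟨rfl, Or.inr rfl⟩⟩
  by_cases h1 : ∃ a ∈ X, K G a
  · obtain ⟨a, ha, ka⟩ := h1
    by_cases h2 : ∃ b ∉ X, K G b
    · obtain ⟨b, hb, kb⟩ := h2
      exact (hT X a b ha hb ka kb).trans (cut_mono (G := core G) (fun _ _ h => Or.inl h.1) X)
    have h3 : ∀ b, K G b → b ∈ X := fun b kb => by_contra fun hb => h2 ⟨b, hb, kb⟩
    by_cases c1 : z ∈ X
    · have c2 : h ∉ X := by
        rcases pos w dw with h4 | rfl | rfl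
        · exact absurd (h3 w h4) hw
        · exact absurd c1 hw
        · exact hw
      exact two_le_cut c1 c2 e2.symm (h3 y hy) c2 e3.symm (Or.inl hyz.symm)
    by_cases c2 : h ∈ X
    · exact two_le_cut (h3 ρ hρ) c1 e1.symm c2 c1 e2 (Or.inl hρh)
    · exact two_le_cut (h3 ρ hρ) c1 e1.symm (h3 y hy) c2 e3.symm (Or.inr hhz.symm)
  have h3 : ∀ b, K G b → b ∉ X := fun b kb hb => h1 ⟨b, hb, kb⟩
  by_cases c1 : z ∈ X
  · by_cases c2 : h ∈ X
    · exact two_le_cut c1 (h3 ρ hρ) e1 c2 (h3 y hy) e3 (Or.inl hhz.symm)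
    · exact two_le_cut c1 (h3 ρ hρ) e1 c1 c2 e2.symm (Or.inr hρh)
  · have c2 : h ∈ X := by
      rcases pos u du with h4 | rfl | rfl
      · exact absurd hu (h3 u h4)
      · exact absurd hu c1
      · exact hu
    exact two_le_cut c2 c1 e2 c2 (h3 y hy) e3 (Or.inr hyz.symm)

theorem out_two {G : SimpleGraph V} {D : V → V → Prop} {v a b : V} (hN : N G v = {a, b})
    (hab : a ≠ b) (h : #(Out D v) ≤ (dg G v + 1) / 2) (ha : D v a) : ¬D v b := fun hb => by
  rw [dg, hN, card_pair hab] at h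
  exact absurd (one_lt_card.2 ⟨a, mem_Out.2 ha, b, mem_Out.2 hb, hab⟩) (by omega)

theorem ori {G : SimpleGraph V} {h z ρ y : V} (hh : dg G h = 0) (hN : N G z = {ρ}) (hρ : K G ρ)
    (hy : K G y) (hodd : Odd (dg G y)) (hl : ∀ a b, G.Adj a b → K G a ∨ a = z)
    {D : V → V → Prop} (d1 : ∀ u w, D u w → (ext G h z y).Adj u w)
    (d2 : ∀ u w, (ext G h z y).Adj u w → (D u w ↔ ¬D w u)) (d3 : D z ρ)
    (d4 : ∀ v, dg (ext G h z y) v / 2 ≤ #(Out D v) ∧ #(Out D v) ≤ (dg (ext G h z y) v + 1) / 2)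
    (d5 : ∀ (X : Finset V) u w, u ∈ X → w ∉ X → 1 ≤ dg (ext G h z y) u → 1 ≤ dg (ext G h z y) w →
      ∃ a b, a ∉ X ∧ b ∈ X ∧ D a b) : Ori G (fun a b => D a b ∧ G.Adj a b) z ρ := by
  have nz : ∀ w, G.Adj z w ↔ w = ρ := fun w => by rw [← mem_N, hN, mem_singleton]
  have hzρ : G.Adj z ρ := (nz ρ).2 rfl
  have hz : ¬K G z := by simp [K, dg, hN]
  have nh : ∀ w, ¬G.Adj h w := fun w hw => by have := dg_pos hw; omega
  have kh : ¬K G h := by simp [K, hh]
  have hhz : h ≠ z := fun e => nh ρ (e ▸ hzρ)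
  have hρh : ρ ≠ h := fun e => kh (e ▸ hρ)
  have hyh : y ≠ h := fun e => kh (e ▸ hy)
  have hyz : y ≠ z := fun e => hz (e ▸ hy)
  have n1 : N (ext G h z y) z = {ρ, h} := by
    ext w
    simp only [mem_N, ext, nz, mem_insert, mem_singleton]
    grind
  have n2 : N (ext G h z y) h = {z, y} := by
    ext w
    simp only [mem_N, ext, nh, mem_insert, mem_singleton]
    grind
  have e2 : (ext G h z y).Adj h z := mem_N.1 (by simp [n2])
  have e3 : (ext G h z y).Adj h y := mem_N.1 (by simp [n2])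
  have dhz : D h z := (d2 _ _ e2).2 (out_two n1 hρh (d4 z).2 d3)
  have dhy : ¬D h y := out_two n2 hyz.symm (d4 h).2 dhz
  have dyh : D y h := (d2 _ _ e3.symm).2 dhy
  have real : ∀ a b, D a b → a ≠ h → b ≠ h → G.Adj a b := fun a b h1 h2 h3 =>
    (d1 a b h1).resolve_right fun h4 => h4.2.elim (fun h5 => h2 h5.1) fun h5 => h3 h5.1
  refine ⟨⟨d3, hzρ⟩, fun w hw => ?_, fun w hw => (nz w).1 hw.2, hρ, hz,
    fun u w h1 h2 => (d2 _ _ (d1 _ _ h1.1)).1 h1.1 h2.1, fun u w h1 => ?_, fun v w _ h1 => h1.2,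
    fun v w _ h1 => Or.inl h1.2.symm, fun v hv => ?_, fun h1 => absurd hzρ h1, ?_⟩
  · obtain rfl := (nz w).1 hw.2.symm
    exact (d2 _ _ (d1 _ _ d3)).1 d3 hw.1
  · by_cases h2 : D w u
    · exact Or.inr ⟨h2, h1.symm⟩
    · exact Or.inl ⟨(d2 _ _ (Or.inl h1)).2 h2, h1⟩
  · have hvh : v ≠ h := fun e => kh (e ▸ hv)
    have hvz : v ≠ z := fun e => hz (e ▸ hv)
    have h1 := d4 v
    by_cases hvy : v = y
    · subst hvy
      have h2 : N (ext G h z v) v = insert h (N G v) := by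
        ext w
        simp only [mem_N, ext, mem_insert]
        grind
      have h3 : Out D v = insert h (Out (fun a b => D a b ∧ G.Adj a b) v) := by
        ext w
        simp only [mem_Out, mem_insert]
        refine ⟨fun h4 => or_iff_not_imp_left.2 fun h5 => ⟨h4, real _ _ h4 hvh h5⟩, ?_⟩
        rintro (rfl | h4)
        · exact dyh
        · exact h4.1
      rw [dg, h2, h3, card_insert_of_notMem (fun h4 => nh v (mem_N.1 h4).symm),
        card_insert_of_notMem (fun h4 => nh v (mem_Out.1 h4).2.symm), ← dg] at h1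
      obtain ⟨k, hk⟩ := hodd
      omega
    · have h2 : N (ext G h z y) v = N G v := by
        ext w
        simp only [mem_N, ext]
        grind
      have h3 : Out D v = Out (fun a b => D a b ∧ G.Adj a b) v := by
        ext w
        simp only [mem_Out]
        exact ⟨fun h4 => ⟨h4, mem_N.1 (h2 ▸ mem_N.2 (d1 _ _ h4))⟩, fun h4 => h4.1⟩
      rwa [dg, h2, h3, ← dg] at h1
  · have step : ∀ a b c, ReflTransGen (Tr (fun a b => D a b ∧ G.Adj a b) (St.free V)) (z, ρ) (a, b) →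
        D b c ∧ G.Adj b c →
        ReflTransGen (Tr (fun a b => D a b ∧ G.Adj a b) (St.free V)) (z, ρ) (b, c) :=
      fun a b c h1 h2 => h1.tail ⟨h2, rfl, Or.inr ⟨rfl, not_false⟩⟩
    have key : ∀ v, K G v → ∃ a,
        ReflTransGen (Tr (fun a b => D a b ∧ G.Adj a b) (St.free V)) (z, ρ) (a, v) := by
      intro v hv
      by_contra h1
      obtain ⟨b, hb⟩ : (N G v).Nonempty := card_pos.1 (lt_of_lt_of_le two_pos hv)
      obtain ⟨a, b, ha, hb, hd⟩ := d5 (univ.filter fun v => (¬∃ a, ReflTransGen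
        (Tr (fun a b => D a b ∧ G.Adj a b) (St.free V)) (z, ρ) (a, v)) ∧ v ≠ z ∧ v ≠ h) v z
        (mem_filter.2 ⟨mem_univ _, h1, fun e => hz (e ▸ hv), fun e => kh (e ▸ hv)⟩) (by simp)
        (dg_pos (Or.inl (mem_N.1 hb))) (dg_pos e2.symm)
      simp only [mem_filter, mem_univ, true_and] at ha hb
      by_cases c1 : a = h
      · subst c1
        have := mem_N.2 (d1 _ _ hd)
        rw [n2, mem_insert, mem_singleton] at this
        exact this.elim hb.2.1 fun e => dhy (e ▸ hd)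
      have h2 := real a b hd c1 hb.2.2
      by_cases c2 : a = z
      · subst c2
        exact hb.1 ⟨a, (nz b).1 h2 ▸ ReflTransGen.refl⟩
      obtain ⟨c, hc⟩ : ∃ c, ReflTransGen (Tr (fun a b => D a b ∧ G.Adj a b) (St.free V))
        (z, ρ) (c, a) := by_contra fun h3 => ha ⟨h3, c2, c1⟩
      exact hb.1 ⟨a, step _ _ _ hc ⟨hd, h2⟩⟩
    intro u w h1
    rcases hl u w h1.2 with h2 | rfl
    · obtain ⟨a, ha⟩ := key u h2
      exact step _ _ _ ha h1
    · rw [(nz w).1 h1.2]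

end AsmL

open AsmL

theorem asmL : SAsmL := by
  intro hKev hOri hCnt hOf hFr V _ G h z ρ γ τ hh hB hT hN hρ h1 h4 hone
  have nz : ∀ w, G.Adj z w ↔ w = ρ := fun w => by rw [← mem_N, hN, mem_singleton]
  have hzρ : G.Adj z ρ := (nz ρ).2 rfl
  have dz : dg G z = 1 := by simp [dg, hN]
  have hz : ¬K G z := by simp [K, dz]
  have hl : ∀ a b, G.Adj a b → K G a ∨ a = z := fun a b hab =>
    or_iff_not_imp_left.2 fun h2 => hone a (by have := dg_pos hab; unfold K at h2; omega)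
  have hleaf : ∀ u w, G.Adj u w → K G w ∨ (u = ρ ∧ w = z) := fun u w huw =>
    (hl w u huw.symm).imp_right fun e : w = z => ⟨(nz u).1 (e ▸ huw.symm), e⟩
  rcases hCnt V G z ρ γ τ hB hT hρ hz hleaf with ⟨c1, c2⟩ | ⟨κ, Q, Dn, R, g, hs, hC⟩
  · refine hKev V G z ρ γ τ hρ hz c1 hleaf c2 ?_ h1 h4
    have h2 : N G ρ ⊆ insert z (univ.filter (K G)) := fun w hw => by
      rcases hl w ρ (mem_N.1 hw).symm with h3 | h3 <;> simp [h3]
    have h3 := (card_le_card h2).trans (card_insert_le _ _)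
    have h5 := hB ρ
    unfold K at hρ
    unfold dg at h5 hρ
    omega
  obtain ⟨y, hyz, hodd⟩ := G.exists_ne_odd_degree_of_exists_odd_degree z (by simp [← dg_eq, dz])
  rw [← dg_eq] at hodd
  have hy : K G y := by
    have := mt (hone y) hyz
    obtain ⟨k, hk⟩ := hodd
    unfold K
    omega
  have kh : ¬K G h := by simp [K, hh]
  have hhz : h ≠ z := fun e => by rw [e] at hh; omega
  obtain ⟨l, l0, l1, l2⟩ := links hT hz hzρ hρ g fun u x e =>
    ⟨(hC.ext u x e).1, (hC.ext u x e).2.1, (hC.ext u x e).2.2.1⟩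
  obtain ⟨D, d1, d2, d3, d4, d5, d6, d7⟩ := hOri V (ext G h z y)
    (fun v => if K G v then Hs G κ v else ∅)
    (fun v => if v ∈ Dn then Q.filter fun x => G.Adj v x ∧ κ v ≠ κ x else ∅) l z ρ
    (two_ext hT kh hz hhz hzρ hρ hy hl) (fun v => ⟨fun x hx => by
      split_ifs at hx with h2
      · rw [if_pos (hC.don v h2).1]
        have h3 := (mem_filter.1 hx).2
        exact mem_filter.2 ⟨mem_N.2 h3.1, fun h5 => h3.2 h5.2.2.2⟩
      · simp at hx, fun x hx => by
      split_ifs at hx with h2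
      · exact mem_N.2 (Or.inl (mem_N.1 (mem_filter.1 hx).1))
      · simp at hx⟩)
    (fun v a b e => ⟨(l1 v a b e).1, Or.inl (l1 v a b e).2.1, Or.inl (l1 v a b e).2.2⟩)
    (Or.inl hzρ)
  obtain ⟨l3, l4⟩ := l2 D (fun a b e => d2 a b (Or.inl e)) d6 d3
  have hO := ori hh hN hρ hy hodd hl d1 d2 d3 d4 d5
  obtain ⟨P, hP⟩ := hOf V G _ z ρ τ κ Q Dn R g hB hO hC (fun v hv => by
      have h2 := (d7 v (l3 v)).1
      rw [if_pos hv] at h2
      refine h2.trans (card_le_card fun w hw => ?_)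
      simp only [mem_filter, Hs, mem_N] at hw ⊢
      exact ⟨hw.1, hw.2, hw.1.1⟩)
    (fun w hw => by
      have h2 := (d7 w (l3 w)).2
      rw [if_pos hw] at h2
      obtain ⟨x, hx, h3⟩ := h2 (le_trans (by
        by_cases h3 : g = none
        · simp [h3, l0 h3 w]
        · rw [if_neg h3]
          split_ifs <;> omega) (hC.don w hw).2.2)
      have h5 := mem_filter.1 hx
      exact ⟨x, h5.1, ⟨h3, h5.2.1⟩, h5.2.2⟩)
    fun u x e => ⟨l4 u x e, (hC.ext u x e).1⟩
  exact hFr V G _ z ρ γ τ κ P R h1 h4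
    (fun u w e => (hleaf u w e).elim Or.inr fun h2 => Or.inl (h2.1 ▸ hρ)) hO
    (Or.inr (by rw [if_pos hzρ, hs])) hP

end Pool.Agent.MP_d1f1f3_co.H47
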