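import Pool.Agent.MP_d1f1f3_co.H47.Spec

/-!
A pairing of the odd vertices of a two-edge-connected graph that is small on every cut.
-/

namespace Pool.Agent.MP_d1f1f3_co.H47

open Finset Relation
open scoped Classical

noncomputable section

namespace GoodM

variable {V : Type} [Fintype V]

/-- One if `X` separates `a` from `b`. -/
def sep (X : Finset V) (a b : V) : ℕ := if (a ∈ X ↔ b ∈ X) then 0 else 1

/-- Pairs leaving `X`. -/
def dm (m : V → V) (X : Finset V) : ℕ := #(X.filter fun v => m v ∉ X)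

/-- The graph with one more edge. -/
def add (H : SimpleGraph V) {a b : V} (h : a ≠ b) : SimpleGraph V where
  Adj x y := H.Adj x y ∨ (x = a ∧ y = b) ∨ (x = b ∧ y = a)
  symm := ⟨fun _ _ k => by
    rcases k with k | k | k
    · exact Or.inl k.symm
    · exact Or.inr (Or.inr ⟨k.2, k.1⟩)
    · exact Or.inr (Or.inl ⟨k.2, k.1⟩)⟩
  loopless := ⟨fun _ k => by
    rcases k with k | k | k
    · exact k.ne rfl
    · exact h (k.1.symm.trans k.2)
    · exact h (k.2.symm.trans k.1)⟩

theorem mem_N {H : SimpleGraph V} {v w : V} : w ∈ N H v ↔ H.Adj v w := by simp [N]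

theorem add_cnt {H : SimpleGraph V} {a b : V} (h : a ≠ b) (hn : ¬H.Adj a b) (q : V → Prop)
    (v : V) : #((N (add H h) v).filter q) =
      #((N H v).filter q) + (if v = a ∧ q b then 1 else 0) + if v = b ∧ q a then 1 else 0 := by
  have hn' : ¬H.Adj b a := fun k => hn k.symm
  by_cases c1 : v = a ∧ q b
  · have e : (N (add H h) v).filter q = insert b ((N H v).filter q) := by
      ext w
      simp only [mem_filter, mem_N, mem_insert, add]
      grind
    rw [e, card_insert_of_notMem (by simp only [mem_filter, mem_N]; grind), if_pos c1,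
      if_neg (by grind)]
  · by_cases c2 : v = b ∧ q a
    · have e : (N (add H h) v).filter q = insert a ((N H v).filter q) := by
        ext w
        simp only [mem_filter, mem_N, mem_insert, add]
        grind
      rw [e, card_insert_of_notMem (by simp only [mem_filter, mem_N]; grind), if_pos c2,
        if_neg c1]
    · have e : (N (add H h) v).filter q = (N H v).filter q := by
        ext w
        simp only [mem_filter, mem_N, add]
        grind
      rw [e, if_neg c1, if_neg c2, add_zero, add_zero]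

theorem add_dg {H : SimpleGraph V} {a b : V} (h : a ≠ b) (hn : ¬H.Adj a b) (v : V) :
    dg (add H h) v = dg H v + (if v = a then 1 else 0) + if v = b then 1 else 0 := by
  simpa only [filter_true, and_true, dg] using add_cnt h hn (fun _ => True) v

theorem add_cut {H : SimpleGraph V} {a b : V} (h : a ≠ b) (hn : ¬H.Adj a b) (X : Finset V) :
    cut (add H h) X = cut H X + sep X a b := by
  have k : ∀ (c : V) (p : Prop), (∑ v ∈ X, if v = c ∧ p then 1 else 0) =
      if c ∈ X ∧ p then 1 else 0 := fun c p => by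
    by_cases hp : p
    · simp only [hp, and_true, sum_ite_eq']
    · simp only [hp, and_false, if_false, sum_const_zero]
  have e := fun v => add_cnt h hn (fun w => w ∉ X) v
  have e1 : cut (add H h) X = ∑ v ∈ X, (#((N H v).filter fun w => w ∉ X) +
      (if v = a ∧ b ∉ X then 1 else 0) + if v = b ∧ a ∉ X then 1 else 0) :=
    sum_congr rfl fun v _ => by convert e v
  rw [e1, sum_add_distrib, sum_add_distrib, add_assoc]
  congr 1
  have k1 := k a (b ∉ X)
  have k2 := k b (a ∉ X)
  by_cases ha : a ∈ X <;> by_cases hb : b ∈ X <;> simp [ha, hb, sep]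

omit [Fintype V] in
theorem short {m : V → V} (hm : ∀ v, m (m v) = v) {a b : V} (hab : a ≠ b) :
    ∃ m' : V → V, (∀ v, m' (m' v) = v) ∧
      (∀ v, m' v ≠ v ↔ ¬(m v ≠ v ↔ (v = a ∨ v = b))) ∧
      ∀ X, dm m' X ≤ dm m X + sep X a b := by
  by_cases h : m a = b
  · refine ⟨fun v => if v = a ∨ v = b then v else m v, fun v => by grind, fun v => by grind,
      fun X => le_add_right (card_le_card fun v hv => ?_)⟩
    simp only [mem_filter] at hv ⊢
    grind
  have inj : ∀ x y, m x = m y → x = y := fun x y e => by rw [← hm x, e, hm]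
  have ha := hm a
  have hb := hm b
  refine ⟨fun v => if v = m a then m b else if v = m b then m a else
    if v = a ∨ v = b then v else m v, fun v => by grind, fun v => by grind, fun X => ?_⟩
  by_cases h1 : m a ∈ X ↔ m b ∈ X
  · refine le_add_right (card_le_card fun v hv => ?_)
    simp only [mem_filter] at hv ⊢
    grind
  by_cases h2 : a ∈ X ↔ b ∈ X
  · obtain ⟨e, he, he'⟩ : ∃ e ∈ X.filter fun v => m v ∉ X,
        e = a ∨ e = b ∨ e = m a ∨ e = m b := by
      simp only [mem_filter]
      by_cases c1 : a ∈ X <;> by_cases c2 : m a ∈ X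
      · exact ⟨b, by grind, by grind⟩
      · exact ⟨a, by grind, by grind⟩
      · exact ⟨m a, by grind, by grind⟩
      · exact ⟨m b, by grind, by grind⟩
    refine le_add_right ((card_le_card (t := insert (if m a ∈ X then m a else m b)
      ((X.filter fun v => m v ∉ X).erase e)) fun v hv => ?_).trans ?_)
    · simp only [mem_filter, mem_insert, mem_erase] at hv ⊢
      grind
    · refine (card_insert_le _ _).trans ?_
      rw [card_erase_add_one he, dm]
  · rw [sep, if_neg h2]
    refine (card_le_card (t := insert (if m a ∈ X then m a else m b)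
      (X.filter fun v => m v ∉ X)) fun v hv => ?_).trans (card_insert_le _ _)
    simp only [mem_filter, mem_insert] at hv ⊢
    grind

/-- A subgraph on `U` with a pairing and a virtual edge `t b`. -/
structure S (G H : SimpleGraph V) (U : Finset V) (m : V → V) (t b : V) : Prop where
  le : H ≤ G
  ins : ∀ x y, H.Adj x y → x ∈ U
  pos : ∀ x ∈ U, 1 ≤ dg G x
  inv : ∀ v, m (m v) = v
  par : ∀ v, m v ≠ v ↔ Odd (dg H v + (if v = t then 1 else 0) + if v = b then 1 else 0)
  ht : t ∈ U
  hb : b ∈ U
  ct : ∀ (X : Finset V) u w, u ∈ X → w ∉ X → u ∈ U → w ∈ U → dm m X + 2 ≤ cut H X + sep X t b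

variable {G H : SimpleGraph V} {U : Finset V} {m : V → V}

theorem dg_pos {x y : V} (h : G.Adj x y) : 1 ≤ dg G x := card_pos.2 ⟨y, mem_N.2 h⟩

theorem S.par' {r : V} (s : S G H U m r r) (v : V) : m v ≠ v ↔ Odd (dg H v) := by
  rw [s.par, Nat.odd_iff, Nat.odd_iff]
  split_ifs <;> omega

theorem S.start {r a b : V} (s : S G H U m r r) (ha : a ∈ U) (hb : b ∈ U) :
    ∃ m', S G H U m' a b := by
  have c : ∀ (X : Finset V) u w, u ∈ X → w ∉ X → u ∈ U → w ∈ U → dm m X + 2 ≤ cut H X :=
    fun X u w h1 h2 h3 h4 => by simpa [sep] using s.ct X u w h1 h2 h3 h4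
  by_cases hab : a = b
  · subst hab
    refine ⟨m, s.le, s.ins, s.pos, s.inv, fun v => ?_, ha, ha,
      fun X u w h1 h2 h3 h4 => le_add_right (c X u w h1 h2 h3 h4)⟩
    rw [s.par', Nat.odd_iff, Nat.odd_iff]
    split_ifs <;> omega
  obtain ⟨m', h1, h2, h3⟩ := short s.inv hab
  refine ⟨m', s.le, s.ins, s.pos, h1, fun v => ?_, ha, hb, fun X u w k1 k2 k3 k4 => ?_⟩
  · rw [h2, s.par', Nat.odd_iff, Nat.odd_iff]
    by_cases c1 : v = a
    · have c2 : v ≠ b := fun e => hab (c1.symm.trans e)
      rw [if_pos c1, if_neg c2, iff_true_intro (Or.inl c1 : v = a ∨ v = b), iff_true]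
      omega
    · by_cases c2 : v = b
      · rw [if_pos c2, if_neg c1, iff_true_intro (Or.inr c2 : v = a ∨ v = b), iff_true]
        omega
      · rw [if_neg c2, if_neg c1, iff_false_intro (not_or.2 ⟨c1, c2⟩), iff_false, not_not,
          add_zero, add_zero]
  · have := c X u w k1 k2 k3 k4
    have := h3 X
    omega

theorem S.supp {t b v : V} (s : S G H U m t b) (h : m v ≠ v) : v ∈ U := by
  by_contra k
  have e : dg H v = 0 := card_eq_zero.2 (eq_empty_of_forall_notMem fun w hw =>
    k (s.ins _ _ (mem_N.1 hw)))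
  have := (s.par v).1 h
  rw [e, if_neg fun e : v = t => k (e ▸ s.ht), if_neg fun e : v = b => k (e ▸ s.hb)] at this
  exact absurd this (by decide)

theorem S.move {t b t' : V} (s : S G H U m t b) (h : G.Adj t t') (hn : ¬H.Adj t t') :
    S G (add H h.ne) (insert t' U) m t' b := by
  refine ⟨?_, ?_, ?_, s.inv, fun v => ?_, mem_insert_self _ _, mem_insert_of_mem s.hb,
    fun X u w k1 k2 k3 k4 => ?_⟩
  · rintro x y (k | ⟨rfl, rfl⟩ | ⟨rfl, rfl⟩)
    · exact s.le k
    · exact h
    · exact h.symm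
  · rintro x y (k | ⟨rfl, rfl⟩ | ⟨rfl, rfl⟩)
    · exact mem_insert_of_mem (s.ins _ _ k)
    · exact mem_insert_of_mem s.ht
    · exact mem_insert_self _ _
  · intro x hx
    rcases mem_insert.1 hx with rfl | hx
    · exact dg_pos h.symm
    · exact s.pos x hx
  · rw [s.par, add_dg h.ne hn, Nat.odd_iff, Nat.odd_iff]
    split_ifs <;> omega
  · rw [add_cut h.ne hn]
    by_cases c : ∃ u w, u ∈ X ∧ w ∉ X ∧ u ∈ U ∧ w ∈ U
    · obtain ⟨u, w, c1, c2, c3, c4⟩ := c
      have := s.ct X u w c1 c2 c3 c4
      have : sep X t b ≤ sep X t t' + sep X t' b := by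
        unfold sep
        split_ifs <;> first | omega | grind
      omega
    · have e : dm m X = 0 := card_eq_zero.2 (eq_empty_of_forall_notMem fun v hv => by
        rw [mem_filter] at hv
        have h1 : m v ≠ v := fun e => hv.2 (e.symm ▸ hv.1)
        exact c ⟨v, m v, hv.1, hv.2, s.supp h1, s.supp (by rw [s.inv]; exact h1.symm)⟩)
      have h1 := s.ht
      have h2 := s.hb
      have e1 : sep X t t' = 1 := if_neg (by grind)
      have e2 : sep X t' b = 1 := if_neg (by grind)
      omega

theorem S.walk {G' : SimpleGraph V} (hG : G' ≤ G) {t b : V} (p : G'.Walk t b)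
    (hp : p.edges.Nodup) : ∀ {H : SimpleGraph V} {U : Finset V}, S G H U m t b →
      (∀ x y, s(x, y) ∈ p.edges → ¬H.Adj x y) → ∃ H' U', H ≤ H' ∧ S G H' U' m b b := by
  induction p with
  | nil => exact fun s _ => ⟨_, _, le_rfl, s⟩
  | cons h q ih =>
    intro H U s k
    rw [SimpleGraph.Walk.edges_cons, List.nodup_cons] at hp
    obtain ⟨H', U', h1, h2⟩ := ih hp.2 (s.move (hG h) (k _ _ (by simp))) (by
      rintro x y hx (c | ⟨rfl, rfl⟩ | ⟨rfl, rfl⟩)
      · exact k x y (by simp [hx]) c
      · exact hp.1 hx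
      · exact hp.1 (Sym2.eq_swap ▸ hx))
    exact ⟨H', U', fun x y c => h1 (Or.inl c), h2⟩

theorem S.grow (h2 : Two G) {r u v : V} (s : S G H U m r r) (hu : u ∈ U) (h : G.Adj u v)
    (hn : ¬H.Adj u v) : ∃ H' U' m' r', H < H' ∧ S G H' U' m' r' r' := by
  obtain ⟨b, hb, ⟨p⟩⟩ : ∃ b ∈ U, (G \ add H h.ne).Reachable v b := by
    by_contra c
    have c' : ∀ b, (G \ add H h.ne).Reachable v b → b ∉ U := fun b k hb => c ⟨b, hb, k⟩
    have k := h2 (univ.filter fun b => (G \ add H h.ne).Reachable v b) v u (by simp)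
      (fun k => c' u (mem_filter.1 k).2 hu) (dg_pos h.symm) (dg_pos h)
    have key : ∀ x w, (G \ add H h.ne).Reachable v x → G.Adj x w →
        ¬(G \ add H h.ne).Reachable v w → x = v ∧ w = u := fun x w k1 k2 k3 => by
      by_cases k4 : (add H h.ne).Adj x w
      · rcases k4 with k4 | k4 | k4
        · exact absurd (s.ins _ _ k4) (c' x k1)
        · exact absurd (k4.1 ▸ hu) (c' x k1)
        · exact k4
      · exact absurd (k1.trans (SimpleGraph.Adj.reachable ⟨k2, k4⟩)) k3
    rw [cut, sum_eq_single v] at k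
    · refine absurd (k.trans (card_le_one.2 fun x hx y hy => ?_)) (by decide)
      simp only [mem_filter, mem_N, mem_univ, true_and] at hx hy
      exact (key v x .rfl hx.1 hx.2).2.trans (key v y .rfl hy.1 hy.2).2.symm
    · intro x hx hxv
      refine card_eq_zero.2 (eq_empty_of_forall_notMem fun w hw => hxv ?_)
      simp only [mem_filter, mem_N, mem_univ, true_and] at hx hw
      exact (key x w hx hw.1 hw.2).1
    · intro k
      exact absurd (by simp) k
  obtain ⟨m', s1⟩ := s.start hu hb
  obtain ⟨H', U', h3, h4⟩ := S.walk sdiff_le p.bypass p.bypass_isPath.isTrail.edges_nodup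
    (s1.move h hn) fun x y hx => (p.bypass.adj_of_mem_edges hx).2
  exact ⟨H', U', m', b, lt_of_le_not_ge (fun x y c => h3 (Or.inl c))
    fun c => hn (c (h3 (Or.inr (Or.inl ⟨rfl, rfl⟩)))), h4⟩

end GoodM

open GoodM in
theorem goodM : SGoodM := by
  intro V _ G h2
  by_cases h0 : ∃ r, 1 ≤ dg G r
  swap
  · refine ⟨id, fun _ => rfl, fun v => ?_, fun X u w _ _ k _ => absurd ⟨u, k⟩ h0⟩
    have : dg G v = 0 := by
      by_contra c
      exact h0 ⟨v, Nat.pos_of_ne_zero c⟩
    simp [this]
  obtain ⟨r₀, hr₀⟩ := h0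
  have s0 : S G ⊥ {r₀} id r₀ r₀ := by
    refine ⟨bot_le, fun _ _ k => k.elim, fun x hx => mem_singleton.1 hx ▸ hr₀, fun _ => rfl,
      fun v => ?_, mem_singleton_self _, mem_singleton_self _, fun X u w k1 k2 k3 k4 => ?_⟩
    · have : dg (⊥ : SimpleGraph V) v = 0 :=
        card_eq_zero.2 (eq_empty_of_forall_notMem fun w hw => (mem_N.1 hw).elim)
      rw [this, Nat.odd_iff]
      split_ifs <;> simp
    · rw [mem_singleton.1 k3, ← mem_singleton.1 k4] at k1
      exact absurd k1 k2
  obtain ⟨H, ⟨U, m, r, s⟩, hmax⟩ := (wellFounded_gt (α := SimpleGraph V)).has_min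
    {H | ∃ U m r, S G H U m r r} ⟨⊥, _, _, _, s0⟩
  have h3 : ∀ u ∈ U, ∀ v, G.Adj u v → H.Adj u v := fun u hu v h => by
    by_contra hn
    obtain ⟨H', U', m', r', k1, k2⟩ := s.grow h2 hu h hn
    exact hmax H' ⟨U', m', r', k2⟩ k1
  have h4 : ∀ w, 1 ≤ dg G w → w ∈ U := fun w hw => by
    by_contra c
    have k := h2 U r w s.ht c (s.pos r s.ht) hw
    have e : cut G U = 0 := sum_eq_zero fun x hx =>
      card_eq_zero.2 (eq_empty_of_forall_notMem fun y hy => by
        rw [mem_filter, mem_N] at hy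
        exact hy.2 (s.ins _ _ (h3 x hx y hy.1).symm))
    omega
  obtain rfl : H = G := le_antisymm s.le fun u v h => h3 u (h4 u (dg_pos h)) v h
  refine ⟨m, s.inv, s.par', fun X u w k1 k2 k3 k4 => ?_⟩
  simpa [sep, dm] using s.ct X u w k1 k2 (h4 u k3) (h4 w k4)

end

end Pool.Agent.MP_d1f1f3_co.H47
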