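import Pool.Agent.MP_d1f1f3_co.H47.Spec

/-!
Row ORI: smooth strong orientations with prescribed transitions.
-/

namespace Pool.Agent.MP_d1f1f3_co.H47

open Finset Relation
open scoped Classical

namespace Ori

/-- A set of even size has a pairing. -/
theorem pairing {α : Type} (F : Finset α) (hF : Even #F) :
    ∃ g : α → α, ∀ x ∈ F, g x ∈ F ∧ g (g x) = x ∧ g x ≠ x := by
  let e := F.equivFin
  refine ⟨fun x => if h : x ∈ F then (e.symm (e ⟨x, h⟩).rev).1 else x, fun x hx => ?_⟩
  have h1 := (e.symm (e ⟨x, hx⟩).rev).2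
  simp only [dif_pos hx, dif_pos h1, Subtype.coe_eta, Equiv.apply_symm_apply, Fin.rev_rev,
    Equiv.symm_apply_apply, true_and]
  refine ⟨h1, fun h => ?_⟩
  have h2 : e.symm (e ⟨x, hx⟩).rev = ⟨x, hx⟩ := Subtype.ext h
  rw [Equiv.symm_apply_eq] at h2
  have h3 := congrArg Fin.val h2
  rw [Fin.val_rev] at h3
  have h4 := (e ⟨x, hx⟩).2
  obtain ⟨k, hk⟩ := hF
  omega

theorem half {α : Type} (U : Finset α) (f : α → α) (D : α → Prop)
    (h : ∀ x ∈ U, f x ∈ U ∧ f (f x) = x ∧ (D (f x) ↔ ¬D x)) :
    #(U.filter D) = #(U.filter fun x => ¬D x) := by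
  refine card_nbij' f f (fun x hx => ?_) (fun x hx => ?_) (fun x hx => ?_) fun x hx => ?_
  · simp only [coe_filter, Set.mem_ofPred_eq] at hx ⊢
    exact ⟨(h x hx.1).1, fun h1 => (h x hx.1).2.2.1 h1 hx.2⟩
  · simp only [coe_filter, Set.mem_ofPred_eq] at hx ⊢
    exact ⟨(h x hx.1).1, (h x hx.1).2.2.2 hx.2⟩
  · simp only [coe_filter, Set.mem_ofPred_eq] at hx
    exact (h x hx.1).2.1
  · simp only [coe_filter, Set.mem_ofPred_eq] at hx
    exact (h x hx.1).2.1

/-- The union of two perfect matchings is bipartite. -/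
theorem colour {α : Type} (r : α → α) (n : ℕ) : ∀ (S : Finset α) (p : α → α), #S ≤ n →
    (∀ x ∈ S, r x ∈ S ∧ r (r x) = x ∧ r x ≠ x) → (∀ x ∈ S, p x ∈ S ∧ p (p x) = x ∧ p x ≠ x) →
    ∃ D : α → Prop, ∀ x ∈ S, (D (r x) ↔ ¬D x) ∧ (D (p x) ↔ ¬D x) := by
  induction n with
  | zero =>
    intro S p h _ _
    refine ⟨fun _ => True, fun x hx => ?_⟩
    have := card_pos.2 ⟨x, hx⟩
    omega
  | succ n ih =>
    intro S p h hr hp
    rcases S.eq_empty_or_nonempty with rfl | ⟨x, hx⟩
    · exact ⟨fun _ => True, fun x hx => absurd hx (notMem_empty x)⟩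
    obtain ⟨hy, hxy, hne⟩ := hr x hx
    have hc : #((S.erase x).erase (r x)) ≤ n := by
      have h1 := card_erase_of_mem hx
      have h2 : #((S.erase x).erase (r x)) ≤ #(S.erase x) := card_erase_le
      omega
    obtain ⟨D, hD⟩ := ih ((S.erase x).erase (r x))
      (fun z => if z = p x then p (r x) else if z = p (r x) then p x else p z) hc
      (fun z hz => by
        simp only [mem_erase] at hz ⊢
        have := hr z hz.2.2
        grind)
      (fun z hz => by
        simp only [mem_erase] at hz ⊢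
        have h1 := hp z hz.2.2
        have h2 := hp x hx
        have h3 := hp _ hy
        grind)
    refine ⟨fun z => if z = x then ¬D (p x) else if z = r x then D (p x) else D z, fun z hz => ?_⟩
    have h1 := hp z hz
    have h2 := hp x hx
    have h3 := hp _ hy
    have h4 := hr z hz
    have h5 := hD z
    have h6 := hD (p x)
    simp only [mem_erase] at h5 h6
    clear ih hD hr hp
    by_cases e1 : z = x
    · grind
    by_cases e2 : z = r x
    · grind
    refine ⟨by grind, ?_⟩
    by_cases e3 : p z = x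
    · grind
    by_cases e4 : p z = r x
    · grind
    grind

theorem colour' {α : Type} (r p : α → α) (S : Finset α) (x₀ : α)
    (hr : ∀ x ∈ S, r x ∈ S ∧ r (r x) = x ∧ r x ≠ x)
    (hp : ∀ x ∈ S, p x ∈ S ∧ p (p x) = x ∧ p x ≠ x) :
    ∃ D : α → Prop, D x₀ ∧ ∀ x ∈ S, (D (r x) ↔ ¬D x) ∧ (D (p x) ↔ ¬D x) := by
  obtain ⟨D, hD⟩ := colour r _ S p le_rfl hr hp
  by_cases h : D x₀
  · exact ⟨D, h, hD⟩
  · exact ⟨fun x => ¬D x, h, fun x hx => ⟨not_congr (hD x hx).1, not_congr (hD x hx).2⟩⟩

/-- An involution of a set of even size extends to a pairing. -/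
theorem extend {α : Type} (T : Finset α) (f : α → α) (hT : Even #T)
    (hf : ∀ x ∈ T, f x ∈ T ∧ f (f x) = x) :
    ∃ q : α → α, ∀ x ∈ T, q x ∈ T ∧ q (q x) = x ∧ q x ≠ x ∧ (f x ≠ x → q x = f x) := by
  have hU : ∀ x ∈ T.filter (fun x => ¬f x = x), f x ∈ T.filter (fun x => ¬f x = x) ∧
      f (f x) = x ∧ f x ≠ x := by
    intro x hx
    simp only [mem_filter] at hx ⊢
    have := hf x hx.1
    grind
  obtain ⟨D, hD⟩ := colour f _ _ f le_rfl hU hU
  have h1 := half _ f D fun x hx => ⟨(hU x hx).1, (hU x hx).2.1, (hD x hx).1⟩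
  have h2 := card_filter_add_card_filter_not (s := T.filter fun x => ¬f x = x) D
  have h3 := card_filter_add_card_filter_not (s := T) fun x => f x = x
  obtain ⟨g, hg⟩ := pairing (T.filter fun x => f x = x) (by
    obtain ⟨k, hk⟩ := hT
    exact ⟨k - #((T.filter fun x => ¬f x = x).filter D), by omega⟩)
  refine ⟨fun x => if f x = x then g x else f x, fun x hx => ?_⟩
  have h4 := hg x
  have h5 := hf x hx
  simp only [mem_filter] at h4
  grind

variable {V : Type} [Fintype V]

/-- The darts at a vertex. -/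
noncomputable def Tv (G : SimpleGraph V) (v : V) : Finset (Option V) :=
  (N G v).map Function.Embedding.some ∪ if Odd (dg G v) then {none} else ∅

theorem some_mem {G : SimpleGraph V} {v w : V} : some w ∈ Tv G v ↔ G.Adj v w := by
  unfold Tv
  split_ifs <;> simp [N]

theorem none_mem {G : SimpleGraph V} {v : V} : none ∈ Tv G v ↔ Odd (dg G v) := by
  unfold Tv
  split_ifs with h <;> simp [h]

theorem card_filter_Tv (G : SimpleGraph V) (v : V) (P : Option V → Prop) :
    #((Tv G v).filter P) = #((N G v).filter fun w => P (some w)) +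
      if Odd (dg G v) ∧ P none then 1 else 0 := by
  have h1 : (Tv G v).filter P = ((N G v).filter fun w => P (some w)).map Function.Embedding.some ∪
      if Odd (dg G v) ∧ P none then {none} else ∅ := by
    ext x
    cases x with
    | none =>
      rw [mem_filter, none_mem]
      split_ifs with h <;> simp [h]
    | some w =>
      rw [mem_filter, some_mem]
      split_ifs with h <;> simp [N]
  rw [h1, card_union_of_disjoint, card_map]
  · split_ifs <;> simp
  · split_ifs <;> simp

theorem card_Tv (G : SimpleGraph V) (v : V) :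
    #(Tv G v) = dg G v + if Odd (dg G v) then 1 else 0 := by
  have := card_filter_Tv G v fun _ => True
  simp only [filter_true, and_true] at this
  exact this

/-- All darts. -/
noncomputable def Da (G : SimpleGraph V) : Finset (V × Option V) :=
  univ.filter fun x => x.2 ∈ Tv G x.1

theorem mem_Da {G : SimpleGraph V} {x : V × Option V} : x ∈ Da G ↔ x.2 ∈ Tv G x.1 := by
  simp [Da]

/-- The reverse of a dart. -/
def rv (m : V → V) : V × Option V → V × Option V
  | (v, some w) => (w, some v)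
  | (v, none) => (m v, none)

end Ori

open Ori in
theorem ori (h : SGoodM) : SOri := by
  intro V _ G π u₀ w₀ hG hπ h0
  obtain ⟨m, hm1, hm2, hm3⟩ := h V G hG
  have hq : ∀ v, ∃ q : Option V → Option V, ∀ x ∈ Ori.Tv G v, q x ∈ Ori.Tv G v ∧ q (q x) = x ∧
      q x ≠ x ∧ (x.map (π v) ≠ x → q x = x.map (π v)) := by
    intro v
    refine extend _ (Option.map (π v)) ?_ fun x hx => ?_
    · rw [card_Tv]
      split_ifs with h1
      · exact h1.add_one
      · simpa using h1
    · cases x with
      | none => exact ⟨hx, rfl⟩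
      | some w =>
        have h1 := hπ v w (some_mem.1 hx)
        exact ⟨some_mem.2 h1.1, congrArg some h1.2⟩
  choose q hq using hq
  have hr : ∀ x ∈ Da G, rv m x ∈ Da G ∧ rv m (rv m x) = x ∧ rv m x ≠ x := by
    rintro ⟨v, x⟩ hx
    rw [mem_Da] at hx
    cases x with
    | none =>
      have h1 := (hm2 v).2 (none_mem.1 hx)
      refine ⟨mem_Da.2 (none_mem.2 ((hm2 _).1 ?_)), ?_, ?_⟩
      · show m (m v) ≠ m v
        rw [hm1]
        exact h1.symm
      · show (m (m v), none) = (v, none)
        rw [hm1]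
      · exact fun h2 => h1 (congrArg Prod.fst h2)
    | some w =>
      have h1 := some_mem.1 hx
      exact ⟨mem_Da.2 (some_mem.2 h1.symm), rfl, fun h2 => h1.ne' (congrArg Prod.fst h2)⟩
  have hp : ∀ x ∈ Da G, (x.1, q x.1 x.2) ∈ Da G ∧ (x.1, q x.1 (q x.1 x.2)) = x ∧
      (x.1, q x.1 x.2) ≠ x := by
    rintro ⟨v, x⟩ hx
    rw [mem_Da] at hx
    obtain ⟨h1, h2, h3, -⟩ := hq v x hx
    exact ⟨mem_Da.2 h1, congrArg (Prod.mk v) h2, fun h4 => h3 (congrArg Prod.snd h4)⟩
  obtain ⟨D, hD0, hD⟩ := colour' (rv m) (fun x => (x.1, q x.1 x.2)) (Da G) (u₀, some w₀) hr hp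
  have hrev : ∀ u w, G.Adj u w → (D (w, some u) ↔ ¬D (u, some w)) := fun u w huw =>
    (hD (u, some w) (mem_Da.2 (some_mem.2 huw))).1
  refine ⟨fun u w => G.Adj u w ∧ D (u, some w), fun u w h1 => h1.1, fun u w h1 => ?_, ⟨h0, hD0⟩,
    fun v w h1 h2 => ?_, fun v => ?_, fun X u w hu hw h1 h2 => ?_⟩
  · have := hrev u w h1
    simp only [h1, h1.symm, true_and]
    tauto
  · have h3 := (hD (v, some w) (mem_Da.2 (some_mem.2 h1))).2
    have h4 := (hq v (some w) (some_mem.2 h1)).2.2.2 fun h5 => h2 (Option.some.inj h5)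
    simp only [h4, Option.map_some] at h3
    simp only [h1, (hπ v w h1).1, true_and]
    tauto
  · have h1 := half (Ori.Tv G v) (q v) (fun x => D (v, x)) fun x hx =>
      ⟨(hq v x hx).1, (hq v x hx).2.1, (hD (v, x) (mem_Da.2 hx)).2⟩
    have h2 := card_filter_add_card_filter_not (s := Ori.Tv G v) fun x => D (v, x)
    have h3 := card_filter_Tv G v fun x => D (v, x)
    have h4 := card_Tv G v
    have h5 : Out (fun u w => G.Adj u w ∧ D (u, some w)) v =
        (N G v).filter fun w => D (v, some w) := by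
      ext w
      simp [Out, N]
    rw [h5]
    have h6 := Nat.odd_iff (n := dg G v)
    split_ifs at h3 h4 <;> first | omega | tauto
  · by_contra hc
    push Not at hc
    have h3 := hm3 X u w hu hw h1 h2
    have e1 := half ((Da G).filter fun x => x.1 ∈ X) (fun x => (x.1, q x.1 x.2)) D fun x hx => by
      rw [mem_filter] at hx ⊢
      exact ⟨⟨(hp x hx.1).1, hx.2⟩, (hp x hx.1).2.1, (hD x hx.1).2⟩
    have e2 := half (((Da G).filter fun x => x.1 ∈ X).filter fun x => (rv m x).1 ∈ X) (rv m) D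
      fun x hx => by
        simp only [mem_filter] at hx ⊢
        obtain ⟨h4, h5, -⟩ := hr x hx.1.1
        exact ⟨⟨⟨h4, hx.2⟩, h5.symm ▸ hx.1.2⟩, h5, (hD x hx.1.1).1⟩
    have e3 := card_filter_add_card_filter_not (s := ((Da G).filter fun x => x.1 ∈ X).filter D)
      fun x => (rv m x).1 ∈ X
    have e4 := card_filter_add_card_filter_not
      (s := ((Da G).filter fun x => x.1 ∈ X).filter fun x => ¬D x) fun x => (rv m x).1 ∈ X
    rw [filter_comm D] at e3
    rw [filter_comm fun x => ¬D x] at e4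
    have e5 : #((((Da G).filter fun x => x.1 ∈ X).filter fun x => ¬D x).filter
        fun x => ¬(rv m x).1 ∈ X) ≤ #(X.filter fun v => m v ∉ X) := by
      refine le_trans (card_le_card fun x hx => ?_) (card_image_le (f := fun v => (v, none)))
      obtain ⟨v, x⟩ := x
      simp only [mem_filter] at hx
      obtain ⟨⟨⟨h4, h5⟩, h6⟩, h7⟩ := hx
      cases x with
      | none => exact mem_image.2 ⟨v, mem_filter.2 ⟨h5, h7⟩, rfl⟩
      | some a =>
        have h8 := some_mem.1 (mem_Da.1 h4)
        exact absurd ((hrev v a h8).2 h6) (hc a v h7 h5 h8.symm)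
    have e6 : cut G X ≤ #((((Da G).filter fun x => x.1 ∈ X).filter D).filter
        fun x => ¬(rv m x).1 ∈ X) := by
      rw [cut, ← card_sigma]
      refine card_le_card_of_injOn (fun y => (y.1, some y.2)) (fun y hy => ?_) ?_
      · simp only [coe_sigma, Set.mem_sigma_iff, mem_coe, mem_filter, N, mem_univ,
          true_and] at hy
        obtain ⟨h4, h5, h6⟩ := hy
        simp only [mem_coe, mem_filter]
        refine ⟨⟨⟨mem_Da.2 (some_mem.2 h5), h4⟩, ?_⟩, h6⟩
        by_contra h7
        exact hc _ _ h6 h4 h5.symm ((hrev _ _ h5).2 h7)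
      · rintro ⟨a, b⟩ _ ⟨a', b'⟩ _ h4
        simp only [Prod.mk.injEq, Option.some.injEq] at h4
        obtain ⟨rfl, rfl⟩ := h4
        rfl
    omega

end Pool.Agent.MP_d1f1f3_co.H47
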