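import Pool.Agent.MP_d1f1f3_co.H47.Spec

/-! Choice of the exceptional pairs. -/

namespace Pool.Agent.MP_d1f1f3_co.H47

open Finset Relation
open scoped Classical

namespace Exc

variable {V : Type} {A : V → V → Prop} {β : V × V}

/-- Transitions given by a predicate. -/
def R (A : V → V → Prop) (t : V → V → V → Prop) (e f : V × V) : Prop :=
  A f.1 f.2 ∧ e.2 = f.1 ∧ t e.1 f.1 f.2

/-- Transitions that avoid the arcs leaving `y`. -/
def R0 (A : V → V → Prop) (t : V → V → V → Prop) (y : V) (e f : V × V) : Prop :=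
  R A t e f ∧ f.1 ≠ y

/-- All arcs are reachable. -/
def Al (A : V → V → Prop) (t : V → V → V → Prop) (β : V × V) : Prop :=
  ∀ u w, A u w → ReflTransGen (R A t) β (u, w)

/-- The transitions of a configuration. -/
def tr (W T : V → Prop) (i o : V → V) (a v b : V) : Prop :=
  ((W v ∨ T v) ∧ b = o v → a = i v) ∧ (¬((W v ∨ T v) ∧ b = o v) → ¬(W v ∧ a = i v))

theorem Tr_cfg (W T : V → Prop) (i o : V → V) : Tr A (cfg W T i o) = R A (tr W T i o) := by
  funext e f
  refine propext (and_congr_right fun _ => and_congr_right fun _ => ?_)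
  simp only [cfg, tr]
  split_ifs with h
  · simp [h, eq_comm]
  · simp [h]

theorem mono {α : Type} {r r' : α → α → Prop} {a b : α} (p : ReflTransGen r a b)
    (h : ∀ a b, r a b → r' a b) : ReflTransGen r' a b := by
  induction p with
  | refl => exact .refl
  | tail _ q ih => exact ih.tail (h _ _ q)

variable {t t' : V → V → V → Prop} {y : V}

theorem R0_mono (h : ∀ a u b, u ≠ y → t a u b → t' a u b) {e f : V × V}
    (p : ReflTransGen (R0 A t y) e f) : ReflTransGen (R A t') e f :=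
  mono p fun _ _ q => ⟨q.1.1, q.1.2.1, h _ _ _ q.2 q.1.2.2⟩

theorem key (hA : Al A t β) (h : ∀ a u b, u ≠ y → t a u b → t' a u b)
    (ho : ∀ b, A y b → ReflTransGen (R A t') β (y, b)) : Al A t' β := by
  intro u w huw
  have p := hA u w huw
  generalize (u, w) = e at p
  induction p with
  | refl => exact .refl
  | @tail e f _ q ih =>
    by_cases hf : f.1 = y
    · obtain ⟨f1, f2⟩ := f
      subst hf
      exact ho f2 q.1
    · exact ih.tail ⟨q.1, q.2.1, h _ _ _ hf q.2.2⟩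

theorem R0_ne (hβ : β.1 ≠ y) {e : V × V} (p : ReflTransGen (R0 A t y) β e) : e.1 ≠ y := by
  rcases p.cases_tail with rfl | ⟨_, _, q⟩
  · exact hβ
  · exact q.2

theorem first (hβ : β.1 ≠ y) {b : V} (p : ReflTransGen (R A t) β (y, b)) :
    ∃ τ, ReflTransGen (R0 A t y) β (τ, y) := by
  have h : ∀ e, ReflTransGen (R A t) β e →
      ReflTransGen (R0 A t y) β e ∨ ∃ τ, ReflTransGen (R0 A t y) β (τ, y) := by
    intro e p
    induction p with
    | refl => exact .inl .refl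
    | @tail e f _ q ih =>
      refine ih.elim (fun a => ?_) .inr
      by_cases hf : f.1 = y
      · exact .inr ⟨e.1, by rw [← hf, ← q.2.1] at a ⊢; exact a⟩
      · exact .inl (a.tail ⟨q, hf⟩)
  exact (h _ p).resolve_left fun a => R0_ne hβ a rfl

theorem cutp {e : V × V} (p : ReflTransGen (R A t) β e) : ReflTransGen (R0 A t y) β e ∨
    ∃ b, A y b ∧ ReflTransGen (R0 A t y) (y, b) e := by
  induction p with
  | refl => exact .inl .refl
  | @tail e f _ q ih =>
    by_cases hf : f.1 = y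
    · obtain ⟨f1, f2⟩ := f
      subst hf
      exact .inr ⟨f2, q.1, .refl⟩
    · exact ih.imp (fun a => a.tail ⟨q, hf⟩) fun ⟨b, a, a'⟩ => ⟨b, a, a'.tail ⟨q, hf⟩⟩

theorem other {S : Finset V} (h : 2 ≤ #S) (x : V) : ∃ z ∈ S, z ≠ x :=
  exists_mem_ne (by omega) x

theorem step (hA : Al A t β) (hβ : ∀ w, ¬A w β.1) {I O : Finset V} (hI : ∀ a ∈ I, A a y)
    (hO : ∀ b ∈ O, A y b) (cI : 2 ≤ #I) (cO : 2 ≤ #O) :
    ∃ i₀ ∈ I, ∃ o₀ ∈ O, ∀ t' : V → V → V → Prop, (∀ a u b, u ≠ y → t a u b → t' a u b) →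
      (∀ a b, a ≠ i₀ → b ≠ o₀ → t' a y b) → t' i₀ y o₀ → Al A t' β := by
  obtain ⟨a, ha, -⟩ := other cI y
  obtain ⟨b, hb, -⟩ := other cO y
  have hy : β.1 ≠ y := fun e => hβ a (e ▸ hI a ha)
  obtain ⟨τ, hτ⟩ := first hy (hA y b (hO b hb))
  obtain ⟨i₀, hi, hne⟩ := other cI τ
  have h1 : ∃ o₀ ∈ O, ReflTransGen (R0 A t y) β (i₀, y) ∨
      ∃ b, b ≠ o₀ ∧ A y b ∧ ReflTransGen (R0 A t y) (y, b) (i₀, y) := by
    rcases cutp (y := y) (hA i₀ y (hI _ hi)) with h | ⟨c, h1, h2⟩
    · exact ⟨b, hb, .inl h⟩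
    · obtain ⟨o₀, ho, hne⟩ := other cO c
      exact ⟨o₀, ho, .inr ⟨c, hne.symm, h1, h2⟩⟩
  obtain ⟨o₀, ho, h1⟩ := h1
  refine ⟨i₀, hi, o₀, ho, fun t' h h2 h3 => key hA h fun c hc => ?_⟩
  have h4 : ∀ c, A y c → c ≠ o₀ → ReflTransGen (R A t') β (y, c) := fun c hc hne' =>
    (R0_mono h hτ).tail ⟨hc, rfl, h2 _ _ hne.symm hne'⟩
  by_cases e : c = o₀
  · have h5 : ReflTransGen (R A t') β (i₀, y) :=
      h1.elim (R0_mono h) fun ⟨d, d1, d2, d3⟩ => (h4 d d2 d1).trans (R0_mono h d3)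
    exact h5.tail ⟨hc, rfl, e ▸ h3⟩
  · exact h4 c hc e

theorem start {W T : V → Prop} {I O : V → Finset V} (hA : Al A (fun _ _ _ => True) β)
    (hβ : ∀ w, ¬A w β.1) (hY : ∀ v, W v ∨ T v →
      (∀ a ∈ I v, A a v) ∧ (∀ b ∈ O v, A v b) ∧ 2 ≤ #(I v) ∧ 2 ≤ #(O v)) (P : Finset V) :
    ∃ i o : V → V, (∀ v ∈ P, W v ∨ T v → i v ∈ I v ∧ o v ∈ O v) ∧
      Al A (tr (fun v => W v ∧ v ∈ P) (fun v => T v ∧ v ∈ P) i o) β := by
  induction P using Finset.induction_on with
  | empty =>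
    refine ⟨id, id, by simp, fun u w h => mono (hA u w h) fun _ _ q => ⟨q.1, q.2.1, ?_⟩⟩
    simp [tr]
  | insert y P hy ih =>
    obtain ⟨i, o, h1, h2⟩ := ih
    by_cases hv : W y ∨ T y
    · obtain ⟨a1, a2, a3, a4⟩ := hY y hv
      obtain ⟨i₀, hi, o₀, ho, h⟩ := step h2 hβ a1 a2 a3 a4
      refine ⟨Function.update i y i₀, Function.update o y o₀, fun v hv' hv'' => ?_,
        h _ (fun a u b hu q => ?_) (fun a b ha hb => ?_) ?_⟩
      · by_cases e : v = y
        · subst e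
          simpa using ⟨hi, ho⟩
        · simpa [e] using h1 v ((mem_insert.1 hv').resolve_left e) hv''
      · simpa [tr, hu] using q
      · simp [tr, ha, hb]
      · simpa [tr] using fun h => by tauto
    · refine ⟨i, o, fun v hv' hv'' => h1 v ((mem_insert.1 hv').resolve_left ?_) hv'', ?_⟩
      · rintro rfl
        exact hv hv''
      · have e1 : (fun v => W v ∧ v ∈ insert y P) = fun v => W v ∧ v ∈ P := by
          funext v
          refine propext (and_congr_right fun h => mem_insert.trans (or_iff_right ?_))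
          rintro rfl
          exact hv (.inl h)
        have e2 : (fun v => T v ∧ v ∈ insert y P) = fun v => T v ∧ v ∈ P := by
          funext v
          refine propext (and_congr_right fun h => mem_insert.trans (or_iff_right ?_))
          rintro rfl
          exact hv (.inr h)
        rwa [e1, e2]

section Chain

variable {Y : V → Prop} {i o : V → V}

theorem uniq_start {s s' x : V × V} (hs : ¬(Y s.1 ∧ s.2 = o s.1)) (hs' : ¬(Y s'.1 ∧ s'.2 = o s'.1))
    (p : ReflTransGen (Nxt Y i o) s x) (p' : ReflTransGen (Nxt Y i o) s' x) : s = s' := by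
  induction p with
  | refl =>
    rcases p'.cases_tail with h | ⟨c, -, q⟩
    · exact h
    · exact (hs (by rw [q.2.2]; exact ⟨q.1, rfl⟩)).elim
  | @tail c x _ q ih =>
    rcases p'.cases_tail with h | ⟨c', a, q'⟩
    · exact (hs' (by rw [← h, q.2.2]; exact ⟨q.1, rfl⟩)).elim
    · have e : c'.2 = c.2 := congrArg Prod.fst (q'.2.2.symm.trans q.2.2)
      exact ih (by rwa [show c = c' from Prod.ext (by rw [q.2.1, q'.2.1, e]) e.symm])

theorem uniq_end {s e e' : V × V} (he : ¬(Y e.2 ∧ e.1 = i e.2)) (he' : ¬(Y e'.2 ∧ e'.1 = i e'.2))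
    (p : ReflTransGen (Nxt Y i o) s e) (p' : ReflTransGen (Nxt Y i o) s e') : e = e' := by
  rcases ReflTransGen.total_of_right_unique (fun _ _ _ a b => a.2.2.trans b.2.2.symm) p p' with h | h
  · rcases h.cases_head with h | ⟨c, q, -⟩
    · exact h
    · exact (he ⟨q.1, q.2.1⟩).elim
  · rcases h.cases_head with h | ⟨c, q, -⟩
    · exact h.symm
    · exact (he' ⟨q.1, q.2.1⟩).elim

theorem chain {s x : V × V} (he : ¬(Y (o y) ∧ y = i (o y))) (p : ReflTransGen (Nxt Y i o) s x)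
    (hx : x ≠ (y, o y)) : ReflTransGen (fun a b => Nxt Y i o a b ∧ a.2 ≠ y) s x := by
  induction p with
  | refl => exact .refl
  | @tail c x _ q ih =>
    refine (ih ?_).tail ⟨q, fun e => hx (by rw [q.2.2, e])⟩
    rintro rfl
    exact he ⟨q.1, q.2.1⟩

end Chain

theorem rooted {W T : V → Prop} {i o : V → V} (hl : ∀ v, ¬A v v) (hβ : ∀ w, ¬A w β.1)
    (hio : ∀ v, W v ∨ T v → A (i v) v ∧ A v (o v)) (hA : Al A (tr W T i o) β) (hy : W y ∨ T y)
    (he : ¬((W (o y) ∨ T (o y)) ∧ y = i (o y))) {c o₁ : V} (hc : A (o y) c)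
    (hs : ¬((W (o y) ∨ T (o y)) ∧ c = o (o y)))
    (p : ReflTransGen (fun a b => Nxt (fun v => W v ∨ T v) i o a b ∧ a.2 ≠ y) (o y, c) (i y, y))
    (h1 : A y o₁) (hne : o₁ ≠ o y) : Al A (tr W T i (Function.update o y o₁)) β := by
  have hp : o y ≠ y := fun e => hl y (by simpa only [e] using (hio y hy).2)
  have hb : β.1 ≠ y := fun e => hβ _ (e ▸ (hio y hy).1)
  have h : ∀ a u b, u ≠ y → tr W T i o a u b → tr W T i (Function.update o y o₁) a u b :=
    fun a u b hu q => by simpa [tr, hu] using q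
  have hS : ∀ a b, Nxt (fun v => W v ∨ T v) i o a b ∧ a.2 ≠ y → R0 A (tr W T i o) y a b := by
    rintro a b ⟨⟨q1, q2, rfl⟩, q3⟩
    exact ⟨⟨(hio _ q1).2, rfl, fun _ => q2, fun e => (e ⟨q1, rfl⟩).elim⟩, q3⟩
  have hlast : tr W T i (Function.update o y o₁) (i y) y o₁ :=
    ⟨fun _ => rfl, fun e => (e ⟨hy, by simp⟩).elim⟩
  refine key hA h fun b hb' => ?_
  by_cases hτ : ∃ τ, τ ≠ i y ∧ ReflTransGen (R0 A (tr W T i o) y) β (τ, y)
  · obtain ⟨τ, t1, t2⟩ := hτ
    have h4 : ∀ b, A y b → b ≠ o₁ →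
        ReflTransGen (R A (tr W T i (Function.update o y o₁))) β (y, b) := fun b q q' =>
      (R0_mono h t2).tail ⟨q, rfl, by simp [tr, q', t1]⟩
    by_cases e : b = o₁
    · refine (((h4 _ (hio y hy).2 hne.symm).tail (c := (o y, c)) ⟨hc, rfl, h _ _ _ hp
        ⟨fun q => (hs q).elim, fun _ q => he ⟨.inl q.1, q.2⟩⟩⟩).trans
        (R0_mono h (mono p hS))).tail ⟨hb', rfl, e ▸ hlast⟩
    · exact h4 b hb' e
  · have hτ' : ∀ τ, ReflTransGen (R0 A (tr W T i o) y) β (τ, y) → τ = i y := fun τ q =>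
      of_not_not fun e => hτ ⟨τ, e, q⟩
    obtain ⟨τ, t2⟩ := first hb (hA _ _ h1)
    rw [hτ' τ t2] at t2
    by_cases hW : W y
    swap
    · refine (R0_mono h t2).tail ⟨hb', rfl, fun _ => rfl, fun _ q => hW q.1⟩
    exfalso
    have back : ∀ x, ReflTransGen (fun a b => Nxt (fun v => W v ∨ T v) i o a b ∧ a.2 ≠ y)
        (o y, c) x → ReflTransGen (R0 A (tr W T i o) y) β x →
        ReflTransGen (R0 A (tr W T i o) y) β (o y, c) := by
      intro x q
      induction q with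
      | refl => exact id
      | @tail a x _ q ih =>
        obtain ⟨⟨q1, q2, rfl⟩, -⟩ := q
        intro r
        rcases r.cases_tail with e | ⟨a', r1, r2⟩
        · exact (hβ (i a.2) (by rw [← e]; exact (hio _ q1).1)).elim
        · exact ih (by
            rwa [show a = a' from Prod.ext (q2.trans (r2.1.2.2.1 ⟨q1, rfl⟩).symm) r2.1.2.1.symm])
    have free : ∀ b, A (o y) b → ¬((W (o y) ∨ T (o y)) ∧ b = o (o y)) →
        ReflTransGen (R0 A (tr W T i o) y) β (o y, b) := by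
      intro b q1 q2
      rcases (back _ p t2).cases_tail with e | ⟨a, r1, r2⟩
      · exact (hβ y (by rw [← e]; exact (hio y hy).2)).elim
      · exact r1.tail ⟨⟨q1, r2.1.2.1, fun q => (q2 q).elim, fun _ => r2.1.2.2.2 hs⟩, hp⟩
    have closed : ∀ x, ReflTransGen (R A (tr W T i o)) β x →
        ReflTransGen (R0 A (tr W T i o) y) β x ∨ x = (y, o y) := by
      intro x q
      induction q with
      | refl => exact .inl .refl
      | @tail a x _ q ih =>
        obtain ⟨a1, a2⟩ := a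
        obtain ⟨x1, x2⟩ := x
        obtain ⟨q1, q2, q3⟩ := q
        dsimp only at q1 q2 q3
        subst q2
        rcases ih with r | r
        · by_cases e : a2 = y
          · subst e
            refine .inr (Prod.ext rfl (of_not_not fun e => ?_))
            exact q3.2 (fun q => e q.2) ⟨hW, hτ' _ r⟩
          · exact .inl (r.tail ⟨⟨q1, rfl, q3⟩, e⟩)
        · obtain ⟨rfl, rfl⟩ := Prod.mk.inj r
          exact .inl (free _ q1 fun q => he ⟨q.1, q3.1 q⟩)
    rcases closed _ (hA _ _ h1) with r | r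
    · exact R0_ne hb r rfl
    · exact hne (Prod.mk.inj r).2

variable [Fintype V]

/-- Start arcs whose chain returns. -/
noncomputable def RS (A : V → V → Prop) (Y : V → Prop) (i o : V → V) : Finset (V × V) :=
  univ.filter fun s => A s.1 s.2 ∧ ¬(Y s.1 ∧ s.2 = o s.1) ∧
    ∃ e, ReflTransGen (Nxt Y i o) s e ∧ ¬(Y e.2 ∧ e.1 = i e.2) ∧ e.2 = s.1

/-- The chain of an arc. -/
noncomputable def Cn (Y : V → Prop) (i o : V → V) (s : V × V) : Finset (V × V) :=
  univ.filter (ReflTransGen (Nxt Y i o) s)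

theorem mem_RS {Y : V → Prop} {i o : V → V} {s : V × V} : s ∈ RS A Y i o ↔
    A s.1 s.2 ∧ ¬(Y s.1 ∧ s.2 = o s.1) ∧
      ∃ e, ReflTransGen (Nxt Y i o) s e ∧ ¬(Y e.2 ∧ e.1 = i e.2) ∧ e.2 = s.1 :=
  mem_filter.trans (and_iff_right (mem_univ _))

theorem mem_Cn {Y : V → Prop} {i o : V → V} {s x : V × V} :
    x ∈ Cn Y i o s ↔ ReflTransGen (Nxt Y i o) s x := mem_filter.trans (and_iff_right (mem_univ _))

theorem improve {W T : V → Prop} {i o : V → V} {O : V → Finset V} (hl : ∀ v, ¬A v v)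
    (hβ : ∀ w, ¬A w β.1) (hi : ∀ v, W v ∨ T v → A (i v) v ∧ (∀ b ∈ O v, A v b) ∧ 2 ≤ #(O v))
    (ho : ∀ v, W v ∨ T v → o v ∈ O v) (hA : Al A (tr W T i o) β) {s : V × V}
    (hs : s ∈ RS A (fun v => W v ∨ T v) i o) :
    ∃ o', (∀ v, W v ∨ T v → o' v ∈ O v) ∧ Al A (tr W T i o') β ∧
      RS A (fun v => W v ∨ T v) i o' ⊆ RS A (fun v => W v ∨ T v) i o ∧
      (s ∈ RS A (fun v => W v ∨ T v) i o' →
        #(Cn (fun v => W v ∨ T v) i o s) < #(Cn (fun v => W v ∨ T v) i o' s)) := by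
  have hio : ∀ v, W v ∨ T v → A (i v) v ∧ A v (o v) := fun v h =>
    ⟨(hi v h).1, (hi v h).2.1 _ (ho v h)⟩
  obtain ⟨s1, s2, e, p, he, hret⟩ := mem_RS.1 hs
  rcases p.cases_tail with rfl | ⟨⟨a, y⟩, p', hy, ha, rfl⟩
  · exact (hl _ (hret ▸ s1)).elim
  dsimp only at hy ha he hret p
  subst ha
  obtain ⟨s0, c⟩ := s
  dsimp only at hret s1 s2
  subst hret
  have hp : o y ≠ y := fun e => hl y (by simpa only [e] using (hio y hy).2)
  obtain ⟨o₁, h1, hne⟩ := other (hi y hy).2.2 (o y)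
  have pc := chain he p' fun e => hp (Prod.mk.inj e).2.symm
  have hS : ∀ a b, Nxt (fun v => W v ∨ T v) i o a b ∧ a.2 ≠ y →
      Nxt (fun v => W v ∨ T v) i (Function.update o y o₁) a b := fun a b q =>
    ⟨q.1.1, q.1.2.1, by rw [Function.update_of_ne q.2]; exact q.1.2.2⟩
  have s2' : ¬((W (o y) ∨ T (o y)) ∧ c = Function.update o y o₁ (o y)) := by
    rwa [Function.update_of_ne hp]
  refine ⟨Function.update o y o₁, fun v hv => ?_,
    rooted hl hβ hio hA hy he s1 s2 pc ((hi y hy).2.1 _ h1) hne, fun s' hs' => ?_, fun hs' => ?_⟩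
  · by_cases e : v = y
    · rwa [e, Function.update_self]
    · rw [Function.update_of_ne e]
      exact ho v hv
  · by_cases e : s' = (o y, c)
    · rwa [e]
    obtain ⟨r1, r2, e', q, he', hret'⟩ := mem_RS.1 hs'
    refine mem_RS.2 ⟨r1, fun r => ?_, e', ?_, he', hret'⟩
    · by_cases e1 : s'.1 = y
      · have e2 : s' = (y, o y) := Prod.ext e1 (by rw [r.2, e1])
        rw [e2] at q hret'
        rw [uniq_end he' he q .refl] at hret'
        exact hp hret'
      · exact r2 ⟨r.1, by rw [Function.update_of_ne e1]; exact r.2⟩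
    · clear he' hret'
      induction q with
      | refl => exact .refl
      | @tail a b q0 q ih =>
        have e1 : a.2 ≠ y := fun e1 => e (uniq_start r2 s2' q0 (by
          rw [show a = (i y, y) from Prod.ext (by rw [q.2.1, e1]) e1]
          exact mono pc hS))
        exact ih.tail ⟨q.1, q.2.1, by rw [q.2.2, Function.update_of_ne e1]⟩
  · obtain ⟨-, -, e', q, he', hret'⟩ := mem_RS.1 hs'
    have m1 : (y, o y) ∈ Cn (fun v => W v ∨ T v) i o (o y, c) := mem_Cn.2 p
    have n1 : e' ∉ (Cn (fun v => W v ∨ T v) i o (o y, c)).erase (y, o y) := fun h =>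
      (mem_erase.1 h).1 (uniq_end he' he (mem_Cn.1 (mem_erase.1 h).2) p)
    have n2 : (y, o₁) ∉ insert e' ((Cn (fun v => W v ∨ T v) i o (o y, c)).erase (y, o y)) := by
      intro h
      rcases mem_insert.1 h with h | h
      · rw [← h] at hret'
        exact hne hret'
      · have := uniq_start (s' := (y, o₁)) s2 (fun r => hne r.2)
          (mem_Cn.1 (mem_erase.1 h).2) .refl
        exact hp (Prod.mk.inj this).1
    have sub : insert (y, o₁) (insert e' ((Cn (fun v => W v ∨ T v) i o (o y, c)).erase (y, o y))) ⊆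
        Cn (fun v => W v ∨ T v) i (Function.update o y o₁) (o y, c) := by
      intro x hx
      refine mem_Cn.2 ?_
      rcases mem_insert.1 hx with rfl | hx
      · exact (mono pc hS).tail ⟨hy, rfl, by simp⟩
      rcases mem_insert.1 hx with rfl | hx
      · exact q
      · exact mono (chain he (mem_Cn.1 (mem_erase.1 hx).2) (mem_erase.1 hx).1) hS
    have c1 := card_le_card sub
    rw [card_insert_of_notMem n2, card_insert_of_notMem n1, card_erase_of_mem m1] at c1
    have c2 := card_pos.2 ⟨_, m1⟩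
    omega

end Exc

open Exc in
theorem exc : SExc := by
  intro V _ A β W T I O hl _ hβ hR _ hY
  have hY' : ∀ v, W v ∨ T v →
      (∀ a ∈ I v, A a v) ∧ (∀ b ∈ O v, A v b) ∧ 2 ≤ #(I v) ∧ 2 ≤ #(O v) := fun v h =>
    ⟨fun a ha => (mem_filter.1 ((hY v h).1 ha)).2, fun b hb => (mem_filter.1 ((hY v h).2.1 hb)).2,
      (hY v h).2.2⟩
  obtain ⟨i, o, h1, h2⟩ := start (fun u w h => mono (hR u w h) fun _ _ q => ⟨q.1, q.2.1, trivial⟩)
    hβ hY' univ
  simp only [mem_univ, and_true, forall_true_left] at h1 h2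
  have hi : ∀ v, W v ∨ T v → A (i v) v ∧ (∀ b ∈ O v, A v b) ∧ 2 ≤ #(O v) := fun v h =>
    ⟨(hY' v h).1 _ (h1 v h).1, (hY' v h).2.1, (hY' v h).2.2.2⟩
  have main : ∀ (m : ℕ) (o : V → V) (s : V × V), (∀ v, W v ∨ T v → o v ∈ O v) →
      Al A (tr W T i o) β → s ∈ RS A (fun v => W v ∨ T v) i o →
      #(RS A (fun v => W v ∨ T v) i o) * (Fintype.card (V × V) + 1) +
        (Fintype.card (V × V) - #(Cn (fun v => W v ∨ T v) i o s)) = m →
      ∃ o', (∀ v, W v ∨ T v → o' v ∈ O v) ∧ Al A (tr W T i o') β ∧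
        RS A (fun v => W v ∨ T v) i o' = ∅ := by
    intro m
    induction m using Nat.strong_induction_on with
    | _ m ih =>
      intro o s a1 a2 a3 a4
      obtain ⟨o', b1, b2, b3, b4⟩ := improve hl hβ hi a1 a2 a3
      by_cases e : s ∈ RS A (fun v => W v ∨ T v) i o'
      · refine ih _ ?_ o' s b1 b2 e rfl
        have c1 := Nat.mul_le_mul_right (Fintype.card (V × V) + 1) (card_le_card b3)
        have c2 := b4 e
        have c3 := card_le_univ (Cn (fun v => W v ∨ T v) i o' s)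
        omega
      · rcases (RS A (fun v => W v ∨ T v) i o').eq_empty_or_nonempty with h | ⟨s', h⟩
        · exact ⟨o', b1, b2, h⟩
        · refine ih _ ?_ o' s' b1 b2 h rfl
          have c1 := Nat.mul_le_mul_right (Fintype.card (V × V) + 1)
            (Nat.succ_le_of_lt (card_lt_card ((ssubset_iff_of_subset b3).2 ⟨s, a3, e⟩)))
          rw [Nat.succ_mul] at c1
          omega
  have fin : ∃ o', (∀ v, W v ∨ T v → o' v ∈ O v) ∧ Al A (tr W T i o') β ∧
      RS A (fun v => W v ∨ T v) i o' = ∅ := by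
    rcases (RS A (fun v => W v ∨ T v) i o).eq_empty_or_nonempty with h | ⟨s, h⟩
    · exact ⟨o, fun v hv => (h1 v hv).2, h2, h⟩
    · exact main _ o s (fun v hv => (h1 v hv).2) h2 h rfl
  obtain ⟨o', b1, b2, b3⟩ := fin
  refine ⟨i, o', fun v hv => ⟨(h1 v hv).1, b1 v hv⟩, ?_, fun s e a1 a2 a3 a4 a5 => ?_⟩
  · rw [Rt, Tr_cfg]
    exact b2
  · exact notMem_empty s (b3 ▸ mem_RS.2 ⟨a1, a2, e, a3, a4, a5⟩)

end Pool.Agent.MP_d1f1f3_co.H47
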