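import Pool.Agent.MP_d1f1f3_co.H47.Spec

/-!
A tree of arcs in which all but one of the arcs into a vertex have exactly one follower.
-/

namespace Pool.Agent.MP_d1f1f3_co.H47

open Finset Relation
open scoped Classical

namespace Tree

/-- Paths of a given length. -/
def Len {α : Type} (r : α → α → Prop) (β : α) : ℕ → α → Prop
  | 0, e => e = β
  | n + 1, e => ∃ d, Len r β n d ∧ r d e

theorem len_of {α : Type} {r : α → α → Prop} {β e : α} (h : ReflTransGen r β e) :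
    ∃ n, Len r β n e := by
  induction h with
  | refl => exact ⟨0, rfl⟩
  | tail _ k ih =>
    obtain ⟨n, hn⟩ := ih
    exact ⟨n + 1, _, hn, k⟩

theorem of_len {α : Type} {r : α → α → Prop} {β : α} : ∀ {n : ℕ} {e : α}, Len r β n e →
    ReflTransGen r β e
  | 0, _, h => h ▸ ReflTransGen.refl
  | _ + 1, _, ⟨_, h, k⟩ => (of_len h).tail k

theorem rank {α : Type} (r : α → α → Prop) (β : α) : ∃ rk : α → ℕ, ∀ e, ReflTransGen r β e →
    e ≠ β → ∃ d, ReflTransGen r β d ∧ r d e ∧ rk d < rk e := by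
  refine ⟨fun e => if h : ∃ n, Len r β n e then Nat.find h else 0, fun e he hne => ?_⟩
  have h := len_of he
  have h1 := Nat.find_spec h
  rcases hn : Nat.find h with _ | n
  · rw [hn] at h1
    exact absurd h1 hne
  · rw [hn] at h1
    obtain ⟨d, h2, h3⟩ := h1
    have h4 : ∃ n, Len r β n d := ⟨n, h2⟩
    refine ⟨d, of_len h2, h3, ?_⟩
    simp only [dif_pos h, dif_pos h4, hn]
    exact Nat.lt_succ_of_le (Nat.find_min' h4 h2)

variable {V : Type} {A : V → V → Prop} {β : V × V} {W T : V → Prop} {i o : V → V} {s : St V}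
  {v a b : V}

/-- The invariant of the states. -/
structure Inv (A : V → V → Prop) (β : V × V) (W T : V → Prop) (i o : V → V) (s : St V) :
    Prop where
  rt : Rt A s β
  one : ∀ v a, s.sat v a → A a v ∧ ∃ b, s.pa v b = some a ∧ ∀ b', s.pa v b' = some a → b' = b
  pa : ∀ v b a, s.pa v b = some a → A v b ∧ (s.sat v a ∨ (T v ∧ a = i v ∧ b = o v))
  tt : ∀ v, T v → s.pa v (o v) = some (i v) ∧ ¬s.sat v (i v)
  ww : ∀ v, W v → s.sat v (i v) ∧ s.pa v (o v) = some (i v)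

/-- The arc `v b` becomes the only follower of the arc `a v`. -/
noncomputable def con (s : St V) (v a b : V) : St V :=
  ⟨fun x y => if x = v ∧ y = b then some a else s.pa x y, fun x y => s.sat x y ∨ (x = v ∧ y = a)⟩

/-- Transitions that do not enter a free arc out of `v`. -/
def Tr0 (A : V → V → Prop) (s : St V) (v : V) (e f : V × V) : Prop :=
  Tr A s e f ∧ ¬(f.1 = v ∧ s.pa v f.2 = none)

theorem tr0_con (hb : s.pa v b = none) {e f : V × V} (h : Tr0 A s v e f) :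
    Tr A (con s v a b) e f := by
  obtain ⟨⟨h1, h2, h3⟩, h4⟩ := h
  have k : ¬(f.1 = v ∧ f.2 = b) := fun k => h4 ⟨k.1, k.2 ▸ hb⟩
  refine ⟨h1, h2, ?_⟩
  simp only [con, if_neg k]
  refine h3.imp id fun k' => ⟨k'.1, ?_⟩
  rintro (k'' | ⟨k'', -⟩)
  · exact k'.2 k''
  · exact h4 ⟨k'', k'' ▸ k'.1⟩

theorem reach_con (hb : s.pa v b = none) {e f : V × V} (h : ReflTransGen (Tr0 A s v) e f) :
    ReflTransGen (Tr A (con s v a b)) e f := by
  induction h with
  | refl => exact ReflTransGen.refl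
  | tail _ k ih => exact ih.tail (tr0_con hb k)

/-- Every arc is reached with at most one free arc out of `v`. -/
theorem one_out {e : V × V} (h : ReflTransGen (Tr A s) β e) : ReflTransGen (Tr0 A s v) β e ∨
    ∃ c, A v c ∧ s.pa v c = none ∧ ReflTransGen (Tr0 A s v) (v, c) e := by
  induction h with
  | refl => exact Or.inl ReflTransGen.refl
  | @tail d f _ k ih =>
    by_cases h : f.1 = v ∧ s.pa v f.2 = none
    · refine Or.inr ⟨f.2, h.1 ▸ k.1, h.2, ?_⟩
      rw [← h.1]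
    · exact ih.imp (fun k' => k'.tail ⟨k, h⟩) fun ⟨c, k1, k2, k3⟩ => ⟨c, k1, k2, k3.tail ⟨k, h⟩⟩

theorem arc_of {r : V × V → V × V → Prop} (hβ : A β.1 β.2) (hr : ∀ e f, r e f → A f.1 f.2)
    {e : V × V} (h : ReflTransGen r β e) : A e.1 e.2 := by
  cases h with
  | refl => exact hβ
  | tail _ k => exact hr _ _ k

/-- The first arrival. -/
theorem first (hβ : A β.1 β.2) {e : V × V} (h : ReflTransGen (Tr A s) β e) :
    ReflTransGen (Tr0 A s v) β e ∨
      ∃ τ, A τ v ∧ ¬s.sat v τ ∧ ReflTransGen (Tr0 A s v) β (τ, v) := by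
  induction h with
  | refl => exact Or.inl ReflTransGen.refl
  | @tail d f _ k ih =>
    rcases ih with ih | ih
    · by_cases h : f.1 = v ∧ s.pa v f.2 = none
      · obtain ⟨h1, h2, h3⟩ := k
        have e : d = (d.1, v) := Prod.ext rfl (h2.trans h.1)
        rw [h.1, h.2] at h3
        refine Or.inr ⟨d.1, ?_, (h3.resolve_left (by simp)).2, e ▸ ih⟩
        have := arc_of hβ (fun _ _ k => k.1.1) ih
        rwa [h2, h.1] at this
      · exact Or.inl (ih.tail ⟨k, h⟩)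
    · exact Or.inr ih

theorem tr_own (hb : A v b) : Tr A (con s v a b) (a, v) (v, b) :=
  ⟨hb, rfl, Or.inl (by simp [con])⟩

theorem tr_other {c d : V} (hd : A v d) (h0 : s.pa v d = none) (hne : d ≠ b) (hc : ¬s.sat v c)
    (hca : c ≠ a) : Tr A (con s v a b) (c, v) (v, d) :=
  ⟨hd, rfl, Or.inr (by simp [con, hne, h0, hc, hca])⟩

theorem inv_con (h : Inv A β W T i o s) (ha : A a v) (hs : ¬s.sat v a) (hT : ¬(T v ∧ a = i v))
    (hb : A v b) (h0 : s.pa v b = none) (h1 : ReflTransGen (Tr A (con s v a b)) β (a, v))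
    (h2 : (∀ d, A v d → s.pa v d = none → d = b) ∨ ∃ c, ¬s.sat v c ∧ c ≠ a ∧
      ReflTransGen (Tr A (con s v a b)) β (c, v)) : Inv A β W T i o (con s v a b) := by
  have keep : ∀ {x y z}, s.pa x y = some z → (con s v a b).pa x y = some z := fun {x y z} k => by
    have : ¬(x = v ∧ y = b) := by
      rintro ⟨rfl, rfl⟩
      simp [h0] at k
    simp only [con, if_neg this, k]
  have back : ∀ {x y z}, (con s v a b).pa x y = some z →
      (x = v ∧ y = b ∧ z = a) ∨ s.pa x y = some z := fun {x y z} k => by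
    by_cases c : x = v ∧ y = b
    · simp only [con, if_pos c, Option.some.injEq] at k
      exact Or.inl ⟨c.1, c.2, k.symm⟩
    · simp only [con, if_neg c] at k
      exact Or.inr k
  refine ⟨fun u w k => ?_, ?_, fun x y z k => ?_, fun x k => ⟨keep (h.tt x k).1, ?_⟩,
    fun x k => ⟨Or.inl (h.ww x k).1, keep (h.ww x k).2⟩⟩
  · rcases one_out (v := v) (h.rt u w k) with k' | ⟨d, k1, k2, k3⟩
    · exact reach_con h0 k'
    · refine ReflTransGen.trans ?_ (reach_con h0 k3)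
      by_cases e : d = b
      · exact e ▸ h1.tail (tr_own hb)
      · obtain ⟨c, c1, c2, c3⟩ := h2.resolve_left fun k' => e (k' d k1 k2)
        exact c3.tail (tr_other k1 k2 e c1 c2)
  · rintro x y (k | ⟨rfl, rfl⟩)
    · obtain ⟨k1, d, k2, k3⟩ := h.one x y k
      refine ⟨k1, d, keep k2, fun d' k' => ?_⟩
      rcases back k' with ⟨rfl, -, rfl⟩ | k'
      · exact absurd k hs
      · exact k3 d' k'
    · refine ⟨ha, b, by simp [con], fun d' k' => ?_⟩
      rcases back k' with ⟨-, k', -⟩ | k'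
      · exact k'
      · rcases (h.pa _ _ _ k').2 with k'' | k''
        · exact absurd k'' hs
        · exact absurd ⟨k''.1, k''.2.1⟩ hT
  · rcases back k with ⟨rfl, rfl, rfl⟩ | k
    · exact ⟨hb, Or.inl (Or.inr ⟨rfl, rfl⟩)⟩
    · exact ⟨(h.pa x y z k).1, (h.pa x y z k).2.imp Or.inl id⟩
  · rintro (k' | ⟨rfl, k'⟩)
    · exact (h.tt x k).2 k'
    · exact hT ⟨k, k'.symm⟩

variable [Fintype V]

/-- There are enough free arcs out of `v`. -/
theorem count (h : Inv A β W T i o s) :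
    #(Out A v) + #((Inn A v).filter fun a => ¬s.sat v a) ≤
      #((Out A v).filter fun b => s.pa v b = none) + #(Inn A v) + if T v then 1 else 0 := by
  have e1 := card_filter_add_card_filter_not (s := Out A v) fun b => s.pa v b = none
  have e2 := card_filter_add_card_filter_not (s := Inn A v) fun a => s.sat v a
  have e3 : #((Out A v).filter fun b => ¬s.pa v b = none) ≤
      #(((Inn A v).filter fun a => s.sat v a) ∪ if T v then {i v} else ∅) := by
    refine card_le_card_of_injOn (fun b => (s.pa v b).getD v) (fun b hb => ?_) fun b hb b' hb' e => ?_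
    · obtain ⟨a, ha⟩ := Option.ne_none_iff_exists'.1 (mem_filter.1 hb).2
      simp only [ha, Option.getD_some, coe_union, Set.mem_union, mem_coe]
      rcases (h.pa v b a ha).2 with k | k
      · exact Or.inl (mem_filter.2 ⟨mem_filter.2 ⟨mem_univ _, (h.one v a k).1⟩, k⟩)
      · exact Or.inr (by simp [k.1, k.2.1])
    · obtain ⟨a, ha⟩ := Option.ne_none_iff_exists'.1 (mem_filter.1 hb).2
      obtain ⟨a', ha'⟩ := Option.ne_none_iff_exists'.1 (mem_filter.1 hb').2
      simp only [ha, ha', Option.getD_some] at e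
      subst e
      by_cases k : s.sat v a
      · obtain ⟨-, d, -, k3⟩ := h.one v a k
        rw [k3 b ha, k3 b' ha']
      · rw [((h.pa v b a ha).2.resolve_left k).2.2, ((h.pa v b' a ha').2.resolve_left k).2.2]
  have e4 := card_union_le ((Inn A v).filter fun a => s.sat v a) (if T v then {i v} else ∅)
  have e5 : #(if T v then {i v} else ∅ : Finset V) = if T v then 1 else 0 := by
    split_ifs <;> simp
  omega

theorem step (hβ : A β.1 β.2) (hβ' : ∀ w, ¬A w β.1) (h : Inv A β W T i o s)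
    (hC : #(Inn A v) ≤ #(Out A v) + 1) (hT : T v → #(Inn A v) < #(Out A v) ∧ A (i v) v) {x y : V}
    (hx : A x v) (hx' : ¬s.sat v x) (hy : A y v) (hy' : ¬s.sat v y) (hne : x ≠ y) :
    ∃ a b, ¬s.sat v a ∧ Inv A β W T i o (con s v a b) := by
  have c1 := count (v := v) h
  have c2 : 1 < #((Inn A v).filter fun a => ¬s.sat v a) := one_lt_card.2
    ⟨x, by simp [Inn, hx, hx'], y, by simp [Inn, hy, hy'], hne⟩
  have mem : ∀ {b}, b ∈ (Out A v).filter (fun b => s.pa v b = none) ↔ A v b ∧ s.pa v b = none :=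
    fun {b} => by simp [Out]
  have c3 : 0 < #((Out A v).filter fun b => s.pa v b = none) := by
    by_cases k : T v
    · have := (hT k).1
      rw [if_pos k] at c1
      omega
    · rw [if_neg k] at c1
      omega
  obtain ⟨b0, hb0⟩ := card_pos.1 c3
  obtain ⟨b1, b2⟩ := mem.1 hb0
  obtain ⟨τ, t1, t2, t3⟩ : ∃ τ, A τ v ∧ ¬s.sat v τ ∧ ReflTransGen (Tr0 A s v) β (τ, v) := by
    refine (first hβ (h.rt v b0 b1)).resolve_left fun k => ?_
    rcases k.cases_tail with k | ⟨_, -, k⟩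
    · exact hβ' x (k ▸ hx)
    · exact k.2 ⟨rfl, b2⟩
  by_cases f1 : ∀ d, A v d → s.pa v d = none → d = b0
  · have : #((Out A v).filter fun b => s.pa v b = none) ≤ 1 :=
      card_le_one.2 fun d hd d' hd' => by
        rw [f1 d (mem.1 hd).1 (mem.1 hd).2, f1 d' (mem.1 hd').1 (mem.1 hd').2]
    refine ⟨τ, b0, t2, inv_con h t1 t2 (fun k => ?_) b1 b2 (reach_con b2 t3) (Or.inl f1)⟩
    have := (hT k.1).1
    rw [if_pos k.1] at c1
    omega
  push Not at f1
  obtain ⟨b0', b1', b2', bne⟩ := f1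
  by_cases f2 : ∃ a, A a v ∧ ¬s.sat v a ∧ a ≠ τ ∧ ¬(T v ∧ a = i v)
  · obtain ⟨a, a1, a2, a3, a4⟩ := f2
    rcases one_out (v := v) (h.rt a v a1) with k | ⟨d, k1, k2, k3⟩
    · exact ⟨a, b0, a2, inv_con h a1 a2 a4 b1 b2 (reach_con b2 k)
        (Or.inr ⟨τ, t2, a3.symm, reach_con b2 t3⟩)⟩
    · obtain ⟨b, e1, e2, e3⟩ : ∃ b, A v b ∧ s.pa v b = none ∧ d ≠ b := by
        by_cases e : d = b0
        · exact ⟨b0', b1', b2', e ▸ bne.symm⟩
        · exact ⟨b0, b1, b2, e⟩
      exact ⟨a, b, a2, inv_con h a1 a2 a4 e1 e2 (((reach_con e2 t3).tail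
        (tr_other k1 k2 e3 t2 a3.symm)).trans (reach_con e2 k3))
        (Or.inr ⟨τ, t2, a3.symm, reach_con e2 t3⟩)⟩
  · push Not at f2
    obtain ⟨k0, k1⟩ : T v ∧ i v ≠ τ := by
      by_cases e : x = τ
      · have := f2 y hy hy' (e ▸ hne.symm)
        exact ⟨this.1, this.2 ▸ e ▸ hne.symm⟩
      · have := f2 x hx hx' e
        exact ⟨this.1, this.2 ▸ e⟩
    have a4 : ¬(T v ∧ τ = i v) := fun k => k1 k.2.symm
    rcases one_out (v := v) (h.rt (i v) v (hT k0).2) with k | ⟨d, d1, d2, d3⟩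
    · exact ⟨τ, b0, t2, inv_con h t1 t2 a4 b1 b2 (reach_con b2 t3)
        (Or.inr ⟨i v, (h.tt v k0).2, k1, reach_con b2 k⟩)⟩
    · exact ⟨τ, d, t2, inv_con h t1 t2 a4 d1 d2 (reach_con d2 t3)
        (Or.inr ⟨i v, (h.tt v k0).2, k1,
          ((reach_con d2 t3).tail (tr_own d1)).trans (reach_con d2 d3)⟩)⟩

theorem final {C : V → Prop} (hβ : A β.1 β.2) (hβ' : ∀ w, ¬A w β.1)
    (hC : ∀ v, C v → #(Inn A v) ≤ #(Out A v) + 1)
    (hT : ∀ v, T v → #(Inn A v) < #(Out A v) ∧ A (i v) v) (s : St V) (h : Inv A β W T i o s) :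
    ∃ s, Inv A β W T i o s ∧ ∀ v, C v → ∀ x y, A x v → ¬s.sat v x → A y v → ¬s.sat v y →
      x = y := by
  induction n : #(univ.filter fun p : V × V => ¬s.sat p.1 p.2) using Nat.strong_induction_on
    generalizing s with
  | _ n ih =>
  by_cases k : ∀ v, C v → ∀ x y, A x v → ¬s.sat v x → A y v → ¬s.sat v y → x = y
  · exact ⟨s, h, k⟩
  push Not at k
  obtain ⟨v, hv, x, y, hx, hx', hy, hy', hne⟩ := k
  obtain ⟨a, b, ha, h'⟩ := step hβ hβ' h (hC v hv) (hT v) hx hx' hy hy' hne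
  refine ih _ ?_ _ h' rfl
  rw [← n]
  refine card_lt_card ⟨fun p hp => ?_, fun k => ?_⟩
  · exact mem_filter.2 ⟨mem_univ _, fun k => (mem_filter.1 hp).2 (Or.inl k)⟩
  · exact (mem_filter.1 (k (mem_filter.2 ⟨mem_univ (v, a), ha⟩))).2 (Or.inr ⟨rfl, rfl⟩)

end Tree

open H47.Tree in
theorem tree : STree := by
  intro V _ A β C W T i o _ hβ hβ' hR hWT hY hC hT
  have h0 : Inv A β W T i o (cfg W T i o) := by
    have back : ∀ {v b a}, (cfg W T i o).pa v b = some a → (W v ∨ T v) ∧ b = o v ∧ a = i v :=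
      fun {v b a} k => by
      by_cases c : (W v ∨ T v) ∧ b = o v
      · simp only [cfg, if_pos c, Option.some.injEq] at k
        exact ⟨c.1, c.2, k.symm⟩
      · simp [cfg, if_neg c] at k
    have fw : ∀ {v}, W v ∨ T v → (cfg W T i o).pa v (o v) = some (i v) := fun {v} k => by
      simp [cfg, k]
    refine ⟨hR, ?_, fun v b a k => ?_, fun v k => ⟨fw (Or.inr k), fun k' => hWT v k'.1 k⟩,
      fun v k => ⟨⟨k, rfl⟩, fw (Or.inl k)⟩⟩
    · rintro v a ⟨k, rfl⟩
      exact ⟨(hY v (Or.inl k)).2.1, o v, fw (Or.inl k), fun b' k' => (back k').2.1⟩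
    · obtain ⟨k1, rfl, rfl⟩ := back k
      exact ⟨(hY v k1).2.2, k1.imp (fun k' => ⟨k', rfl⟩) fun k' => ⟨k', rfl, rfl⟩⟩
  obtain ⟨s, h, hs⟩ := final hβ hβ' (fun v k => (hC v k).2)
    (fun v k => ⟨hT v k, (hY v (Or.inr k)).2.1⟩) _ h0
  obtain ⟨rk, hrk⟩ := rank (Tr A s) β
  have : ∀ v b, ∃ a, A v b → (v, b) ≠ β → A a v ∧ rk (a, v) < rk (v, b) ∧
      (s.pa v b = some a ∨ (s.pa v b = none ∧ ¬s.sat v a)) := fun v b => by
    by_cases k : A v b ∧ (v, b) ≠ β
    · obtain ⟨d, d1, d2, d3⟩ := hrk _ (h.rt v b k.1) k.2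
      have e : d = (d.1, v) := Prod.ext rfl d2.2.1
      have := arc_of hβ (fun _ _ k => k.1) d1
      rw [d2.2.1] at this
      exact ⟨d.1, fun _ _ => ⟨this, e ▸ d3, d2.2.2⟩⟩
    · exact ⟨v, fun k1 k2 => absurd ⟨k1, k2⟩ k⟩
  choose par hp using this
  refine ⟨par, fun a b => rk (a, b), fun v b k1 k2 => ⟨(hp v b k1 k2).1, (hp v b k1 k2).2.1⟩,
    fun v hv => ?_⟩
  obtain ⟨x, hx⟩ := card_pos.1 (hC v hv).1
  have hx' : A x v := (mem_filter.1 hx).2
  have nb : ∀ b, (v, b) ≠ β := fun b k => hβ' x (k ▸ hx')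
  have pr : ∀ {a b}, s.pa v b = some a → par v b = a := fun {a b} k => by
    rcases (hp v b (h.pa v b a k).1 (nb b)).2.2 with k' | k'
    · exact Option.some.inj (k'.symm.trans k)
    · simp [k'.1] at k
  have ch : ∀ {a b}, s.sat v a → s.pa v b = some a → Ch A par v a = {b} := fun {a b} k1 k2 => by
    obtain ⟨-, d, -, k3⟩ := h.one v a k1
    ext c
    simp only [Ch, Out, mem_filter, mem_univ, true_and, mem_singleton]
    refine ⟨fun ⟨c1, c2⟩ => ?_, fun c1 => c1 ▸ ⟨(h.pa v b a k2).1, pr k2⟩⟩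
    rcases (hp v c c1 (nb c)).2.2 with k' | k'
    · rw [k3 c (c2 ▸ k'), k3 b k2]
    · exact absurd (c2 ▸ k1) k'.2
  obtain ⟨sp, s1, s2⟩ : ∃ sp, A sp v ∧ ∀ a, A a v → ¬s.sat v a → a = sp := by
    by_cases k : ∃ a, A a v ∧ ¬s.sat v a
    · obtain ⟨a, a1, a2⟩ := k
      exact ⟨a, a1, fun c c1 c2 => hs v hv c a c1 c2 a1 a2⟩
    · exact ⟨x, hx', fun c c1 c2 => absurd ⟨c, c1, c2⟩ k⟩
  refine ⟨sp, s1, fun a a1 a2 => ?_, fun k => ch (h.ww v k).1 (h.ww v k).2, fun k =>
    ⟨(s2 _ (hY v (Or.inr k)).2.1 (h.tt v k).2).symm, pr (h.tt v k).1⟩⟩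
  have k : s.sat v a := by_contra fun k => a2 (s2 a a1 k)
  obtain ⟨-, b, k2, -⟩ := h.one v a k
  rw [ch k k2, card_singleton]

end Pool.Agent.MP_d1f1f3_co.H47
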