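import Pool.Agent.MP_d1f1f3_co.H47.K4bFin
import Pool.Agent.MP_d1f1f3_co.H33.Stm
import Pool.Agent.MP_d1f1f3_co.H2.Spec4

/-!
Four pairwise adjacent vertices of small degree are reducible.
-/

namespace Pool.Agent.MP_d1f1f3_co.H47

open Finset H33 Red
open scoped Classical

theorem K4b.four {V : Type} [Fintype V] {G : SimpleGraph V} {a b c d : V} (h : dg G a = 4) :
    ∃ e, G.Adj a e ∧ e ≠ b ∧ e ≠ c ∧ e ≠ d := by
  obtain ⟨e, he, hn⟩ := exists_mem_notMem_of_card_lt_card (s := {b, c, d}) (t := N G a)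
    (card_le_three.trans_lt (by rw [← dg, h]; norm_num))
  simp only [mem_insert, mem_singleton, not_or] at hn
  exact ⟨e, mem_N.1 he, hn⟩

theorem k4b {V : Type} [Fintype V] {G : SimpleGraph V} (ih : IH tp G) (h : H2.K4b G) :
    Star tp G ∧ Mai tp G := by
  obtain ⟨a, b, c, d, ab, ac, bc, ad, bd, cd, da, db, dc, d4, d6⟩ := h
  obtain ⟨a', aa, a1, a2, a3⟩ := K4b.four (b := b) (c := c) (d := d) da
  obtain ⟨b', bb, b1, b2, b3⟩ := K4b.four (b := a) (c := c) (d := d) db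
  obtain ⟨c', cc, c1, c2, c3⟩ := K4b.four (b := a) (c := b) (d := d) dc
  have ne : (a ≠ b ∧ a ≠ c ∧ a ≠ d ∧ b ≠ c ∧ b ≠ d ∧ c ≠ d ∧ b ≠ a ∧ c ≠ a ∧ d ≠ a ∧ c ≠ b ∧
      d ≠ b ∧ d ≠ c) ∧ (a' ≠ a ∧ a' ≠ b ∧ a' ≠ c ∧ a' ≠ d) ∧ (b' ≠ a ∧ b' ≠ b ∧ b' ≠ c ∧ b' ≠ d) ∧
      c' ≠ a ∧ c' ≠ b ∧ c' ≠ c ∧ c' ≠ d :=
    ⟨⟨ab.ne, ac.ne, ad.ne, bc.ne, bd.ne, cd.ne, ab.ne', ac.ne', ad.ne', bc.ne', bd.ne', cd.ne'⟩,
      ⟨aa.ne', a1, a2, a3⟩, ⟨b1, bb.ne', b2, b3⟩, c1, c2, cc.ne', c3⟩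
  have Na := N4 da ab ac ad aa bc.ne bd.ne a1.symm cd.ne a2.symm a3.symm
  have Nb := N4 db ab.symm bc bd bb ac.ne ad.ne b1.symm cd.ne b2.symm b3.symm
  have Nc := N4 dc ac.symm bc.symm cd cc ab.ne ad.ne c1.symm bd.ne c2.symm c3.symm
  set G' := md G {a, b, d} a b with hG
  have le : ∀ u w, G'.Adj u w → G.Adj u w := by
    rintro u w (h | ⟨-, ⟨rfl, rfl⟩ | ⟨rfl, rfl⟩⟩)
    exacts [h.1, ab, ab.symm]
  have gc : ∀ u, G.Adj c u → G'.Adj c u := fun u h => Or.inl ⟨h, by simp [ne]⟩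
  have gab : G'.Adj a b := Or.inr ⟨ab.ne, Or.inl ⟨rfl, rfl⟩⟩
  set S := N G d \ {a, b, c} with hS
  have sub : ({a, b, c} : Finset V) ⊆ N G d := by
    simp [insert_subset_iff, mem_N, ad.symm, bd.symm, cd.symm]
  have c3' : #({a, b, c} : Finset V) = 3 := card_eq_three.2 ⟨a, b, c, ab.ne, ac.ne, bc.ne, rfl⟩
  have cS : #S + 3 = dg G d := by rw [← c3', hS, card_sdiff_add_card_eq_card sub, dg]
  have mS : ∀ w ∈ S, G.Adj d w ∧ w ∉ ({a, b, c, d} : Finset V) ∧ G'.Adj d w := fun w hw => by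
    obtain ⟨h1, h2⟩ := mem_sdiff.1 hw
    have h3 := mem_N.1 h1
    simp only [mem_insert, mem_singleton, not_or] at h2
    exact ⟨h3, by simp [h2, h3.ne'], Or.inl ⟨h3, by simp [h2, h3.ne']⟩⟩
  have two : ∀ {v x y}, G'.Adj v x → G'.Adj v y → x ≠ y → K G' v := fun h1 h2 h3 =>
    one_lt_card.2 ⟨_, mem_N.2 h1, _, mem_N.2 h2, h3⟩
  have dd : dg G' d + 2 ≤ dg G d := by
    have s : N G' d ⊆ N G d \ {a, b} := fun w hw => by
      refine mem_sdiff.2 ⟨mem_N.2 (le _ _ (mem_N.1 hw)), fun h => ?_⟩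
      have := mem_N.1 hw
      rw [hG, md_adj] at this
      simp only [mem_insert, mem_singleton] at h
      rcases h with rfl | rfl <;> simp [ne] at this
    have := card_le_card s
    have e := card_sdiff_add_card_eq_card (s := {a, b}) (t := N G d)
      (by simp [insert_subset_iff, mem_N, ad.symm, bd.symm])
    rw [card_pair ab.ne] at e
    unfold dg
    omega
  refine reduce ih G' {a, b, c, d} (fun u hu => ?_)
    (fun v hv => N_md (by simp) (by simp) fun h => hv (by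
      simp only [mem_insert, mem_singleton] at h ⊢
      tauto))
    (fun v _ => card_le_card fun w hw => mem_N.2 (le _ _ (mem_N.1 hw))) ⟨d, by simp, by omega⟩
    (fun _ _ _ => Or.inr trivial) (fun v hv w _ => Or.inl ?_) (fun _ Y hY v hv h => ?_)
    fun f hc t _ _ => ?_
  · simp only [mem_insert, mem_singleton] at hu
    unfold K
    rcases hu with rfl | rfl | rfl | rfl <;> omega
  · simp only [mem_insert, mem_singleton] at hv
    obtain ⟨x, hx⟩ : S.Nonempty := card_pos.1 (by omega)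
    rcases hv with rfl | rfl | rfl | rfl
    · exact two gab (gc _ ac.symm).symm bc.ne
    · exact two gab.symm (gc _ bc.symm).symm ac.ne
    · exact two (gc _ ac.symm) (gc _ bc.symm) ab.ne
    · exact two (mS x hx).2.2 (gc _ cd).symm fun e => (mS x hx).2.1 (by simp [e])
  · have cY : c ∉ Y := fun h => by
      have h1 := (hY.2 c h).1
      have h2 : N G c ⊆ N G' c := fun w hw => mem_N.2 (gc w (mem_N.1 hw))
      have := card_le_card h2
      unfold dg at h1 dc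
      omega
    simp only [mem_insert, mem_singleton] at hv
    rcases hv with rfl | rfl | rfl | rfl
    exacts [cY ((hY.2 _ h).2 (mem_N.2 (gc _ ac.symm).symm)),
      cY ((hY.2 _ h).2 (mem_N.2 (gc _ bc.symm).symm)), cY h,
      cY ((hY.2 _ h).2 (mem_N.2 (gc _ cd).symm))]
  obtain ⟨T, hT, hT'⟩ := exists_mem_notMem_of_card_lt_card
    (s := S.image fun w => t w - ∑ w ∈ S, f d w) (t := Icc 6 9)
    (card_image_le.trans_lt (by rw [Nat.card_Icc]; omega))
  obtain ⟨x, y, z, u, v, w, ⟨r1, r2, r3, r4, r5, r6⟩, ⟨s1, s2, s3, s4⟩, ⟨⟨q1, q2, q3⟩, h1, h2, h3⟩,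
    ⟨h4, h5, h6⟩, h7, h8, h9⟩ := K4b.fin (t a') (t b') (t c') (T + ∑ w ∈ S, f d w) (mem_Icc.1 hT)
    (hc.2.1 a a' (Or.inl ⟨aa, by simp [ne]⟩)) (hc.2.1 b b' (Or.inl ⟨bb, by simp [ne]⟩))
    (hc.2.1 c c' (gc _ cc))
  refine ⟨ed a b u (ed a c v (ed b c w (ed a d x (ed b d y (ed c d z fun _ _ => 1))))),
    ed_symm (ed_symm (ed_symm (ed_symm (ed_symm (ed_symm fun _ _ => rfl))))),
    ed_rng r4 (ed_rng r5 (ed_rng r6 (ed_rng r1 (ed_rng r2 (ed_rng r3 (by simp)))))), ?_⟩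
  generalize hg : gl {a, b, c, d} _ f = g
  have ⟨_, sa, qa⟩ := loc4 (c := g) Na bc.ne bd.ne a1.symm cd.ne a2.symm a3.symm
  have ⟨_, sb, qb⟩ := loc4 (c := g) Nb ac.ne ad.ne b1.symm cd.ne b2.symm b3.symm
  have ⟨_, sc, qc⟩ := loc4 (c := g) Nc ab.ne ad.ne c1.symm bd.ne c2.symm c3.symm
  have e : (g a b = u ∧ g a c = v ∧ g a d = x ∧ g a a' = f a a') ∧
      (g b a = u ∧ g b c = w ∧ g b d = y ∧ g b b' = f b b') ∧
      (g c a = v ∧ g c b = w ∧ g c d = z ∧ g c c' = f c c') ∧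
      g d a = x ∧ g d b = y ∧ g d c = z := by
    subst hg
    simp [gl, ed, ne]
  have eS : ∀ w ∈ S, g d w = f d w := fun w hw => by
    subst hg
    exact if_neg fun h => (mS w hw).2.1 h.2
  have sm : ∀ φ : V → ℕ, ∑ w ∈ N G d, φ w = φ a + φ b + φ c + ∑ w ∈ S, φ w := fun φ => by
    rw [← sum_sdiff sub, sum_insert (by simp [ne]), sum_pair bc.ne, ← hS]
    ring
  have sd : sg G g d = T + ∑ w ∈ S, f d w := by
    rw [sg, sm, sum_congr rfl eS, e.2.2.2.1, e.2.2.2.2.1, e.2.2.2.2.2, s1]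
  have qd : QM G g d := fun α => by
    have k1 := (card_le_card (filter_subset_filter (fun w => f d w = α)
      (fun w hw => mem_N.2 (mS w hw).2.2 : S ⊆ N G' d))).trans (hc.2.2.2 d α)
    rw [card_filter] at k1
    rw [card_filter, sm, sum_congr rfl fun w hw => by rw [eS w hw], e.2.2.2.1, e.2.2.2.2.1,
      e.2.2.2.2.2]
    clear * - k1 s2 s3 s4 dd
    split_ifs <;> omega
  intro v' hv
  simp only [mem_insert, mem_singleton] at hv
  rcases hv with rfl | rfl | rfl | rfl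
  · simp only [mem_insert, mem_singleton, forall_eq_or_imp, forall_eq, ← mem_N, Na, qa, sa, sb, sc,
      sd, e, true_or, or_true, if_true, or_self, if_false, ne]
    exact ⟨q1, h1, h2, h7, h4⟩
  · simp only [mem_insert, mem_singleton, forall_eq_or_imp, forall_eq, ← mem_N, Nb, qb, sa, sb, sc,
      sd, e, true_or, or_true, if_true, or_self, if_false, ne]
    exact ⟨q2, h1.symm, h3, h8, h5⟩
  · simp only [mem_insert, mem_singleton, forall_eq_or_imp, forall_eq, ← mem_N, Nc, qc, sa, sb, sc,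
      sd, e, true_or, or_true, if_true, or_self, if_false, ne]
    exact ⟨q3, h2.symm, h3.symm, h9, h6⟩
  · refine ⟨qd, fun w' hw => ?_⟩
    by_cases k : w' ∈ S
    · rw [if_neg (mS w' k).2.1, sd]
      exact fun e => hT' (mem_image.2 ⟨w', k, by rw [← e, Nat.add_sub_cancel]⟩)
    · have : w' ∈ ({a, b, c} : Finset V) := by_contra fun n => k (mem_sdiff.2 ⟨mem_N.2 hw, n⟩)
      simp only [mem_insert, mem_singleton] at this
      rcases this with rfl | rfl | rfl <;>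
        simp only [mem_insert, mem_singleton, sa, sb, sc, sd, e, true_or, or_true, if_true]
      exacts [h7.symm, h8.symm, h9.symm]

end Pool.Agent.MP_d1f1f3_co.H47
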