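import Pool.Agent.MP_d1f1f3_co.H47.Spec

/-!
Complete graphs of even order, with or without one pendant edge.
-/

namespace Pool.Agent.MP_d1f1f3_co.H47

open Finset Relation
open scoped Classical

namespace Kev

/-- The base colouring. -/
def base (m i k : ℕ) : ℕ := (if (i + k) % 2 = 1 then 2 else 1) + if 2 * m < i + k then 2 else 0

/-- A value carried by one ordered pair. -/
def one (u v x i k : ℕ) : ℕ := if i = u ∧ k = v then x else 0

/-- The modified colouring. -/
def col (m a j x i k : ℕ) : ℕ :=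
  base m i k - (one a j 1 i k + one j a 1 i k + one 1 (2 * m) x i k + one (2 * m) 1 x i k)

/-- The allowed parameters. -/
def Ok (m a j x : ℕ) : Prop := 3 ≤ m ∧ ((a = 1 ∧ (x = 0 ∨ x = 2)) ∨ (a = 2 * m ∧ x = 0)) ∧
  (j = m ∨ j = m + 1) ∧ (a + j) % 2 = 1

/-- The other vertices. -/
def T (m i : ℕ) : Finset ℕ := (Icc 1 (2 * m)).erase i

theorem col_symm (m a j x i k : ℕ) : col m a j x i k = col m a j x k i := by
  simp only [col, base, one, add_comm i k, and_comm (a := i = _)]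
  congr 1
  ring

theorem sum_par (m i r : ℕ) (hr : r < 2) :
    ∑ k ∈ Icc 1 (2 * m), (if (i + k) % 2 = r then 1 else 0) = m := by
  induction m with
  | zero => simp
  | succ m ih =>
    rw [show 2 * (m + 1) = 2 * m + 1 + 1 by ring, sum_Icc_succ_top (by omega),
      sum_Icc_succ_top (by omega), ih]
    split_ifs <;> omega

theorem sum_high {n i : ℕ} (hi : i ≤ n) :
    ∑ k ∈ Icc 1 n, (if n < i + k then 2 else 0) = 2 * i := by
  rw [← sum_filter, show (Icc 1 n).filter (fun k => n < i + k) = Icc (n - i + 1) n by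
    ext k; simp only [mem_filter, mem_Icc]; omega, sum_const, Nat.card_Icc, smul_eq_mul]
  omega

theorem sum_T {m i : ℕ} (hi : i ∈ Icc 1 (2 * m)) (g : ℕ → ℕ) :
    ∑ k ∈ T m i, g k + g i = ∑ k ∈ Icc 1 (2 * m), g k := sum_erase_add _ _ hi

theorem sum_one {m u v : ℕ} (x i : ℕ) (h1 : 1 ≤ v) (h2 : v ≤ 2 * m) (h : u ≠ v) :
    ∑ k ∈ T m i, one u v x i k = if i = u then x else 0 := by
  by_cases hi : i = u
  · subst hi
    simp only [one, true_and, if_true]
    rw [sum_ite_eq', if_pos]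
    simp only [T, mem_erase, mem_Icc]
    exact ⟨h.symm, h1, h2⟩
  · simp [one, hi]

theorem sum_odd {m i : ℕ} (hi : i ∈ Icc 1 (2 * m)) :
    ∑ k ∈ T m i, (if (i + k) % 2 = 1 then 1 else 0) = m := by
  have h := sum_T hi fun k => if (i + k) % 2 = 1 then 1 else 0
  rw [sum_par m i 1 (by omega), if_neg (by omega)] at h
  exact h

theorem sum_even {m i : ℕ} (hi : i ∈ Icc 1 (2 * m)) :
    ∑ k ∈ T m i, (if (i + k) % 2 = 0 then 1 else 0) + 1 = m := by
  have h := sum_T hi fun k => if (i + k) % 2 = 0 then 1 else 0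
  rw [sum_par m i 0 (by omega), if_pos (by omega)] at h
  exact h

theorem sum_base {m i : ℕ} (hi : i ∈ Icc 1 (2 * m)) :
    ∑ k ∈ T m i, base m i k + (1 + if m < i then 2 else 0) = 3 * m + 2 * i := by
  have h := sum_T hi (base m i)
  have h1 : base m i i = 1 + if m < i then 2 else 0 := by
    unfold base
    split_ifs <;> omega
  have h2 : ∀ k, base m i k = ((if (i + k) % 2 = 1 then 1 else 0) + 1) +
      if 2 * m < i + k then 2 else 0 := fun k => by
    unfold base
    split_ifs <;> omega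
  rw [h1] at h
  rw [h, sum_congr rfl fun k _ => h2 k, sum_add_distrib, sum_add_distrib,
    sum_par m i 1 (by omega), sum_high (mem_Icc.1 hi).2]
  simp
  omega

variable {m a j x : ℕ}

theorem col_add (h : Ok m a j x) (i k : ℕ) : col m a j x i k +
    (one a j 1 i k + one j a 1 i k + one 1 (2 * m) x i k + one (2 * m) 1 x i k) = base m i k ∧
      1 ≤ col m a j x i k ∧ col m a j x i k ≤ 4 := by
  unfold Ok at h
  unfold col base one
  split_ifs <;> omega

theorem sum_col (h : Ok m a j x) {i : ℕ} (hi : i ∈ Icc 1 (2 * m)) :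
    ∑ k ∈ T m i, col m a j x i k + ((if i = a then 1 else 0) + (if i = j then 1 else 0) +
      (if i = 1 then x else 0) + (if i = 2 * m then x else 0)) + (1 + if m < i then 2 else 0) =
        3 * m + 2 * i := by
  rw [← sum_base hi, ← sum_congr rfl fun k _ => (col_add h i k).1]
  unfold Ok at h
  simp only [sum_add_distrib]
  rw [sum_one 1 i (by omega) (by omega) (by omega), sum_one 1 i (by omega) (by omega) (by omega),
    sum_one x i (by omega) (by omega) (by omega), sum_one x i (by omega) (by omega) (by omega)]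

/-- The size of a colour class. -/
def cnt (m a j x i α : ℕ) : ℕ := ∑ k ∈ T m i, if col m a j x i k = α then 1 else 0

theorem cnt_odd (h : Ok m a j x) {i α : ℕ} (hi : i ∈ Icc 1 (2 * m)) (hα : α % 2 = 1) :
    cnt m a j x i α + 1 ≤ m + ((if i = a then 1 else 0) + if i = j then 1 else 0) := by
  have h1 : cnt m a j x i α ≤ ∑ k ∈ T m i,
      ((if (i + k) % 2 = 0 then 1 else 0) + (one a j 1 i k + one j a 1 i k)) := by
    refine sum_le_sum fun k _ => ?_
    unfold Ok at h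
    unfold col base one
    split_ifs <;> omega
  have h2 := sum_even hi
  unfold Ok at h
  rw [sum_add_distrib, sum_add_distrib, sum_one 1 i (by omega) (by omega) (by omega),
    sum_one 1 i (by omega) (by omega) (by omega)] at h1
  omega

theorem cnt_even (h : Ok m a j x) {i α : ℕ} (hi : i ∈ Icc 1 (2 * m)) (hα : α % 2 = 0) :
    cnt m a j x i α + (if i = a then 1 else 0) ≤ m := by
  have h1 : ∑ k ∈ T m i, ((if col m a j x i k = α then 1 else 0) + one a j 1 i k) ≤
      ∑ k ∈ T m i, (if (i + k) % 2 = 1 then 1 else 0) := by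
    refine sum_le_sum fun k _ => ?_
    unfold Ok at h
    unfold col base one
    split_ifs <;> omega
  unfold Ok at h
  rw [sum_odd hi, sum_add_distrib, sum_one 1 i (by omega) (by omega) (by omega)] at h1
  exact h1

theorem cnt_le (h : Ok m a j x) {i : ℕ} (hi : i ∈ Icc 1 (2 * m)) (α : ℕ) :
    cnt m a j x i α ≤ m := by
  rcases Nat.mod_two_eq_zero_or_one α with hα | hα
  · exact (Nat.le_add_right _ _).trans (cnt_even h hi hα)
  · have := cnt_odd h hi hα
    unfold Ok at h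
    split_ifs at this <;> omega

theorem cnt_low (h : Ok m a j x) {α : ℕ} (hα : α ≤ 2) : cnt m a j x (2 * m) α ≤ 1 := by
  have h1 : cnt m a j x (2 * m) α ≤ ∑ k ∈ T m (2 * m), one (2 * m) 1 1 (2 * m) k := by
    refine sum_le_sum fun k hk => ?_
    simp only [T, mem_erase, mem_Icc] at hk
    unfold Ok at h
    unfold col base one
    split_ifs <;> omega
  unfold Ok at h
  rwa [sum_one 1 _ (by omega) (by omega) (by omega), if_pos rfl] at h1

theorem cnt_four (h : Ok m a j 2) : cnt m a j 2 (2 * m) 4 + 1 ≤ m := by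
  have h1 : ∑ k ∈ T m (2 * m), ((if col m a j 2 (2 * m) k = 4 then 1 else 0) +
      one (2 * m) 1 1 (2 * m) k) ≤ ∑ k ∈ T m (2 * m), (if (2 * m + k) % 2 = 1 then 1 else 0) := by
    refine sum_le_sum fun k _ => ?_
    unfold Ok at h
    unfold col base one
    split_ifs <;> omega
  unfold Ok at h
  rw [sum_odd (mem_Icc.2 ⟨by omega, le_rfl⟩), sum_add_distrib,
    sum_one 1 _ (by omega) (by omega) (by omega), if_pos rfl] at h1
  exact h1

theorem cnt_top (h : Ok m a j x) {γ : ℕ} (h4 : γ ≤ 4) (g4 : γ = 4 → a = 2 * m ∨ x = 2)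
    (g3 : γ = 3 → a = 1) : cnt m a j x (2 * m) γ + 1 ≤ m := by
  have hm : 2 * m ∈ Icc 1 (2 * m) := mem_Icc.2 ⟨by have := h.1; omega, le_rfl⟩
  rcases Nat.lt_or_ge γ 3 with h2 | h2
  · have := cnt_low h (α := γ) (by omega)
    have := h.1
    omega
  rcases Nat.eq_or_lt_of_le h2 with rfl | h3
  · have := cnt_odd h hm (α := 3) rfl
    have := g3 rfl
    unfold Ok at h
    split_ifs at * <;> omega
  · obtain rfl : γ = 4 := by omega
    rcases g4 rfl with rfl | rfl
    · simpa using cnt_even h hm (α := 4) rfl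
    · exact cnt_four h

/-- The choice of the variant. -/
theorem pick (hm : 3 ≤ m) (p : Prop) [Decidable p] {γ : ℕ} (τ : ℕ) (h1 : 1 ≤ γ) (h4 : γ ≤ 4) :
    ∃ a j x, Ok m a j x ∧ (¬p → x = 0) ∧ (p → (γ = 4 → a = 2 * m ∨ x = 2) ∧ (γ = 3 → a = 1) ∧
      τ + (if a = 2 * m then 1 else 0) + x + 3 ≠ 7 * m + γ) := by
  obtain ⟨j, j', hj, hj', e, e'⟩ : ∃ j j', (j = m ∨ j = m + 1) ∧ (j' = m ∨ j' = m + 1) ∧
      j % 2 = 0 ∧ j' % 2 = 1 := by
    rcases Nat.mod_two_eq_zero_or_one m with h | h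
    · exact ⟨m, m + 1, Or.inl rfl, Or.inr rfl, h, by omega⟩
    · exact ⟨m + 1, m, Or.inr rfl, Or.inl rfl, by omega, h⟩
  have v1 : Ok m (2 * m) j' 0 := ⟨hm, Or.inr ⟨rfl, rfl⟩, hj', by omega⟩
  have v2 : Ok m 1 j 0 := ⟨hm, Or.inl ⟨rfl, Or.inl rfl⟩, hj, by omega⟩
  have v3 : Ok m 1 j 2 := ⟨hm, Or.inl ⟨rfl, Or.inr rfl⟩, hj, by omega⟩
  by_cases hp : p
  · by_cases ht : τ + 5 = 7 * m + γ
    · by_cases h3 : γ = 3
      · exact ⟨_, _, _, v2, fun _ => rfl, fun _ =>
          ⟨by omega, fun _ => rfl, by split_ifs <;> omega⟩⟩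
      · exact ⟨_, _, _, v1, fun _ => rfl, fun _ =>
          ⟨fun _ => Or.inl rfl, by omega, by split_ifs <;> omega⟩⟩
    · exact ⟨_, _, _, v3, fun h => absurd hp h, fun _ =>
        ⟨fun _ => Or.inr rfl, fun _ => rfl, by split_ifs <;> omega⟩⟩
  · exact ⟨_, _, _, v2, fun _ => rfl, fun h => absurd h hp⟩

/-- The numerical statement. -/
theorem num (hm : 3 ≤ m) (p : Prop) [Decidable p] {γ : ℕ} (τ : ℕ) (h1 : 1 ≤ γ) (h4 : γ ≤ 4) :
    ∃ c : ℕ → ℕ → ℕ, (∀ i k, c i k = c k i) ∧ (∀ i k, 1 ≤ c i k ∧ c i k ≤ 4) ∧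
      (∀ i ∈ Icc 1 (2 * m), ∀ k ∈ Icc 1 (2 * m), i ≠ k →
        ∑ l ∈ T m i, c i l + (if p ∧ i = 2 * m then γ else 0) ≠
          ∑ l ∈ T m k, c k l + if p ∧ k = 2 * m then γ else 0) ∧
      (1 ≤ ∑ l ∈ T m (2 * m), c (2 * m) l ∧ (p → ∑ l ∈ T m (2 * m), c (2 * m) l + γ ≠ τ)) ∧
      ∀ i ∈ Icc 1 (2 * m), ∀ α, ∑ l ∈ T m i, (if c i l = α then 1 else 0) +
        (if p ∧ i = 2 * m then (if γ = α then 1 else 0) else 0) ≤ m := by
  obtain ⟨a, j, x, h, g0, g1⟩ := pick hm p τ h1 h4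
  refine ⟨col m a j x, col_symm m a j x, fun i k => (col_add h i k).2, fun i hi k hk hik => ?_,
    ?_, fun i hi α => ?_⟩
  · have e1 := sum_col h hi
    have e2 := sum_col h hk
    rw [mem_Icc] at hi hk
    unfold Ok at h
    by_cases hp : p
    · simp only [hp, true_and]
      split_ifs at e1 e2 ⊢ <;> omega
    · have := g0 hp
      simp only [hp, false_and, if_false]
      split_ifs at e1 e2 <;> omega
  · have e1 := sum_col h (i := 2 * m) (mem_Icc.2 ⟨by omega, le_rfl⟩)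
    unfold Ok at h
    refine ⟨by split_ifs at e1 <;> omega, fun hp => ?_⟩
    have := (g1 hp).2.2
    split_ifs at e1 this <;> omega
  · have e1 := cnt_le h hi α
    split_ifs with c1 c2
    · obtain ⟨hp, rfl⟩ := c1
      subst c2
      exact cnt_top h h4 (g1 hp).1 (g1 hp).2.1
    · exact e1
    · exact e1

theorem number {V : Type} (S : Finset V) {ρ : V} (hρ : ρ ∈ S) {n : ℕ} (hn : #S = n) :
    ∃ f : V → ℕ, f ρ = n ∧ (∀ u ∈ S, f u ∈ Icc 1 n) ∧ (∀ u ∈ S, ∀ w ∈ S, f u = f w → u = w) ∧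
      ∀ u ∈ S, ∀ g : ℕ → ℕ, ∑ w ∈ S.erase u, g (f w) = ∑ k ∈ (Icc 1 n).erase (f u), g k := by
  have h1 : n ∈ Icc 1 n := mem_Icc.2 ⟨hn ▸ card_pos.2 ⟨ρ, hρ⟩, le_rfl⟩
  let e0 : S ≃ Icc 1 n := Finset.equivOfCardEq (by simp [hn])
  let e : S ≃ Icc 1 n := e0.trans (Equiv.swap (e0 ⟨ρ, hρ⟩) ⟨n, h1⟩)
  let f : V → ℕ := fun v => if h : v ∈ S then (e ⟨v, h⟩ : ℕ) else 0
  have hf : ∀ v (h : v ∈ S), f v = e ⟨v, h⟩ := fun v h => dif_pos h
  have hm : ∀ u ∈ S, f u ∈ Icc 1 n := fun u hu => hf u hu ▸ (e ⟨u, hu⟩).2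
  refine ⟨f, by rw [hf ρ hρ]; simp [e], hm, fun u hu w hw h => ?_, fun u hu g => ?_⟩
  · rw [hf u hu, hf w hw] at h
    exact congrArg Subtype.val (e.injective (Subtype.ext h))
  · have h2 : ∑ w ∈ S, g (f w) = ∑ k ∈ Icc 1 n, g k := by
      rw [← sum_coe_sort S, ← sum_coe_sort (Icc 1 n), ← e.sum_comp]
      exact sum_congr rfl fun w _ => by rw [hf w.1 w.2]
    have h3 := sum_erase_add S (fun w => g (f w)) hu
    have h4 := sum_erase_add (Icc 1 n) g (hm u hu)
    omega

end Kev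

open Kev in
theorem kev : SKev := by
  intro V _ G z ρ γ τ hρ hz hK hE ⟨m, hm⟩ h6 h1 h4
  set S := univ.filter (K G) with hS
  have mS : ∀ v, v ∈ S ↔ K G v := fun v => by simp [hS]
  have mN : ∀ u w, w ∈ N G u ↔ G.Adj u w := fun u w => by simp [N]
  obtain ⟨f, f1, f2, f3, f4⟩ := number S ((mS ρ).2 hρ) (n := 2 * m) (by omega)
  obtain ⟨c, c1, c2, c3, c4, c5⟩ := num (m := m) (by omega) (G.Adj z ρ) τ h1 h4
  have out : ∀ u w, ¬K G u → G.Adj u w → u = z ∧ w = ρ := fun u w hu h =>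
    ((hE w u h.symm).resolve_left hu).symm
  have fr : ∀ u, K G u → (f u = 2 * m ↔ u = ρ) := fun u hu =>
    ⟨fun h => f3 u ((mS u).2 hu) ρ ((mS ρ).2 hρ) (h.trans f1.symm), fun h => h ▸ f1⟩
  have sN : ∀ u, K G u → ∀ g : V → ℕ, ∑ w ∈ N G u, g w =
      ∑ w ∈ S.erase u, g w + if G.Adj z ρ ∧ f u = 2 * m then g z else 0 := by
    intro u hu g
    split_ifs with h <;> rw [fr u hu] at h
    · obtain ⟨h, rfl⟩ := h
      have hz' : z ∉ S.erase u := fun h => hz ((mS z).1 (mem_of_mem_erase h))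
      rw [add_comm, ← sum_insert hz']
      refine sum_congr ?_ fun _ _ => rfl
      ext w
      rw [mN, mem_insert, mem_erase, mS]
      exact ⟨fun a => (hE u w a).elim (fun b => Or.inr ⟨a.ne', b⟩) fun b => Or.inl b.2,
        fun a => a.elim (fun b => b ▸ h.symm) fun b => hK u w hu b.2 b.1.symm⟩
    · refine sum_congr ?_ fun _ _ => rfl
      ext w
      rw [mN, mem_erase, mS]
      refine ⟨fun a => ⟨a.ne', (hE u w a).resolve_right fun b => h ⟨?_, b.1⟩⟩,
        fun b => hK u w hu b.2 b.1.symm⟩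
      rw [← b.1, ← b.2]
      exact a.symm
  let C : V → V → ℕ := fun u w => if K G u ∧ K G w then c (f u) (f w) else γ
  have sC : ∀ u, K G u → ∀ φ : ℕ → ℕ, ∑ w ∈ N G u, φ (C u w) =
      ∑ l ∈ T m (f u), φ (c (f u) l) + if G.Adj z ρ ∧ f u = 2 * m then φ γ else 0 := by
    intro u hu φ
    rw [sN u hu, T, ← f4 u ((mS u).2 hu) fun l => φ (c (f u) l)]
    congr 1
    · refine sum_congr rfl fun w hw => ?_
      simp only [C, hu, (mS w).1 (mem_of_mem_erase hw), and_self, if_true]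
    · simp only [C, hz, and_false, if_false]
  have sρ : G.Adj z ρ → sg G C ρ = ∑ l ∈ T m (2 * m), c (2 * m) l + γ := fun h => by
    have := sC ρ hρ id
    rw [f1, if_pos ⟨h, rfl⟩] at this
    exact this
  have sz : G.Adj z ρ → sg G C z = γ := fun h => by
    have : N G z = {ρ} := by
      ext w
      rw [mN, mem_singleton]
      exact ⟨fun a => (out z w hz a).2, fun a => a ▸ h⟩
    simp only [sg, this, sum_singleton, C, hz, false_and, if_false]
  refine ⟨C, ⟨fun u w => ?_, fun u w _ => ?_, fun u w h => ?_, fun u α => ?_⟩, fun h => ⟨?_, ?_⟩⟩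
  · simp only [C, and_comm (a := K G u), c1 (f u)]
  · simp only [C]
    split_ifs
    · exact c2 _ _
    · exact ⟨h1, h4⟩
  · by_cases hu : K G u
    · by_cases hw : K G w
      · have e1 := sC u hu id
        have e2 := sC w hw id
        have e3 := c3 _ (f2 u ((mS u).2 hu)) _ (f2 w ((mS w).2 hw))
          fun a => h.ne (f3 u ((mS u).2 hu) w ((mS w).2 hw) a)
        exact fun a => e3 (e1.symm.trans (a.trans e2))
      · obtain ⟨rfl, rfl⟩ := out w u hw h.symm
        rw [sρ h.symm, sz h.symm]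
        omega
    · obtain ⟨rfl, rfl⟩ := out u w hu h
      rw [sρ h, sz h]
      omega
  · by_cases hu : K G u
    · have e1 := sC u hu fun l => if l = α then 1 else 0
      have e2 := c5 _ (f2 u ((mS u).2 hu)) α
      have e3 := sN u hu fun _ => 1
      rw [← card_eq_sum_ones, ← card_eq_sum_ones, card_erase_of_mem ((mS u).2 hu)] at e3
      rw [card_filter, e1, dg]
      omega
    · have e1 := card_filter_le (N G u) fun w => C u w = α
      unfold K at hu
      unfold dg at hu ⊢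
      omega
  · simp only [C, hz, false_and, if_false]
  · rw [sρ h]
    exact c4.2 h

end Pool.Agent.MP_d1f1f3_co.H47
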