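import Pool.Agent.MP_d1f1f3_co.H47.Kev
import Pool.Agent.MP_d1f1f3_co.H33.Stm
import Pool.Agent.MP_d1f1f3_co.H2.Spec4

/-!
A clique of even order attached at one vertex with three further edges is reducible.
-/

namespace Pool.Agent.MP_d1f1f3_co.H47

open Finset H33 Red Kev
open scoped Classical

namespace Kv2

/-- The amount by which a colour is lowered. -/
def low (m j x y i k : ℕ) : ℕ := one 1 j 1 i k + one j 1 1 i k + one 1 (2 * m) x i k +
  one (2 * m) 1 x i k + one 2 (2 * m) y i k + one (2 * m) 2 y i k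

/-- The modified colouring. -/
def col (m j x y i k : ℕ) : ℕ := base m i k - low m j x y i k

/-- The allowed parameters. -/
def Ok (m j x y : ℕ) : Prop := 3 ≤ m ∧ (j = m ∨ j = m + 1) ∧ j % 2 = 0 ∧ x ≤ 2 ∧ y ≤ 2

variable {m j x y : ℕ}

theorem col_symm (i k : ℕ) : col m j x y i k = col m j x y k i := by
  simp only [col, low, base, one, add_comm i k, and_comm (a := i = _)]
  congr 1
  ring

theorem col_add (h : Ok m j x y) (i k : ℕ) : col m j x y i k + low m j x y i k = base m i k ∧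
    1 ≤ col m j x y i k ∧ col m j x y i k ≤ 4 := by
  unfold Ok at h
  unfold col low base one
  split_ifs <;> omega

theorem sum_col (h : Ok m j x y) {i : ℕ} (hi : i ∈ Icc 1 (2 * m)) :
    ∑ k ∈ T m i, col m j x y i k + ((if i = 1 then 1 else 0) + (if i = j then 1 else 0) +
      (if i = 1 then x else 0) + (if i = 2 * m then x else 0) + (if i = 2 then y else 0) +
      (if i = 2 * m then y else 0)) + (1 + if m < i then 2 else 0) = 3 * m + 2 * i := by
  rw [← sum_base hi, ← sum_congr rfl fun k _ => (col_add h i k).1]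
  unfold Ok at h
  simp only [low, sum_add_distrib]
  rw [sum_one 1 i (by omega) (by omega) (by omega), sum_one 1 i (by omega) (by omega) (by omega),
    sum_one x i (by omega) (by omega) (by omega), sum_one x i (by omega) (by omega) (by omega),
    sum_one y i (by omega) (by omega) (by omega), sum_one y i (by omega) (by omega) (by omega)]

set_option maxHeartbeats 2000000 in
theorem spec (h : Ok m j x y) (i k c : ℕ) (e : col m j x y i k = c) :
    ((i = 1 ∧ k = j ∨ i = j ∧ k = 1) ∧ c = 1) ∨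
    ((i = 1 ∧ k = 2 * m ∨ i = 2 * m ∧ k = 1) ∧ c + x = 4) ∨
    ((i = 2 ∧ k = 2 * m ∨ i = 2 * m ∧ k = 2) ∧ c + y = 3) ∨
    (¬(i = 2 * m ∧ k = 1) ∧ c % 2 ≠ (i + k) % 2 ∧ 1 ≤ c ∧ c ≤ 4 ∧ (c ≤ 2 ↔ i + k ≤ 2 * m)) := by
  unfold Ok at h
  unfold col low base one at e
  by_cases h1 : i = 1 ∧ k = j ∨ i = j ∧ k = 1
  · exact Or.inl ⟨h1, by rcases h1 with ⟨rfl, rfl⟩ | ⟨rfl, rfl⟩ <;> split_ifs at e <;> omega⟩
  by_cases h2 : i = 1 ∧ k = 2 * m ∨ i = 2 * m ∧ k = 1
  · exact Or.inr (Or.inl ⟨h2, by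
      clear h1
      rcases h2 with ⟨rfl, rfl⟩ | ⟨rfl, rfl⟩ <;> split_ifs at e <;> omega⟩)
  by_cases h3 : i = 2 ∧ k = 2 * m ∨ i = 2 * m ∧ k = 2
  · exact Or.inr (Or.inr (Or.inl ⟨h3, by
      clear h1 h2
      rcases h3 with ⟨rfl, rfl⟩ | ⟨rfl, rfl⟩ <;> split_ifs at e <;> omega⟩))
  rw [not_or] at h1 h2 h3
  simp only [if_neg h1.1, if_neg h1.2, if_neg h2.1, if_neg h2.2, if_neg h3.1, if_neg h3.2] at e
  refine Or.inr (Or.inr (Or.inr ⟨h2.2, ?_⟩))
  split_ifs at e <;> omega

theorem sums (h : Ok m j x y) {i : ℕ} (hi : i ∈ Icc 1 (2 * m)) (s : ℕ)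
    (e : ∑ k ∈ T m i, col m j x y i k = s) : (i = 1 ∧ s + x = 3 * m) ∨ (i = 2 ∧ s + y = 3 * m + 3) ∨
      (i = j ∧ s + 2 = 5 * m) ∨ (i = 2 * m ∧ s + x + y + 3 = 7 * m) ∨
      (3 ≤ i ∧ i ≠ j ∧ i ≤ m ∧ s + 1 = 3 * m + 2 * i) ∨
      (i ≠ j ∧ m < i ∧ i < 2 * m ∧ s + 3 = 3 * m + 2 * i) := by
  have := sum_col h hi
  rw [e] at this
  rw [mem_Icc] at hi
  unfold Ok at h
  split_ifs at this <;> omega

/-- The size of a colour class. -/
def cnt (m j x y i α : ℕ) : ℕ := ∑ k ∈ T m i, if col m j x y i k = α then 1 else 0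

theorem cnt_le (h : Ok m j x y) {i : ℕ} (hi : i ∈ Icc 1 (2 * m)) (n : i ≠ 2 * m) (α : ℕ) :
    cnt m j x y i α ≤ m := by
  have e0 := sum_even hi
  have e1 := sum_odd hi
  have sp := fun k => spec h i k _ rfl
  unfold Ok at h
  by_cases h2 : i = 2 ∧ (α = 1 ∨ α = 2)
  · have h1 : ∑ k ∈ T m i, ((if col m j x y i k = α then 1 else 0) + one 2 (2 * m - 1) 1 i k) ≤
        ∑ k ∈ T m i, ((if (i + k) % 2 = (α + 1) % 2 then 1 else 0) + one 2 (2 * m) 1 i k +
          one 2 (2 * m - 1) (α % 2) i k) := by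
      refine sum_le_sum fun k _ => ?_
      have := sp k
      unfold one
      split_ifs <;> omega
    rw [sum_add_distrib, sum_add_distrib, sum_add_distrib,
      sum_one 1 i (by omega) (by omega) (by omega), sum_one 1 i (by omega) (by omega) (by omega),
      sum_one _ i (by omega) (by omega) (by omega)] at h1
    unfold cnt
    obtain ⟨rfl, rfl | rfl⟩ := h2 <;> simp only [if_true, Nat.reduceAdd, Nat.reduceMod] at h1 <;>
      omega
  rcases Nat.mod_two_eq_zero_or_one α with hα | hα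
  · refine le_trans (sum_le_sum fun k _ => ?_) e1.le
    have := sp k
    split_ifs <;> omega
  by_cases h3 : α = 1
  · have h1 : cnt m j x y i α ≤ ∑ k ∈ T m i,
        ((if (i + k) % 2 = 0 then 1 else 0) + (one 1 j 1 i k + one j 1 1 i k)) := by
      refine sum_le_sum fun k _ => ?_
      have := sp k
      unfold one
      split_ifs <;> omega
    rw [sum_add_distrib, sum_add_distrib, sum_one 1 i (by omega) (by omega) (by omega),
      sum_one 1 i (by omega) (by omega) (by omega)] at h1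
    split_ifs at h1 <;> omega
  · have h1 : cnt m j x y i α ≤ ∑ k ∈ T m i,
        ((if (i + k) % 2 = 0 then 1 else 0) + one 1 (2 * m) 1 i k) := by
      refine sum_le_sum fun k _ => ?_
      have := sp k
      unfold one
      split_ifs <;> omega
    rw [sum_add_distrib, sum_one 1 i (by omega) (by omega) (by omega)] at h1
    split_ifs at h1 <;> omega

theorem cnt_top (h : Ok m j x y) (α : ℕ) : cnt m j x y (2 * m) α + 1 ≤
    m + if (α = 4 ∧ x = 0) ∨ (α = 3 ∧ x = 1) then 1 else 0 := by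
  have sp := fun k => spec h (2 * m) k _ rfl
  unfold Ok at h
  have hi : 2 * m ∈ Icc 1 (2 * m) := mem_Icc.2 ⟨by omega, le_rfl⟩
  have e0 := sum_even hi
  have e1 := sum_odd hi
  by_cases h4 : α = 4
  · have h1 : ∑ k ∈ T m (2 * m), ((if col m j x y (2 * m) k = α then 1 else 0) +
        one (2 * m) 1 (if x = 0 then 0 else 1) (2 * m) k) ≤
          ∑ k ∈ T m (2 * m), if (2 * m + k) % 2 = 1 then 1 else 0 := by
      refine sum_le_sum fun k _ => ?_
      have := sp k
      unfold one
      split_ifs <;> omega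
    rw [sum_add_distrib, sum_one _ _ (by omega) (by omega) (by omega)] at h1
    unfold cnt
    split_ifs at h1 ⊢ <;> omega
  by_cases h3 : α = 3
  · have h1 : cnt m j x y (2 * m) α ≤ ∑ k ∈ T m (2 * m), ((if (2 * m + k) % 2 = 0 then 1 else 0) +
        one (2 * m) 1 (if x = 1 then 1 else 0) (2 * m) k) := by
      refine sum_le_sum fun k _ => ?_
      have := sp k
      unfold one
      split_ifs <;> omega
    rw [sum_add_distrib, sum_one _ _ (by omega) (by omega) (by omega)] at h1
    split_ifs at h1 ⊢ <;> omega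
  · have h1 : cnt m j x y (2 * m) α ≤ ∑ k ∈ T m (2 * m),
        (one (2 * m) 1 1 (2 * m) k + one (2 * m) 2 1 (2 * m) k) := by
      refine sum_le_sum fun k hk => ?_
      simp only [T, mem_erase, mem_Icc] at hk
      have := sp k
      unfold one
      split_ifs <;> omega
    rw [sum_add_distrib, sum_one _ _ (by omega) (by omega) (by omega),
      sum_one _ _ (by omega) (by omega) (by omega)] at h1
    split_ifs at h1 ⊢ <;> omega

theorem pick (b : Prop) (F : Finset ℕ) (hF : #F ≤ 3) (s : ℕ) : ∃ x y, x ≤ 2 ∧ y ≤ 2 ∧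
    (b → x ≠ 0 ∧ (x = 1 → b)) ∧ (x = 1 → b) ∧ ∀ t ∈ F, t + x + y ≠ s := by
  by_cases hb : b
  · obtain ⟨k, hk, n⟩ := exists_mem_notMem_of_card_lt_card (s := F.image fun t => s - t)
      (t := Icc 1 4) (card_image_le.trans_lt (by rw [Nat.card_Icc]; omega))
    rw [mem_Icc] at hk
    exact ⟨min k 2, k - 2, by omega, by omega, fun _ => ⟨by omega, fun _ => hb⟩, fun _ => hb,
      fun t ht e => n (mem_image.2 ⟨t, ht, by omega⟩)⟩
  · obtain ⟨k, hk, n⟩ := exists_mem_notMem_of_card_lt_card (s := F.image fun t => s - t)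
      (t := Icc 0 3) (card_image_le.trans_lt (by rw [Nat.card_Icc]; omega))
    rw [mem_Icc] at hk
    exact ⟨2 * (k / 2), k % 2, by omega, by omega, fun h => absurd h hb, by omega,
      fun t ht e => n (mem_image.2 ⟨t, ht, by omega⟩)⟩

end Kv2

open Kv2 in
theorem kv2 {V : Type} [Fintype V] {G : SimpleGraph V} (ih : IH tp G) (h : H2.Kv2 G) :
    Star tp G ∧ Mai tp G := by
  obtain ⟨C, r, hr, ⟨m, hm⟩, h6, cl, sub, h3⟩ := h
  set S := N G r \ C with hS
  have M : ∀ v ∈ C, ∀ w, (md G C r r).Adj v w ↔ v = r ∧ w ∈ S := fun v hv w => by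
    rw [md_adj, hS, mem_sdiff, mem_N]
    refine ⟨?_, ?_⟩
    · rintro (⟨h1, h2⟩ | ⟨h1, -⟩)
      · have n : w ∉ C := fun h => h2 ⟨hv, h⟩
        obtain rfl : v = r := by_contra fun e => n (sub v hv e (mem_N.2 h1))
        exact ⟨rfl, h1, n⟩
      · exact absurd rfl h1
    · rintro ⟨rfl, h1, h2⟩
      exact Or.inl ⟨h1, fun h => h2 h.2⟩
  have Nr : N (md G C r r) r = S := by
    ext w
    rw [mem_N, M r hr, eq_self, true_and]
  have D : ∀ v ∈ C, dg (md G C r r) v = if v = r then 3 else 0 := fun v hv => by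
    split_ifs with e
    · rw [e, dg, Nr, h3]
    · exact card_eq_zero.2 (eq_empty_of_forall_notMem fun w hw => e ((M v hv w).1 (mem_N.1 hw)).1)
  have sN : ∀ u ∈ C, ∀ φ : V → ℕ, ∑ w ∈ N G u, φ w =
      ∑ w ∈ C.erase u, φ w + if u = r then ∑ w ∈ S, φ w else 0 := fun u hu φ => by
    have s : C.erase u ⊆ N G u := fun w hw =>
      mem_N.2 (cl u hu w (mem_of_mem_erase hw) (ne_of_mem_erase hw).symm)
    have e : N G u \ C.erase u = N G u \ C := by
      ext w
      simp only [mem_sdiff, mem_erase, mem_N]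
      exact and_congr_right fun a => by simp [a.ne']
    rw [← sum_sdiff s, e, add_comm]
    split_ifs with k
    · rw [k]
    · rw [sdiff_eq_empty_iff_subset.2 (sub u hu k), sum_empty]
  have dC : ∀ u ∈ C, dg G u + 1 = 2 * m + if u = r then 3 else 0 := fun u hu => by
    have := sN u hu fun _ => 1
    simp only [← card_eq_sum_ones, card_erase_of_mem hu, h3] at this
    unfold dg
    omega
  refine reduce ih (md G C r r) C (fun u hu => by have := dC u hu; unfold K; omega)
    (fun v hv => N_md hr hr hv) (fun v hv => by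
      have := dC v hv
      rw [D v hv]
      split_ifs at * <;> omega) ⟨r, hr, by have := dC r hr; rw [D r hr]; simp at *; omega⟩
    (fun _ _ _ => Or.inr trivial) (fun v hv w a => Or.inl (by
      rw [K, D v hv, if_pos ((M v hv w).1 a).1]
      norm_num)) (fun _ Y hY v hv h => by
      have := (hY.2 v h).1
      rw [D v hv] at this
      split_ifs at this <;> omega) fun f hc t _ _ => ?_
  obtain ⟨e, f1, f2, f3, f4⟩ := number C hr (n := 2 * m) (by omega)
  obtain ⟨j, hj, hj'⟩ : ∃ j, (j = m ∨ j = m + 1) ∧ j % 2 = 0 := by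
    rcases Nat.mod_two_eq_zero_or_one m with h | h
    exacts [⟨m, Or.inl rfl, h⟩, ⟨m + 1, Or.inr rfl, by omega⟩]
  obtain ⟨x, y, hx, hy, b1, b2, b3⟩ := pick (2 ≤ #(S.filter fun w => f r w = 4)) (S.image t)
    (card_image_le.trans h3.le) (7 * m - 3 + ∑ w ∈ S, f r w)
  have ok : Kv2.Ok m j x y := ⟨by omega, hj, hj', hx, hy⟩
  refine ⟨fun u w => Kv2.col m j x y (e u) (e w), fun u w => col_symm _ _,
    fun u w => (col_add ok _ _).2, ?_⟩
  generalize hg : gl C _ f = g
  have fr : ∀ u ∈ C, (e u = 2 * m ↔ u = r) := fun u hu =>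
    ⟨fun h => f3 u hu r hr (h.trans f1.symm), fun h => h ▸ f1⟩
  have sC : ∀ u ∈ C, ∀ φ : ℕ → ℕ, ∑ w ∈ N G u, φ (g u w) =
      ∑ l ∈ T m (e u), φ (Kv2.col m j x y (e u) l) +
        if u = r then ∑ w ∈ S, φ (f r w) else 0 := fun u hu φ => by
    rw [sN u hu, T, ← f4 u hu fun l => φ (Kv2.col m j x y (e u) l)]
    subst hg
    congr 1
    · exact sum_congr rfl fun w hw => by rw [gl, if_pos ⟨hu, mem_of_mem_erase hw⟩]
    · split_ifs with k
      · exact sum_congr rfl fun w hw => by rw [gl, if_neg fun h => (mem_sdiff.1 hw).2 h.2, k]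
      · rfl
  have qf : ∀ α, #(S.filter fun w => f r w = α) ≤ 2 := fun α => by
    have := hc.2.2.2 r α
    rwa [Nr, D r hr, if_pos rfl] at this
  have lo : 4 ≤ ∑ w ∈ S, f r w := by
    have := (sg_ge (fun w hw => (hc.2.1 r w hw).1) (hc.2.2.2 r) ∅ (empty_subset _)).1
    rw [sg, Nr, D r hr, if_pos rfl] at this
    simp only [sum_empty, card_empty, filter_empty] at this
    omega
  intro v hv
  refine ⟨fun α => ?_, fun w a => ?_⟩
  · have k1 := sC v hv fun l => if l = α then 1 else 0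
    have k2 := dC v hv
    simp only [← card_filter] at k1
    rw [k1]
    by_cases k : v = r
    · have k3 := cnt_top ok α
      have k4 := qf α
      have k5 : #(S.filter fun w => f r w = 4) + #(S.filter fun w => f r w = 3) ≤ 3 := by
        rw [← card_union_of_disjoint (disjoint_filter.2 fun w _ h => by omega), ← h3]
        exact card_le_card (union_subset (filter_subset _ _) (filter_subset _ _))
      rw [if_pos k] at k2 ⊢
      rw [(fr v hv).2 k]
      rw [Kv2.cnt, ← card_filter] at k3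
      split_ifs at k3 with k6
      · rcases k6 with ⟨rfl, k6⟩ | ⟨rfl, k6⟩
        · have := mt b1 fun h => h.1 k6
          omega
        · have := b2 k6
          omega
      · omega
    · have k3 := cnt_le ok (f2 v hv) (mt (fr v hv).1 k) α
      rw [if_neg k] at k2 ⊢
      rw [Kv2.cnt, ← card_filter] at k3
      omega
  · have k1 := sC v hv id
    have k2 := sums ok (f2 v hv) _ rfl
    have k4 := fr v hv
    simp only [id] at k1
    split_ifs with hw
    · have l1 := sC w hw id
      have l2 := sums ok (f2 w hw) _ rfl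
      have l4 := fr w hw
      have l5 : e v ≠ e w := fun h => a.ne (f3 v hv w hw h)
      simp only [id] at l1
      rw [sg, sg, k1, l1]
      simp only [← k4, ← l4]
      clear * - k2 l2 l5 lo hj hj' hx hy h6 hm
      split_ifs <;> omega
    · obtain rfl : v = r := by_contra fun n => hw (sub v hv n (mem_N.2 a))
      have := b3 _ (mem_image_of_mem t (mem_sdiff.2 ⟨mem_N.2 a, hw⟩))
      rw [sg, k1, if_pos rfl]
      rw [f1] at k2 ⊢
      clear * - k2 this hj h6 hm
      omega

end Pool.Agent.MP_d1f1f3_co.H47
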