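import Pool.Agent.MP_d1f1f3_co.H47.Spec

/-! Row ALEV: the parity classes of the colours. -/

namespace Pool.Agent.MP_d1f1f3_co.H47

open Finset Relation
open scoped Classical

namespace Alev

variable {V : Type} [Fintype V] {G : SimpleGraph V} {A : V → V → Prop} {z ρ v : V}
  {par : V → V → V} {x : V → V → ZMod 2}

theorem mem_N {w : V} : w ∈ N G v ↔ G.Adj v w := by simp [N]

theorem mem_Out {w : V} : w ∈ Out A v ↔ A v w := by simp [Out]

theorem mem_Inn {w : V} : w ∈ Inn A v ↔ A w v := by simp [Inn]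

theorem mem_Ch {a b : V} : b ∈ Ch A par v a ↔ A v b ∧ par v b = a := by simp [Ch, Out]

theorem solve (rk : V → V → ℕ) (h : ∀ a v b, A a v → b ∈ Ch A par v a → rk a v < rk v b)
    (tg : V → V → ZMod 2) :
    ∃ x : V → V → ZMod 2, ∀ a v, A a v → x a v + ∑ b ∈ Ch A par v a, x v b = tg a v := by
  let L : (V → V → ZMod 2) → V → V → ZMod 2 := fun x a v =>
    x a v + if A a v then ∑ b ∈ Ch A par v a, x v b else 0
  have hL : Function.Injective L := by
    intro x y e
    have e' : ∀ a v, L x a v = L y a v := fun a v => by rw [e]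
    have h1 : ∀ a v, A a v → x a v = y a v := by
      by_contra hc
      push Not at hc
      obtain ⟨a, v, hc⟩ := hc
      obtain ⟨⟨a, v⟩, h2, h3⟩ := exists_max_image
        (univ.filter fun e : V × V => A e.1 e.2 ∧ x e.1 e.2 ≠ y e.1 e.2) (fun e => rk e.1 e.2)
        ⟨(a, v), by simpa using hc⟩
      simp only [mem_filter, mem_univ, true_and] at h2 h3
      have h4 := e' a v
      simp only [L, if_pos h2.1] at h4
      rw [sum_congr rfl fun b hb => of_not_not fun hn =>
        (h a v b h2.1 hb).not_ge (h3 (v, b) ⟨(mem_Ch.1 hb).1, hn⟩)] at h4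
      exact h2.2 (add_right_cancel h4)
    funext a v
    by_cases hA : A a v
    · exact h1 a v hA
    · simpa only [L, if_neg hA, add_zero] using e' a v
  obtain ⟨x, hx⟩ := Finite.injective_iff_surjective.1 hL tg
  refine ⟨x, fun a v hA => ?_⟩
  rw [← hx]
  simp only [L, if_pos hA]

theorem fib {M : Type} [AddCommMonoid M] (h : ∀ b, A v b → A (par v b) v) (f : V → M) :
    ∑ a ∈ Inn A v, ∑ b ∈ Ch A par v a, f b = ∑ b ∈ Out A v, f b :=
  sum_fiberwise_of_maps_to (fun b hb => mem_Inn.2 (h b (mem_Out.1 hb))) f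

theorem total (ho : Ori G A z ρ) (h : ∀ v b, v ≠ z → A v b → A (par v b) v) :
    ∑ v, ∑ a ∈ Inn A v, (x a v + ∑ b ∈ Ch A par v a, x v b) = x z ρ := by
  have h1 : ∑ v, ∑ a ∈ Inn A v, x a v = ∑ v, ∑ b ∈ Out A v, x v b := by
    simp only [Inn, Out, sum_filter]
    exact sum_comm
  simp only [sum_add_distrib]
  rw [h1, ← sum_add_distrib, sum_eq_single z (fun v _ hv => ?_) (by simp)]
  · have h2 : Inn A z = ∅ := eq_empty_of_forall_notMem fun w hw => ho.noin w (mem_Inn.1 hw)
    have h3 : Out A z = {ρ} := eq_singleton_iff_unique_mem.2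
      ⟨mem_Out.2 ho.root, fun w hw => ho.only w (mem_Out.1 hw)⟩
    simp [h2, h3]
  · rw [fib (h v · hv), CharTwo.add_self_eq_zero]

variable (G A) in
/-- Arcs coming in that are edges. -/
noncomputable def Ir (v : V) : Finset V := (Inn A v).filter (G.Adj v)

theorem mem_Ir {w : V} : w ∈ Ir G A v ↔ A w v ∧ G.Adj v w := by simp [Ir, Inn]

theorem split {M : Type} [AddCommMonoid M] (ho : Ori G A z ρ) (hK : K G v) (f : V → M) :
    ∑ w ∈ N G v, f w = ∑ w ∈ Ir G A v, f w + ∑ w ∈ Out A v, f w := by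
  rw [← sum_union (disjoint_left.2 fun w a b => ho.asym _ _ (mem_Ir.1 a).1 (mem_Out.1 b))]
  refine sum_congr (Finset.ext fun w => ?_) fun _ _ => rfl
  rw [mem_N, mem_union, mem_Ir, mem_Out]
  exact ⟨fun a => (ho.real _ _ a).symm.imp_left fun b => ⟨b, a⟩,
    fun a => a.elim (·.2) (ho.outK _ _ hK)⟩

theorem card_split (ho : Ori G A z ρ) (hK : K G v) : dg G v = #(Ir G A v) + #(Out A v) := by
  rw [dg, card_eq_sum_ones, card_eq_sum_ones, card_eq_sum_ones]
  exact split ho hK fun _ => 1

theorem inn_real (ho : Ori G A z ρ) (hK : K G v) (h : ¬(v = ρ ∧ ¬G.Adj z ρ)) :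
    Inn A v = Ir G A v := by
  refine (filter_true_of_mem fun w hw => ?_).symm
  rcases ho.inK v w hK (mem_Inn.1 hw) with a | ⟨rfl, rfl⟩
  · exact a
  · exact (of_not_not fun a => h ⟨rfl, a⟩ : G.Adj _ _).symm

theorem inn_fake (ho : Ori G A z ρ) (h : ¬G.Adj z ρ) :
    z ∉ Ir G A ρ ∧ Inn A ρ = insert z (Ir G A ρ) := by
  refine ⟨fun a => h (mem_Ir.1 a).2.symm, Finset.ext fun w => ?_⟩
  rw [mem_insert, mem_Ir, mem_Inn]
  refine ⟨fun a => ((ho.inK ρ w ho.kr a).symm.imp (·.1) fun b => ⟨a, b⟩), ?_⟩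
  rintro (rfl | a)
  exacts [ho.root, a.1]

variable (A x) in
/-- The class of an edge. -/
noncomputable def cl (u w : V) : ZMod 2 := if A u w then x u w else if A w u then x w u else 0

omit [Fintype V] in
theorem cl_out {w : V} (h : A v w) : cl A x v w = x v w := if_pos h

theorem cl_in (ho : Ori G A z ρ) {w : V} (h : A w v) : cl A x v w = x w v :=
  (if_neg (ho.asym _ _ h)).trans (if_pos h)

variable (A par x) in
/-- The number of arcs of class `j` in the block of the arc `a v`. -/
noncomputable def bl (v : V) (j : ZMod 2) (a : V) : ℕ :=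
  (if x a v = j then 1 else 0) + ∑ b ∈ Ch A par v a, if x v b = j then 1 else 0

theorem low (ho : Ori G A z ρ) (hK : K G v) (h : ∀ b, A v b → A (par v b) v) (j : ZMod 2)
    {U : Finset V} (hU : U ⊆ Ir G A v) :
    ∑ a ∈ U, bl A par x v j a ≤ #((N G v).filter fun w => cl A x v w = j) := by
  rw [card_filter, split ho hK,
    sum_congr (s₁ := Ir G A v) rfl fun w hw => by rw [cl_in ho (mem_Ir.1 hw).1],
    sum_congr (s₁ := Out A v) rfl fun w hw => by rw [cl_out (mem_Out.1 hw)], ← fib h]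
  simp only [bl, sum_add_distrib]
  exact add_le_add (sum_le_sum_of_subset hU)
    (sum_le_sum_of_subset (hU.trans (filter_subset _ _)))

theorem bl_good {a : V} (h1 : #(Ch A par v a) = 1) (h2 : x a v + ∑ b ∈ Ch A par v a, x v b = 1)
    (j : ZMod 2) : 1 ≤ bl A par x v j a := by
  obtain ⟨b, hb⟩ := card_eq_one.1 h1
  rw [hb, sum_singleton] at h2
  rw [bl, hb, sum_singleton]
  rcases (by decide : ∀ p q j : ZMod 2, p + q = 1 → p = j ∨ q = j) _ _ j h2 with e | e <;>
    rw [if_pos e] <;> omega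

theorem bl_ge {a b : V} (h : b ∈ Ch A par v a) (j : ZMod 2) :
    (if x a v = j then 1 else 0) + (if x v b = j then 1 else 0) ≤ bl A par x v j a :=
  Nat.add_le_add_left (single_le_sum (f := fun b => if x v b = j then 1 else 0)
    (fun _ _ => Nat.zero_le _) h) _

omit [Fintype V] in
theorem counts (a : V → ZMod 2) (s : Finset V) :
    #(s.filter fun w => a w = 0) + #(s.filter fun w => a w = 1) = #s ∧
      ((#(s.filter fun w => a w = 1) : ℕ) : ZMod 2) = ∑ w ∈ s, a w := by
  constructor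
  · rw [← card_filter_add_card_filter_not (s := s) fun w => a w = 0]
    congr 2
    exact filter_congr fun w _ => (by decide : ∀ p : ZMod 2, p = 1 ↔ ¬p = 0) _
  · rw [natCast_card_filter]
    exact sum_congr rfl fun w _ => (by decide : ∀ p : ZMod 2, (if p = 1 then 1 else 0) = p) _

/-- The class sizes at one vertex. -/
theorem classes (ho : Ori G A z ρ) (hK : K G v) (h : ∀ b, A v b → A (par v b) v)
    {κ : V → ZMod 2} {i o sp : V} (hio : Wv G κ v ∨ Tv G A v → A i v ∧ G.Adj v i ∧ A v o)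
    (hsp : A sp v) (h1 : ∀ a, A a v → a ≠ sp → #(Ch A par v a) = 1)
    (hW : Wv G κ v → Ch A par v i = {o}) (hT : Tv G A v → sp = i ∧ par v o = i)
    (hx : ∀ a, A a v → (a ≠ sp ∨ (v = ρ ∧ ¬G.Adj z ρ)) →
      x a v + ∑ b ∈ Ch A par v a, x v b = if Wv G κ v ∧ a = i then 0 else 1)
    (hs : ∑ w ∈ N G v, cl A x v w = κ v) (j : ZMod 2) :
    #((N G v).filter fun w => cl A x v w = j) ≤ (dg G v + 1) / 2 ∨
      ((Wv G κ v ∨ Tv G A v) ∧ cl A x v i = j ∧ cl A x v o = j ∧
        #((N G v).filter fun w => cl A x v w = j) ≤ (dg G v + 1) / 2 + 1) := by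
  obtain ⟨c1, c2⟩ := counts (cl A x v) (N G v)
  have c3 := card_split ho hK
  have c4 := ho.smooth v hK
  have c5 : dg G v = #(N G v) := rfl
  rw [hs] at c2
  have good : ∀ j, ∀ U : Finset V, (∀ a ∈ U, A a v ∧ a ≠ sp ∧ ¬(Wv G κ v ∧ a = i)) →
      #U ≤ ∑ a ∈ U, bl A par x v j a := fun j U hU => by
    rw [card_eq_sum_ones]
    exact sum_le_sum fun a ha => bl_good (h1 a (hU a ha).1 (hU a ha).2.1)
      ((hx a (hU a ha).1 (.inl (hU a ha).2.1)).trans (if_neg (hU a ha).2.2)) j
  have j01 := (by decide : ∀ p : ZMod 2, p = 0 ∨ p = 1)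
  by_cases hY : Wv G κ v ∨ Tv G A v
  · obtain ⟨a1, a2, a3⟩ := hio hY
    have hi : i ∈ Ir G A v := mem_Ir.2 ⟨a1, a2⟩
    have hoC : o ∈ Ch A par v i := hY.elim (fun a => by simp [hW a])
      fun a => mem_Ch.2 ⟨a3, (hT a).2⟩
    have b1 : ∀ j, (if x i v = j then 1 else 0) + (if x v o = j then 1 else 0) +
        #(((Ir G A v).erase i).erase sp) ≤ #((N G v).filter fun w => cl A x v w = j) := by
      intro j
      refine le_trans ?_ (low ho hK h j (U := insert i (((Ir G A v).erase i).erase sp))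
        (insert_subset hi ((erase_subset _ _).trans (erase_subset _ _))))
      rw [sum_insert (by simp)]
      refine add_le_add (bl_ge hoC j) (good j _ fun a ha => ?_)
      simp only [mem_erase, mem_Ir] at ha
      exact ⟨ha.2.2.1, ha.1, fun e => ha.2.1 e.2⟩
    have b2 := card_erase_of_mem hi
    have b3 := pred_card_le_card_erase (s := (Ir G A v).erase i) (a := sp)
    have b4 : sp = i → #(((Ir G A v).erase i).erase sp) = #((Ir G A v).erase i) := fun e => by
      rw [e, erase_idem]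
    have b5 := card_pos.2 ⟨i, hi⟩
    have b0 := b1 0
    have b1' := b1 1
    rw [cl_in ho a1, cl_out a3]
    simp only [hY, true_and]
    by_cases hw : Wv G κ v
    · have d1 := Nat.even_iff.1 hw.2.1
      have d2 : ¬ _ := fun e => hw.2.2 (c2.symm.trans ((ZMod.natCast_eq_natCast_iff' _ _ 2).2 e))
      have d3 : sp = i ∨ x i v = x v o := or_iff_not_imp_left.2 fun e => by
        have := hx i a1 (.inl (Ne.symm e))
        rw [if_pos ⟨hw, rfl⟩, hW hw, sum_singleton] at this
        exact (by decide : ∀ p q : ZMod 2, p + q = 0 → p = q) _ _ this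
      rcases j01 j with rfl | rfl <;> rcases j01 (x i v) with e | e <;>
        rcases j01 (x v o) with e' | e' <;> simp only [e, e', zero_ne_one, one_ne_zero, if_true,
          if_false, true_and, false_and, or_false, or_true] at b0 b1' d3 ⊢ <;>
        first | omega | (have := b4 d3; omega)
    · have ht := hY.resolve_left hw
      have d1 := b4 (hT ht).1
      have d2 := ht.2
      have d3 : #(Ir G A v) ≤ #(Inn A v) := card_filter_le _ _
      have d4 : dg G v % 2 = 1 := by omega
      rcases j01 j with rfl | rfl <;> rcases j01 (x i v) with e | e <;>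
        rcases j01 (x v o) with e' | e' <;> simp only [e, e', zero_ne_one, one_ne_zero, if_true,
          if_false, true_and, false_and, or_false] at b0 b1' ⊢ <;> omega
  · left
    have hw : ¬Wv G κ v := fun a => hY (.inl a)
    have ht : #(Out A v) ≤ #(Inn A v) := not_lt.1 fun a => hY (.inr ⟨hK, a⟩)
    have b1 : ∀ j, #((Ir G A v).erase sp) ≤ #((N G v).filter fun w => cl A x v w = j) := fun j =>
      (good j _ fun a ha => ⟨(mem_Ir.1 (mem_erase.1 ha).2).1, (mem_erase.1 ha).1,
        fun e => hw e.1⟩).trans (low ho hK h j (erase_subset _ _))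
    have b3 := pred_card_le_card_erase (s := Ir G A v) (a := sp)
    have b0 := b1 0
    have b1' := b1 1
    by_cases he : Even (dg G v)
    · have d1 := Nat.even_iff.1 he
      have d2 := (ZMod.natCast_eq_natCast_iff' _ _ 2).1
        (c2.trans (of_not_not fun e => hw ⟨hK, he, e⟩))
      rcases j01 j with rfl | rfl <;> omega
    have d1 := Nat.odd_iff.1 (Nat.not_even_iff_odd.1 he)
    by_cases hf : v = ρ ∧ ¬G.Adj z ρ
    · obtain ⟨rfl, hf⟩ := hf
      have d2 := ho.fake hf
      have d3 : #(Inn A v) = #(Ir G A v) + 1 := by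
        rw [(inn_fake ho hf).2, card_insert_of_notMem (inn_fake ho hf).1]
      have d4 : #(Ch A par v sp) = 1 := by
        have e1 : ∑ a ∈ Inn A v, #(Ch A par v a) = #(Out A v) := by
          simp only [card_eq_sum_ones]
          exact fib h fun _ => 1
        rw [← add_sum_erase _ _ (mem_Inn.2 hsp), sum_congr rfl fun a ha =>
          h1 a (mem_Inn.1 (mem_erase.1 ha).2) (mem_erase.1 ha).1, ← card_eq_sum_ones,
          card_erase_of_mem (mem_Inn.2 hsp)] at e1
        omega
      have d5 : ∀ j, #(Ir G A v) ≤ #((N G v).filter fun w => cl A x v w = j) := fun j => by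
        refine le_trans ?_ (low ho hK h j Subset.rfl)
        rw [card_eq_sum_ones]
        refine sum_le_sum fun a ha => bl_good ?_ ((hx a (mem_Ir.1 ha).1 (.inr ⟨rfl, hf⟩)).trans
          (if_neg fun e => hw e.1)) j
        by_cases e : a = sp
        · rwa [e]
        · exact h1 a (mem_Ir.1 ha).1 e
      have := d5 0
      have := d5 1
      rcases j01 j with rfl | rfl <;> omega
    · rw [inn_real ho hK hf] at ht
      rcases j01 j with rfl | rfl <;> omega

end Alev

open Alev in
theorem alev (h : STree) : SAlev := by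
  intro V _ G A z ρ κ γ i o ho hp hio hrt
  have hin : ∀ v, K G v → #(Inn A v) = #(Ir G A v) ∨
      (#(Inn A v) = #(Ir G A v) + 1 ∧ #(Out A v) = (dg G v + 1) / 2) := fun v hK => by
    by_cases hf : v = ρ ∧ ¬G.Adj z ρ
    · obtain ⟨rfl, hf⟩ := hf
      exact .inr ⟨by rw [(inn_fake ho hf).2, card_insert_of_notMem (inn_fake ho hf).1], ho.fake hf⟩
    · exact .inl (by rw [inn_real ho hK hf])
  obtain ⟨par, rk, h1, h2⟩ := h V A (z, ρ) (K G) (Wv G κ) (Tv G A) i o
    (fun v a => ho.asym _ _ a a) ho.root ho.noin hrt (fun v a b => by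
      have := hin v a.1
      have := card_split ho a.1
      have := ho.smooth v a.1
      have := Nat.even_iff.1 a.2.1
      have := b.2
      omega) (fun v a => ⟨a.elim (·.1) (·.1), (hio v a).1, (hio v a).2.2⟩) (fun v a => by
      have := hin v a
      have := card_split ho a
      have := ho.smooth v a
      have : 2 ≤ dg G v := a
      omega) fun v a => a.2
  choose! sp s1 s2 s3 s4 using h2
  have hpar : ∀ v b, v ≠ z → A v b → A (par v b) v := fun v b hv a =>
    (h1 v b a fun e => hv (congrArg Prod.fst e)).1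
  let t₀ : V → V → ZMod 2 := fun a v => if Wv G κ v ∧ a = i v then 0 else 1
  let t₁ : V → V → ZMod 2 := fun a v => if a ≠ sp v ∨ (v = ρ ∧ ¬G.Adj z ρ) then t₀ a v
    else κ v - ∑ a' ∈ (Inn A v).erase (sp v), t₀ a' v
  have e1 : ∀ v, K G v → ¬(v = ρ ∧ ¬G.Adj z ρ) → ∑ a ∈ Inn A v, t₁ a v = κ v := fun v hK hf => by
    rw [← add_sum_erase _ _ (mem_Inn.2 (s1 v hK)),
      sum_congr rfl fun a ha => if_pos (.inl (mem_erase.1 ha).1)]
    simp only [t₁, hf, ne_eq, not_true, or_self, if_false, sub_add_cancel]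
  obtain ⟨tg, e2, e3⟩ : ∃ tg : V → V → ZMod 2, (∀ a v, K G v → tg a v = t₁ a v) ∧
      ∑ v, ∑ a ∈ Inn A v, tg a v =
        if G.Adj z ρ then γ else ∑ a ∈ Inn A ρ, t₁ a ρ - κ ρ := by
    have e4 : ∀ f : V → V → ZMod 2, ∑ v, ∑ a ∈ Inn A v, (if K G v then t₁ a v else f a v) =
        ∑ v ∈ univ.filter (K G), ∑ a ∈ Inn A v, t₁ a v +
          ∑ v ∈ univ.filter fun v => ¬K G v, ∑ a ∈ Inn A v, f a v := fun f => by
      rw [← sum_ite]
      refine sum_congr rfl fun v _ => ?_
      split_ifs <;> rfl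
    rcases hp with ⟨u, w, a1, a2⟩ | hp
    · refine ⟨fun a v => if K G v then t₁ a v else if v = w ∧ a = u then
        (if G.Adj z ρ then γ else ∑ a ∈ Inn A ρ, t₁ a ρ - κ ρ) -
          ∑ v ∈ univ.filter (K G), ∑ a ∈ Inn A v, t₁ a v else 0, fun a v hK => if_pos hK, ?_⟩
      rw [e4, sum_eq_single_of_mem (s := univ.filter fun v => ¬K G v) w (by simpa using a2)
        fun v _ hv => by simp [hv], sum_eq_single_of_mem (s := Inn A w) u (mem_Inn.2 a1)
        fun v _ hv => by simp [hv], if_pos ⟨rfl, rfl⟩, add_sub_cancel]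
    · refine ⟨fun a v => if K G v then t₁ a v else 0, fun a v hK => if_pos hK, ?_⟩
      rw [e4]
      simp only [sum_const_zero, add_zero]
      split_ifs at hp ⊢ with hf
      · rw [← hp]
        exact sum_congr rfl fun v hv => e1 v (mem_filter.1 hv).2 fun a => a.2 hf
      · have hρ : ρ ∈ univ.filter (K G) := by simpa using ho.kr
        rw [← add_sum_erase _ _ hρ] at hp ⊢
        rw [sum_congr rfl fun v hv => e1 v (mem_filter.1 (mem_erase.1 hv).2).2
          fun a => (mem_erase.1 hv).1 a.1, eq_neg_of_add_eq_zero_right hp, sub_eq_add_neg]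
  obtain ⟨x, hx⟩ := solve (A := A) (par := par) rk (fun a v b a1 a2 => by
    have := (h1 v b (mem_Ch.1 a2).1 fun e => ho.noin a (by rwa [← show v = z from
      congrArg Prod.fst e])).2
    rwa [(mem_Ch.1 a2).2] at this) tg
  have hβ := total (x := x) ho hpar
  rw [sum_congr rfl fun v _ => sum_congr rfl fun a ha => hx a v (mem_Inn.1 ha), e3] at hβ
  refine ⟨cl A x, fun u w => ?_, fun a => ?_, fun v hK => ?_⟩
  · by_cases a : A u w
    · rw [cl_out a, cl_in ho a]
    · by_cases b : A w u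
      · rw [cl_out b, cl_in ho b]
      · simp [cl, a, b]
  · rw [cl_out ho.root, ← hβ, if_pos a]
  have hv : v ≠ z := fun e => ho.kz (e ▸ hK)
  have hs : ∑ w ∈ N G v, cl A x v w = κ v := by
    have e5 : ∑ a ∈ Inn A v, x a v + ∑ b ∈ Out A v, x v b = ∑ a ∈ Inn A v, t₁ a v := by
      rw [← fib (hpar v · hv), ← sum_add_distrib]
      exact sum_congr rfl fun a ha => (hx a v (mem_Inn.1 ha)).trans (e2 a v hK)
    rw [split ho hK, sum_congr rfl fun w hw => cl_in ho (mem_Ir.1 hw).1,
      sum_congr (s₁ := Out A v) rfl fun w hw => cl_out (mem_Out.1 hw)]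
    by_cases hf : v = ρ ∧ ¬G.Adj z ρ
    · obtain ⟨rfl, hf⟩ := hf
      rw [if_neg hf] at hβ
      conv_lhs at e5 => rw [(inn_fake ho hf).2, sum_insert (inn_fake ho hf).1, ← hβ]
      linear_combination e5
    · rw [← inn_real ho hK hf, e5, e1 v hK hf]
  exact ⟨hs, classes ho hK (hpar v · hv) (hio v) (s1 v hK) (s2 v hK) (s3 v hK) (s4 v hK)
    (fun a a1 a2 => (hx a v a1).trans ((e2 a v hK).trans (if_pos a2))) hs⟩

end Pool.Agent.MP_d1f1f3_co.H47
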