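import Pool.Agent.MP_d1f1f3_co.H47.Spec

/-!
The base case with at least two leaves.
-/

namespace Pool.Agent.MP_d1f1f3_co.H47

open Finset Relation
open scoped Classical

namespace AsmM

variable {V : Type} [Fintype V] {G : SimpleGraph V}

theorem mem_N {v w : V} : w ∈ N G v ↔ G.Adj v w := by simp [N]

theorem dg_pos {v w : V} (h : G.Adj v w) : 1 ≤ dg G v := card_pos.2 ⟨w, mem_N.2 h⟩

theorem ex_adj {v : V} (h : 1 ≤ dg G v) : ∃ w, G.Adj v w := by
  obtain ⟨w, hw⟩ := card_pos.1 h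
  exact ⟨w, mem_N.1 hw⟩

theorem leaf {v : V} (h : dg G v = 1) : ∃ p, ∀ w, G.Adj v w ↔ w = p := by
  obtain ⟨p, hp⟩ := card_eq_one.1 h
  exact ⟨p, fun w => by rw [← mem_N, hp, mem_singleton]⟩

/-- The crossing edges. -/
noncomputable def cE (G : SimpleGraph V) (X : Finset V) : Finset (V × V) :=
  univ.filter fun e => e.1 ∈ X ∧ e.2 ∉ X ∧ G.Adj e.1 e.2

theorem mem_cE {X : Finset V} {a b : V} : (a, b) ∈ cE G X ↔ a ∈ X ∧ b ∉ X ∧ G.Adj a b := by
  simp [cE]

theorem cut_eq (G : SimpleGraph V) (X : Finset V) : cut G X = #(cE G X) := by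
  rw [card_eq_sum_card_fiberwise (f := Prod.fst) (t := X) fun e he => (mem_cE.1 he).1, cut]
  refine sum_congr rfl fun v hv => ?_
  refine card_nbij' (fun w => (v, w)) Prod.snd ?_ ?_ ?_ ?_
  · intro w hw
    simp only [coe_filter, Set.mem_ofPred_eq, mem_N] at hw
    simp [mem_cE, hv, hw]
  · rintro ⟨a, b⟩ hw
    simp only [coe_filter, Set.mem_ofPred_eq, mem_cE] at hw
    obtain ⟨⟨_, h2, h3⟩, rfl⟩ := hw
    simp [mem_N, h2, h3]
  · intro w _
    rfl
  · rintro ⟨a, b⟩ hw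
    simp only [coe_filter, Set.mem_ofPred_eq] at hw
    obtain ⟨_, rfl⟩ := hw
    rfl

theorem cut_compl (G : SimpleGraph V) (X : Finset V) : cut G Xᶜ ≤ cut G X := by
  rw [cut_eq, cut_eq]
  refine card_le_card_of_injOn Prod.swap ?_ Prod.swap_injective.injOn
  rintro ⟨a, b⟩ h
  have h1 := mem_cE.1 (mem_coe.1 h)
  exact mem_coe.2 (mem_cE.2 ⟨by simpa using h1.2.1, by simpa using h1.1, h1.2.2.symm⟩)

theorem two_le {X : Finset V} {e e' : V × V} (h : e ∈ cE G X) (h' : e' ∈ cE G X) (hne : e ≠ e') :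
    2 ≤ cut G X := by
  rw [cut_eq]
  exact one_lt_card.2 ⟨e, h, e', h', hne⟩

theorem adjK {ρ : V} (hc : Con G) (hρ : K G ρ) (u w : V) (h : G.Adj u w) : K G u ∨ K G w := by
  by_contra hn
  rw [not_or] at hn
  have h1 := dg_pos h
  have h2 := dg_pos h.symm
  have h3 : dg G u = 1 := by have := hn.1; unfold K at this; omega
  have h4 : dg G w = 1 := by have := hn.2; unfold K at this; omega
  obtain ⟨p, hp⟩ := leaf h3
  obtain ⟨q, hq⟩ := leaf h4
  have hr : ρ ∉ ({u, w} : Finset V) := by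
    simp only [mem_insert, mem_singleton, not_or]
    exact ⟨fun e => hn.1 (e ▸ hρ), fun e => hn.2 (e ▸ hρ)⟩
  have h5 := hc {u, w} u ρ (by simp) hr h1 (by unfold K at hρ; omega)
  rw [cut_eq] at h5
  obtain ⟨⟨a, b⟩, he⟩ := card_pos.1 h5
  obtain ⟨a1, a2, a3⟩ := mem_cE.1 he
  simp only [mem_insert, mem_singleton, not_or] at a1 a2
  rcases a1 with rfl | rfl
  · exact a2.2 (((hp b).1 a3).trans ((hp w).1 h).symm)
  · exact a2.1 (((hq b).1 a3).trans ((hq u).1 h.symm).symm)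

/-- All leaves are joined to the isolated vertex `h`. -/
def G1 (G : SimpleGraph V) (h : V) : SimpleGraph V where
  Adj u w := u ≠ w ∧ (G.Adj u w ∨ (u = h ∧ dg G w = 1) ∨ (w = h ∧ dg G u = 1))
  symm := ⟨fun _ _ a => ⟨a.1.symm, a.2.imp (·.symm) Or.symm⟩⟩
  loopless := ⟨fun _ a => a.1 rfl⟩

variable {h : V}

theorem le1 {u w : V} (a : G.Adj u w) : (G1 G h).Adj u w := ⟨a.ne, Or.inl a⟩

theorem ne_h (hh : dg G h = 0) {v : V} (a : 1 ≤ dg G v) : v ≠ h := by
  rintro rfl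
  omega

theorem adj_lh (hh : dg G h = 0) {v : V} (a : dg G v = 1) : (G1 G h).Adj v h :=
  ⟨ne_h hh a.ge, Or.inr (Or.inr ⟨rfl, a⟩)⟩

theorem adj_K (hh : dg G h = 0) {v w : V} (hv : K G v) (a : (G1 G h).Adj v w) : G.Adj v w := by
  unfold K at hv
  rcases a.2 with a | ⟨rfl, _⟩ | ⟨_, a⟩
  · exact a
  · omega
  · omega

theorem dg_K (hh : dg G h = 0) {v : V} (hv : K G v) : dg (G1 G h) v = dg G v := by
  unfold dg
  congr 1
  ext w
  rw [mem_N, mem_N]
  exact ⟨adj_K hh hv, le1⟩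

theorem adj_l (hh : dg G h = 0) {v p w : V} (a : dg G v = 1) (hp : ∀ w, G.Adj v w ↔ w = p)
    (b : (G1 G h).Adj v w) : w = p ∨ w = h := by
  rcases b.2 with b | ⟨b, _⟩ | ⟨b, _⟩
  · exact Or.inl ((hp w).1 b)
  · exact absurd b (ne_h hh a.ge)
  · exact Or.inr b

theorem dg_l (hh : dg G h = 0) {v : V} (a : dg G v = 1) : dg (G1 G h) v ≤ 2 := by
  obtain ⟨p, hp⟩ := leaf a
  refine (card_le_card (t := {p, h}) fun w hw => ?_).trans card_le_two
  simpa using adj_l hh a hp (mem_N.1 hw)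

theorem two_aux (hh : dg G h = 0) (hK : ∀ u w, G.Adj u w → K G u ∨ K G w) (h2 : TwoK G)
    {z z' : V} (hz : dg G z = 1) (hz' : dg G z' = 1) (hne : z' ≠ z) (X : Finset V) (hX : h ∉ X)
    {u : V} (hu : u ∈ X) (hd : 1 ≤ dg (G1 G h) u) : 2 ≤ cut (G1 G h) X := by
  have nb : ∀ l, dg G l = 1 → ∃ p, G.Adj l p ∧ K G p := fun l hl => by
    obtain ⟨p, hp⟩ := ex_adj hl.ge
    exact ⟨p, hp, (hK _ _ hp).resolve_left (by unfold K; omega)⟩
  by_cases c1 : ∀ b, K G b → b ∈ X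
  · have key : ∀ l, dg G l = 1 → (l, h) ∈ cE (G1 G h) X ∨ ∃ p, (p, l) ∈ cE (G1 G h) X := by
      intro l hl
      by_cases c : l ∈ X
      · exact Or.inl (mem_cE.2 ⟨c, hX, adj_lh hh hl⟩)
      · obtain ⟨p, hp, kp⟩ := nb l hl
        exact Or.inr ⟨p, mem_cE.2 ⟨c1 p kp, c, le1 hp.symm⟩⟩
    rcases key z hz with a | ⟨p, a⟩ <;> rcases key z' hz' with b | ⟨q, b⟩
    · exact two_le b a fun e => hne (Prod.mk.inj e).1
    · exact two_le b a fun e => ne_h hh hz'.ge (Prod.mk.inj e).2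
    · exact two_le a b fun e => ne_h hh hz.ge (Prod.mk.inj e).2
    · exact two_le b a fun e => hne (Prod.mk.inj e).2
  push Not at c1
  obtain ⟨b, kb, hb⟩ := c1
  by_cases c2 : ∃ a, K G a ∧ a ∈ X
  · obtain ⟨a, ka, ha⟩ := c2
    refine (h2 X a b ha hb ka kb).trans ?_
    rw [cut_eq, cut_eq]
    refine card_le_card ?_
    rintro ⟨x, y⟩ he
    obtain ⟨a1, a2, a3⟩ := mem_cE.1 he
    exact mem_cE.2 ⟨a1, a2, le1 a3.1⟩
  push Not at c2
  have hl : dg G u = 1 := by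
    obtain ⟨w, hw⟩ := ex_adj hd
    have k : ¬K G u := fun k => c2 u k hu
    unfold K at k
    rcases hw.2 with a | ⟨a, _⟩ | ⟨_, a⟩
    · have := dg_pos a
      omega
    · exact absurd (a ▸ hu) hX
    · exact a
  obtain ⟨p, hp, kp⟩ := nb u hl
  exact two_le (mem_cE.2 ⟨hu, c2 p kp, le1 hp⟩) (mem_cE.2 ⟨hu, hX, adj_lh hh hl⟩)
    fun e => ne_h hh (dg_pos hp.symm) (Prod.mk.inj e).2

theorem two (hh : dg G h = 0) (hK : ∀ u w, G.Adj u w → K G u ∨ K G w) (h2 : TwoK G)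
    {z z' : V} (hz : dg G z = 1) (hz' : dg G z' = 1) (hne : z' ≠ z) : Two (G1 G h) := by
  intro X u w hu hw du dw
  by_cases c : h ∈ X
  · exact (two_aux hh hK h2 hz hz' hne Xᶜ (by simpa using c) (mem_compl.2 hw) dw).trans
      (cut_compl _ X)
  · exact two_aux hh hK h2 hz hz' hne X c hu du

end AsmM

open AsmM in
theorem asmM : SAsmM := by
  intro hO hC hN hF V _ G h z ρ z' γ τ hh hcon hbig h2 hz hρ g1 g4 hz' hne
  have hK := adjK hcon hρ
  have dz : dg G z = 1 := by rw [dg, hz, card_singleton]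
  have az : ∀ w, G.Adj z w ↔ w = ρ := fun w => by rw [← mem_N, hz, mem_singleton]
  have kz : ¬K G z := by unfold K; omega
  obtain ⟨κ, hκ⟩ := hC V G z ρ τ kz
  obtain ⟨D, d1, d2, d3, d4, d5, -, d7⟩ := hO V (G1 G h)
    (fun v => if K G v then Hs G κ v else ∅) (fun _ => ∅) (fun _ => none) z ρ
    (two hh hK h2 dz hz' hne) (fun v => ⟨empty_subset _, fun w hw => by
      split_ifs at hw with c
      · exact mem_N.2 (le1 (mem_N.1 (mem_filter.1 hw).1))
      · simp at hw⟩) (fun v a b e => by simp at e) (le1 ((az ρ).2 rfl))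
  have both : ∀ l p, dg G l = 1 → G.Adj l p → D l p → ¬D l h := by
    intro l p hl hp a b
    have e1 := (d4 l).2
    have e2 := dg_l hh hl
    have e3 : 1 < #(Out D l) := one_lt_card.2
      ⟨p, by simp [Out, a], h, by simp [Out, b], ne_h hh (dg_pos hp.symm)⟩
    omega
  have kh : ∀ v, K G v → v ≠ h := fun v hv => ne_h hh (by unfold K at hv; omega)
  let A : V → V → Prop := fun u w => D u w ∧ ¬(u = h ∧ w = z)
  have root : A z ρ := ⟨d3, fun a => ne_h hh dz.ge a.1⟩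
  have only : ∀ w, A z w → w = ρ := fun w a =>
    (adj_l hh dz az (d1 _ _ a.1)).resolve_right fun e => both z ρ dz ((az ρ).2 rfl) d3 (e ▸ a.1)
  have hOri : Ori G A z ρ := by
    refine ⟨root, fun w a => ?_, only, hρ, kz, fun u w a b => (d2 u w (d1 _ _ a.1)).1 a.1 b.1,
      fun u w a => ?_, fun v w k a => adj_K hh k (d1 _ _ a.1),
      fun v w k a => Or.inl (adj_K hh k (d1 _ _ a.1).symm), fun v k => ?_,
      fun a => absurd ((az ρ).2 rfl) a, fun u w a => ?_⟩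
    · rcases adj_l hh dz az (d1 _ _ a.1).symm with e | e
      · exact (d2 z ρ (d1 _ _ d3)).1 d3 (e ▸ a.1)
      · exact a.2 ⟨e, rfl⟩
    · by_cases c : D w u
      · exact Or.inr ⟨c, fun b => ne_h hh (dg_pos a.symm) b.1⟩
      · exact Or.inl ⟨(d2 u w (le1 a)).2 c, fun b => ne_h hh (dg_pos a) b.1⟩
    · have e : Out A v = Out D v := by
        ext w
        simp [Out, A, kh v k]
      rw [e, ← dg_K hh k]
      exact d4 v
    · let Y : V → Prop := fun v => ∃ a, ReflTransGen (Tr A (St.free V)) (z, ρ) (a, v)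
      have step : ∀ v b, Y v → A v b → ReflTransGen (Tr A (St.free V)) (z, ρ) (v, b) := by
        rintro v b ⟨x, hx⟩ c
        exact hx.tail ⟨c, rfl, Or.inr ⟨rfl, not_false⟩⟩
      by_cases c : u = z
      · rw [c, only w (c ▸ a)]
      refine step u w ?_ a
      by_contra hY
      obtain ⟨x, y, x1, y1, c1⟩ := d5 (univ.filter fun v => ¬Y v ∧ v ≠ z) u z (by simp [hY, c])
        (by simp) (dg_pos (d1 _ _ a.1)) (dg_pos (d1 _ _ d3))
      obtain ⟨y2, y3⟩ := (mem_filter.1 y1).2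
      have c2 : A x y := ⟨c1, fun b => y3 b.2⟩
      by_cases c3 : x = z
      · exact y2 ⟨z, by rw [only y (c3 ▸ c2)]⟩
      · refine y2 ⟨x, step x y ?_ c2⟩
        by_contra c4
        exact x1 (mem_filter.2 ⟨mem_univ _, c4, c3⟩)
  have hPar : Par G A z ρ κ γ := by
    obtain ⟨p, hp⟩ := ex_adj hz'.ge
    have kz' : ¬K G z' := by unfold K; omega
    by_cases c : D z' p
    · exact Or.inl ⟨h, z', ⟨(d2 h z' (adj_lh hh hz').symm).2 (both z' p hz' hp c),
        fun b => hne b.2⟩, kz'⟩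
    · exact Or.inl ⟨p, z', ⟨(d2 p z' (le1 hp.symm)).2 c, fun b => hne b.2⟩, kz'⟩
  obtain ⟨P, hP⟩ := hN V G A z ρ τ κ ∅ ∅ ∅ none hbig hOri hκ (fun v k => by
    have e := (d7 v fun a b e => by simp at e).1
    simp only [if_pos k] at e
    refine e.trans (card_le_card fun w hw => ?_)
    simp only [mem_filter] at hw ⊢
    exact ⟨hw.1, hw.2, fun b => kh v k b.1⟩) (by simp) (by simp)
  exact hF V G A z ρ γ τ κ P ∅ g1 g4 hK hOri hPar hP

end Pool.Agent.MP_d1f1f3_co.H47
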