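import Pool.Agent.MP_d1f1f3_co.H47.Spec

/-!
Chains of arcs and the coefficients of the variables of the chains.
-/

namespace Pool.Agent.MP_d1f1f3_co.H47.Blev

open Finset Relation
open scoped Classical

noncomputable section

variable {V : Type}

section chains

variable {A : V → V → Prop} {Y : V → Prop} {i o : V → V} {β : V × V}

/-- First arcs of chains. -/
def Start (A : V → V → Prop) (Y : V → Prop) (o : V → V) (s : V × V) : Prop :=
  A s.1 s.2 ∧ ¬(Y s.1 ∧ s.2 = o s.1)

/-- Last arcs of chains. -/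
def Last (Y : V → Prop) (i : V → V) (e : V × V) : Prop := ¬(Y e.2 ∧ e.1 = i e.2)

lemma nxt_inj {e e' f : V × V} (h : Nxt Y i o e f) (h' : Nxt Y i o e' f) : e = e' := by
  have h2 : e.2 = e'.2 := congrArg Prod.fst (h.2.2.symm.trans h'.2.2)
  exact Prod.ext (by rw [h.2.1, h'.2.1, h2]) h2

lemma start_eq {e s : V × V} (h : ReflTransGen (Nxt Y i o) e s) (hs : Start A Y o s) : e = s := by
  rcases h.cases_tail with h | ⟨c, _, h⟩
  · exact h.symm
  · obtain ⟨h1, _, rfl⟩ := h
    exact absurd ⟨h1, rfl⟩ hs.2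

lemma last_eq {e f : V × V} (h : ReflTransGen (Nxt Y i o) e f) (he : Last Y i e) : e = f := by
  rcases h.cases_head with h | ⟨c, h, _⟩
  · exact h
  · exact absurd ⟨h.1, h.2.1⟩ he

lemma start_uniq {s s' e : V × V} (h : ReflTransGen (Nxt Y i o) s e)
    (h' : ReflTransGen (Nxt Y i o) s' e) (hs : Start A Y o s) (hs' : Start A Y o s') : s = s' := by
  induction h with
  | refl => exact (start_eq h' hs).symm
  | tail h1 h2 ih =>
    rcases h'.cases_tail with h | ⟨c, h3, h4⟩
    · subst h
      exact start_eq (h1.tail h2) hs'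
    · exact ih (nxt_inj h4 h2 ▸ h3)

lemma last_uniq {s e e' : V × V} (h : ReflTransGen (Nxt Y i o) s e)
    (h' : ReflTransGen (Nxt Y i o) s e') (he : Last Y i e) (he' : Last Y i e') : e = e' := by
  have U : Relator.RightUnique (Nxt Y i o) := fun _ _ _ a b => a.2.2.trans b.2.2.symm
  rcases ReflTransGen.total_of_right_unique U h h' with h1 | h1
  · exact last_eq h1 he
  · exact (last_eq h1 he').symm

lemma arc_of (ho : ∀ v, Y v → A v (o v)) {s e : V × V} (h : ReflTransGen (Nxt Y i o) s e)
    (hs : A s.1 s.2) : A e.1 e.2 := by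
  rcases h.cases_tail with h | ⟨c, _, h⟩
  · exact h ▸ hs
  · obtain ⟨h1, _, rfl⟩ := h
    exact ho _ h1

/-- The first arc of the chain of `e`, or `β` if there is none. -/
def org (A : V → V → Prop) (Y : V → Prop) (i o : V → V) (β e : V × V) : V × V :=
  if h : ∃ s, Start A Y o s ∧ ReflTransGen (Nxt Y i o) s e then h.choose else β

lemma org_eq {s e : V × V} (hs : Start A Y o s) (h : ReflTransGen (Nxt Y i o) s e) :
    org A Y i o β e = s := by
  have h0 : ∃ s, Start A Y o s ∧ ReflTransGen (Nxt Y i o) s e := ⟨s, hs, h⟩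
  rw [org, dif_pos h0]
  exact start_uniq h0.choose_spec.2 h h0.choose_spec.1 hs

lemma org_iff {s e : V × V} (hs : Start A Y o s) (hβ : s ≠ β) :
    org A Y i o β e = s ↔ ReflTransGen (Nxt Y i o) s e := by
  refine ⟨fun h => ?_, org_eq hs⟩
  rw [org] at h
  split_ifs at h with h0
  · exact h ▸ h0.choose_spec.2
  · exact absurd h.symm hβ

lemma org_nxt {v : V} (hv : Y v) : org A Y i o β (i v, v) = org A Y i o β (v, o v) := by
  have n : Nxt Y i o (i v, v) (v, o v) := ⟨hv, rfl, rfl⟩
  by_cases h : ∃ s, Start A Y o s ∧ ReflTransGen (Nxt Y i o) s (i v, v)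
  · obtain ⟨s, hs, h⟩ := h
    rw [org_eq hs h, org_eq hs (h.tail n)]
  · have h' : ¬∃ s, Start A Y o s ∧ ReflTransGen (Nxt Y i o) s (v, o v) := by
      rintro ⟨s, hs, h1⟩
      rcases h1.cases_tail with h2 | ⟨c, h2, h3⟩
      · exact hs.2 (h2 ▸ ⟨hv, rfl⟩)
      · exact h ⟨s, hs, nxt_inj h3 n ▸ h2⟩
    rw [org, org, dif_neg h, dif_neg h']

end chains

variable [Fintype V]

lemma mem_N {G : SimpleGraph V} {v w : V} : w ∈ N G v ↔ G.Adj v w := by simp [N]

/-- The coefficient of the variable `s` in the value of the arc `e`. -/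
def cf (g : V × V → V × V) (β : V × V) (ε : V × V → ℤ) (e s : V × V) : ℤ :=
  if g e = s ∧ s ≠ β then ε e else 0

/-- The coefficient of the variable `s` in the sum at `v`. -/
def co (G : SimpleGraph V) (A : V → V → Prop) (g : V × V → V × V) (β : V × V) (ε : V × V → ℤ)
    (v : V) (s : V × V) : ℤ :=
  if K G v then ∑ w ∈ N G v, if A v w then cf g β ε (v, w) s else cf g β ε (w, v) s else 0

section coef

variable {G : SimpleGraph V} {A : V → V → Prop} {z ρ : V} {Y : V → Prop} {i o : V → V}
  {ε : V × V → ℤ}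

lemma co_eq (H : Ori G A z ρ) (hi : ∀ v, Y v → A (i v) v ∧ G.Adj v (i v))
    (ho : ∀ v, Y v → A v (o v)) (hε : ∀ v, Y v → ε (i v, v) = -ε (v, o v)) {s : V × V}
    (hs : Start A Y o s) (hβ : s ≠ (z, ρ)) {v : V} (hv : K G v) :
    co G A (org A Y i o (z, ρ)) (z, ρ) ε v s = (if s.1 = v then ε s else 0) +
      ∑ w ∈ N G v, if ReflTransGen (Nxt Y i o) s (w, v) ∧ Last Y i (w, v) then ε (w, v) else 0 := by
  set t := cf (org A Y i o (z, ρ)) (z, ρ) ε (v, o v) s with ht
  have key : ∀ w ∈ N G v, (if A v w then cf (org A Y i o (z, ρ)) (z, ρ) ε (v, w) s else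
      cf (org A Y i o (z, ρ)) (z, ρ) ε (w, v) s) =
      (if w = s.2 then (if s.1 = v then ε s else 0) else 0) +
      (if ReflTransGen (Nxt Y i o) s (w, v) ∧ Last Y i (w, v) then ε (w, v) else 0) +
      ((if w = o v then (if Y v then t else 0) else 0) -
        if w = i v then (if Y v then t else 0) else 0) := by
    intro w hw
    have hio : Y v → i v ≠ o v := fun h e => H.asym _ _ (hi v h).1 (e ▸ ho v h)
    by_cases a : A v w
    · have h1 : ¬(ReflTransGen (Nxt Y i o) s (w, v) ∧ Last Y i (w, v)) := fun h =>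
        H.asym _ _ a (arc_of ho h.1 hs.1)
      have h2 : (if w = i v then (if Y v then t else 0) else 0) = 0 := by
        split_ifs with b c
        · exact absurd (b ▸ (hi v c).1) (H.asym _ _ a)
        all_goals rfl
      rw [if_pos a, if_neg h1, h2]
      by_cases c : Y v ∧ w = o v
      · have h3 : (if w = s.2 then (if s.1 = v then ε s else 0) else 0) = 0 := by
          split_ifs with b d
          · exact absurd ⟨d ▸ c.1, by rw [d, ← b, c.2]⟩ hs.2
          all_goals rfl
        rw [h3, if_pos c.2, if_pos c.1, c.2]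
        simp [ht]
      · have h3 : (if w = o v then (if Y v then t else 0) else 0) = 0 := by
          split_ifs with b d
          · exact absurd ⟨d, b⟩ c
          all_goals rfl
        have h4 : Start A Y o (v, w) := ⟨a, c⟩
        rw [h3, cf, org_eq h4 ReflTransGen.refl]
        by_cases e : (v, w) = s
        · subst e
          simp [hβ]
        · have : (if w = s.2 then (if s.1 = v then ε s else 0) else 0) = 0 := by
            split_ifs with b d
            · exact absurd (Prod.ext d.symm b) e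
            all_goals rfl
          simp [this, e]
    · have h1 : (if w = s.2 then (if s.1 = v then ε s else 0) else 0) = 0 := by
        split_ifs with b d
        · exact absurd (b ▸ d ▸ hs.1) a
        all_goals rfl
      have h2 : (if w = o v then (if Y v then t else 0) else 0) = 0 := by
        split_ifs with b c
        · exact absurd (b ▸ ho v c) a
        all_goals rfl
      rw [if_neg a, h1, h2]
      by_cases c : Y v ∧ w = i v
      · have h3 : ¬(ReflTransGen (Nxt Y i o) s (w, v) ∧ Last Y i (w, v)) := fun h => h.2 c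
        rw [if_neg h3, if_pos c.2, if_pos c.1, c.2, ht, cf, cf, org_nxt c.1, hε v c.1]
        split_ifs <;> simp
      · have h3 : (if w = i v then (if Y v then t else 0) else 0) = 0 := by
          split_ifs with b d
          · exact absurd ⟨d, b⟩ c
          all_goals rfl
        have h4 : Last Y i (w, v) := c
        rw [h3, cf]
        simp [org_iff hs hβ, hβ, h4]
  rw [co, if_pos hv, sum_congr rfl key, sum_add_distrib, sum_add_distrib, sum_sub_distrib,
    sum_ite_eq', sum_ite_eq', sum_ite_eq']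
  have e1 : (if s.2 ∈ N G v then (if s.1 = v then ε s else 0) else 0) =
      if s.1 = v then ε s else 0 := by
    by_cases b : s.1 = v
    · rw [if_pos (mem_N.2 (H.outK _ _ hv (b ▸ hs.1)))]
    · simp [b]
  rw [e1]
  by_cases c : Y v
  · rw [if_pos (mem_N.2 (H.outK _ _ hv (ho v c))), if_pos (mem_N.2 (hi v c).2)]
    simp
  · simp [c]

lemma co_spec (H : Ori G A z ρ) (hK : ∀ v, Y v → K G v)
    (hi : ∀ v, Y v → A (i v) v ∧ G.Adj v (i v))
    (ho : ∀ v, Y v → A v (o v)) (hε : ∀ v, Y v → ε (i v, v) = -ε (v, o v))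
    (h0 : ∀ e, ε e ≠ 0) (nr : NoRet A Y i o) {s : V × V}
    (hs : Start A Y o s) (hk : K G s.1) :
    ∃ (q : V) (δ : ℤ), δ ≠ 0 ∧ q ≠ s.1 ∧
      (∀ v, co G A (org A Y i o (z, ρ)) (z, ρ) ε v s =
        (if s.1 = v then ε s else 0) + if q = v ∧ K G v then δ else 0) ∧
      (Last Y i s → q = s.2) ∧
      (K G q → ∃ e, ReflTransGen (Nxt Y i o) s e ∧ e.2 = q ∧ δ = ε e) := by
  have hβ : s ≠ (z, ρ) := fun e => H.kz (by rw [e] at hk; exact hk)
  have hn : ∀ v, ¬K G v → ∀ (q : V) (δ : ℤ), co G A (org A Y i o (z, ρ)) (z, ρ) ε v s =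
      (if s.1 = v then ε s else 0) + if q = v ∧ K G v then δ else 0 := fun v hv q δ => by
    have : s.1 ≠ v := fun e => hv (e ▸ hk)
    simp [co, hv, this]
  by_cases h : ∃ e, ReflTransGen (Nxt Y i o) s e ∧ Last Y i e
  · obtain ⟨e, h1, h2⟩ := h
    refine ⟨e.2, ε e, h0 e, nr s e hs.1 hs.2 h1 h2, fun v => ?_, fun h => ?_,
      fun _ => ⟨e, h1, rfl, rfl⟩⟩
    · by_cases hv : K G v
      swap
      · exact hn v hv _ _
      rw [co_eq H hi ho hε hs hβ hv]
      congr 1
      have key : ∀ w ∈ N G v, (if ReflTransGen (Nxt Y i o) s (w, v) ∧ Last Y i (w, v) then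
          ε (w, v) else 0) = if w = e.1 then (if e.2 = v then ε e else 0) else 0 := by
        intro w _
        by_cases a : (w, v) = e
        · subst a
          simp [h1, h2]
        · rw [if_neg fun b => a (last_uniq b.1 h1 b.2 h2)]
          split_ifs with b c
          · exact absurd (Prod.ext b c.symm) a
          all_goals rfl
      rw [sum_congr rfl key, sum_ite_eq']
      by_cases a : e.2 = v
      · have hb : Start A Y o (z, ρ) := ⟨H.root, fun b => H.kz (hK _ b.1)⟩
        have : e.1 ∈ N G v := by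
          rcases H.inK v e.1 hv (a ▸ arc_of ho h1 hs.1) with b | b
          · exact mem_N.2 b
          · have e' : e = (z, ρ) := Prod.ext b.1 (a.trans b.2)
            exact absurd (start_eq (e' ▸ h1) hb) hβ
        simp [this, a, hv]
      · simp [a]
    · rw [last_eq h1 h]
  · refine ⟨z, 1, one_ne_zero, fun e => H.kz (e ▸ hk), fun v => ?_,
      fun h' => absurd ⟨s, ReflTransGen.refl, h'⟩ h, fun h' => absurd h' H.kz⟩
    by_cases hv : K G v
    swap
    · exact hn v hv _ _
    have : ¬(z = v ∧ K G v) := fun a => H.kz (a.1 ▸ hv)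
    rw [co_eq H hi ho hε hs hβ hv, if_neg this, sum_eq_zero fun w _ => if_neg fun b => h ⟨_, b⟩]

end coef

end

end Pool.Agent.MP_d1f1f3_co.H47.Blev
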