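import Pool.Agent.MP_d1f1f3_co.H47.Blev1

/-!
The counting condition for the constraints on the levels.
-/

namespace Pool.Agent.MP_d1f1f3_co.H47.Blev

open Finset Relation
open scoped Classical

noncomputable section

variable {V : Type} [Fintype V]

/-- Vertices with a chosen pair. -/
def Yv (G : SimpleGraph V) (A : V → V → Prop) (κ : V → ZMod 2) : V → Prop :=
  fun v => Wv G κ v ∨ Tv G A v

/-- The constraints. -/
def Cj (G : SimpleGraph V) (A : V → V → Prop) (z ρ : V) (τ : ZMod 2) (κ : V → ZMod 2)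
    (j : V × V) : Prop :=
  (A j.1 j.2 ∧ Fe G κ j.1 j.2) ∨ (j = (z, ρ) ∧ G.Adj z ρ ∧ κ ρ = τ)

/-- The ends of an arc. -/
def In (v : V) (j : V × V) : Prop := v = j.1 ∨ v = j.2

/-- The class of the sign of an arc. -/
def sgn (G : SimpleGraph V) (κ : V → ZMod 2) (R : Finset V) (e : V × V) : ZMod 2 :=
  if K G e.1 ∧ (¬Fe G κ e.1 e.2 ∨ e.1 ∈ R) then κ e.1 else κ e.2 + 1

/-- The sign of an arc. -/
def eps (G : SimpleGraph V) (κ : V → ZMod 2) (R : Finset V) (e : V × V) : ℤ :=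
  if sgn G κ R e = 0 then 1 else -1

lemma z2 (a b : ZMod 2) (h : a ≠ b) : a = b + 1 := by
  revert a b
  decide

variable {G : SimpleGraph V} {A : V → V → Prop} {z ρ : V} {τ : ZMod 2} {κ : V → ZMod 2}
  {P : Finset (V × V)} {R : Finset V} {i o : V → V}

lemma eps_neg {e f : V × V} (h : sgn G κ R e = sgn G κ R f + 1) :
    eps G κ R e = -eps G κ R f := by
  rw [eps, eps, h]
  generalize sgn G κ R f = a
  revert a
  decide

lemma eps_ne (e : V × V) : eps G κ R e ≠ 0 := by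
  rw [eps]
  split_ifs <;> simp

lemma sgn_in {a v : V} (h : G.Adj a v) (hv : K G v) (ha : a ∉ R) :
    sgn G κ R (a, v) = κ v + 1 := by
  rw [sgn]
  split_ifs with b
  · exact z2 _ _ fun e => b.2.resolve_right ha ⟨h, b.1, hv, e⟩
  · rfl

lemma sgn_out {v b : V} (hv : K G v) (h : v ∈ R ∨ ¬Fe G κ v b) : sgn G κ R (v, b) = κ v :=
  if_pos ⟨hv, h.symm⟩

lemma Yv.k {v : V} (h : Yv G A κ v) : K G v := h.elim (·.1) (·.1)

omit [Fintype V] in
lemma occ {C : V → ℤ} {k : V → Prop} {p q : V} {ε δ : ℤ} (hε : ε ≠ 0) (hδ : δ ≠ 0) (hq : q ≠ p)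
    (hC : ∀ v, C v = (if p = v then ε else 0) + if q = v ∧ k v then δ else 0) {j : V × V}
    (hj : j.1 ≠ j.2) (h : C j.2 - C j.1 = 0) :
    (In p j ↔ k q ∧ In q j) ∧ (In p j → δ = ε) := by
  obtain ⟨u, w⟩ := j
  simp only [hC, In] at h ⊢ hj
  by_cases a : p = u <;> by_cases b : p = w <;> by_cases c : q = u <;> by_cases d : q = w <;>
    by_cases e : k q <;> simp_all <;> omega

lemma card_fib (X : Finset V) (p : V → V → Prop) [∀ v, DecidablePred (p v)]
    {d : DecidablePred fun e : V × V => e.1 ∈ X ∧ p e.1 e.2} :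
    #(univ.filter fun e : V × V => e.1 ∈ X ∧ p e.1 e.2) = ∑ v ∈ X, #(univ.filter (p v)) := by
  simp only [card_filter, Fintype.sum_prod_type]
  rw [← sum_subset (subset_univ X) fun v _ hv => by simp [hv]]
  exact sum_congr rfl fun v hv => by simp [hv]

lemma Cj.arc (H : Ori G A z ρ) {j : V × V} (h : Cj G A z ρ τ κ j) : A j.1 j.2 := by
  rcases h with h | h
  · exact h.1
  · rw [h.1]
    exact H.root

lemma Cj.ne (H : Ori G A z ρ) {j : V × V} (h : Cj G A z ρ τ κ j) : j.1 ≠ j.2 := fun e => by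
  have := h.arc H
  exact H.asym _ _ this (e ▸ e ▸ this)

lemma count1 (H : Ori G A z ρ) (S : Finset (V × V)) (X : Finset V)
    (hS : ∀ j ∈ S, Cj G A z ρ τ κ j) (hX : ∀ j ∈ S, ∀ v, K G v → In v j → v ∈ X) :
    2 * (#S : ℤ) + fcut G κ X ≤ ∑ v ∈ X, (#(univ.filter fun w => Fe G κ v w) : ℤ) +
      ∑ v ∈ X, (if v = ρ ∧ G.Adj z ρ ∧ κ ρ = τ then 2 else 0 : ℤ) := by
  set S' := S.erase (z, ρ) with hS'
  have hF : ∀ j ∈ S', A j.1 j.2 ∧ Fe G κ j.1 j.2 := fun j hj =>
    (hS j (mem_of_mem_erase hj)).resolve_right fun h => ne_of_mem_erase hj h.1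
  have h1 : S' ∪ S'.image Prod.swap ⊆
      univ.filter fun e : V × V => e.1 ∈ X ∧ (Fe G κ e.1 e.2 ∧ e.2 ∈ X) := by
    intro e he
    rcases mem_union.1 he with he | he
    · have := (hF e he).2
      exact mem_filter.2 ⟨mem_univ _, hX e (mem_of_mem_erase he) _ this.2.1 (Or.inl rfl), this,
        hX e (mem_of_mem_erase he) _ this.2.2.1 (Or.inr rfl)⟩
    · obtain ⟨f, hf, rfl⟩ := mem_image.1 he
      have := (hF f hf).2
      exact mem_filter.2 ⟨mem_univ _, hX f (mem_of_mem_erase hf) _ this.2.2.1 (Or.inr rfl),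
        ⟨this.1.symm, this.2.2.1, this.2.1, this.2.2.2.symm⟩,
        hX f (mem_of_mem_erase hf) _ this.2.1 (Or.inl rfl)⟩
  have h2 : Disjoint S' (S'.image Prod.swap) := by
    refine disjoint_left.2 fun e he he' => ?_
    obtain ⟨f, hf, rfl⟩ := mem_image.1 he'
    exact H.asym _ _ (hF f hf).1 (hF _ he).1
  have h3 := card_le_card h1
  rw [card_union_of_disjoint h2, card_image_of_injective _ Prod.swap_injective,
    card_fib X fun v w => Fe G κ v w ∧ w ∈ X] at h3
  have h4 : ∑ v ∈ X, #(univ.filter fun w => Fe G κ v w ∧ w ∈ X) + fcut G κ X =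
      ∑ v ∈ X, #(univ.filter fun w => Fe G κ v w) := by
    rw [fcut, ← sum_add_distrib]
    refine sum_congr rfl fun v _ => ?_
    rw [← card_filter_add_card_filter_not (s := univ.filter fun w => Fe G κ v w) (· ∈ X),
      filter_filter, filter_filter]
  have h5 : (∑ v ∈ X, (#(univ.filter fun w => Fe G κ v w) : ℤ)) =
      (∑ v ∈ X, #(univ.filter fun w => Fe G κ v w) : ℕ) := by push_cast; rfl
  have h6 : 2 * (#S : ℤ) ≤ 2 * #S' +
      ∑ v ∈ X, (if v = ρ ∧ G.Adj z ρ ∧ κ ρ = τ then 2 else 0 : ℤ) := by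
    have nn : ∀ v ∈ X, 0 ≤ (if v = ρ ∧ G.Adj z ρ ∧ κ ρ = τ then 2 else 0 : ℤ) := fun v _ => by
      split_ifs <;> norm_num
    by_cases b : (z, ρ) ∈ S
    · have c := (hS _ b).resolve_left fun h => H.kz h.2.2.1
      have d := single_le_sum nn (hX _ b ρ H.kr (Or.inr rfl))
      rw [if_pos ⟨rfl, c.2⟩] at d
      have e := card_erase_add_one b
      rw [← hS'] at e
      omega
    · rw [hS', erase_eq_of_notMem b]
      have := sum_nonneg nn
      omega
  omega

lemma count2 (H : Ori G A z ρ) (ho : ∀ v, Yv G A κ v → A v (o v)) (X : Finset V)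
    (hX : ∀ v ∈ X, K G v) :
    ∑ v ∈ X, (((dg G v / 2 : ℕ) : ℤ) - if Wv G κ v then 1 else 0) ≤
      #(univ.filter fun s : V × V => s.1 ∈ X ∧ Start A (Yv G A κ) o (s.1, s.2)) := by
  rw [card_fib X fun v w => Start A (Yv G A κ) o (v, w)]
  rw [Nat.cast_sum]
  refine sum_le_sum fun v hv => ?_
  have h1 := (H.smooth v (hX v hv)).1
  by_cases a : Yv G A κ v
  · have e : (univ.filter fun w => Start A (Yv G A κ) o (v, w)) = (Out A v).erase (o v) := by
      ext w
      simp [Start, Out, a, and_comm]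
    have h2 := card_erase_add_one (show o v ∈ Out A v by simpa [Out] using ho v a)
    rw [e]
    split_ifs with b
    · omega
    · have h3 := (a.resolve_left b).2
      have h4 : dg G v ≤ #(Out A v) + #(Inn A v) :=
        (card_le_card fun w hw => by
          simpa [Out, Inn] using H.real v w (mem_N.1 hw)).trans (card_union_le _ _)
      omega
  · have e : (univ.filter fun w => Start A (Yv G A κ) o (v, w)) = Out A v := by
      ext w
      simp [Start, Out, a]
    rw [e]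
    split_ifs <;> omega

omit [Fintype V] in
lemma count3 (S : Finset (V × V)) (X : Finset V) (hS : ∀ j ∈ S, j.1 ≠ j.2)
    (h : ∀ j ∈ S, ∀ j' ∈ S, ∀ x, In x j → In x j' → j' = j) (hX : ∀ j ∈ S, ∀ v, In v j → v ∈ X) :
    2 * #S ≤ #X := by
  have h1 : S.image Prod.fst ∪ S.image Prod.snd ⊆ X := by
    intro v hv
    rcases mem_union.1 hv with hv | hv <;> obtain ⟨j, hj, rfl⟩ := mem_image.1 hv
    exacts [hX j hj _ (Or.inl rfl), hX j hj _ (Or.inr rfl)]
  have h2 : Disjoint (S.image Prod.fst) (S.image Prod.snd) := by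
    refine disjoint_left.2 fun v hv hv' => ?_
    obtain ⟨j, hj, rfl⟩ := mem_image.1 hv
    obtain ⟨j', hj', e⟩ := mem_image.1 hv'
    have := h j hj j' hj' j.1 (Or.inl rfl) (Or.inr e.symm)
    exact hS j hj (this ▸ e.symm)
  have h3 := card_le_card h1
  rw [card_union_of_disjoint h2,
    card_image_of_injOn fun j hj j' hj' e => (h j hj j' hj' j.1 (Or.inl rfl) (Or.inl e)).symm,
    card_image_of_injOn fun j hj j' hj' e => (h j hj j' hj' j.2 (Or.inr rfl) (Or.inr e)).symm]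
    at h3
  omega

end

end Pool.Agent.MP_d1f1f3_co.H47.Blev
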