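import Pool.Agent.MP_d1f1f3_co.H47.CntA

/-!
The choice of the parity function together with its payment certificate.
-/

namespace Pool.Agent.MP_d1f1f3_co.H47

open Finset Relation
open scoped Classical

noncomputable section

namespace CntA

variable {V : Type} [Fintype V] {G : SimpleGraph V} {κ : V → ZMod 2} {u v w x y z ρ : V}
  {τ γ : ZMod 2}

/-- Slack plus unseparated edges leaving `X`. -/
def ph (G : SimpleGraph V) (z ρ : V) (τ : ZMod 2) (κ : V → ZMod 2) (X : Finset V) (v : V) : ℤ :=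
  tt G z ρ τ κ v + #(univ.filter fun w => Fe G κ v w ∧ w ∉ X)

lemma sum_ph (X : Finset V) :
    ∑ v ∈ X, tt G z ρ τ κ v + fcut G κ X = ∑ v ∈ X, ph G z ρ τ κ X v := by
  simp only [ph, fcut, sum_add_distrib]; push_cast; rfl

lemma ph_ge (X : Finset V) : tt G z ρ τ κ v ≤ ph G z ρ τ κ X v := by unfold ph; omega

lemma ph_ge' {X : Finset V} (h : Fe G κ v w) (hw : w ∉ X) :
    tt G z ρ τ κ v + 1 ≤ ph G z ρ τ κ X v := by
  have : 0 < #(univ.filter fun w => Fe G κ v w ∧ w ∉ X) := card_pos.2 ⟨w, by simp [h, hw]⟩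
  unfold ph; omega

omit [Fintype V] in
lemma sum_ge_one {X : Finset V} {f : V → ℤ} (h : ∀ v ∈ X, 0 ≤ f v) (hu : u ∈ X) (h1 : 1 ≤ f u) :
    1 ≤ ∑ v ∈ X, f v := h1.trans (single_le_sum h hu)

lemma certQ {Q Dn : Finset V} {g : Option (V × V)} (low : ∀ v, K G v → -1 ≤ tt G z ρ τ κ v)
    (hQ : ∀ v, v ∈ Q ↔ K G v ∧ tt G z ρ τ κ v = -1)
    (clq : ∀ a ∈ Q, ∀ b ∈ Q, a ≠ b → Fe G κ a b)
    (don : ∀ w ∈ Dn, K G w ∧ 1 ≤ tt G z ρ τ κ w ∧
      (if g = none then 2 else 3) ≤ #(Q.filter fun x => G.Adj w x ∧ κ w ≠ κ x))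
    (ext : ∀ u x, g = some (u, x) → He G κ u x ∧ 1 ≤ tt G z ρ τ κ u ∧ u ∉ Dn)
    (hc : #Q ≤ #Dn + 2)
    (hx : ∀ X : Finset V, Q ⊆ X → #Q ≤ #Dn + 1 ∨ (∃ v ∈ X, v ∉ Dn ∧ 1 ≤ tt G z ρ τ κ v) ∨
      (∃ a ∈ Q, ∃ v ∉ X, Fe G κ a v) ∨ ∃ u x, g = some (u, x) ∧ u ∉ X ∧ x ∈ X) :
    Cert G z ρ τ κ Q Dn ∅ g where
  cardR := by simp
  qr := Or.inr rfl
  low := fun v hv _ => low v hv
  neg := fun v hv => by
    have := (hQ v).1 (by simpa using hv)
    exact ⟨this.1, this.2.le⟩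
  don := don
  ext := fun u x h => by
    obtain ⟨⟨h1, h2, h3, h4⟩, h5, h6⟩ := ext u x h
    exact ⟨h1, h2, h3, h4, h5, h6⟩
  hall := fun hd hhd X hX => by
    have h0 : ∀ v ∈ X, v ∉ Q → 0 ≤ tt G z ρ τ κ v := fun v hv hv' => by
      have h1 := low v (hX v hv)
      have h2 : tt G z ρ τ κ v ≠ -1 := fun h => hv' ((hQ v).2 ⟨hX v hv, h⟩)
      omega
    have hg : (0 : ℤ) ≤ if ∃ u x, g = some (u, x) ∧ u ∉ X ∧ x ∈ X then 1 else 0 := by
      split_ifs <;> omega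
    rw [sum_ph]
    by_cases hs : Q ⊆ X
    · set f : V → ℤ := fun v => ph G z ρ τ κ X v + (if v ∈ Q then 1 else 0) -
        if v ∈ Dn then 1 else 0 with hf
      have hf0 : ∀ v ∈ X, 0 ≤ f v := fun v hv => by
        have h1 := ph_ge (G := G) (z := z) (ρ := ρ) (τ := τ) (κ := κ) (v := v) X
        have h2 := low v (hX v hv)
        simp only [hf]
        split_ifs with h3 h4 h4
        · have := (don v h4).2.1; omega
        · omega
        · have := (don v h4).2.1; omega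
        · have := h0 v hv h3; omega
      have hsum : ∑ v ∈ X, f v = ∑ v ∈ X, ph G z ρ τ κ X v + #Q - #(Dn.filter (· ∈ X)) := by
        simp only [hf, sum_sub_distrib, sum_add_distrib, sum_boole]
        rw [filter_mem_eq_inter, inter_eq_right.2 hs, filter_mem_eq_inter, filter_mem_eq_inter,
          inter_comm]
      have hD : #(Dn.filter fun w => w ∉ X ∧ hd w ∈ X) = #(Dn.filter (· ∉ X)) :=
        congrArg card (filter_congr fun w hw => by simp [hs (hhd w hw)])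
      have hD' := card_filter_add_card_filter_not (s := Dn) (· ∈ X)
      have hf1 := sum_nonneg hf0
      rw [hD]
      rcases hx X hs with h | ⟨v, hv, h1, h2⟩ | ⟨a, ha, v, hv, h⟩ | h
      · omega
      · have : 1 ≤ ∑ v ∈ X, f v := sum_ge_one hf0 hv (by
          have h3 := ph_ge (G := G) (z := z) (ρ := ρ) (τ := τ) (κ := κ) (v := v) X
          simp only [hf, if_neg h1]
          split_ifs <;> omega)
        omega
      · have : 1 ≤ ∑ v ∈ X, f v := sum_ge_one hf0 (hs ha) (by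
          have h3 := ph_ge' (z := z) (ρ := ρ) (τ := τ) h hv
          have h4 := ((hQ a).1 ha).2
          have h5 : a ∉ Dn := fun h' => by have := (don a h').2.1; omega
          simp only [hf, if_neg h5, if_pos ha]
          omega)
        omega
      · rw [if_pos h]; omega
    · obtain ⟨y, hy, hy'⟩ := not_subset.1 hs
      have : 0 ≤ ∑ v ∈ X, ph G z ρ τ κ X v := sum_nonneg fun v hv => by
        by_cases h : v ∈ Q
        · have h3 := ph_ge' (z := z) (ρ := ρ) (τ := τ)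
            (clq v h y hy fun h' => hy' (h' ▸ hv)) hy'
          have := low v (hX v hv)
          omega
        · exact (h0 v hv h).trans (ph_ge X)
      omega

lemma certR {r : V} {g : Option (V × V)} (hr : K G r) (hr' : tt G z ρ τ κ r ≤ -1)
    (low : ∀ v, K G v → v ≠ r → 0 ≤ tt G z ρ τ κ v)
    (ext : ∀ u x, g = some (u, x) → He G κ u x ∧ 1 ≤ tt G z ρ τ κ u)
    (hx : ∀ X : Finset V, (∀ v ∈ X, K G v) → r ∈ X → -1 ≤ ∑ v ∈ X, ph G z ρ τ κ X v +
      if ∃ u x, g = some (u, x) ∧ u ∉ X ∧ x ∈ X then 1 else 0) :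
    Cert G z ρ τ κ ∅ ∅ {r} g where
  cardR := by simp
  qr := Or.inl rfl
  low := fun v hv h => by have := low v hv (by simpa using h); omega
  neg := fun v hv => by
    obtain rfl : v = r := by simpa using hv
    exact ⟨hr, hr'⟩
  don := by simp
  ext := fun u x h => by
    obtain ⟨⟨h1, h2, h3, h4⟩, h5⟩ := ext u x h
    exact ⟨h1, h2, h3, h4, h5, by simp⟩
  hall := fun hd _ X hX => by
    rw [sum_ph]
    by_cases h : r ∈ X
    · simpa using hx X hX h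
    · have : 0 ≤ ∑ v ∈ X, ph G z ρ τ κ X v :=
        sum_nonneg fun v hv => (low v (hX v hv) fun h' => h (h' ▸ hv)).trans (ph_ge X)
      split_ifs <;> omega

lemma caseR (hz : ¬K G z) (hE : ∀ u w, G.Adj u w → K G w ∨ (u = ρ ∧ w = z)) (hB : Big G)
    (hm : Mn G z ρ γ τ κ) {r : V} (hr : K G r) (hr' : tt G z ρ τ κ r ≤ -2) :
    ∃ g, Cert G z ρ τ κ ∅ ∅ {r} g := by
  have hp : ∀ v, K G v → v ≠ r → 0 ≤ tt G z ρ τ κ v + tt G z ρ τ κ r + ee G κ v r + 1 :=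
    fun v hv h => hm.pair hz hE hv hr h
  have low : ∀ v, K G v → v ≠ r → 0 ≤ tt G z ρ τ κ v := fun v hv h => by
    have := hp v hv h
    have := ee_le (G := G) (κ := κ) (u := v) (w := r)
    omega
  have hd := dF_ge (z := z) (ρ := ρ) (τ := τ) (κ := κ) hB hr
  have base : ∀ X : Finset V, (∀ v ∈ X, K G v) → r ∈ X → ∑ v ∈ X, ph G z ρ τ κ X v =
      ph G z ρ τ κ X r + ∑ v ∈ X.erase r, ph G z ρ τ κ X v :=
    fun X _ h => (add_sum_erase _ _ h).symm
  have nn : ∀ X : Finset V, (∀ v ∈ X, K G v) → ∀ v ∈ X.erase r, 0 ≤ ph G z ρ τ κ X v :=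
    fun X hX v hv => (low v (hX v (mem_of_mem_erase hv)) (ne_of_mem_erase hv)).trans (ph_ge X)
  by_cases h3 : tt G z ρ τ κ r ≤ -3
  · refine ⟨none, certR hr (by omega) low (by simp) fun X hX h => ?_⟩
    have h1 : (#(univ.filter fun w => Fe G κ r w ∧ w ∈ X) : ℤ) ≤
        ∑ v ∈ X.erase r, ph G z ρ τ κ X v := by
      calc (#(univ.filter fun w => Fe G κ r w ∧ w ∈ X) : ℤ)
          = ∑ v ∈ univ.filter fun w => Fe G κ r w ∧ w ∈ X, 1 := by simp
        _ ≤ ∑ v ∈ univ.filter fun w => Fe G κ r w ∧ w ∈ X, ph G z ρ τ κ X v :=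
          sum_le_sum fun v hv => by
            have h4 := (mem_filter.1 hv).2.1
            have h5 := hp v h4.2.2.1 h4.1.ne'
            have h6 := ph_ge (G := G) (z := z) (ρ := ρ) (τ := τ) (κ := κ) (v := v) X
            rw [ee_fe (Fe.symm h4)] at h5
            omega
        _ ≤ _ := sum_le_sum_of_subset_of_nonneg (fun v hv => by
            have h4 := (mem_filter.1 hv).2
            exact mem_erase.2 ⟨h4.1.1.ne', h4.2⟩) fun v hv _ => nn X hX v hv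
    have h2 := card_filter_add_card_filter_not (s := univ.filter fun w => Fe G κ r w) (· ∈ X)
    rw [filter_filter, filter_filter] at h2
    rw [dF_eq] at hd
    rw [base X hX h, if_neg (by simp)]
    unfold ph at *
    omega
  · obtain ⟨v, hv, hv'⟩ : ∃ v, Fe G κ r v ∧ v ≠ ρ := by
      rw [dF_eq] at hd
      obtain ⟨a, ha, b, hb, hab⟩ := one_lt_card.1
        (show 1 < #(univ.filter fun w => Fe G κ r w) by omega)
      by_cases h : a = ρ
      · exact ⟨b, (mem_filter.1 hb).2, fun h' => hab (h.trans h'.symm)⟩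
      · exact ⟨a, (mem_filter.1 ha).2, h⟩
    have out : ∀ X : Finset V, (∀ v ∈ X, K G v) → r ∈ X → v ∉ X →
        -1 ≤ ∑ v ∈ X, ph G z ρ τ κ X v := fun X hX h h' => by
      have := ph_ge' (z := z) (ρ := ρ) (τ := τ) hv h'
      have := sum_nonneg (nn X hX)
      rw [base X hX h]; omega
    have inn : ∀ X : Finset V, (∀ v ∈ X, K G v) → r ∈ X → ∀ a ∈ X, 1 ≤ tt G z ρ τ κ a →
        -1 ≤ ∑ v ∈ X, ph G z ρ τ κ X v := fun X hX h a ha h' => by
      have := sum_ge_one (nn X hX) (mem_erase.2 ⟨fun h4 => by rw [h4] at h'; omega, ha⟩)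
        (h'.trans (ph_ge X))
      have := ph_ge (G := G) (z := z) (ρ := ρ) (τ := τ) (κ := κ) (v := r) X
      rw [base X hX h]; omega
    by_cases h1 : 1 ≤ tt G z ρ τ κ v
    · refine ⟨none, certR hr (by omega) low (by simp) fun X hX h => ?_⟩
      rw [if_neg (by simp), add_zero]
      by_cases h' : v ∈ X
      · exact inn X hX h v h' h1
      · exact out X hX h h'
    · obtain ⟨w, hw⟩ := exists_he (τ := τ) (κ := κ) hz hE hB hv.2.2.1 hv'
        (by have := low v hv.2.2.1 hv.1.ne'; omega)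
      have hw1 : 1 ≤ tt G z ρ τ κ w := by
        have h4 : κ w ≠ κ r := fun h => hw.2.2.2 (h.trans hv.2.2.2)
        have h5 := hp w hw.2.1 fun h => h4 (by rw [h])
        have h6 := ee_nonpos (G := G) (κ := κ) (u := w) (w := r) fun h => h4 h.2.2.2
        omega
      refine ⟨some (w, v), certR hr (by omega) low (fun u x h => ?_) fun X hX h => ?_⟩
      · obtain ⟨rfl, rfl⟩ : w = u ∧ v = x := by simpa using h
        exact ⟨hw, hw1⟩
      · by_cases h' : v ∈ X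
        · by_cases h'' : w ∈ X
          · have := inn X hX h w h'' hw1
            split_ifs <;> omega
          · have := sum_nonneg (nn X hX)
            have := ph_ge (G := G) (z := z) (ρ := ρ) (τ := τ) (κ := κ) (v := r) X
            rw [if_pos ⟨w, v, rfl, h'', h'⟩, base X hX h]; omega
        · have := out X hX h h'
          split_ifs <;> omega

/-- Vertices of slack minus one. -/
def Qs (G : SimpleGraph V) (z ρ : V) (τ : ZMod 2) (κ : V → ZMod 2) : Finset V :=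
  univ.filter fun v => K G v ∧ tt G z ρ τ κ v = -1

lemma mem_Qs : v ∈ Qs G z ρ τ κ ↔ K G v ∧ tt G z ρ τ κ v = -1 := by simp [Qs]

/-- The standing assumptions of the main case. -/
structure Ctx (G : SimpleGraph V) (z ρ : V) (γ τ : ZMod 2) : Prop where
  hz : ¬K G z
  hE : ∀ u w, G.Adj u w → K G w ∨ (u = ρ ∧ w = z)
  hB : Big G
  low : ∀ κ, Mn G z ρ γ τ κ → ∀ v, K G v → -1 ≤ tt G z ρ τ κ v
  no : ∀ κ Q Dn g, Mn G z ρ γ τ κ → ¬Cert G z ρ τ κ Q Dn ∅ g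

lemma Ctx.clq (c : Ctx G z ρ γ τ) (hm : Mn G z ρ γ τ κ) (hx : x ∈ Qs G z ρ τ κ)
    (hy : y ∈ Qs G z ρ τ κ) (h : x ≠ y) : Fe G κ x y := by
  rw [mem_Qs] at hx hy
  have := hm.pair c.hz c.hE hx.1 hy.1 h
  by_contra h'
  have := ee_nonpos h'
  omega

lemma Ctx.he1 (c : Ctx G z ρ γ τ) (hm : Mn G z ρ γ τ κ) (hx : x ∈ Qs G z ρ τ κ)
    (h : He G κ u x) : 1 ≤ tt G z ρ τ κ u := by
  have := hm.pair c.hz c.hE h.2.1 h.2.2.1 h.1.ne
  rw [ee_he h, (mem_Qs.1 hx).2] at this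
  omega

lemma Ctx.nn (c : Ctx G z ρ γ τ) (hm : Mn G z ρ γ τ κ) (hv : K G v) (h : v ∉ Qs G z ρ τ κ) :
    0 ≤ tt G z ρ τ κ v := by
  have := c.low κ hm v hv
  have : tt G z ρ τ κ v ≠ -1 := fun h' => h (mem_Qs.2 ⟨hv, h'⟩)
  omega

/-- The rigid configuration. -/
structure Str (G : SimpleGraph V) (z ρ : V) (γ τ : ZMod 2) (κ : V → ZMod 2) (S : Finset V) :
    Prop where
  mn : Mn G z ρ γ τ κ
  card : #S + 2 = #(Qs G z ρ τ κ)
  three : 1 ≤ #S
  one : ∀ s ∈ S, tt G z ρ τ κ s = 1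
  com : ∀ s ∈ S, ∀ x ∈ Qs G z ρ τ κ, He G κ s x

lemma Str.cert {S : Finset V} (c : Ctx G z ρ γ τ) (s : Str G z ρ γ τ κ S) (g : Option (V × V))
    (ext : ∀ u x, g = some (u, x) → He G κ u x ∧ 1 ≤ tt G z ρ τ κ u ∧ u ∉ S)
    (hx : ∀ X : Finset V, Qs G z ρ τ κ ⊆ X → (∃ v ∈ X, v ∉ S ∧ 1 ≤ tt G z ρ τ κ v) ∨
      (∃ a ∈ Qs G z ρ τ κ, ∃ v ∉ X, Fe G κ a v) ∨ ∃ u x, g = some (u, x) ∧ u ∉ X ∧ x ∈ X) :
    False := by
  have h1 := s.card
  have h2 := s.three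
  refine c.no κ _ S g s.mn (certQ (c.low κ s.mn) (fun _ => mem_Qs)
    (fun a ha b hb => c.clq s.mn ha hb) (fun w hw => ?_) ext h1.ge fun X hX => Or.inr (hx X hX))
  obtain ⟨x, hx⟩ : (Qs G z ρ τ κ).Nonempty := card_pos.1 (by omega)
  refine ⟨(s.com w hw x hx).2.1, (s.one w hw).ge, ?_⟩
  rw [filter_true_of_mem fun x hx => ⟨(s.com w hw x hx).1, (s.com w hw x hx).2.2.2⟩]
  split_ifs <;> omega

lemma Str.he {S : Finset V} (c : Ctx G z ρ γ τ) (s : Str G z ρ γ τ κ S) (hx : x ∈ Qs G z ρ τ κ)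
    (h : He G κ u x) : u ∈ S := by
  by_contra hu
  have h1 := c.he1 s.mn hx h
  refine s.cert c (some (u, x)) (fun a b hab => ?_) fun X hX => ?_
  · obtain ⟨rfl, rfl⟩ : u = a ∧ x = b := by simpa using hab
    exact ⟨h, h1, hu⟩
  · by_cases h' : u ∈ X
    · exact Or.inl ⟨u, h', hu, h1⟩
    · exact Or.inr (Or.inr ⟨u, x, rfl, h', hX hx⟩)

lemma Ctx.flipQ (c : Ctx G z ρ γ τ) (hm : Mn G z ρ γ τ κ) (hx : x ∈ Qs G z ρ τ κ)
    (hy : y ∈ Qs G z ρ τ κ) (h : x ≠ y) (hx' : x ≠ ρ) (hy' : y ≠ ρ) :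
    Mn G z ρ γ τ (fl (fl κ x) y) ∧ ∀ v, v ∈ Qs G z ρ τ (fl (fl κ x) y) ↔
      v = x ∨ v = y ∨ (He G κ v x ∧ He G κ v y ∧ tt G z ρ τ κ v = 1) := by
  have hf := c.clq hm hx hy h
  have hx1 := mem_Qs.1 hx
  have hy1 := mem_Qs.1 hy
  refine ⟨hm.flip c.hz c.hE hx1.1 hy1.1 h hx' hy' (by rw [ee_fe hf]; omega), fun v => ?_⟩
  rw [mem_Qs]
  by_cases h1 : v = x
  · subst h1
    rw [tt_fl2x c.hz c.hE hx1.1 h hx', ee_fe hf]
    exact ⟨fun _ => Or.inl rfl, fun _ => ⟨hx1.1, by omega⟩⟩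
  by_cases h2 : v = y
  · subst h2
    rw [tt_fl2y c.hz c.hE hy1.1 h hy', ee_fe hf]
    exact ⟨fun _ => Or.inr (Or.inl rfl), fun _ => ⟨hy1.1, by omega⟩⟩
  rw [tt_fl2 h1 h2 h]
  refine ⟨fun ⟨hv, ht⟩ => Or.inr (Or.inr ?_), fun h3 => ?_⟩
  · have e1 := ee_ge (G := G) (κ := κ) (u := v) (w := x)
    have e2 := ee_ge (G := G) (κ := κ) (u := v) (w := y)
    by_cases a1 : He G κ v x
    · have := c.he1 hm hx a1
      by_cases a2 : He G κ v y
      · exact ⟨a1, a2, by rw [ee_he a1, ee_he a2] at ht; omega⟩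
      · have := ee_nonneg a2; omega
    · have := ee_nonneg a1
      by_cases a2 : He G κ v y
      · have := c.he1 hm hy a2; omega
      · have := ee_nonneg a2
        by_cases a3 : v ∈ Qs G z ρ τ κ
        · rw [ee_fe (c.clq hm a3 hx h1), (mem_Qs.1 a3).2] at ht; omega
        · have := c.nn hm hv a3; omega
  · obtain ⟨a1, a2, a3⟩ := (h3.resolve_left h1).resolve_left h2
    exact ⟨a1.2.1, by rw [ee_he a1, ee_he a2]; omega⟩

lemma Str.notQ {S : Finset V} (s : Str G z ρ γ τ κ S) (hv : v ∈ S) : v ∉ Qs G z ρ τ κ :=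
  fun h => by have := s.one v hv; have := (mem_Qs.1 h).2; omega

lemma Str.flip {S : Finset V} (c : Ctx G z ρ γ τ) (s : Str G z ρ γ τ κ S) (hx : x ∈ Qs G z ρ τ κ)
    (hy : y ∈ Qs G z ρ τ κ) (h : x ≠ y) (hx' : x ≠ ρ) (hy' : y ≠ ρ) :
    Str G z ρ γ τ (fl (fl κ x) y) (((Qs G z ρ τ κ).erase x).erase y) ∧
      ∀ v, v ∈ Qs G z ρ τ (fl (fl κ x) y) ↔ v = x ∨ v = y ∨ v ∈ S := by
  obtain ⟨hm, hQ⟩ := c.flipQ s.mn hx hy h hx' hy'
  have hQ' : ∀ v, v ∈ Qs G z ρ τ (fl (fl κ x) y) ↔ v = x ∨ v = y ∨ v ∈ S := fun v => by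
    rw [hQ]
    exact or_congr_right (or_congr_right ⟨fun h1 => s.he c hx h1.1,
      fun h1 => ⟨s.com v h1 x hx, s.com v h1 y hy, s.one v h1⟩⟩)
  have e : Qs G z ρ τ (fl (fl κ x) y) = insert x (insert y S) := by ext v; simp [hQ']
  have h1 := s.card
  have h2 := s.three
  have h3 : #(((Qs G z ρ τ κ).erase x).erase y) + 2 = #(Qs G z ρ τ κ) := by
    rw [card_erase_of_mem (mem_erase.2 ⟨h.symm, hy⟩), card_erase_of_mem hx]; omega
  have hxS : x ∉ S := fun h' => s.notQ h' hx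
  have hyS : y ∉ S := fun h' => s.notQ h' hy
  refine ⟨⟨hm, ?_, by omega, fun a ha => ?_, fun a ha b hb => ?_⟩, hQ'⟩
  · rw [e, card_insert_of_notMem (by simp [h, hxS]), card_insert_of_notMem hyS]; omega
  · simp only [mem_erase] at ha
    rw [tt_fl2 ha.2.1 ha.1 h, ee_fe (c.clq s.mn ha.2.2 hx ha.2.1),
      ee_fe (c.clq s.mn ha.2.2 hy ha.1), (mem_Qs.1 ha.2.2).2]
    rfl
  · simp only [mem_erase] at ha
    rcases (hQ' b).1 hb with rfl | rfl | hb
    · rw [he_fl ha.1 h, he_fl' ha.2.1]; exact c.clq s.mn ha.2.2 hx ha.2.1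
    · rw [he_fl' ha.1, fe_fl ha.2.1 h.symm]; exact c.clq s.mn ha.2.2 hy ha.1
    · rw [he_fl ha.1 fun h' => hyS (h' ▸ hb), he_fl ha.2.1 fun h' => hxS (h' ▸ hb)]
      exact (s.com b hb a ha.2.2).symm

omit [Fintype V] in
lemma two_ne {Q : Finset V} (h : 3 ≤ #Q) (a : V) : ∃ x ∈ Q, ∃ y ∈ Q, x ≠ y ∧ x ≠ a ∧ y ≠ a := by
  obtain ⟨x, hx, y, hy, h1⟩ := one_lt_card.1
    (show 1 < #(Q.erase a) by have := pred_card_le_card_erase (s := Q) (a := a); omega)
  exact ⟨x, mem_of_mem_erase hx, y, mem_of_mem_erase hy, h1, ne_of_mem_erase hx,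
    ne_of_mem_erase hy⟩

lemma Ctx.str (c : Ctx G z ρ γ τ) (hρ : K G ρ) : ∃ κ S, Str G z ρ γ τ κ S ∧ ρ ∉ Qs G z ρ τ κ ∧
    ∀ κ', Mn G z ρ γ τ κ' → #(Qs G z ρ τ κ) ≤ #(Qs G z ρ τ κ') := by
  obtain ⟨κ₀, h₀⟩ := exists_mn (z := z) (γ := γ) (τ := τ) hρ
  obtain ⟨κ, hm, hmin⟩ := exists_min_image (univ.filter (Mn G z ρ γ τ))
    (fun κ => 2 * #(Qs G z ρ τ κ) + if ρ ∈ Qs G z ρ τ κ then 1 else 0) ⟨κ₀, by simpa using h₀⟩
  simp only [mem_filter, mem_univ, true_and] at hm hmin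
  have hq : ∀ κ', Mn G z ρ γ τ κ' → #(Qs G z ρ τ κ) ≤ #(Qs G z ρ τ κ') := fun κ' h => by
    have := hmin κ' h
    split_ifs at this <;> omega
  have h3 : 3 ≤ #(Qs G z ρ τ κ) := by
    by_contra h3
    by_cases h1 : #(Qs G z ρ τ κ) ≤ 1
    · exact c.no κ _ ∅ none hm (certQ (c.low κ hm) (fun _ => mem_Qs)
        (fun a ha b hb => c.clq hm ha hb) (by simp) (by simp) (by omega)
        fun X _ => Or.inl (by omega))
    · obtain ⟨x, hx⟩ : ((Qs G z ρ τ κ).erase ρ).Nonempty := card_pos.1 (by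
        have := pred_card_le_card_erase (s := Qs G z ρ τ κ) (a := ρ); omega)
      rw [mem_erase] at hx
      obtain ⟨u, hu⟩ := exists_he (τ := τ) (κ := κ) c.hz c.hE c.hB (mem_Qs.1 hx.2).1 hx.1
        (mem_Qs.1 hx.2).2.ge
      have h2 := c.he1 hm hx.2 hu
      refine c.no κ _ ∅ (some (u, x)) hm (certQ (c.low κ hm) (fun _ => mem_Qs)
        (fun a ha b hb => c.clq hm ha hb) (by simp) (fun a b hab => ?_) (by omega)
        fun X hX => Or.inr ?_)
      · obtain ⟨rfl, rfl⟩ : u = a ∧ x = b := by simpa using hab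
        exact ⟨hu, h2, by simp⟩
      · by_cases h' : u ∈ X
        · exact Or.inl ⟨u, h', by simp, h2⟩
        · exact Or.inr (Or.inr ⟨u, x, rfl, h', hX hx.2⟩)
  set U := univ.filter fun w => K G w ∧ 2 ≤ #((Qs G z ρ τ κ).filter fun x => G.Adj w x ∧ κ w ≠ κ x)
    with hU
  have hU1 : #U + 2 ≤ #(Qs G z ρ τ κ) := by
    by_contra h
    refine c.no κ _ U none hm (certQ (c.low κ hm) (fun _ => mem_Qs)
      (fun a ha b hb => c.clq hm ha hb) (fun w hw => ?_) (by simp) (by omega)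
      fun X _ => Or.inl (by omega))
    obtain ⟨h1, h2⟩ := (mem_filter.1 hw).2
    obtain ⟨x, hx⟩ := card_pos.1 (lt_of_lt_of_le two_pos h2)
    rw [mem_filter] at hx
    exact ⟨h1, c.he1 hm hx.1 ⟨hx.2.1, h1, (mem_Qs.1 hx.1).1, hx.2.2⟩, by simpa using h2⟩
  have key : ∀ x ∈ Qs G z ρ τ κ, ∀ y ∈ Qs G z ρ τ κ, x ≠ y → x ≠ ρ → y ≠ ρ →
      #U + 2 = #(Qs G z ρ τ κ) ∧ ρ ∉ Qs G z ρ τ κ ∧
        ∀ v ∈ U, He G κ v x ∧ tt G z ρ τ κ v = 1 := fun x hx y hy h hx' hy' => by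
    obtain ⟨hm', hQ⟩ := c.flipQ hm hx hy h hx' hy'
    set S := univ.filter fun v => He G κ v x ∧ He G κ v y ∧ tt G z ρ τ κ v = 1 with hS
    have hSU : S ⊆ U := fun v hv => by
      obtain ⟨a1, a2, -⟩ := (mem_filter.1 hv).2
      exact mem_filter.2 ⟨mem_univ _, a1.2.1, one_lt_card.2 ⟨x, mem_filter.2 ⟨hx, a1.1, a1.2.2.2⟩,
        y, mem_filter.2 ⟨hy, a2.1, a2.2.2.2⟩, h⟩⟩
    have e : Qs G z ρ τ (fl (fl κ x) y) = insert x (insert y S) := by ext v; simp [hQ, hS]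
    have h1 := hq _ hm'
    have h2 : #(Qs G z ρ τ (fl (fl κ x) y)) ≤ #S + 2 := by
      rw [e]; exact (card_insert_le _ _).trans (Nat.succ_le_succ (card_insert_le _ _))
    have h4 := card_le_card hSU
    have h5 : S = U := eq_of_subset_of_card_le hSU (by omega)
    refine ⟨by omega, fun hr => ?_, fun v hv => ?_⟩
    · have h6 := hmin _ hm'
      have h7 : ρ ∉ Qs G z ρ τ (fl (fl κ x) y) := fun h' => by
        rcases (hQ ρ).1 h' with h' | h' | h'
        · exact hx' h'.symm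
        · exact hy' h'.symm
        · have := (mem_Qs.1 hr).2; omega
      rw [if_pos hr, if_neg h7] at h6
      omega
    · rw [← h5] at hv
      exact ⟨(mem_filter.1 hv).2.1, (mem_filter.1 hv).2.2.2⟩
  obtain ⟨x, hx, y, hy, h, hx', hy'⟩ := two_ne h3 ρ
  obtain ⟨k1, k2, k3⟩ := key x hx y hy h hx' hy'
  refine ⟨κ, U, ⟨hm, k1, by omega, fun s hs => (k3 s hs).2, fun s hs a ha => ?_⟩, k2, hq⟩
  obtain ⟨b, hb, -, -, -, hb', -⟩ := two_ne h3 a
  exact ((key a ha b hb hb'.symm (fun h' => k2 (h' ▸ ha)) fun h' => k2 (h' ▸ hb)).2.2 s hs).1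

lemma cut_zero (hT : TwoK G) {B : Finset V} (h : ∀ a ∈ B, ∀ v, G.Adj a v → K G v → v ∈ B)
    (hu : u ∈ B) (hu' : K G u) (hw : K G w) : w ∈ B := by
  by_contra h'
  have h1 := hT B u w hu h' hu' hw
  have h2 : cut (core G) B = 0 := sum_eq_zero fun a ha => by
    rw [card_eq_zero, filter_eq_empty_iff]
    intro v hv
    have : (core G).Adj a v := by simpa [N] using hv
    exact not_not.2 (h a ha v this.1 this.2.2)
  omega

lemma Ctx.final (c : Ctx G z ρ γ τ) (hT : TwoK G) (hρ : K G ρ) :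
    (∀ u w, K G u → K G w → u ≠ w → G.Adj u w) ∧ Even #(univ.filter (K G)) := by
  obtain ⟨κ, S, s, hr, hq⟩ := c.str hρ
  have h3 : 3 ≤ #(Qs G z ρ τ κ) := by have := s.card; have := s.three; omega
  have ne : ∀ x ∈ Qs G z ρ τ κ, x ≠ ρ := fun x hx h => hr (h ▸ hx)
  have KS : ∀ a ∈ S, K G a := fun a ha => by
    obtain ⟨x, hx⟩ : (Qs G z ρ τ κ).Nonempty := card_pos.1 (by omega)
    exact (s.com a ha x hx).2.1
  have c1 : ∀ x ∈ Qs G z ρ τ κ, ∀ v, G.Adj x v → K G v → v ∈ Qs G z ρ τ κ ∪ S :=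
    fun x hx v hv hv' => by
      by_cases h : κ v = κ x
      · by_contra h'
        rw [mem_union, not_or] at h'
        obtain ⟨y, hy, -, -, -, hy', -⟩ := two_ne h3 x
        obtain ⟨s', hQ⟩ := s.flip c hx hy hy'.symm (ne x hx) (ne y hy)
        have := s'.he c ((hQ x).2 (Or.inl rfl)) (u := v) (by
          rw [he_fl (fun h1 : v = y => h'.1 (h1 ▸ hy)) hy'.symm, he_fl' hv.ne']
          exact ⟨hv.symm, hv', (mem_Qs.1 hx).1, h⟩)
        exact h'.1 (mem_of_mem_erase (mem_of_mem_erase this))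
      · exact mem_union_right _ (s.he c hx ⟨hv.symm, hv', (mem_Qs.1 hx).1, h⟩)
  obtain ⟨x, hx, y, hy, hxy, -, -⟩ := two_ne h3 ρ
  obtain ⟨s', hQ⟩ := s.flip c hx hy hxy (ne x hx) (ne y hy)
  have nx : ∀ v, v ∉ Qs G z ρ τ κ → v ≠ x := fun v h h' => h (h' ▸ hx)
  have ny : ∀ v, v ∉ Qs G z ρ τ κ → v ≠ y := fun v h h' => h (h' ▸ hy)
  have SQ : ∀ a ∈ S, a ∈ Qs G z ρ τ (fl (fl κ x) y) := fun a ha => (hQ a).2 (Or.inr (Or.inr ha))
  have c2 : ∀ a ∈ S, ∀ v, G.Adj a v → K G v → v ∉ Qs G z ρ τ κ → Fe G (fl (fl κ x) y) v a :=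
    fun a ha v hv hv' h => by
      by_contra h'
      exact h (mem_of_mem_erase (mem_of_mem_erase (s'.he c (SQ a ha)
        ⟨hv.symm, hv', KS a ha, fun h1 => h' ⟨hv.symm, hv', KS a ha, h1⟩⟩)))
  have c3 : ∀ a ∈ S, a ≠ ρ → ∀ v, G.Adj a v → K G v → v ∈ Qs G z ρ τ κ ∪ S :=
    fun a ha ha' v hv hv' => by
      by_contra h'
      rw [mem_union, not_or] at h'
      have hya : a ≠ y := ny a (s.notQ ha)
      obtain ⟨s'', -⟩ := s'.flip c ((hQ y).2 (Or.inr (Or.inl rfl))) (SQ a ha) hya.symm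
        (ne y hy) ha'
      obtain ⟨-, hQ'⟩ := s'.flip c ((hQ y).2 (Or.inr (Or.inl rfl))) (SQ a ha) hya.symm
        (ne y hy) ha'
      have := s''.he c ((hQ' a).2 (Or.inr (Or.inl rfl))) (u := v) (by
        rw [he_fl' hv.ne', fe_fl (ny v h'.1) hya]
        exact c2 a ha v hv hv' h'.1)
      rcases (hQ v).1 (mem_of_mem_erase (mem_of_mem_erase this)) with h | h | h
      · exact nx v h'.1 h
      · exact ny v h'.1 h
      · exact h'.2 h
  have c4 : ∀ a ∈ Qs G z ρ τ κ ∪ S, a ≠ ρ → ∀ v, G.Adj a v → K G v → v ∈ Qs G z ρ τ κ ∪ S :=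
    fun a ha ha' v hv hv' => (mem_union.1 ha).elim (fun h => c1 a h v hv hv')
      fun h => c3 a h ha' v hv hv'
  have c5 : ∀ a ∈ Qs G z ρ τ κ ∪ S, ∀ v, G.Adj a v → K G v → v ∈ Qs G z ρ τ κ ∪ S := by
    intro a ha v hv hv'
    by_cases ha' : a = ρ
    swap
    · exact c4 a ha ha' v hv hv'
    subst ha'
    by_contra h'
    have hS : a ∈ S := (mem_union.1 ha).resolve_left hr
    have hvQ : v ∉ Qs G z a τ κ := fun h => h' (mem_union_left _ h)
    have hF := c2 a hS v hv hv' hvQ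
    have out : ∀ w, w ∉ Qs G z a τ κ ∪ S → w ∉ ((Qs G z a τ κ).erase x).erase y ∧
        w ∉ Qs G z a τ (fl (fl κ x) y) := fun w hw => by
      rw [mem_union, not_or] at hw
      refine ⟨fun h => hw.1 (mem_of_mem_erase (mem_of_mem_erase h)), fun h => ?_⟩
      rcases (hQ w).1 h with h | h | h
      · exact nx w hw.1 h
      · exact ny w hw.1 h
      · exact hw.2 h
    by_cases h1 : 1 ≤ tt G z a τ (fl (fl κ x) y) v
    · refine s'.cert c none (by simp) fun X _ => ?_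
      by_cases h2 : v ∈ X
      · exact Or.inl ⟨v, h2, (out v h').1, h1⟩
      · exact Or.inr (Or.inl ⟨a, SQ a hS, v, h2, Fe.symm hF⟩)
    have h0 := c.nn s'.mn hv' (out v h').2
    obtain ⟨w, hw⟩ := exists_he (τ := τ) (κ := fl (fl κ x) y) c.hz c.hE c.hB hv' hv.ne' (by omega)
    have hwa : w ≠ a := fun h => hw.not_fe (h ▸ Fe.symm hF)
    have hwB : w ∉ Qs G z a τ κ ∪ S := fun h => h' (c4 w h hwa v hw.1 hv')
    by_cases h2 : 1 ≤ tt G z a τ (fl (fl κ x) y) w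
    · refine s'.cert c (some (w, v)) (fun p q hpq => ?_) fun X _ => ?_
      · obtain ⟨rfl, rfl⟩ : w = p ∧ v = q := by simpa using hpq
        exact ⟨hw, h2, (out w hwB).1⟩
      · by_cases h4 : v ∈ X
        · by_cases h5 : w ∈ X
          · exact Or.inl ⟨w, h5, (out w hwB).1, h2⟩
          · exact Or.inr (Or.inr ⟨w, v, rfl, h5, h4⟩)
        · exact Or.inr (Or.inl ⟨a, SQ a hS, v, h4, Fe.symm hF⟩)
    have h0' := c.nn s'.mn hw.2.1 (out w hwB).2
    have hm := s'.mn.flip c.hz c.hE hw.2.1 hv' hw.1.ne hwa hv.ne' (by rw [ee_he hw]; omega)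
    have same : ∀ b ∈ Qs G z a τ κ ∪ S, b ≠ a →
        tt G z a τ (fl (fl (fl (fl κ x) y) w) v) b = tt G z a τ (fl (fl κ x) y) b :=
      fun b hb hb' => by
        rw [tt_fl2 (fun h : b = w => hwB (h ▸ hb)) (fun h : b = v => h' (h ▸ hb)) hw.1.ne,
          ee_zero fun h => hwB (c4 b hb hb' w h hw.2.1),
          ee_zero fun h => h' (c4 b hb hb' v h hv')]
        ring
    have hx3 : x ∈ Qs G z a τ (fl (fl (fl (fl κ x) y) w) v) := mem_Qs.2 ⟨(mem_Qs.1 hx).1, by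
      rw [same x (mem_union_left _ hx) (ne x hx)]
      exact (mem_Qs.1 ((hQ x).2 (Or.inl rfl))).2⟩
    have sub : Qs G z a τ (fl (fl (fl (fl κ x) y) w) v) ⊆ (Qs G z a τ (fl (fl κ x) y)).erase a :=
      fun b hb => by
        have hbB : b ∈ Qs G z a τ κ ∪ S := by
          by_cases h : x = b
          · exact h ▸ mem_union_left _ hx
          · exact c1 x hx b (c.clq hm hx3 hb h).1 (mem_Qs.1 hb).1
        have hba : b ≠ a := fun h => by
          have h6 := (mem_Qs.1 hb).2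
          rw [h, tt_fl2 hwa.symm hv.ne hw.1.ne, ee_fe (Fe.symm hF), (mem_Qs.1 (SQ a hS)).2,
            ee_zero fun h7 => hw.2.2.2 ((c2 a hS w h7 hw.2.1 fun h8 =>
              hwB (mem_union_left _ h8)).2.2.2.trans hF.2.2.2.symm)] at h6
          omega
        exact mem_erase.2 ⟨hba, mem_Qs.2 ⟨(mem_Qs.1 hb).1, same b hbB hba ▸ (mem_Qs.1 hb).2⟩⟩
    have a1 := card_le_card sub
    rw [card_erase_of_mem (SQ a hS)] at a1
    have a2 := hq _ hm
    have a3 := s'.card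
    rw [card_erase_of_mem (mem_erase.2 ⟨hxy.symm, hy⟩), card_erase_of_mem hx] at a3
    omega
  have all : ∀ w, K G w → w ∈ Qs G z ρ τ κ ∪ S := fun w hw =>
    cut_zero hT c5 (mem_union_left _ hx) (mem_Qs.1 hx).1 hw
  constructor
  · intro a b ha hb hab
    rcases mem_union.1 (all a ha) with h1 | h1 <;> rcases mem_union.1 (all b hb) with h2 | h2
    · exact (c.clq s.mn h1 h2 hab).1
    · exact (s.com b h2 a h1).1.symm
    · exact (s.com a h1 b h2).1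
    · exact (c.clq s'.mn (SQ a h1) (SQ b h2) hab).1
  · have e : univ.filter (K G) = Qs G z ρ τ κ ∪ S := by
      ext v
      simp only [mem_filter, mem_univ, true_and]
      exact ⟨all v, fun h => (mem_union.1 h).elim (fun h => (mem_Qs.1 h).1) (KS v)⟩
    rw [e, card_union_of_disjoint (disjoint_right.2 fun a ha => s.notQ ha), ← s.card]
    exact ⟨#S + 1, by ring⟩

end CntA

open CntA in
theorem cnt : SCnt := by
  intro V _ G z ρ γ τ hB hT hρ hz hE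
  by_contra h
  rw [not_or] at h
  refine h.1 (Ctx.final (z := z) (γ := γ) (τ := τ) ⟨hz, hE, hB, fun κ hm v hv => ?_,
    fun κ Q Dn g hm hc => h.2 ⟨κ, Q, Dn, ∅, g, hm.1, hc⟩⟩ hT hρ)
  by_contra h'
  obtain ⟨g, hg⟩ := caseR hz hE hB hm hv (by omega)
  exact h.2 ⟨κ, ∅, ∅, {v}, g, hm.1, hg⟩

end

end Pool.Agent.MP_d1f1f3_co.H47
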