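import Pool.Agent.MP_d1f1f3_co.H47.Spec

/-!
Flips of the parity function and their effect on the slack.
-/

namespace Pool.Agent.MP_d1f1f3_co.H47.CntA

open Finset Relation
open scoped Classical

noncomputable section

variable {V : Type} [Fintype V]

/-- Edges separated by parity. -/
def He (G : SimpleGraph V) (κ : V → ZMod 2) (u w : V) : Prop :=
  G.Adj u w ∧ K G u ∧ K G w ∧ κ u ≠ κ w

/-- The flip at one vertex. -/
def fl (κ : V → ZMod 2) (x : V) : V → ZMod 2 := fun v => if v = x then κ v + 1 else κ v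

/-- The signed adjacency. -/
def ee (G : SimpleGraph V) (κ : V → ZMod 2) (u w : V) : ℤ :=
  (if Fe G κ u w then 1 else 0) - if He G κ u w then 1 else 0

lemma z2a : ∀ a b : ZMod 2, a = b + 1 ↔ a ≠ b := by decide
lemma z2b : ∀ a b : ZMod 2, a + 1 = b ↔ a ≠ b := by decide

variable {G : SimpleGraph V} {κ : V → ZMod 2} {u v w x y : V}

lemma Fe.symm (h : Fe G κ u w) : Fe G κ w u := ⟨h.1.symm, h.2.2.1, h.2.1, h.2.2.2.symm⟩
lemma He.symm (h : He G κ u w) : He G κ w u := ⟨h.1.symm, h.2.2.1, h.2.1, h.2.2.2.symm⟩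
lemma fe_comm : Fe G κ u w ↔ Fe G κ w u := ⟨Fe.symm, Fe.symm⟩
lemma he_comm : He G κ u w ↔ He G κ w u := ⟨He.symm, He.symm⟩
lemma He.not_fe (h : He G κ u w) : ¬Fe G κ u w := fun h' => h.2.2.2 h'.2.2.2

lemma ee_comm : ee G κ u w = ee G κ w u := by simp only [ee, fe_comm (u := u), he_comm (u := u)]
lemma ee_fe (h : Fe G κ u w) : ee G κ u w = 1 := by
  have : ¬He G κ u w := fun h' => h'.not_fe h
  simp [ee, h, this]
lemma ee_he (h : He G κ u w) : ee G κ u w = -1 := by simp [ee, h, h.not_fe]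
lemma ee_nonneg (h : ¬He G κ u w) : 0 ≤ ee G κ u w := by
  simp only [ee, if_neg h]; split_ifs <;> omega
lemma ee_nonpos (h : ¬Fe G κ u w) : ee G κ u w ≤ 0 := by
  simp only [ee, if_neg h]; split_ifs <;> omega
lemma ee_ge : -1 ≤ ee G κ u w := by simp only [ee]; split_ifs <;> omega
lemma ee_le : ee G κ u w ≤ 1 := by simp only [ee]; split_ifs <;> omega
lemma ee_zero (h : ¬G.Adj u w) : ee G κ u w = 0 := by
  have h1 : ¬He G κ u w := fun h' => h h'.1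
  have h2 : ¬Fe G κ u w := fun h' => h h'.1
  simp [ee, h1, h2]

omit [Fintype V] in
lemma fl_ne (h : v ≠ x) : fl κ x v = κ v := if_neg h
omit [Fintype V] in
lemma fl_eq : fl κ x x = κ x + 1 := if_pos rfl

lemma fe_fl (hu : u ≠ x) (hw : w ≠ x) : Fe G (fl κ x) u w ↔ Fe G κ u w := by
  simp only [Fe, fl_ne hu, fl_ne hw]
lemma he_fl (hu : u ≠ x) (hw : w ≠ x) : He G (fl κ x) u w ↔ He G κ u w := by
  simp only [He, fl_ne hu, fl_ne hw]
lemma fe_fl' (hu : u ≠ x) : Fe G (fl κ x) u x ↔ He G κ u x := by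
  simp only [Fe, He, fl_ne hu, fl_eq, z2a]
lemma he_fl' (hu : u ≠ x) : He G (fl κ x) u x ↔ Fe G κ u x := by
  simp only [Fe, He, fl_ne hu, fl_eq, ne_eq, z2a, not_not]
lemma ee_fl (hu : u ≠ x) (hw : w ≠ x) : ee G (fl κ x) u w = ee G κ u w := by
  simp only [ee, fe_fl hu hw, he_fl hu hw]
lemma ee_fl' (hu : u ≠ x) : ee G (fl κ x) u x = -ee G κ u x := by
  simp only [ee, fe_fl' hu, he_fl' hu]; ring

/-- Number of unseparated edges at a vertex. -/
def dF (G : SimpleGraph V) (κ : V → ZMod 2) (v : V) : ℤ := ∑ w, if Fe G κ v w then 1 else 0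

/-- Number of separated edges at a vertex. -/
def dH (G : SimpleGraph V) (κ : V → ZMod 2) (v : V) : ℤ := ∑ w, if He G κ v w then 1 else 0

lemma dF_eq : dF G κ v = #(univ.filter fun w => Fe G κ v w) := by simp [dF]
lemma dH_eq : dH G κ v = #(univ.filter fun w => He G κ v w) := by simp [dH]

lemma dF_fl (h : v ≠ x) : dF G (fl κ x) v = dF G κ v - ee G κ v x := by
  unfold dF
  rw [← add_sum_erase _ _ (mem_univ x), ← add_sum_erase univ _ (mem_univ x),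
    sum_congr rfl fun w hw => by rw [fe_fl h (ne_of_mem_erase hw)]]
  simp only [ee, fe_fl' h]; ring

lemma dF_fl' : dF G (fl κ x) x = dH G κ x := by
  unfold dF dH
  refine sum_congr rfl fun w _ => ?_
  by_cases h : w = x
  · subst h
    rw [if_neg fun h' => h'.1.ne rfl, if_neg fun h' => h'.1.ne rfl]
  · simp only [fe_comm (u := x), he_comm (u := x), fe_fl' h]

lemma sum_ee : ∑ v, ee G κ v x = dF G κ x - dH G κ x := by
  simp only [dF, dH, ← sum_sub_distrib, ee, fe_comm (u := x), he_comm (u := x)]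

variable {z ρ : V} {τ γ : ZMod 2}

/-- Indicator of the root. -/
def rr (G : SimpleGraph V) (z ρ v : V) : ℤ := if v = ρ ∧ G.Adj z ρ then 1 else 0

lemma deg_eq (hz : ¬K G z) (hE : ∀ u w, G.Adj u w → K G w ∨ (u = ρ ∧ w = z)) (hv : K G v) :
    dF G κ v + dH G κ v + rr G z ρ v = dg G v := by
  have : (dg G v : ℤ) = ∑ w, if G.Adj v w then 1 else 0 := by simp [dg, N]
  rw [this]
  have h2 : rr G z ρ v = ∑ w, if w = z then rr G z ρ v else 0 := by simp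
  rw [h2, dF, dH, ← sum_add_distrib, ← sum_add_distrib]
  refine sum_congr rfl fun w _ => ?_
  by_cases h : G.Adj v w
  · rcases hE v w h with hw | ⟨rfl, rfl⟩
    · have : w ≠ z := fun h' => hz (h' ▸ hw)
      by_cases h' : κ v = κ w <;> simp [Fe, He, h, hv, hw, h', this]
    · simp [Fe, He, hz, rr, h, h.symm]
  · by_cases h' : w = z
    · subst h'
      have : ¬(v = ρ ∧ G.Adj w ρ) := fun ⟨h1, h2⟩ => h (h1 ▸ h2.symm)
      simp [Fe, He, h, rr, this]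
    · simp [Fe, He, h, h']

/-- Indicator of the wrong parity. -/
def ww (G : SimpleGraph V) (κ : V → ZMod 2) (v : V) : ℤ := if Wv G κ v then 1 else 0

/-- Indicator of the root constraint. -/
def bb (G : SimpleGraph V) (z ρ : V) (τ : ZMod 2) (κ : V → ZMod 2) (v : V) : ℤ :=
  if v = ρ ∧ G.Adj z ρ ∧ κ ρ = τ then 1 else 0

lemma tt_eq : tt G z ρ τ κ v =
    ((dg G v / 2 : ℕ) : ℤ) - ww G κ v - dF G κ v - 2 * bb G z ρ τ κ v := by
  simp only [tt, ww, bb, dF_eq]; split_ifs <;> ring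

lemma ww_fl (h : v ≠ x) : ww G (fl κ x) v = ww G κ v := by
  have : Wv G (fl κ x) v ↔ Wv G κ v := by simp only [Wv, fl_ne h]
  simp only [ww, this]

omit [Fintype V] in
lemma bb_fl (h : v ≠ x) : bb G z ρ τ (fl κ x) v = bb G z ρ τ κ v := by
  by_cases h' : v = ρ
  · subst h'; simp only [bb, fl_ne h]
  · simp [bb, h']

lemma ww_fl' (hx : K G x) : ww G (fl κ x) x + ww G κ x + dg G x % 2 = 1 := by
  rcases Nat.even_or_odd (dg G x) with h | h
  · have := Nat.even_iff.1 h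
    by_cases h' : κ x = ((dg G x / 2 : ℕ) : ZMod 2)
    · have h1 : ¬Wv G κ x := fun h2 => h2.2.2 h'
      have h2 : Wv G (fl κ x) x := ⟨hx, h, by rw [fl_eq, ne_eq, z2b]; exact fun h3 => h3 h'⟩
      simp only [ww, if_pos h2, if_neg h1]; omega
    · have h1 : Wv G κ x := ⟨hx, h, h'⟩
      have h2 : ¬Wv G (fl κ x) x := fun h2 => h2.2.2 (by rw [fl_eq, z2b]; exact h')
      simp only [ww, if_pos h1, if_neg h2]; omega
  · have := Nat.odd_iff.1 h
    have h1 : ∀ κ, ¬Wv G κ x := fun κ h2 => (Nat.not_even_iff_odd.2 h) h2.2.1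
    simp only [ww, if_neg (h1 _)]; omega

omit [Fintype V] in
lemma bb_fl' : bb G z ρ τ (fl κ x) x + bb G z ρ τ κ x = rr G z ρ x := by
  by_cases h : x = ρ ∧ G.Adj z ρ
  · obtain ⟨rfl, h⟩ := h
    by_cases h' : κ x = τ <;> simp [bb, rr, h, fl_eq, z2b, h']
  · have : ∀ κ : V → ZMod 2, ¬(x = ρ ∧ G.Adj z ρ ∧ κ ρ = τ) := fun κ h' => h ⟨h'.1, h'.2.1⟩
    simp only [bb, rr, if_neg h, if_neg (this _)]; rfl

lemma tt_fl (h : v ≠ x) : tt G z ρ τ (fl κ x) v = tt G z ρ τ κ v + ee G κ v x := by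
  rw [tt_eq, tt_eq, ww_fl h, bb_fl h, dF_fl h]; ring

lemma tt_fl' (hz : ¬K G z) (hE : ∀ u w, G.Adj u w → K G w ∨ (u = ρ ∧ w = z)) (hx : K G x) :
    tt G z ρ τ (fl κ x) x = -tt G z ρ τ κ x - 1 - rr G z ρ x := by
  have h1 := deg_eq (κ := κ) hz hE hx
  have h2 := ww_fl' (κ := κ) hx
  have h3 := bb_fl' (G := G) (z := z) (ρ := ρ) (τ := τ) (κ := κ) (x := x)
  rw [tt_eq, tt_eq, dF_fl']; omega

/-- The potential. -/
def Ph (G : SimpleGraph V) (z ρ : V) (τ : ZMod 2) (κ : V → ZMod 2) : ℤ :=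
  ∑ v, (dF G κ v + 2 * ww G κ v + 4 * bb G z ρ τ κ v)

lemma Ph_fl (hz : ¬K G z) (hE : ∀ u w, G.Adj u w → K G w ∨ (u = ρ ∧ w = z)) (hx : K G x) :
    Ph G z ρ τ (fl κ x) = Ph G z ρ τ κ + 2 * (2 * tt G z ρ τ κ x + 1 + rr G z ρ x) := by
  have h1 := deg_eq (κ := κ) hz hE hx
  have h2 := ww_fl' (κ := κ) hx
  have h3 := bb_fl' (G := G) (z := z) (ρ := ρ) (τ := τ) (κ := κ) (x := x)
  have h4 := sum_ee (G := G) (κ := κ) (x := x)
  rw [← add_sum_erase _ _ (mem_univ x), ee_zero (fun h => h.ne rfl)] at h4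
  unfold Ph
  rw [← add_sum_erase _ _ (mem_univ x), ← add_sum_erase univ _ (mem_univ x),
    sum_congr rfl (g := fun v => dF G κ v + 2 * ww G κ v + 4 * bb G z ρ τ κ v - ee G κ v x)
      fun v hv => by
        rw [dF_fl (ne_of_mem_erase hv), ww_fl (ne_of_mem_erase hv), bb_fl (ne_of_mem_erase hv)]
        ring,
    sum_sub_distrib, dF_fl', tt_eq]
  omega

lemma par_fl (hx : K G x) :
    ∑ v ∈ univ.filter (K G), fl κ x v = ∑ v ∈ univ.filter (K G), κ v + 1 := by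
  have : x ∈ univ.filter (K G) := by simpa using hx
  rw [← add_sum_erase _ _ this, ← add_sum_erase _ κ this,
    sum_congr rfl fun v hv => fl_ne (ne_of_mem_erase hv), fl_eq]
  ring

omit [Fintype V] in
lemma rr_ne (h : x ≠ ρ) : rr G z ρ x = 0 := if_neg fun h' => h h'.1
omit [Fintype V] in
lemma rr_le : rr G z ρ x ≤ 1 := by unfold rr; split_ifs <;> omega
omit [Fintype V] in
lemma rr_ge : 0 ≤ rr G z ρ x := by unfold rr; split_ifs <;> omega

/-- Minimal parity functions with the prescribed total parity. -/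
def Mn (G : SimpleGraph V) (z ρ : V) (γ τ : ZMod 2) (κ : V → ZMod 2) : Prop :=
  ∑ v ∈ univ.filter (K G), κ v = γ ∧
    ∀ κ', ∑ v ∈ univ.filter (K G), κ' v = γ → Ph G z ρ τ κ ≤ Ph G z ρ τ κ'

lemma par_fl2 (hx : K G x) (hy : K G y) :
    ∑ v ∈ univ.filter (K G), fl (fl κ x) y v = ∑ v ∈ univ.filter (K G), κ v := by
  rw [par_fl hy, par_fl hx, add_assoc]
  exact add_eq_left.2 (by decide)

lemma Ph_fl2 (hz : ¬K G z) (hE : ∀ u w, G.Adj u w → K G w ∨ (u = ρ ∧ w = z)) (hx : K G x)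
    (hy : K G y) (h : x ≠ y) : Ph G z ρ τ (fl (fl κ x) y) = Ph G z ρ τ κ +
      2 * (2 * (tt G z ρ τ κ x + tt G z ρ τ κ y + ee G κ x y + 1) + rr G z ρ x + rr G z ρ y) := by
  rw [Ph_fl hz hE hy, Ph_fl hz hE hx, tt_fl h.symm, ee_comm]; ring

lemma Mn.pair (hz : ¬K G z) (hE : ∀ u w, G.Adj u w → K G w ∨ (u = ρ ∧ w = z))
    (hm : Mn G z ρ γ τ κ) (hx : K G x) (hy : K G y) (h : x ≠ y) :
    0 ≤ tt G z ρ τ κ x + tt G z ρ τ κ y + ee G κ x y + 1 := by
  have h1 := hm.2 _ ((par_fl2 hx hy).trans hm.1)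
  rw [Ph_fl2 hz hE hx hy h] at h1
  have : rr G z ρ x + rr G z ρ y ≤ 1 := by
    by_cases h' : x = ρ
    · rw [rr_ne (x := y) fun h2 => h (h'.trans h2.symm)]; simpa using rr_le
    · rw [rr_ne h']; simpa using rr_le
  omega

lemma Mn.flip (hz : ¬K G z) (hE : ∀ u w, G.Adj u w → K G w ∨ (u = ρ ∧ w = z))
    (hm : Mn G z ρ γ τ κ) (hx : K G x) (hy : K G y) (h : x ≠ y) (hx' : x ≠ ρ) (hy' : y ≠ ρ)
    (h0 : tt G z ρ τ κ x + tt G z ρ τ κ y + ee G κ x y + 1 = 0) :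
    Mn G z ρ γ τ (fl (fl κ x) y) := by
  refine ⟨(par_fl2 hx hy).trans hm.1, fun κ' h' => ?_⟩
  rw [Ph_fl2 hz hE hx hy h, h0, rr_ne hx', rr_ne hy']
  simpa using hm.2 κ' h'

lemma tt_fl2 (hx : v ≠ x) (hy : v ≠ y) (h : x ≠ y) :
    tt G z ρ τ (fl (fl κ x) y) v = tt G z ρ τ κ v + ee G κ v x + ee G κ v y := by
  rw [tt_fl hy, tt_fl hx, ee_fl hx h.symm]

lemma tt_fl2x (hz : ¬K G z) (hE : ∀ u w, G.Adj u w → K G w ∨ (u = ρ ∧ w = z)) (hx : K G x)
    (h : x ≠ y) (hx' : x ≠ ρ) :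
    tt G z ρ τ (fl (fl κ x) y) x = -tt G z ρ τ κ x - 1 - ee G κ x y := by
  rw [tt_fl h, tt_fl' hz hE hx, rr_ne hx', ee_comm, ee_fl' h.symm, ee_comm]; ring

lemma tt_fl2y (hz : ¬K G z) (hE : ∀ u w, G.Adj u w → K G w ∨ (u = ρ ∧ w = z)) (hy : K G y)
    (h : x ≠ y) (hy' : y ≠ ρ) :
    tt G z ρ τ (fl (fl κ x) y) y = -tt G z ρ τ κ y - 1 - ee G κ x y := by
  rw [tt_fl' hz hE hy, tt_fl h.symm, rr_ne hy', ee_comm]; ring

lemma exists_mn (hρ : K G ρ) : ∃ κ, Mn G z ρ γ τ κ := by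
  have hne : (univ.filter fun κ : V → ZMod 2 => ∑ v ∈ univ.filter (K G), κ v = γ).Nonempty := by
    by_cases h : ∑ v ∈ univ.filter (K G), (0 : V → ZMod 2) v = γ
    · exact ⟨0, by simpa using h⟩
    · refine ⟨fl 0 ρ, mem_filter.2 ⟨mem_univ _, ?_⟩⟩
      rw [par_fl hρ, z2b]; exact h
  obtain ⟨κ, h1, h2⟩ := exists_min_image _ (Ph G z ρ τ) hne
  exact ⟨κ, (mem_filter.1 h1).2, fun κ' h' => h2 κ' (mem_filter.2 ⟨mem_univ _, h'⟩)⟩

/-- A vertex of slack at least minus one has a separated neighbour. -/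
lemma exists_he (hz : ¬K G z) (hE : ∀ u w, G.Adj u w → K G w ∨ (u = ρ ∧ w = z)) (hB : Big G)
    (hv : K G v) (hv' : v ≠ ρ) (ht : -1 ≤ tt G z ρ τ κ v) : ∃ w, He G κ w v := by
  by_contra h
  push Not at h
  have h1 := deg_eq (κ := κ) hz hE hv
  have h2 : dH G κ v = 0 := sum_eq_zero fun w _ => if_neg fun h' => h w h'.symm
  have h3 : bb G z ρ τ κ v = 0 := if_neg fun h' => hv' h'.1
  have h4 : 0 ≤ ww G κ v := by unfold ww; split_ifs <;> omega
  have h5 := hB v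
  have h6 : 2 ≤ dg G v := hv
  rw [tt_eq] at ht
  rw [rr_ne hv'] at h1
  omega

lemma dF_ge (hB : Big G) (hv : K G v) : 2 - tt G z ρ τ κ v ≤ dF G κ v := by
  have h3 : bb G z ρ τ κ v ≤ 1 := by unfold bb; split_ifs <;> omega
  have h4 : ww G κ v ≤ 1 := by unfold ww; split_ifs <;> omega
  have h5 := hB v
  have h6 : 2 ≤ dg G v := hv
  rw [tt_eq]
  omega

end

end Pool.Agent.MP_d1f1f3_co.H47.CntA
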