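import Pool.Agent.MP_d1f1f3_co.H47.Spec

/-! The choice of the parities without a parity condition, and the final translation. -/

namespace Pool.Agent.MP_d1f1f3_co.H47

open Finset Relation
open scoped Classical

namespace CntM

variable {V : Type} [Fintype V]

/-- The potential. -/
noncomputable def Phi (G : SimpleGraph V) (z ρ : V) (τ : ZMod 2) (κ : V → ZMod 2) : ℤ :=
  ∑ u, ∑ w, (if Fe G κ u w then 1 else 0) + 2 * ∑ u, (if Wv G κ u then 1 else 0) +
    2 * if G.Adj z ρ ∧ κ ρ = τ then 1 else 0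

theorem flip2 : ∀ a b : ZMod 2, a + 1 = b ↔ ¬a = b := by decide

theorem fe_symm {G : SimpleGraph V} {κ : V → ZMod 2} {u w : V} : Fe G κ u w ↔ Fe G κ w u :=
  ⟨fun h => ⟨h.1.symm, h.2.2.1, h.2.1, h.2.2.2.symm⟩,
    fun h => ⟨h.1.symm, h.2.2.1, h.2.1, h.2.2.2.symm⟩⟩

theorem bound {G : SimpleGraph V} {z ρ : V} {τ : ZMod 2} (hz : ¬K G z) {κ : V → ZMod 2}
    (h : ∀ κ', Phi G z ρ τ κ ≤ Phi G z ρ τ κ') {v : V} (hv : K G v) :
    (if v = ρ then -1 else 0) ≤ tt G z ρ τ κ v := by
  set κ' := Function.update κ v (κ v + 1) with hκ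
  have e0 : κ' v = κ v + 1 := Function.update_self _ _ _
  have e1 : ∀ u, u ≠ v → κ' u = κ u := fun u hu => Function.update_of_ne hu _ _
  set δ : V → V → ℤ := fun u w =>
    (if Fe G κ' u w then 1 else 0) - if Fe G κ u w then 1 else 0 with hδ
  have h1 : ∀ u w, δ u w = (if u = v then δ v w else 0) + if w = v then δ v u else 0 := by
    intro u w
    by_cases hu : u = v <;> by_cases hw : w = v
    · simp [hδ, hu, hw, Fe]
    · simp [hu, hw]
    · simp only [hu, hw, if_true, if_false, zero_add, hδ, fe_symm (u := u)]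
    · have q : Fe G κ' u w ↔ Fe G κ u w := by simp only [Fe, e1 u hu, e1 w hw]
      simp only [hu, hw, if_false, add_zero, hδ, q, sub_self]
  have h2 : ∑ u, ∑ w, δ u w = 2 * ∑ w, δ v w := by
    rw [sum_congr rfl fun u _ => sum_congr rfl fun w _ => h1 u w]
    simp only [sum_add_distrib, sum_ite_irrel, sum_const_zero, sum_ite_eq', mem_univ, if_true]
    ring
  have h3 : ∀ w, δ v w = (if G.Adj v w ∧ K G w then 1 else 0) - 2 * if Fe G κ v w then 1 else 0 := by
    intro w
    by_cases hw : w = v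
    · simp [hδ, hw, Fe]
    · simp only [hδ, Fe, e0, e1 w hw, hv, true_and, flip2]
      by_cases a : G.Adj v w <;> by_cases b : K G w <;> by_cases c : κ v = κ w <;> simp [a, b, c]
  have h4 : ∑ u, (if Wv G κ' u then (1 : ℤ) else 0) - ∑ u, (if Wv G κ u then 1 else 0) =
      (if Wv G κ' v then 1 else 0) - if Wv G κ v then 1 else 0 := by
    rw [← sum_sub_distrib]
    refine sum_eq_single v (fun u _ hu => ?_) (by simp)
    have q : Wv G κ' u ↔ Wv G κ u := by simp only [Wv, e1 u hu]
    simp only [q, sub_self]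
  have h5 : #(univ.filter fun w => G.Adj v w ∧ K G w) + (if v = ρ ∧ G.Adj z ρ then 1 else 0) ≤
      dg G v := by
    have hs : (univ.filter fun w => G.Adj v w ∧ K G w) ⊆ N G v := fun w hw => by
      simp only [N, mem_filter] at hw ⊢
      exact ⟨hw.1, hw.2.1⟩
    split_ifs with h6
    · exact card_lt_card ⟨hs, fun h7 => hz
        (mem_filter.1 (h7 (mem_filter.2 ⟨mem_univ z, h6.1 ▸ h6.2.symm⟩))).2.2⟩
    · exact card_le_card hs
  have h6 := h κ'
  simp only [h3, sum_sub_distrib, ← mul_sum, sum_boole] at h2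
  simp only [hδ, sum_sub_distrib] at h2
  unfold Phi at h6
  unfold tt
  have h7 : Wv G κ' v ↔ Even (dg G v) ∧ ¬Wv G κ v := by
    simp only [Wv, hv, true_and, e0, ne_eq, flip2]
    tauto
  have h8 : Wv G κ v → Even (dg G v) := fun h => h.2.1
  rw [h7] at h4
  rw [Nat.even_iff] at h4 h8
  by_cases a : v = ρ
  · subst a
    simp only [e0, flip2] at h6
    by_cases b : G.Adj z v <;> by_cases c : κ v = τ <;> by_cases d : Wv G κ v <;>
      by_cases e : dg G v % 2 = 0 <;>
      simp only [b, c, d, e, and_self, and_true, and_false, not_true,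
        not_false_eq_true, if_true, if_false, forall_const] at h4 h5 h6 h8 ⊢ <;> omega
  · rw [e1 ρ (Ne.symm a)] at h6
    by_cases d : Wv G κ v <;> by_cases e : dg G v % 2 = 0 <;>
      simp only [a, d, e, and_self, and_true, and_false, false_and, not_true,
        not_false_eq_true, if_true, if_false, forall_const] at h4 h5 h8 ⊢ <;> omega

end CntM

open CntM

theorem cntM : SCntM := by
  intro V _ G z ρ τ hz
  obtain ⟨κ, h⟩ := Finite.exists_min (Phi G z ρ τ)
  refine ⟨κ, by simp, Or.inl rfl, fun v hv _ => le_trans ?_ (bound hz h hv), by simp, by simp,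
    by simp, fun hd _ X hX => ?_⟩
  · split_ifs <;> omega
  · have h1 : ∑ v ∈ X, (if v = ρ then (-1 : ℤ) else 0) ≤ ∑ v ∈ X, tt G z ρ τ κ v :=
      sum_le_sum fun v hv => bound hz h (hX v hv)
    rw [sum_ite_eq'] at h1
    split_ifs at h1 ⊢ <;> omega

theorem fin : SFin := by
  intro p hM V _ _ G _ hc h2 hd
  obtain ⟨G', hG⟩ : ∃ G' : SimpleGraph (Option V), ∀ x y,
      G'.Adj x y ↔ ∃ u w, G.Adj u w ∧ some u = x ∧ some w = y :=
    ⟨G.map Function.Embedding.some, SimpleGraph.map_adj _ G⟩
  have hN : ∀ u, N G' (some u) = (G.neighborFinset u).map Function.Embedding.some := fun u => by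
    ext (_ | w) <;> simp [N, hG]
  have h0 : dg G' none = 0 := by simp [dg, N, hG]
  have hdg : ∀ u, dg G' (some u) = G.degree u := fun u => by
    rw [dg, hN, card_map, SimpleGraph.card_neighborFinset_eq_degree]
  have hadj : ∀ u w, G'.Adj (some u) (some w) ↔ G.Adj u w := fun u w => by simp [hG]
  have hb : ∀ (S : Set V) u w, u ∈ S → w ∉ S → ∃ a b, G.Adj a b ∧ a ∈ S ∧ b ∉ S := by
    intro S u w hu hw
    obtain ⟨q⟩ := hc.preconnected u w
    obtain ⟨d, -, h⟩ := q.exists_boundary_dart S hu hw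
    exact ⟨_, _, d.adj, h⟩
  obtain ⟨c, hs, h1, h3, h4⟩ := hM (Option V) G' none h0 (fun X u w hu hw du dw => by
    rcases u with _ | u
    · omega
    rcases w with _ | w
    · omega
    obtain ⟨a, b, hab, ha, hb⟩ := hb {x | some x ∈ X} u w hu hw
    unfold cut
    refine le_trans ?_ (single_le_sum (fun _ _ => Nat.zero_le _) (show some a ∈ X from ha))
    refine card_pos.2 ⟨some b, ?_⟩
    simp only [N, mem_filter, mem_univ, true_and]
    exact ⟨(hadj a b).2 hab, hb⟩)
    (fun v => by
    rcases v with _ | v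
    · omega
    · rw [hdg]
      exact hd v) (by
    intro x y hxy
    obtain ⟨u, w, huw, rfl, rfl⟩ := (hG x y).1 hxy
    by_contra h
    change ¬(2 ≤ dg G' (some u) ∨ 2 ≤ dg G' (some w)) at h
    rw [hdg, hdg] at h
    have key : ∀ a a' b, G.Adj a a' → G.Adj a b → b ≠ a' → 2 ≤ G.degree a := fun a a' b h1 h2 h3 =>
      one_lt_card.2 ⟨b, (G.mem_neighborFinset _ _).2 h2, a', (G.mem_neighborFinset _ _).2 h1, h3⟩
    refine h2 ?_
    rw [← card_univ, ← card_pair huw.ne]
    refine congrArg _ (eq_univ_of_forall fun x => ?_).symm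
    by_contra hx
    obtain ⟨a, b, hab, ha, hb⟩ := hb {u, w} u x (by simp) (by simpa using hx)
    rw [Set.mem_insert_iff, Set.mem_singleton_iff, not_or] at hb
    rcases ha with rfl | rfl
    · exact h (Or.inl (key _ _ _ huw hab hb.2))
    · exact h (Or.inr (key _ _ _ huw.symm hab hb.1)))
  refine ⟨Sym2.lift ⟨fun u w => c (some u) (some w), fun u w => hs _ _⟩, fun e he => ?_,
    fun u w h => ?_, fun u α => ?_⟩
  · induction e using Sym2.ind with
    | h u w => exact h1 _ _ ((hadj u w).2 he)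
  · have := h3 _ _ ((hadj u w).2 h)
    rwa [sg, sg, hN, hN, sum_map, sum_map] at this
  · have := h4 (some u) α
    rw [hdg, hN, filter_map, card_map] at this
    convert this using 2
    ext x
    simp

end Pool.Agent.MP_d1f1f3_co.H47
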