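import Pool.Agent.MP_d1f1f3_co.H47.Spec

/-!
From the payment certificate to the counting hypotheses.
-/

namespace Pool.Agent.MP_d1f1f3_co.H47

open Finset Relation
open scoped Classical

namespace CntOf

variable {V : Type} [Fintype V] {G : SimpleGraph V} {A : V → V → Prop} {z ρ : V} {τ : ZMod 2}
  {κ : V → ZMod 2} {v w : V}

theorem mem_N : w ∈ N G v ↔ G.Adj v w := by simp [N]

theorem mem_Out : w ∈ Out A v ↔ A v w := by simp [Out]

theorem mem_Inn : w ∈ Inn A v ↔ A w v := by simp [Inn]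

theorem mem_Hs : w ∈ Hs G κ v ↔ G.Adj v w ∧ ¬Fe G κ v w := by simp [Hs, N]

theorem mem_Iv {P : Finset (V × V)} {R : Finset V} : w ∈ Iv G A κ z P R v ↔
    A w v ∧ G.Adj v w ∧ (w, v) ∉ P ∧ w ∉ R ∧ (v ∈ R → Fe G κ w v ∨ w = z) := by simp [Iv]

theorem mem_Ov {P : Finset (V × V)} {R : Finset V} : w ∈ Ov G A κ P R v ↔
    A v w ∧ (v, w) ∉ P ∧ (v ∈ R ∨ ¬Fe G κ v w) := by simp [Ov]

theorem fe_symm (h : Fe G κ v w) : Fe G κ w v := ⟨h.1.symm, h.2.2.1, h.2.1, h.2.2.2.symm⟩

theorem card_Hs : #(Hs G κ v) + #(univ.filter fun w => Fe G κ v w) = dg G v := by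
  rw [← card_union_of_disjoint, dg]
  · congr 1
    ext w
    simp only [mem_union, mem_Hs, mem_N, mem_filter, mem_univ, true_and]
    exact ⟨fun h => h.elim (·.1) (·.1), fun h => (em (Fe G κ v w)).elim Or.inr fun h' =>
      Or.inl ⟨h, h'⟩⟩
  · exact disjoint_left.2 fun w h1 h2 => (mem_Hs.1 h1).2 (mem_filter.1 h2).2

theorem ten (hB : Big G) (h : K G v) : 10 ≤ dg G v := by
  have := hB v
  unfold K at h
  omega

theorem odd_T (o : Ori G A z ρ) (h : Tv G A v) : dg G v % 2 = 1 := by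
  have h1 : dg G v ≤ #(Out A v) + #(Inn A v) := by
    refine le_trans (card_le_card fun w hw => ?_) (card_union_le _ _)
    rw [mem_union, mem_Out, mem_Inn]
    exact o.real v w (mem_N.1 hw)
  have h2 := (o.smooth v h.1).2
  have h3 := h.2
  omega

/-- The number of separated arcs going out. -/
theorem outs (hB : Big G) (o : Ori G A z ρ) (hK : K G v)
    (hH : (#(Hs G κ v) - 1) / 2 ≤ #((Hs G κ v).filter (A v))) (j : ℕ)
    (ht : 2 * (j : ℤ) - 1 ≤ tt G z ρ τ κ v) : j + 1 ≤ #((Hs G κ v).filter (A v)) ∧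
      (Wv G κ v ∨ Tv G A v → j + 2 ≤ #((Hs G κ v).filter (A v))) := by
  have h1 := ten hB hK
  have h2 := card_Hs (G := G) (κ := κ) (v := v)
  unfold tt at ht
  refine ⟨by split_ifs at ht <;> omega, ?_⟩
  rintro (h | h)
  · rw [if_pos h] at ht
    split_ifs at ht <;> omega
  · have := odd_T o h
    split_ifs at ht <;> omega

/-- The number of unseparated arcs coming in. -/
theorem fins (hB : Big G) (o : Ori G A z ρ) (hY : Wv G κ v ∨ Tv G A v)
    (hH : (#(Hs G κ v) - 1) / 2 ≤ #((Hs G κ v).filter (A v))) (ht : tt G z ρ τ κ v ≤ -1) :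
    2 ≤ #(univ.filter fun a => A a v ∧ Fe G κ a v) +
      if v = ρ ∧ G.Adj z ρ ∧ κ ρ = τ then 1 else 0 := by
  have hK : K G v := hY.elim (·.1) (·.1)
  have h1 := ten hB hK
  have h2 := card_Hs (G := G) (κ := κ) (v := v)
  have h3 : #(univ.filter fun w => Fe G κ v w) + #((Hs G κ v).filter (A v)) ≤
      #(Out A v) + #(univ.filter fun a => A a v ∧ Fe G κ a v) := by
    rw [← card_union_of_disjoint]
    · refine le_trans (card_le_card fun w hw => ?_) (card_union_le _ _)
      simp only [mem_union, mem_filter, mem_univ, true_and, mem_Out] at hw ⊢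
      rcases hw with h | h
      · exact (o.real v w h.1).imp id fun h' => ⟨h', fe_symm h⟩
      · exact Or.inl h.2
    · exact disjoint_left.2 fun w h1 h2 => (mem_Hs.1 (mem_filter.1 h2).1).2 (mem_filter.1 h1).2
  have h4 := (o.smooth v hK).2
  unfold tt at ht
  rcases hY with h | h
  · obtain ⟨k, hk⟩ := h.2.1
    rw [if_pos h] at ht
    split_ifs at ht ⊢ <;> omega
  · have h5 := odd_T o h
    rw [if_neg fun h6 : Wv G κ v => by
      obtain ⟨k, hk⟩ := h6.2.1
      omega] at ht
    split_ifs at ht ⊢ <;> omega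

/-- The number of edges coming in. -/
theorem rins (hB : Big G) (o : Ori G A z ρ) (hK : K G v) :
    5 ≤ #(univ.filter fun a => A a v ∧ G.Adj v a) := by
  have h1 := ten hB hK
  have h2 : dg G v ≤ #(Out A v) + #(univ.filter fun a => A a v ∧ G.Adj v a) := by
    refine le_trans (card_le_card fun w hw => ?_) (card_union_le _ _)
    simp only [mem_union, mem_filter, mem_univ, true_and, mem_Out]
    exact (o.real v w (mem_N.1 hw)).imp id fun h => ⟨h, mem_N.1 hw⟩
  have h3 := (o.smooth v hK).2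
  omega

end CntOf

open CntOf in
theorem cntOf : SCntOf := by
  intro V _ G A z ρ τ κ Q Dn R g hB o c hH hD hg
  choose! hd hd1 hd2 hd3 using hD
  let P : Finset (V × V) := Dn.image (fun w => (w, hd w)) ∪ g.toFinset
  have hP : ∀ e, e ∈ P ↔ (e.1 ∈ Dn ∧ e.2 = hd e.1) ∨ g = some e := by
    rintro ⟨a, b⟩
    simp only [P, mem_union, mem_image, Prod.mk.injEq, Option.mem_toFinset, Option.mem_def]
    refine or_congr ⟨?_, ?_⟩ Iff.rfl
    · rintro ⟨w, h1, rfl, rfl⟩
      exact ⟨h1, rfl⟩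
    · rintro ⟨h1, rfl⟩
      exact ⟨a, h1, rfl, rfl⟩
  have hP1 : ∀ a b, (a, b) ∈ P →
      A a b ∧ K G a ∧ K G b ∧ κ a ≠ κ b ∧ 1 ≤ tt G z ρ τ κ a := by
    intro a b h
    rcases (hP _).1 h with ⟨h1, h2⟩ | h1
    · dsimp only at h1 h2
      subst h2
      exact ⟨hd2 a h1, (c.don a h1).1, (c.neg _ (Or.inl (hd1 a h1))).1, hd3 a h1,
        (c.don a h1).2.1⟩
    · obtain ⟨-, h2, h3, h4, h5, -⟩ := c.ext a b h1
      exact ⟨hg a b h1, h2, h3, h4, h5⟩
  have hP2 : ∀ a b b', (a, b) ∈ P → (a, b') ∈ P → b = b' := by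
    intro a b b' h h'
    rcases (hP _).1 h with ⟨h1, h2⟩ | h1 <;> rcases (hP _).1 h' with ⟨h3, h4⟩ | h3
    · exact h2.trans h4.symm
    · exact absurd h1 (c.ext a b' h3).2.2.2.2.2
    · exact absurd h3 (c.ext a b h1).2.2.2.2.2
    · exact (Prod.mk.inj (Option.some.inj (h1.symm.trans h3))).2
  refine ⟨P, fun e he => ?_, fun v hY => ?_, fun v hK => ?_, fun X hX => ?_⟩
  · obtain ⟨h1, h2, h3, -⟩ := hP1 e.1 e.2 he
    exact ⟨h1, h2, h3⟩
  · have hK : K G v := hY.elim (·.1) (·.1)
    by_cases hv : v ∈ Q ∨ v ∈ R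
    · have h1 := fins hB o hY (hH v hK) (c.neg v hv).2
      have h2 : ∀ a, A a v → Fe G κ a v → a ∈ Iv G A κ z P R v := by
        intro a h3 h4
        refine mem_Iv.2 ⟨h3, h4.1.symm, fun h5 => (hP1 _ _ h5).2.2.2.1 h4.2.2.2, fun h5 => ?_,
          fun _ => Or.inl h4⟩
        rcases hv with h6 | h6
        · rcases c.qr with h7 | h7
          · simp [h7] at h6
          · simp [h7] at h5
        · exact h4.1.ne (card_le_one.1 c.cardR a h5 v h6)
      split_ifs at h1 with h3
      · obtain ⟨rfl, h4, -⟩ := h3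
        rw [← card_insert_of_notMem (a := z) fun h5 => o.kz (mem_filter.1 h5).2.2.2.1] at h1
        refine h1.trans (card_le_card fun a ha => ?_)
        rcases mem_insert.1 ha with rfl | ha
        · exact mem_Iv.2 ⟨o.root, h4.symm, fun h5 => o.kz (hP1 _ _ h5).2.1,
            fun h5 => o.kz (c.neg _ (Or.inr h5)).1, fun _ => Or.inr rfl⟩
        · exact h2 a (mem_filter.1 ha).2.1 (mem_filter.1 ha).2.2
      · exact h1.trans (card_le_card fun a ha =>
          h2 a (mem_filter.1 ha).2.1 (mem_filter.1 ha).2.2)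
    · rw [not_or] at hv
      have h1 := rins hB o hK
      have h2 : #(univ.filter fun a => g = some (a, v)) ≤ 1 :=
        card_le_one.2 fun a ha b hb => (Prod.mk.inj (Option.some.inj
          ((mem_filter.1 ha).2.symm.trans (mem_filter.1 hb).2))).1
      have h3 : #(univ.filter fun a => A a v ∧ G.Adj v a) ≤
          #(Iv G A κ z P R v) + #(univ.filter fun a => g = some (a, v)) + #R := by
        refine le_trans (card_le_card fun a ha => ?_)
          ((card_union_le _ _).trans (Nat.add_le_add_right (card_union_le _ _) _))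
        obtain ⟨h4, h5⟩ := (mem_filter.1 ha).2
        by_cases h6 : a ∈ R
        · exact mem_union_right _ h6
        refine mem_union_left _ ?_
        by_cases h7 : (a, v) ∈ P
        · rcases (hP _).1 h7 with ⟨h8, h9⟩ | h8
          · exact absurd ((show v = hd a from h9) ▸ hd1 a h8) hv.1
          · exact mem_union_right _ (mem_filter.2 ⟨mem_univ _, h8⟩)
        · exact mem_union_left _ (mem_Iv.2 ⟨h4, h5, h7, h6, fun h8 => absurd h8 hv.2⟩)
      have h4 := c.cardR
      omega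
  · by_cases hv : v ∈ R
    · have h1 := (c.neg v (Or.inr hv)).2
      have h2 : #(Out A v) ≤ #(Ov G A κ P R v) := card_le_card fun b hb =>
        mem_Ov.2 ⟨mem_Out.1 hb, fun h => by have := (hP1 _ _ h).2.2.2.2; omega, Or.inl hv⟩
      have h3 := (o.smooth v hK).1
      have h4 := ten hB hK
      exact ⟨by omega, fun _ => by omega, fun _ => by omega⟩
    · by_cases h0 : ∃ b, (v, b) ∈ P
      · obtain ⟨b, hb⟩ := h0
        obtain ⟨h1, h2⟩ := outs hB o hK (hH v hK) 1 (τ := τ) (by
          simpa using (hP1 _ _ hb).2.2.2.2)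
        have h3 : #((Hs G κ v).filter (A v)) ≤ #(Ov G A κ P R v) + 1 := by
          refine le_trans (card_le_card fun x hx => ?_) (card_insert_le b _)
          by_cases h4 : (v, x) ∈ P
          · exact mem_insert.2 (Or.inl (hP2 v x b h4 hb))
          · exact mem_insert_of_mem (mem_Ov.2 ⟨(mem_filter.1 hx).2, h4,
              Or.inr (mem_Hs.1 (mem_filter.1 hx).1).2⟩)
        exact ⟨by omega, fun h => by have := h2 h; omega, fun h => absurd h hv⟩
      · obtain ⟨h1, h2⟩ := outs hB o hK (hH v hK) 0 (τ := τ) (by simpa using c.low v hK hv)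
        have h3 : #((Hs G κ v).filter (A v)) ≤ #(Ov G A κ P R v) := card_le_card fun x hx =>
          mem_Ov.2 ⟨(mem_filter.1 hx).2, fun h => h0 ⟨x, h⟩,
            Or.inr (mem_Hs.1 (mem_filter.1 hx).1).2⟩
        exact ⟨by omega, fun h => by have := h2 h; omega, fun h => absurd h hv⟩
  · have h1 := c.hall hd hd1 X hX
    have h2 : #((Dn.filter fun w => w ∉ X ∧ hd w ∈ X).image fun w => (w, hd w)) =
        #(Dn.filter fun w => w ∉ X ∧ hd w ∈ X) :=
      card_image_of_injective _ fun a b h => (Prod.mk.inj h).1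
    have h3 : ((Dn.filter fun w => w ∉ X ∧ hd w ∈ X).image fun w => (w, hd w)) ⊆
        P.filter fun e => e.1 ∉ X ∧ e.2 ∈ X := by
      intro e he
      obtain ⟨w, hw, rfl⟩ := mem_image.1 he
      exact mem_filter.2 ⟨(hP _).2 (Or.inl ⟨(mem_filter.1 hw).1, rfl⟩), (mem_filter.1 hw).2⟩
    split_ifs at h1 with h4
    · obtain ⟨u, x, h5, h6, h7⟩ := h4
      have h8 := card_lt_card (ssubset_iff_of_subset h3 |>.2
        ⟨(u, x), mem_filter.2 ⟨(hP _).2 (Or.inr h5), h6, h7⟩, fun h9 => by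
          obtain ⟨w, hw, h10⟩ := mem_image.1 h9
          obtain ⟨rfl, -⟩ := Prod.mk.inj h10
          exact (c.ext _ _ h5).2.2.2.2.2 (mem_filter.1 hw).1⟩)
      omega
    · have h8 := card_le_card h3
      omega

end Pool.Agent.MP_d1f1f3_co.H47
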