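import Mathlib

/-!
The finite check for four pairwise adjacent vertices of small degree.
-/

namespace Pool.Agent.MP_d1f1f3_co.H47.K4b

/-- No colour three times among four. -/
abbrev Q4 (a b c d : ℕ) : Prop :=
  ¬(a = b ∧ a = c) ∧ ¬(a = b ∧ a = d) ∧ ¬(a = c ∧ a = d) ∧ ¬(b = c ∧ b = d)

/-- The colours. -/
def R : List ℕ := [1, 2, 3, 4]

/-- The local conditions. -/
abbrev Ok (p q r x y z u v w : ℕ) : Prop :=
  (Q4 u v x p ∧ Q4 u w y q ∧ Q4 v w z r) ∧ u + v + x + p ≠ u + w + y + q ∧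
    u + v + x + p ≠ v + w + z + r ∧ u + w + y + q ≠ v + w + z + r

/-- The triples of sums that can be reached. -/
def cand (T p q r : ℕ) : List (ℕ × ℕ × ℕ) :=
  R.flatMap fun x => R.flatMap fun y => R.flatMap fun z =>
    if x + y + z = T ∧ x ≠ y ∧ x ≠ z ∧ y ≠ z then
      R.flatMap fun u => R.flatMap fun v => R.flatMap fun w =>
        if Ok p q r x y z u v w then [(u + v + x + p, u + w + y + q, v + w + z + r)] else []
    else []

/-- The value `s` is not in the triple. -/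
def nv (s : ℕ) (t : ℕ × ℕ × ℕ) : Bool := t.1 != s && t.2.1 != s && t.2.2 != s

/-- The list cannot be covered. -/
def ok : ℕ → List (ℕ × ℕ × ℕ) → Bool → Bool → Bool → Bool → Bool
  | _, [], _, _, _, _ => false
  | 0, _ :: _, fa, fb, fc, fd => !fa && !fb && !fc && !fd
  | n + 1, t :: L, fa, fb, fc, fd =>
    (!fa || ok n (L.filter fun s => s.1 != t.1) false fb fc fd) &&
    (!fb || ok n (L.filter fun s => s.2.1 != t.2.1) fa false fc fd) &&
    (!fc || ok n (L.filter fun s => s.2.2 != t.2.2) fa fb false fd) &&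
    (!fd || (ok n (L.filter (nv t.1)) fa fb fc false && ok n (L.filter (nv t.2.1)) fa fb fc false &&
      ok n (L.filter (nv t.2.2)) fa fb fc false))

theorem sound (a b c d n : ℕ) : ∀ (L : List (ℕ × ℕ × ℕ)) (fa fb fc fd : Bool),
    ok n L fa fb fc fd = true → ∃ t ∈ L, (fa → t.1 ≠ a) ∧ (fb → t.2.1 ≠ b) ∧ (fc → t.2.2 ≠ c) ∧
      (fd → nv d t = true) := by
  induction n with
  | zero =>
    rintro (_ | ⟨t, L⟩) fa fb fc fd h
    · simp [ok] at h
    · simp only [ok, Bool.and_eq_true, Bool.not_eq_true'] at h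
      exact ⟨t, by simp, by simp [h]⟩
  | succ n ih =>
    rintro (_ | ⟨t, L⟩) fa fb fc fd h
    · simp [ok] at h
    simp only [ok, Bool.and_eq_true, Bool.or_eq_true, Bool.not_eq_true'] at h
    obtain ⟨⟨⟨h1, h2⟩, h3⟩, h4⟩ := h
    by_cases ka : fa = true ∧ t.1 = a
    · obtain ⟨s, m, -, k⟩ := ih _ _ _ _ _ (h1.resolve_left (by simp [ka.1]))
      rw [List.mem_filter] at m
      exact ⟨s, List.mem_cons_of_mem _ m.1, fun _ => by simpa [ka.2] using m.2, k⟩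
    by_cases kb : fb = true ∧ t.2.1 = b
    · obtain ⟨s, m, k1, -, k⟩ := ih _ _ _ _ _ (h2.resolve_left (by simp [kb.1]))
      rw [List.mem_filter] at m
      exact ⟨s, List.mem_cons_of_mem _ m.1, k1, fun _ => by simpa [kb.2] using m.2, k⟩
    by_cases kc : fc = true ∧ t.2.2 = c
    · obtain ⟨s, m, k1, k2, -, k⟩ := ih _ _ _ _ _ (h3.resolve_left (by simp [kc.1]))
      rw [List.mem_filter] at m
      exact ⟨s, List.mem_cons_of_mem _ m.1, k1, k2, fun _ => by simpa [kc.2] using m.2, k⟩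
    by_cases kd : fd = true ∧ nv d t = false
    · obtain ⟨⟨g1, g2⟩, g3⟩ := h4.resolve_left (by simp [kd.1])
      have : ok n (L.filter (nv d)) fa fb fc false = true := by
        have := kd.2
        simp only [nv, Bool.and_eq_false_iff, bne_eq_false_iff_eq] at this
        rcases this with (e | e) | e <;> rw [← e] <;> assumption
      obtain ⟨s, m, k1, k2, k3, -⟩ := ih _ _ _ _ _ this
      rw [List.mem_filter] at m
      exact ⟨s, List.mem_cons_of_mem _ m.1, k1, k2, k3, fun _ => m.2⟩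
    exact ⟨t, by simp, fun h e => ka ⟨h, e⟩, fun h e => kb ⟨h, e⟩, fun h e => kc ⟨h, e⟩,
      fun h => by simpa [h] using kd⟩

theorem key : ∀ T ∈ [6, 7, 8, 9], ∀ p ∈ R, ∀ q ∈ R, ∀ r ∈ R,
    ok 4 (cand T p q r) true true true true = true := by decide +kernel

theorem mem_R {p : ℕ} : p ∈ R ↔ 1 ≤ p ∧ p ≤ 4 := by
  simp only [R, List.mem_cons, List.not_mem_nil, or_false]
  omega

theorem fin {T p q r : ℕ} (a b c d : ℕ) (hT : 6 ≤ T ∧ T ≤ 9) (hp : 1 ≤ p ∧ p ≤ 4)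
    (hq : 1 ≤ q ∧ q ≤ 4) (hr : 1 ≤ r ∧ r ≤ 4) : ∃ x y z u v w : ℕ,
      ((1 ≤ x ∧ x ≤ 4) ∧ (1 ≤ y ∧ y ≤ 4) ∧ (1 ≤ z ∧ z ≤ 4) ∧ (1 ≤ u ∧ u ≤ 4) ∧ (1 ≤ v ∧ v ≤ 4) ∧
        1 ≤ w ∧ w ≤ 4) ∧ (x + y + z = T ∧ x ≠ y ∧ x ≠ z ∧ y ≠ z) ∧ Ok p q r x y z u v w ∧
      (u + v + x + p ≠ a ∧ u + w + y + q ≠ b ∧ v + w + z + r ≠ c) ∧
      u + v + x + p ≠ d ∧ u + w + y + q ≠ d ∧ v + w + z + r ≠ d := by
  obtain ⟨t, m, k1, k2, k3, k4⟩ := sound a b c d 4 _ _ _ _ _ (key T (by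
    simp only [List.mem_cons, List.not_mem_nil, or_false]
    omega) p (mem_R.2 hp) q (mem_R.2 hq) r (mem_R.2 hr))
  simp only [cand, List.mem_flatMap, List.mem_ite_nil_right, mem_R, List.mem_singleton] at m
  obtain ⟨x, hx, y, hy, z, hz, h1, u, hu, v, hv, w, hw, h2, rfl⟩ := m
  have k5 := k4 rfl
  simp only [nv, Bool.and_eq_true, bne_iff_ne] at k5
  exact ⟨x, y, z, u, v, w, ⟨hx, hy, hz, hu, hv, hw⟩, h1, h2, ⟨k1 rfl, k2 rfl, k3 rfl⟩, k5.1.1,
    k5.1.2, k5.2⟩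

end Pool.Agent.MP_d1f1f3_co.H47.K4b
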