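import Pool.Agent.MP_d1f1f3_co.H47.Spec

/-! Rows PAIR and ORI2. -/

namespace Pool.Agent.MP_d1f1f3_co.H47

open Finset
open scoped Classical

namespace Pair

variable {V : Type}

theorem ext {S : Finset V} {π : V → V} (h1 : ∀ w, π (π w) = w) (h2 : ∀ w, π w ≠ w → w ∈ S)
    {a b : V} (hab : a ≠ b) (ha : a ∉ S) (hb : b ∉ S) :
    ∃ π' : V → V, (∀ w, π' (π' w) = w) ∧ (∀ w, π' w ≠ w → w ∈ S ∨ w = a ∨ w = b) ∧ π' a = b ∧
      ∀ d : V → Prop, (∀ w, π' w ≠ w → (d w ↔ ¬d (π' w))) →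
        (∀ w, π w ≠ w → (d w ↔ ¬d (π w))) ∧ (d a ↔ ¬d b) := by
  have ea : π a = a := by_contra fun h => ha (h2 a h)
  have eb : π b = b := by_contra fun h => hb (h2 b h)
  refine ⟨fun w => if w = a then b else if w = b then a else π w, fun w => ?_, fun w hw => ?_,
    by simp, fun d hd => ⟨fun w hw => ?_, by simpa [hab.symm] using hd a⟩⟩
  · by_cases wa : w = a
    · simp [wa, hab.symm]
    by_cases wb : w = b
    · simp [wb, hab.symm]
    have x1 : π w ≠ a := fun h => wa (by rw [← h1 w, h, ea])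
    have x2 : π w ≠ b := fun h => wb (by rw [← h1 w, h, eb])
    simp [wa, wb, x1, x2, h1]
  · by_cases wa : w = a
    · exact Or.inr (Or.inl wa)
    by_cases wb : w = b
    · exact Or.inr (Or.inr wb)
    exact Or.inl (h2 w (by simpa [wa, wb] using hw))
  · have wa : w ≠ a := fun h => hw (by rw [h, ea])
    have wb : w ≠ b := fun h => hw (by rw [h, eb])
    simpa [wa, wb, hw] using hd w

theorem card_step {S S' : Finset V} {d : V → Prop} {c : V} (h : S' ⊆ S) (hc : c ∈ S)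
    (hc' : c ∉ S') (hd : d c) : #(S'.filter d) + 1 ≤ #(S.filter d) :=
  card_lt_card ⟨filter_subset_filter _ h, fun h' =>
    hc' (mem_filter.1 (h' (mem_filter.2 ⟨hc, hd⟩))).1⟩

theorem all (n : ℕ) : ∀ S Q : Finset V, #S = n → Q ⊆ S →
    ∃ π : V → V, (∀ w, π (π w) = w) ∧ (∀ w, π w ≠ w → w ∈ S) ∧
      ∀ d : V → Prop, (∀ w, π w ≠ w → (d w ↔ ¬d (π w))) →
        #S / 2 ≤ #(S.filter d) ∧ (2 ≤ #Q → ∃ x ∈ Q, d x) := by
  induction n using Nat.strong_induction_on with
  | _ n ih =>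
    intro S Q hn hQ
    by_cases h : #S ≤ 1
    · have := card_le_card hQ
      exact ⟨id, fun _ => rfl, fun _ h => (h rfl).elim, fun d _ => ⟨by omega, by omega⟩⟩
    obtain ⟨a, ha, b, hb, hab, hq⟩ : ∃ a ∈ S, ∃ b ∈ S, a ≠ b ∧ (2 ≤ #Q → a ∈ Q ∧ b ∈ Q) := by
      by_cases h2 : 2 ≤ #Q
      · obtain ⟨a, ha, b, hb, hab⟩ := one_lt_card.1 h2
        exact ⟨a, hQ ha, b, hQ hb, hab, fun _ => ⟨ha, hb⟩⟩
      · obtain ⟨a, ha, b, hb, hab⟩ := one_lt_card.1 (not_le.1 h)
        exact ⟨a, ha, b, hb, hab, fun h' => (h2 h').elim⟩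
    have c1 := card_erase_of_mem ha
    have c2 := card_erase_of_mem (mem_erase.2 ⟨hab.symm, hb⟩)
    have hs : (S.erase a).erase b ⊆ S := (erase_subset _ _).trans (erase_subset _ _)
    have na : a ∉ (S.erase a).erase b := by simp
    have nb : b ∉ (S.erase a).erase b := by simp
    obtain ⟨π, p1, p2, p3⟩ := ih _ (by omega) ((S.erase a).erase b) ∅ rfl (empty_subset _)
    obtain ⟨π', q1, q2, -, q4⟩ := ext p1 p2 hab na nb
    refine ⟨π', q1, fun w hw => ?_, fun d hd => ?_⟩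
    · rcases q2 w hw with h | rfl | rfl
      exacts [hs h, ha, hb]
    obtain ⟨r1, r2⟩ := q4 d hd
    have r3 := (p3 d r1).1
    by_cases da : d a
    · have := card_step hs ha na da
      exact ⟨by omega, fun h2 => ⟨a, (hq h2).1, da⟩⟩
    · have db : d b := by_contra fun h => da (r2.2 h)
      have := card_step hs hb nb db
      exact ⟨by omega, fun h2 => ⟨b, (hq h2).2, db⟩⟩

end Pair

theorem pair : SPair := by
  intro V _ H Q l hQ hl
  rcases l with _ | ⟨a, b⟩
  · obtain ⟨π, p1, p2, p3⟩ := Pair.all _ H Q rfl hQ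
    refine ⟨π, p1, fun w hw => Or.inl (p2 w hw), by simp, fun d hd _ => ?_⟩
    obtain ⟨r1, r2⟩ := p3 d hd
    exact ⟨by omega, by simpa using r2⟩
  have hab := hl a b rfl
  have hs : ∀ S : Finset V, (S.erase a).erase b ⊆ S := fun S =>
    (erase_subset _ _).trans (erase_subset _ _)
  have nb : b ∉ (H.erase a).erase b := by simp
  obtain ⟨π, p1, p2, p3⟩ := Pair.all _ ((H.erase a).erase b) ((Q.erase a).erase b) rfl
    (erase_subset_erase _ (erase_subset_erase _ hQ))
  obtain ⟨π', q1, q2, q3, q4⟩ := Pair.ext p1 p2 hab (by simp) nb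
  refine ⟨π', q1, fun w hw => ?_, fun a' b' h => ?_, fun d hd hb => ?_⟩
  · exact (q2 w hw).imp (fun h => hs H h) fun h => ⟨a, b, rfl, h⟩
  · obtain ⟨rfl, rfl⟩ := Prod.mk.inj (Option.some.inj h)
    exact q3
  have db := hb a b rfl
  obtain ⟨r1, r2⟩ := p3 d (q4 d hd).1
  have c : ∀ S : Finset V, b ∉ S → #S - 1 ≤ #((S.erase a).erase b) := fun S h => by
    rw [erase_eq_of_notMem fun h' => h (mem_of_mem_erase h')]
    exact pred_card_le_card_erase
  constructor
  · by_cases h : b ∈ H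
    · have := Pair.card_step (hs H) h nb db
      have c1 : #H - 1 ≤ #(H.erase a) := pred_card_le_card_erase
      have c2 : #(H.erase a) - 1 ≤ #((H.erase a).erase b) := pred_card_le_card_erase
      omega
    · have := c H h
      have := card_le_card (filter_subset_filter d (hs H))
      omega
  · intro h3
    by_cases h : b ∈ Q
    · exact ⟨b, h, db⟩
    · have := c Q h
      simp only [reduceCtorEq, if_false] at h3
      obtain ⟨x, hx, dx⟩ := r2 (by omega)
      exact ⟨x, hs Q hx, dx⟩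

theorem ori2 (h : SOri) (h2 : SPair) : SOri2 := by
  intro V _ G H Q l u₀ w₀ hT hH hl h0
  choose π p1 p2 p3 p4 using fun v => h2 V (H v) (Q v) (l v) (hH v).1
    fun a b e => (hl v a b e).1
  have adj : ∀ v w, π v w ≠ w → G.Adj v w := fun v w hw => by
    rcases p2 v w hw with h | ⟨a, b, e, rfl | rfl⟩
    · exact (mem_filter.1 ((hH v).2 h)).2
    · exact (hl v _ _ e).2.1
    · exact (hl v _ _ e).2.2
  obtain ⟨D, d1, d2, d3, d4, d5, d6⟩ := h V G π u₀ w₀ hT (fun v w hw => ⟨by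
    by_cases e : π v w = w
    · rwa [e]
    · exact adj v _ (by rw [p1]; exact fun e' => e e'.symm), p1 v w⟩) h0
  refine ⟨D, d1, d2, d3, d5, d6, fun v a b e => ?_,
    fun v hv => p4 v (D v) (fun w hw => d4 v w (adj v w hw) hw) hv⟩
  have := d4 v a (hl v a b e).2.1 (by rw [p3 v a b e]; exact (hl v a b e).1.symm)
  rwa [p3 v a b e] at this

end Pool.Agent.MP_d1f1f3_co.H47
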