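import Pool.Agent.MP_d1f1f3_co.H47.Spec

/-!
Row RED: reduction to graphs in which every bridge is a pendant edge.
-/

namespace Pool.Agent.MP_d1f1f3_co.H47

open Finset
open scoped Classical

noncomputable section

namespace Red

variable {V : Type} [Fintype V]

theorem mem_N {G : SimpleGraph V} {v w : V} : w ∈ N G v ↔ G.Adj v w := by
  simp [N]

theorem one_le_dg {G : SimpleGraph V} {v w : V} (h : G.Adj v w) : 1 ≤ dg G v :=
  card_pos.2 ⟨w, mem_N.2 h⟩

theorem K_of_two {G : SimpleGraph V} {v a b : V} (ha : G.Adj v a) (hb : G.Adj v b)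
    (hab : a ≠ b) : K G v :=
  one_lt_card.2 ⟨a, mem_N.2 ha, b, mem_N.2 hb, hab⟩

theorem exists_of_cut {G : SimpleGraph V} {X : Finset V} (h : 1 ≤ cut G X) :
    ∃ a ∈ X, ∃ b, b ∉ X ∧ G.Adj a b := by
  by_contra hn
  push Not at hn
  have : cut G X = 0 := by
    refine sum_eq_zero fun a ha => card_eq_zero.2 (filter_eq_empty_iff.2 fun b hb hbX => ?_)
    exact hn a ha b hbX (mem_N.1 hb)
  omega

theorem cut_of_exists {G : SimpleGraph V} {X : Finset V} {a b : V} (ha : a ∈ X) (hb : b ∉ X)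
    (h : G.Adj a b) : 1 ≤ cut G X := by
  have h1 : 1 ≤ #((N G a).filter fun w => w ∉ X) :=
    card_pos.2 ⟨b, mem_filter.2 ⟨mem_N.2 h, hb⟩⟩
  exact h1.trans (single_le_sum (f := fun v => #((N G v).filter fun w => w ∉ X))
    (fun _ _ => Nat.zero_le _) ha)

theorem uniq_of_cut {G : SimpleGraph V} {X : Finset V} (h : cut G X < 2) {a b a' b' : V}
    (ha : a ∈ X) (hb : b ∉ X) (ha' : a' ∈ X) (hb' : b' ∉ X) (h1 : G.Adj a b)
    (h2 : G.Adj a' b') : a = a' ∧ b = b' := by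
  have p1 : 1 ≤ #((N G a).filter fun w => w ∉ X) :=
    card_pos.2 ⟨b, mem_filter.2 ⟨mem_N.2 h1, hb⟩⟩
  have p2 : 1 ≤ #((N G a').filter fun w => w ∉ X) :=
    card_pos.2 ⟨b', mem_filter.2 ⟨mem_N.2 h2, hb'⟩⟩
  have haa : a = a' := by
    by_contra hne
    have hsub : ({a, a'} : Finset V) ⊆ X := by
      intro x hx
      rcases mem_insert.1 hx with rfl | hx
      · exact ha
      · rw [mem_singleton.1 hx]; exact ha'
    have := sum_le_sum_of_subset (f := fun v => #((N G v).filter fun w => w ∉ X)) hsub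
    rw [sum_pair hne] at this
    unfold cut at h
    omega
  subst haa
  refine ⟨rfl, ?_⟩
  by_contra hne
  have p3 : 1 < #((N G a).filter fun w => w ∉ X) :=
    one_lt_card.2 ⟨b, mem_filter.2 ⟨mem_N.2 h1, hb⟩, b', mem_filter.2 ⟨mem_N.2 h2, hb'⟩, hne⟩
  have := single_le_sum (f := fun v => #((N G v).filter fun w => w ∉ X))
    (fun _ _ => Nat.zero_le _) ha
  unfold cut at h
  omega

/-- The edge `u v` is the only edge leaving `X`. -/
structure Br (G : SimpleGraph V) (X : Finset V) (u v : V) : Prop where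
  hu : u ∈ X
  hv : v ∉ X
  adj : G.Adj u v
  ku : K G u
  kv : K G v
  only : ∀ a ∈ X, ∀ b, b ∉ X → G.Adj a b → a = u ∧ b = v

theorem Br.compl {G : SimpleGraph V} {X : Finset V} {u v : V} (h : Br G X u v) :
    Br G Xᶜ v u where
  hu := mem_compl.2 h.hv
  hv := fun hc => mem_compl.1 hc h.hu
  adj := h.adj.symm
  ku := h.kv
  kv := h.ku
  only := fun a ha b hb hab => by
    have hb' : b ∈ X := by
      by_contra hc
      exact hb (mem_compl.2 hc)
    exact (h.only b hb' a (mem_compl.1 ha) hab.symm).symm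

theorem split_aux {G : SimpleGraph V} (hc : Con G) (hK : ∀ u w, G.Adj u w → K G u ∨ K G w)
    {X : Finset V} {u₀ w₀ : V} (hu : u₀ ∈ X) (hw : w₀ ∉ X) (ku : K G u₀) (kw : K G w₀)
    (uq : ∀ a ∈ X, ∀ b, b ∉ X → ∀ a' ∈ X, ∀ b', b' ∉ X → (core G).Adj a b →
      (core G).Adj a' b' → a = a' ∧ b = b') :
    ∃ (Y : Finset V) (u v : V), Br G Y u v ∧ ∀ r, K G r → r ∈ X → r ∈ Y := by
  set Y : Finset V := univ.filter fun a =>
    (K G a ∧ a ∈ X) ∨ (¬K G a ∧ ∃ w, G.Adj a w ∧ K G w ∧ w ∈ X) with hY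
  have mY : ∀ a, a ∈ Y ↔ (K G a ∧ a ∈ X) ∨ (¬K G a ∧ ∃ w, G.Adj a w ∧ K G w ∧ w ∈ X) := by
    intro a
    simp only [hY, mem_filter, mem_univ, true_and]
  have cross : ∀ a ∈ Y, ∀ b, b ∉ Y → G.Adj a b → a ∈ X ∧ b ∉ X ∧ (core G).Adj a b := by
    intro a ha b hb hab
    rcases (mY a).1 ha with ⟨ka, haX⟩ | ⟨ka, w, haw, kw', hwX⟩
    · by_cases kb : K G b
      · exact ⟨haX, fun hbX => hb ((mY b).2 (Or.inl ⟨kb, hbX⟩)), hab, ka, kb⟩
      · exact absurd ((mY b).2 (Or.inr ⟨kb, a, hab.symm, ka, haX⟩)) hb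
    · have hwb : w = b := by
        by_contra hne
        exact ka (K_of_two haw hab hne)
      subst hwb
      exact absurd ((mY w).2 (Or.inl ⟨kw', hwX⟩)) hb
  have hu' : u₀ ∈ Y := (mY u₀).2 (Or.inl ⟨ku, hu⟩)
  have hw' : w₀ ∉ Y := by
    intro h
    rcases (mY w₀).1 h with ⟨_, h2⟩ | ⟨h1, _⟩
    · exact hw h2
    · exact h1 kw
  obtain ⟨u, huY, v, hvY, huv⟩ := exists_of_cut
    (hc Y u₀ w₀ hu' hw' (le_trans (by norm_num) ku) (le_trans (by norm_num) kw))
  obtain ⟨h1, h2, h3⟩ := cross u huY v hvY huv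
  refine ⟨Y, u, v, ⟨huY, hvY, huv, h3.2.1, h3.2.2, fun a ha b hb hab => ?_⟩,
    fun r kr hr => (mY r).2 (Or.inl ⟨kr, hr⟩)⟩
  obtain ⟨g1, g2, g3⟩ := cross a ha b hb hab
  exact uq a g1 b g2 u h1 v h2 g3 h3

theorem split {G : SimpleGraph V} (hc : Con G) (hK : ∀ u w, G.Adj u w → K G u ∨ K G w)
    (h2 : ¬TwoK G) (r : V) :
    ∃ (Y : Finset V) (u v : V), Br G Y u v ∧ (K G r → r ∈ Y) := by
  unfold TwoK at h2
  push Not at h2
  obtain ⟨X, u₀, w₀, hu, hw, ku, kw, hlt⟩ := h2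
  by_cases hr : r ∈ X
  · obtain ⟨Y, u, v, hb, hY⟩ := split_aux hc hK hu hw ku kw
      fun a ha b hb a' ha' b' hb' p q => uniq_of_cut hlt ha hb ha' hb' p q
    exact ⟨Y, u, v, hb, fun kr => hY r kr hr⟩
  · obtain ⟨Y, u, v, hb, hY⟩ := split_aux (X := Xᶜ) hc hK (mem_compl.2 hw)
      (fun hc => mem_compl.1 hc hu) kw ku fun a ha b hb a' ha' b' hb' p q => by
        have hb1 : b ∈ X := by
          by_contra hc
          exact hb (mem_compl.2 hc)
        have hb2 : b' ∈ X := by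
          by_contra hc
          exact hb' (mem_compl.2 hc)
        exact (uniq_of_cut hlt hb1 (mem_compl.1 ha) hb2 (mem_compl.1 ha') p.symm q.symm).symm
    exact ⟨Y, u, v, hb, fun kr => hY r kr (mem_compl.2 hr)⟩

/-- The edges that meet `X`. -/
def side (G : SimpleGraph V) (X : Finset V) : SimpleGraph V where
  Adj a b := G.Adj a b ∧ (a ∈ X ∨ b ∈ X)
  symm := ⟨fun _ _ h => ⟨h.1.symm, h.2.symm⟩⟩
  loopless := ⟨fun _ h => h.1.ne rfl⟩

theorem side_adj {G : SimpleGraph V} {X : Finset V} {a b : V} :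
    (side G X).Adj a b ↔ G.Adj a b ∧ (a ∈ X ∨ b ∈ X) := Iff.rfl

theorem N_side {G : SimpleGraph V} {X : Finset V} {a : V} (ha : a ∈ X) :
    N (side G X) a = N G a := by
  ext b
  rw [mem_N, mem_N, side_adj]
  exact ⟨fun h => h.1, fun h => ⟨h, Or.inl ha⟩⟩

theorem dg_side {G : SimpleGraph V} {X : Finset V} {a : V} (ha : a ∈ X) :
    dg (side G X) a = dg G a := by
  unfold dg
  rw [N_side ha]

theorem dg_side_le (G : SimpleGraph V) (X : Finset V) (a : V) : dg (side G X) a ≤ dg G a :=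
  card_le_card fun _ hb => mem_N.2 (mem_N.1 hb).1

theorem Br.N_v {G : SimpleGraph V} {X : Finset V} {u v : V} (h : Br G X u v) :
    N (side G X) v = {u} := by
  ext b
  rw [mem_N, side_adj, mem_singleton]
  constructor
  · rintro ⟨h1, h2 | h2⟩
    · exact absurd h2 h.hv
    · exact (h.only b h2 v h.hv h1.symm).1
  · rintro rfl
    exact ⟨h.adj.symm, Or.inr h.hu⟩

theorem Br.out {G : SimpleGraph V} {X : Finset V} {u v : V} (h : Br G X u v) {b : V}
    (hb : b ∉ X) (hd : 1 ≤ dg (side G X) b) : b = v := by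
  obtain ⟨a, ha⟩ := card_pos.1 hd
  obtain ⟨h1, h2 | h2⟩ := mem_N.1 ha
  · exact absurd h2 hb
  · exact (h.only a h2 b hb h1.symm).2

theorem Br.dg_out {G : SimpleGraph V} {X : Finset V} {u v : V} (h : Br G X u v) {b : V}
    (hb : b ∉ X) : dg (side G X) b ≤ 1 := by
  by_contra hc
  have : b = v := h.out hb (by omega)
  subst this
  apply hc
  unfold dg
  rw [h.N_v, card_singleton]

theorem Br.lt {G : SimpleGraph V} {X : Finset V} {u v : V} (h : Br G X u v) :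
    ∑ a, dg (side G X) a < ∑ a, dg G a := by
  refine sum_lt_sum (fun a _ => dg_side_le G X a) ⟨v, mem_univ _, ?_⟩
  have h1 := h.dg_out h.hv
  have h2 : 2 ≤ dg G v := h.kv
  omega

theorem Br.deg {p : ℕ → Prop} {G : SimpleGraph V} {X : Finset V} {u v : V} (h : Br G X u v)
    (hd : Dg p G) : Dg p (side G X) := by
  intro a
  by_cases ha : a ∈ X
  · rw [dg_side ha]
    exact hd a
  · exact Or.inl (h.dg_out ha)

theorem Br.con {G : SimpleGraph V} {X : Finset V} {u v : V} (h : Br G X u v) (hc : Con G) :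
    Con (side G X) := by
  intro Y a b ha hb da db
  by_contra hn
  have no : ∀ a' ∈ Y, ∀ b', b' ∉ Y → G.Adj a' b' → a' ∈ X ∨ b' ∈ X → False :=
    fun a' ha' b' hb' h1 h2 => hn (cut_of_exists (G := side G X) ha' hb' ⟨h1, h2⟩)
  have du : 1 ≤ dg G u := one_le_dg h.adj
  by_cases hu : u ∈ Y
  · have hv : v ∈ Y := by
      by_contra hv
      exact no u hu v hv h.adj (Or.inl h.hu)
    have hbX : b ∈ X := by
      by_contra hbX
      exact hb (h.out hbX db ▸ hv)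
    obtain ⟨a', ha', b', hb', hab⟩ := exists_of_cut (hc (Y ∪ Xᶜ) u b (mem_union_left _ hu)
      (by simp [hb, hbX]) du (db.trans (dg_side_le G X b)))
    have hb1 : b' ∉ Y := fun hh => hb' (mem_union_left _ hh)
    have hb2 : b' ∈ X := by
      by_contra hh
      exact hb' (mem_union_right _ (mem_compl.2 hh))
    rcases mem_union.1 ha' with h1 | h1
    · exact no a' h1 b' hb1 hab (Or.inr hb2)
    · exact hb1 ((h.only b' hb2 a' (mem_compl.1 h1) hab.symm).1 ▸ hu)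
  · have hv : v ∉ Y := fun hv => no v hv u hu h.adj.symm (Or.inr h.hu)
    have haX : a ∈ X := by
      by_contra haX
      exact hv (h.out haX da ▸ ha)
    obtain ⟨a', ha', b', hb', hab⟩ := exists_of_cut (hc (Y ∩ X) a u (mem_inter.2 ⟨ha, haX⟩)
      (fun hh => hu (mem_inter.1 hh).1) (da.trans (dg_side_le G X a)) du)
    obtain ⟨h1, h2⟩ := mem_inter.1 ha'
    by_cases hb1 : b' ∈ Y
    · have hb2 : b' ∉ X := fun hh => hb' (mem_inter.2 ⟨hb1, hh⟩)
      exact hu ((h.only a' h2 b' hb2 hab).1 ▸ h1)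
    · exact no a' h1 b' hb1 hab (Or.inl h2)

theorem glue {G : SimpleGraph V} {X : Finset V} {u v : V} (h : Br G X u v) {c₁ c₂ : V → V → ℕ}
    (h1 : Col (side G X) c₁) (h2 : Col (side G Xᶜ) c₂) (he : c₂ u v = c₁ u v)
    (hs : sg (side G Xᶜ) c₂ v ≠ sg (side G X) c₁ u) :
    ∃ c, Col G c ∧ (∀ a ∈ X, ∀ b ∈ X, c a b = c₁ a b) ∧
      ∀ a ∈ X, sg G c a = sg (side G X) c₁ a := by
  let c : V → V → ℕ := fun a b => if a ∈ X ∧ b ∈ X then c₁ a b else c₂ a b
  have e1 : ∀ a ∈ X, ∀ w, G.Adj a w → c a w = c₁ a w := by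
    intro a ha w hw
    by_cases hwX : w ∈ X
    · exact if_pos ⟨ha, hwX⟩
    · obtain ⟨rfl, rfl⟩ := h.only a ha w hwX hw
      exact (if_neg fun hh => hwX hh.2).trans he
  have e2 : ∀ a, a ∉ X → ∀ w, c a w = c₂ a w := fun a ha w => if_neg fun hh => ha hh.1
  have s1 : ∀ a ∈ X, sg G c a = sg (side G X) c₁ a := by
    intro a ha
    unfold sg
    rw [N_side ha]
    exact sum_congr rfl fun w hw => e1 a ha w (mem_N.1 hw)
  have s2 : ∀ a, a ∉ X → sg G c a = sg (side G Xᶜ) c₂ a := by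
    intro a ha
    unfold sg
    rw [N_side (mem_compl.2 ha)]
    exact sum_congr rfl fun w _ => e2 a ha w
  refine ⟨c, ⟨fun a b => ?_, fun a b hab => ?_, fun a b hab => ?_, fun a α => ?_⟩,
    fun a ha b hb => if_pos ⟨ha, hb⟩, s1⟩
  · by_cases hh : a ∈ X ∧ b ∈ X
    · exact (if_pos hh).trans ((h1.1 a b).trans (if_pos hh.symm).symm)
    · exact (if_neg hh).trans ((h2.1 a b).trans (if_neg fun g => hh g.symm).symm)
  · by_cases ha : a ∈ X
    · rw [e1 a ha b hab]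
      exact h1.2.1 a b ⟨hab, Or.inl ha⟩
    · rw [e2 a ha b]
      exact h2.2.1 a b ⟨hab, Or.inl (mem_compl.2 ha)⟩
  · by_cases ha : a ∈ X <;> by_cases hb : b ∈ X
    · rw [s1 a ha, s1 b hb]
      exact h1.2.2.1 a b ⟨hab, Or.inl ha⟩
    · obtain ⟨rfl, rfl⟩ := h.only a ha b hb hab
      rw [s1 a ha, s2 b hb]
      exact hs.symm
    · obtain ⟨rfl, rfl⟩ := h.only b hb a ha hab.symm
      rw [s1 b hb, s2 a ha]
      exact hs
    · rw [s2 a ha, s2 b hb]
      exact h2.2.2.1 a b ⟨hab, Or.inl (mem_compl.2 ha)⟩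
  · by_cases ha : a ∈ X
    · have := h1.2.2.2 a α
      rw [N_side ha, dg_side ha] at this
      rw [filter_congr fun w hw => by rw [e1 a ha w (mem_N.1 hw)]]
      exact this
    · have := h2.2.2.2 a α
      rw [N_side (mem_compl.2 ha), dg_side (mem_compl.2 ha)] at this
      rw [filter_congr fun w _ => by rw [e2 a ha w]]
      exact this

theorem K_end {G : SimpleGraph V} (hc : Con G) {r : V} (kr : K G r) :
    ∀ u w, G.Adj u w → K G u ∨ K G w := by
  intro a b hab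
  by_contra hn
  push Not at hn
  have hr : r ∉ ({a, b} : Finset V) := by
    intro hh
    rcases mem_insert.1 hh with rfl | hh
    · exact hn.1 kr
    · exact hn.2 (mem_singleton.1 hh ▸ kr)
  obtain ⟨a', ha', b', hb', h⟩ := exists_of_cut (hc {a, b} a r (mem_insert_self _ _) hr
    (one_le_dg hab) (le_trans (by norm_num) kr))
  have n1 : b' ≠ a := fun hh => hb' (hh ▸ mem_insert_self _ _)
  have n2 : b' ≠ b := fun hh => hb' (hh ▸ mem_insert_of_mem (mem_singleton_self _))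
  rcases mem_insert.1 ha' with rfl | ha'
  · exact hn.1 (K_of_two h hab n2)
  · rw [mem_singleton.1 ha'] at h
    exact hn.2 (K_of_two h hab.symm n1)

/-- The second half of a split, given the statement for all graphs with fewer edges. -/
theorem extend {p : ℕ → Prop} {G : SimpleGraph V} {X : Finset V} {u v h : V} (hb : Br G X u v)
    (hh : dg G h = 0) (hc : Con G) (hd : Dg p G)
    (ih : ∀ (γ τ : ℕ), dg (side G Xᶜ) h = 0 → Con (side G Xᶜ) → Dg p (side G Xᶜ) →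
      N (side G Xᶜ) u = {v} → K (side G Xᶜ) v → 1 ≤ γ → γ ≤ 4 → Goal (side G Xᶜ) u v γ τ)
    {c₁ : V → V → ℕ} (h1 : Col (side G X) c₁) :
    ∃ c, Col G c ∧ (∀ a ∈ X, ∀ b ∈ X, c a b = c₁ a b) ∧
      ∀ a ∈ X, sg G c a = sg (side G X) c₁ a := by
  have hr := h1.2.1 u v ⟨hb.adj, Or.inl hb.hu⟩
  have kv : K (side G Xᶜ) v := by
    unfold K
    rw [dg_side hb.compl.hu]
    exact hb.kv
  obtain ⟨c₂, h2, h3⟩ := ih (c₁ u v) (sg (side G X) c₁ u)
    (by have := dg_side_le G Xᶜ h; omega) (hb.compl.con hc) (hb.compl.deg hd) hb.compl.N_v kv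
    hr.1 hr.2
  obtain ⟨h4, h5⟩ := h3 ⟨hb.adj, Or.inr hb.compl.hu⟩
  exact glue hb h1 h2 h4 h5

theorem star {p : ℕ → Prop} (hR : BaseR p V) (n : ℕ) :
    ∀ (G : SimpleGraph V) (h z ρ : V) (γ τ : ℕ), ∑ a, dg G a = n → dg G h = 0 → Con G →
      Dg p G → N G z = {ρ} → K G ρ → 1 ≤ γ → γ ≤ 4 → Goal G z ρ γ τ := by
  induction n using Nat.strong_induction_on with
  | _ n ih =>
    intro G h z ρ γ τ hn hh hc hd hz kρ g1 g4
    by_cases h2 : TwoK G
    · exact hR G h z ρ γ τ hh hc hd h2 hz kρ g1 g4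
    obtain ⟨X, u, v, hb, hρ⟩ := split hc (K_end hc kρ) h2 ρ
    have hρX : ρ ∈ X := hρ kρ
    have hzρ : G.Adj z ρ := mem_N.1 (hz ▸ mem_singleton_self ρ)
    have hzX : z ∈ X := by
      by_contra hzX
      have e := (hb.only ρ hρX z hzX hzρ.symm).2
      have k : 2 ≤ dg G v := hb.kv
      rw [← e] at k
      unfold dg at k
      rw [hz, card_singleton] at k
      omega
    have k1 : K (side G X) ρ := by
      unfold K
      rw [dg_side hρX]
      exact kρ
    obtain ⟨c₁, h1, h3⟩ := ih _ (hn ▸ hb.lt) (side G X) h z ρ γ τ rfl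
      (by have := dg_side_le G X h; omega) (hb.con hc) (hb.deg hd) ((N_side hzX).trans hz) k1 g1 g4
    obtain ⟨c, hcol, e1, e2⟩ := extend hb hh hc hd
      (fun γ' τ' => ih _ (hn ▸ hb.compl.lt) (side G Xᶜ) h u v γ' τ' rfl) h1
    obtain ⟨h4, h5⟩ := h3 ⟨hzρ, Or.inl hzX⟩
    exact ⟨c, hcol, fun _ => ⟨(e1 z hzX ρ hρX).trans h4, (e2 ρ hρX).symm ▸ h5⟩⟩

end Red

open Red in
theorem red : SRed := by
  intro p V _ hR h0 G h hh hc hd hK
  by_cases hl : ∃ z, dg G z = 1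
  · obtain ⟨z, hz⟩ := hl
    obtain ⟨ρ, hρ⟩ := card_eq_one.1 hz
    have hzρ : G.Adj z ρ := mem_N.1 (hρ ▸ mem_singleton_self ρ)
    have kρ : K G ρ := (hK z ρ hzρ).resolve_left (by unfold K; omega)
    obtain ⟨c, hcol, _⟩ := star hR _ G h z ρ 1 0 rfl hh hc hd hρ kρ le_rfl (by norm_num)
    exact ⟨c, hcol⟩
  push Not at hl
  by_cases h2 : TwoK G
  · exact h0 G h hh hd h2 hl
  obtain ⟨X, u, v, hb, _⟩ := split hc hK h2 h
  have k1 : K (side G X) u := by
    unfold K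
    rw [dg_side hb.hu]
    exact hb.ku
  obtain ⟨c₁, h1, _⟩ := star hR _ (side G X) h v u 1 0 rfl
    (by have := dg_side_le G X h; omega) (hb.con hc) (hb.deg hd) hb.N_v k1 le_rfl (by norm_num)
  obtain ⟨c, hcol, _⟩ := extend hb hh hc hd
    (fun γ' τ' => star hR _ (side G Xᶜ) h u v γ' τ' rfl) h1
  exact ⟨c, hcol⟩

end

end Pool.Agent.MP_d1f1f3_co.H47
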