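import Mathlib

/-!
Definitions and intermediate statements for the four colouring of graphs without small degrees.
-/

namespace Pool.Agent.MP_d1f1f3_co.H47

open Finset Relation
open scoped Classical

noncomputable section

variable {V : Type} [Fintype V]

/-- Neighbours. -/
def N (G : SimpleGraph V) (v : V) : Finset V := univ.filter fun w => G.Adj v w

/-- Degree. -/
def dg (G : SimpleGraph V) (v : V) : ℕ := #(N G v)

/-- Vertices that are neither isolated nor leaves. -/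
def K (G : SimpleGraph V) (v : V) : Prop := 2 ≤ dg G v

/-- Sum of the colours at a vertex. -/
def sg (G : SimpleGraph V) (c : V → V → ℕ) (v : V) : ℕ := ∑ w ∈ N G v, c v w

/-- Quasi-majority sum distinguishing four colourings. -/
def Col (G : SimpleGraph V) (c : V → V → ℕ) : Prop :=
  (∀ u w, c u w = c w u) ∧ (∀ u w, G.Adj u w → 1 ≤ c u w ∧ c u w ≤ 4) ∧
    (∀ u w, G.Adj u w → sg G c u ≠ sg G c w) ∧
    ∀ u α, #((N G u).filter fun w => c u w = α) ≤ (dg G u + 1) / 2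

/-- Number of edges leaving `X`. -/
def cut (G : SimpleGraph V) (X : Finset V) : ℕ := ∑ v ∈ X, #((N G v).filter fun w => w ∉ X)

/-- Connected apart from isolated vertices. -/
def Con (G : SimpleGraph V) : Prop :=
  ∀ (X : Finset V) u w, u ∈ X → w ∉ X → 1 ≤ dg G u → 1 ≤ dg G w → 1 ≤ cut G X

/-- Two-edge-connected apart from isolated vertices. -/
def Two (G : SimpleGraph V) : Prop :=
  ∀ (X : Finset V) u w, u ∈ X → w ∉ X → 1 ≤ dg G u → 1 ≤ dg G w → 2 ≤ cut G X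

/-- The graph without its leaves. -/
def core (G : SimpleGraph V) : SimpleGraph V where
  Adj u w := G.Adj u w ∧ K G u ∧ K G w
  symm := ⟨fun _ _ h => ⟨h.1.symm, h.2.2, h.2.1⟩⟩
  loopless := ⟨fun _ h => h.1.ne rfl⟩

/-- Every bridge is a pendant edge. -/
def TwoK (G : SimpleGraph V) : Prop :=
  ∀ (X : Finset V) u w, u ∈ X → w ∉ X → K G u → K G w → 2 ≤ cut (core G) X

/-- Every degree is at most one or satisfies `p`. -/
def Dg (p : ℕ → Prop) (G : SimpleGraph V) : Prop := ∀ v, dg G v ≤ 1 ∨ p (dg G v)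

/-- No degree between two and nine. -/
def Big (G : SimpleGraph V) : Prop := Dg (fun d => 10 ≤ d) G

/-- A colouring with prescribed colour on `z ρ` (if this is an edge) and a forbidden sum. -/
def Goal (G : SimpleGraph V) (z ρ : V) (γ τ : ℕ) : Prop :=
  ∃ c, Col G c ∧ (G.Adj z ρ → c z ρ = γ ∧ sg G c ρ ≠ τ)

/-- Base case with a root leaf. -/
def BaseR (p : ℕ → Prop) (V : Type) [Fintype V] : Prop :=
  ∀ (G : SimpleGraph V) (h z ρ : V) (γ τ : ℕ), dg G h = 0 → Con G → Dg p G → TwoK G →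
    N G z = {ρ} → K G ρ → 1 ≤ γ → γ ≤ 4 → Goal G z ρ γ τ

/-- Base case without leaves. -/
def Base0 (p : ℕ → Prop) (V : Type) [Fintype V] : Prop :=
  ∀ (G : SimpleGraph V) (h : V), dg G h = 0 → Dg p G → TwoK G → (∀ v, dg G v ≠ 1) → ∃ c, Col G c

/-- The theorem for graphs with an isolated vertex. -/
def Main (p : ℕ → Prop) (V : Type) [Fintype V] : Prop :=
  ∀ (G : SimpleGraph V) (h : V), dg G h = 0 → Con G → Dg p G →
    (∀ u w, G.Adj u w → K G u ∨ K G w) → ∃ c, Col G c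

/-- Row RED. -/
def SRed : Prop := ∀ (p : ℕ → Prop) (V : Type) [Fintype V], BaseR p V → Base0 p V → Main p V

/-- Row KEV: complete graphs of even order, with or without one pendant edge. -/
def SKev : Prop :=
  ∀ (V : Type) [Fintype V] (G : SimpleGraph V) (z ρ : V) (γ τ : ℕ), K G ρ → ¬K G z →
    (∀ u w, K G u → K G w → u ≠ w → G.Adj u w) →
    (∀ u w, G.Adj u w → K G w ∨ (u = ρ ∧ w = z)) →
    Even #(univ.filter (K G)) → 6 ≤ #(univ.filter (K G)) → 1 ≤ γ → γ ≤ 4 → Goal G z ρ γ τ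

/-- Row GOODM: a pairing of the odd vertices that is small on every cut. -/
def SGoodM : Prop :=
  ∀ (V : Type) [Fintype V] (G : SimpleGraph V), Two G →
    ∃ m : V → V, (∀ v, m (m v) = v) ∧ (∀ v, m v ≠ v ↔ Odd (dg G v)) ∧
      ∀ (X : Finset V) u w, u ∈ X → w ∉ X → 1 ≤ dg G u → 1 ≤ dg G w →
        #(X.filter fun v => m v ∉ X) + 2 ≤ cut G X

/-- Out-neighbours. -/
def Out (A : V → V → Prop) (v : V) : Finset V := univ.filter fun w => A v w

/-- In-neighbours. -/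
def Inn (A : V → V → Prop) (v : V) : Finset V := univ.filter fun w => A w v

/-- Row ORI: smooth strong orientations with prescribed transitions. -/
def SOri : Prop :=
  ∀ (V : Type) [Fintype V] (G : SimpleGraph V) (π : V → V → V) (u₀ w₀ : V), Two G →
    (∀ v w, G.Adj v w → G.Adj v (π v w) ∧ π v (π v w) = w) → G.Adj u₀ w₀ →
    ∃ D : V → V → Prop, (∀ u w, D u w → G.Adj u w) ∧ (∀ u w, G.Adj u w → (D u w ↔ ¬D w u)) ∧
      D u₀ w₀ ∧ (∀ v w, G.Adj v w → π v w ≠ w → (D v w ↔ ¬D v (π v w))) ∧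
      (∀ v, dg G v / 2 ≤ #(Out D v) ∧ #(Out D v) ≤ (dg G v + 1) / 2) ∧
      ∀ (X : Finset V) u w, u ∈ X → w ∉ X → 1 ≤ dg G u → 1 ≤ dg G w →
        ∃ a b, a ∉ X ∧ b ∈ X ∧ D a b

/-- `pa v b = some a`: the arc `v b` must follow the arc `a v`; `sat v a`: the arc `a v` has no
other followers. -/
structure St (V : Type) where
  pa : V → V → Option V
  sat : V → V → Prop

/-- Allowed transitions between arcs. -/
def Tr (A : V → V → Prop) (s : St V) (e f : V × V) : Prop :=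
  A f.1 f.2 ∧ e.2 = f.1 ∧ (s.pa f.1 f.2 = some e.1 ∨ (s.pa f.1 f.2 = none ∧ ¬s.sat f.1 e.1))

/-- Every arc is reachable from the root arc. -/
def Rt (A : V → V → Prop) (s : St V) (β : V × V) : Prop :=
  ∀ u w, A u w → ReflTransGen (Tr A s) β (u, w)

/-- No restriction. -/
def St.free (V : Type) : St V := ⟨fun _ _ => none, fun _ _ => False⟩

/-- One chosen pair at each vertex of `W` (closed) and of `T` (open). -/
def cfg (W T : V → Prop) (i o : V → V) : St V :=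
  ⟨fun v b => if (W v ∨ T v) ∧ b = o v then some (i v) else none, fun v a => W v ∧ a = i v⟩

/-- The next arc of a chain. -/
def Nxt (Y : V → Prop) (i o : V → V) (e f : V × V) : Prop :=
  Y e.2 ∧ e.1 = i e.2 ∧ f = (e.2, o e.2)

/-- No chain ends where it starts. -/
def NoRet (A : V → V → Prop) (Y : V → Prop) (i o : V → V) : Prop :=
  ∀ s e : V × V, A s.1 s.2 → ¬(Y s.1 ∧ s.2 = o s.1) → ReflTransGen (Nxt Y i o) s e →
    ¬(Y e.2 ∧ e.1 = i e.2) → e.2 ≠ s.1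

/-- Row EXC. -/
def SExc : Prop :=
  ∀ (V : Type) [Fintype V] (A : V → V → Prop) (β : V × V) (W T : V → Prop) (I O : V → Finset V),
    (∀ v, ¬A v v) → A β.1 β.2 → (∀ w, ¬A w β.1) → Rt A (St.free V) β → (∀ v, W v → ¬T v) →
    (∀ v, W v ∨ T v → I v ⊆ Inn A v ∧ O v ⊆ Out A v ∧ 2 ≤ #(I v) ∧ 2 ≤ #(O v)) →
    ∃ i o : V → V, (∀ v, W v ∨ T v → i v ∈ I v ∧ o v ∈ O v) ∧ Rt A (cfg W T i o) β ∧
      NoRet A (fun v => W v ∨ T v) i o

/-- Followers of the arc `a v`. -/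
def Ch (A : V → V → Prop) (par : V → V → V) (v a : V) : Finset V :=
  (Out A v).filter fun b => par v b = a

/-- Row TREE. -/
def STree : Prop :=
  ∀ (V : Type) [Fintype V] (A : V → V → Prop) (β : V × V) (C W T : V → Prop) (i o : V → V),
    (∀ v, ¬A v v) → A β.1 β.2 → (∀ w, ¬A w β.1) → Rt A (cfg W T i o) β → (∀ v, W v → ¬T v) →
    (∀ v, W v ∨ T v → C v ∧ A (i v) v ∧ A v (o v)) →
    (∀ v, C v → 1 ≤ #(Inn A v) ∧ #(Inn A v) ≤ #(Out A v) + 1) →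
    (∀ v, T v → #(Inn A v) < #(Out A v)) →
    ∃ (par : V → V → V) (rk : V → V → ℕ),
      (∀ v b, A v b → (v, b) ≠ β → A (par v b) v ∧ rk (par v b) v < rk v b) ∧
      ∀ v, C v → ∃ sp, A sp v ∧ (∀ a, A a v → a ≠ sp → #(Ch A par v a) = 1) ∧
        (W v → Ch A par v (i v) = {o v}) ∧ (T v → sp = i v ∧ par v (o v) = i v)

/-- An orientation of `G` inside a rooted digraph `A` with root arc `z ρ`. -/
structure Ori (G : SimpleGraph V) (A : V → V → Prop) (z ρ : V) : Prop where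
  root : A z ρ
  noin : ∀ w, ¬A w z
  only : ∀ w, A z w → w = ρ
  kr : K G ρ
  kz : ¬K G z
  asym : ∀ u w, A u w → ¬A w u
  real : ∀ u w, G.Adj u w → A u w ∨ A w u
  outK : ∀ v w, K G v → A v w → G.Adj v w
  inK : ∀ v w, K G v → A w v → G.Adj v w ∨ (w = z ∧ v = ρ)
  smooth : ∀ v, K G v → dg G v / 2 ≤ #(Out A v) ∧ #(Out A v) ≤ (dg G v + 1) / 2
  fake : ¬G.Adj z ρ → #(Out A ρ) = (dg G ρ + 1) / 2
  rt : Rt A (St.free V) (z, ρ)

/-- Even vertices of the wrong parity. -/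
def Wv (G : SimpleGraph V) (κ : V → ZMod 2) (v : V) : Prop :=
  K G v ∧ Even (dg G v) ∧ κ v ≠ ((dg G v / 2 : ℕ) : ZMod 2)

/-- Vertices with more arcs going out than coming in. -/
def Tv (G : SimpleGraph V) (A : V → V → Prop) (v : V) : Prop :=
  K G v ∧ #(Inn A v) < #(Out A v)

/-- The parity condition. -/
def Par (G : SimpleGraph V) (A : V → V → Prop) (z ρ : V) (κ : V → ZMod 2) (γ : ZMod 2) : Prop :=
  (∃ u w, A u w ∧ ¬K G w) ∨ ∑ v ∈ univ.filter (K G), κ v = if G.Adj z ρ then γ else 0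

/-- Row ALEV: the parity classes of the colours. -/
def SAlev : Prop :=
  ∀ (V : Type) [Fintype V] (G : SimpleGraph V) (A : V → V → Prop) (z ρ : V) (κ : V → ZMod 2)
    (γ : ZMod 2) (i o : V → V), Ori G A z ρ → Par G A z ρ κ γ →
    (∀ v, Wv G κ v ∨ Tv G A v → A (i v) v ∧ G.Adj v (i v) ∧ A v (o v)) →
    Rt A (cfg (Wv G κ) (Tv G A) i o) (z, ρ) →
    ∃ a : V → V → ZMod 2, (∀ u w, a u w = a w u) ∧ (G.Adj z ρ → a z ρ = γ) ∧
      ∀ v, K G v → ∑ w ∈ N G v, a v w = κ v ∧ ∀ j,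
        #((N G v).filter fun w => a v w = j) ≤ (dg G v + 1) / 2 ∨
        ((Wv G κ v ∨ Tv G A v) ∧ a v (i v) = j ∧ a v (o v) = j ∧
          #((N G v).filter fun w => a v w = j) ≤ (dg G v + 1) / 2 + 1)

/-- Edges not separated by parity. -/
def Fe (G : SimpleGraph V) (κ : V → ZMod 2) (u w : V) : Prop :=
  G.Adj u w ∧ K G u ∧ K G w ∧ κ u = κ w

/-- The slack of a vertex. -/
def tt (G : SimpleGraph V) (z ρ : V) (τ : ZMod 2) (κ : V → ZMod 2) (v : V) : ℤ :=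
  ((dg G v / 2 : ℕ) : ℤ) - (if Wv G κ v then 1 else 0) - #(univ.filter fun w => Fe G κ v w) -
    if v = ρ ∧ G.Adj z ρ ∧ κ ρ = τ then 2 else 0

/-- Unseparated edges leaving `X`. -/
def fcut (G : SimpleGraph V) (κ : V → ZMod 2) (X : Finset V) : ℕ :=
  ∑ v ∈ X, #(univ.filter fun w => Fe G κ v w ∧ w ∉ X)

/-- Usable arcs coming in. -/
def Iv (G : SimpleGraph V) (A : V → V → Prop) (κ : V → ZMod 2) (z : V) (P : Finset (V × V))
    (R : Finset V) (v : V) : Finset V :=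
  univ.filter fun a => A a v ∧ G.Adj v a ∧ (a, v) ∉ P ∧ a ∉ R ∧ (v ∈ R → Fe G κ a v ∨ a = z)

/-- Usable arcs going out. -/
def Ov (G : SimpleGraph V) (A : V → V → Prop) (κ : V → ZMod 2) (P : Finset (V × V))
    (R : Finset V) (v : V) : Finset V :=
  univ.filter fun b => A v b ∧ (v, b) ∉ P ∧ (v ∈ R ∨ ¬Fe G κ v b)

/-- The counting hypotheses. -/
structure Cnt (G : SimpleGraph V) (A : V → V → Prop) (z ρ : V) (τ : ZMod 2) (κ : V → ZMod 2)
    (P : Finset (V × V)) (R : Finset V) : Prop where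
  arc : ∀ e ∈ P, A e.1 e.2 ∧ K G e.1 ∧ K G e.2
  ins : ∀ v, Wv G κ v ∨ Tv G A v → 2 ≤ #(Iv G A κ z P R v)
  outs : ∀ v, K G v → 1 ≤ #(Ov G A κ P R v) ∧
    (Wv G κ v ∨ Tv G A v → 2 ≤ #(Ov G A κ P R v)) ∧ (v ∈ R → 3 ≤ #(Ov G A κ P R v))
  hall : ∀ X : Finset V, (∀ v ∈ X, K G v) →
    -1 ≤ ∑ v ∈ X, tt G z ρ τ κ v + fcut G κ X + #(P.filter fun e => e.1 ∉ X ∧ e.2 ∈ X)

/-- Row BLEV: the levels of the colours. -/
def SBlev : Prop :=
  ∀ (V : Type) [Fintype V] (G : SimpleGraph V) (A : V → V → Prop) (z ρ : V) (τ : ZMod 2)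
    (κ : V → ZMod 2) (P : Finset (V × V)) (R : Finset V) (i o : V → V) (cs : V → ℤ) (τ' b₀ : ℤ),
    Ori G A z ρ → Cnt G A z ρ τ κ P R →
    (∀ v, Wv G κ v ∨ Tv G A v → i v ∈ Iv G A κ z P R v ∧ o v ∈ Ov G A κ P R v) →
    NoRet A (fun v => Wv G κ v ∨ Tv G A v) i o → (b₀ = 0 ∨ b₀ = 1) →
    ∃ b : V → V → ℤ, (∀ u w, b u w = b w u) ∧ (∀ u w, b u w = 0 ∨ b u w = 1) ∧ b z ρ = b₀ ∧
      (∀ v, Wv G κ v ∨ Tv G A v → b v (i v) ≠ b v (o v)) ∧
      (∀ u w, Fe G κ u w →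
        cs u + 2 * ∑ x ∈ N G u, b u x ≠ cs w + 2 * ∑ x ∈ N G w, b w x) ∧
      (G.Adj z ρ → κ ρ = τ → cs ρ + 2 * ∑ x ∈ N G ρ, b ρ x ≠ τ')

/-- Row FRAME. -/
def SFrame : Prop :=
  ∀ (V : Type) [Fintype V] (G : SimpleGraph V) (A : V → V → Prop) (z ρ : V) (γ τ : ℕ)
    (κ : V → ZMod 2) (P : Finset (V × V)) (R : Finset V), 1 ≤ γ → γ ≤ 4 →
    (∀ u w, G.Adj u w → K G u ∨ K G w) → Ori G A z ρ → Par G A z ρ κ γ →
    Cnt G A z ρ τ κ P R → Goal G z ρ γ τ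

/-- The payment certificate produced by the choice of the parities. -/
structure Cert (G : SimpleGraph V) (z ρ : V) (τ : ZMod 2) (κ : V → ZMod 2) (Q Dn R : Finset V)
    (g : Option (V × V)) : Prop where
  cardR : #R ≤ 1
  qr : Q = ∅ ∨ R = ∅
  low : ∀ v, K G v → v ∉ R → -1 ≤ tt G z ρ τ κ v
  neg : ∀ v, v ∈ Q ∨ v ∈ R → K G v ∧ tt G z ρ τ κ v ≤ -1
  don : ∀ w ∈ Dn, K G w ∧ 1 ≤ tt G z ρ τ κ w ∧
    (if g = none then 2 else 3) ≤ #(Q.filter fun x => G.Adj w x ∧ κ w ≠ κ x)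
  ext : ∀ u x, g = some (u, x) → G.Adj u x ∧ K G u ∧ K G x ∧ κ u ≠ κ x ∧
    1 ≤ tt G z ρ τ κ u ∧ u ∉ Dn
  hall : ∀ hd : V → V, (∀ w ∈ Dn, hd w ∈ Q) → ∀ X : Finset V, (∀ v ∈ X, K G v) →
    -1 ≤ ∑ v ∈ X, tt G z ρ τ κ v + fcut G κ X + #(Dn.filter fun w => w ∉ X ∧ hd w ∈ X) +
      if ∃ u x, g = some (u, x) ∧ u ∉ X ∧ x ∈ X then 1 else 0

/-- Row CNT: at most one leaf. -/
def SCnt : Prop :=
  ∀ (V : Type) [Fintype V] (G : SimpleGraph V) (z ρ : V) (γ τ : ZMod 2), Big G → TwoK G →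
    K G ρ → ¬K G z → (∀ u w, G.Adj u w → K G w ∨ (u = ρ ∧ w = z)) →
    ((∀ u w, K G u → K G w → u ≠ w → G.Adj u w) ∧ Even #(univ.filter (K G))) ∨
    ∃ κ Q Dn R g, ∑ v ∈ univ.filter (K G), κ v = γ ∧ Cert G z ρ τ κ Q Dn R g

/-- Row CNTM: no parity condition. -/
def SCntM : Prop :=
  ∀ (V : Type) [Fintype V] (G : SimpleGraph V) (z ρ : V) (τ : ZMod 2), ¬K G z →
    ∃ κ, Cert G z ρ τ κ ∅ ∅ ∅ none

/-- Row PAIR: the transitions at one vertex. -/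
def SPair : Prop :=
  ∀ (V : Type) [Fintype V] (H Q : Finset V) (l : Option (V × V)), Q ⊆ H →
    (∀ a b, l = some (a, b) → a ≠ b) →
    ∃ π : V → V, (∀ w, π (π w) = w) ∧
      (∀ w, π w ≠ w → w ∈ H ∨ ∃ a b, l = some (a, b) ∧ (w = a ∨ w = b)) ∧
      (∀ a b, l = some (a, b) → π a = b) ∧
      ∀ d : V → Prop, (∀ w, π w ≠ w → (d w ↔ ¬d (π w))) → (∀ a b, l = some (a, b) → d b) →
        (#H - 1) / 2 ≤ #(H.filter d) ∧ ((if l = none then 2 else 3) ≤ #Q → ∃ x ∈ Q, d x)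

/-- Row ORI2: orientation with many separated arcs going out. -/
def SOri2 : Prop :=
  ∀ (V : Type) [Fintype V] (G : SimpleGraph V) (H Q : V → Finset V) (l : V → Option (V × V))
    (u₀ w₀ : V), Two G → (∀ v, Q v ⊆ H v ∧ H v ⊆ N G v) →
    (∀ v a b, l v = some (a, b) → a ≠ b ∧ G.Adj v a ∧ G.Adj v b) → G.Adj u₀ w₀ →
    ∃ D : V → V → Prop, (∀ u w, D u w → G.Adj u w) ∧ (∀ u w, G.Adj u w → (D u w ↔ ¬D w u)) ∧
      D u₀ w₀ ∧ (∀ v, dg G v / 2 ≤ #(Out D v) ∧ #(Out D v) ≤ (dg G v + 1) / 2) ∧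
      (∀ (X : Finset V) u w, u ∈ X → w ∉ X → 1 ≤ dg G u → 1 ≤ dg G w →
        ∃ a b, a ∉ X ∧ b ∈ X ∧ D a b) ∧
      (∀ v a b, l v = some (a, b) → (D v a ↔ ¬D v b)) ∧
      ∀ v, (∀ a b, l v = some (a, b) → D v b) → (#(H v) - 1) / 2 ≤ #((H v).filter (D v)) ∧
        ((if l v = none then 2 else 3) ≤ #(Q v) → ∃ x ∈ Q v, D v x)

/-- Neighbours separated by parity. -/
def Hs (G : SimpleGraph V) (κ : V → ZMod 2) (v : V) : Finset V :=
  (N G v).filter fun w => ¬Fe G κ v w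

/-- Row CNTOF: from the certificate to the counting hypotheses. -/
def SCntOf : Prop :=
  ∀ (V : Type) [Fintype V] (G : SimpleGraph V) (A : V → V → Prop) (z ρ : V) (τ : ZMod 2)
    (κ : V → ZMod 2) (Q Dn R : Finset V) (g : Option (V × V)), Big G → Ori G A z ρ →
    Cert G z ρ τ κ Q Dn R g →
    (∀ v, K G v → (#(Hs G κ v) - 1) / 2 ≤ #((Hs G κ v).filter (A v))) →
    (∀ w ∈ Dn, ∃ x ∈ Q, A w x ∧ κ w ≠ κ x) → (∀ u x, g = some (u, x) → A u x) →
    ∃ P, Cnt G A z ρ τ κ P R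

/-- Base case with at least two leaves. -/
def BaseM (p : ℕ → Prop) (V : Type) [Fintype V] : Prop :=
  ∀ (G : SimpleGraph V) (h z ρ z' : V) (γ τ : ℕ), dg G h = 0 → Con G → Dg p G → TwoK G →
    N G z = {ρ} → K G ρ → 1 ≤ γ → γ ≤ 4 → dg G z' = 1 → z' ≠ z → Goal G z ρ γ τ

/-- Base case with one leaf. -/
def BaseL (p : ℕ → Prop) (V : Type) [Fintype V] : Prop :=
  ∀ (G : SimpleGraph V) (h z ρ : V) (γ τ : ℕ), dg G h = 0 → Dg p G → TwoK G →
    N G z = {ρ} → K G ρ → 1 ≤ γ → γ ≤ 4 → (∀ z', dg G z' = 1 → z' = z) → Goal G z ρ γ τ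

/-- Row ASMM. -/
def SAsmM : Prop :=
  SOri2 → SCntM → SCntOf → SFrame → ∀ (V : Type) [Fintype V], BaseM (fun d => 10 ≤ d) V

/-- Row ASML. -/
def SAsmL : Prop :=
  SKev → SOri2 → SCnt → SCntOf → SFrame → ∀ (V : Type) [Fintype V], BaseL (fun d => 10 ≤ d) V

/-- Row ASM0. -/
def SAsm0 : Prop :=
  SKev → SOri2 → SCnt → SCntOf → SFrame → ∀ (V : Type) [Fintype V], Base0 (fun d => 10 ≤ d) V

/-- Row FIN: the statement in the words of the problem. -/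
def SFin : Prop :=
  ∀ p : ℕ → Prop, (∀ (V : Type) [Fintype V], Main p V) →
    ∀ (V : Type) [Fintype V] [DecidableEq V] (G : SimpleGraph V) [DecidableRel G.Adj],
      G.Connected → Fintype.card V ≠ 2 → (∀ v, G.degree v ≤ 1 ∨ p (G.degree v)) →
      ∃ c : Sym2 V → ℕ, (∀ e ∈ G.edgeSet, 1 ≤ c e ∧ c e ≤ 4) ∧
        (∀ u w, G.Adj u w →
          ∑ z ∈ G.neighborFinset u, c s(u, z) ≠ ∑ z ∈ G.neighborFinset w, c s(w, z)) ∧
        ∀ u α, ((G.neighborFinset u).filter fun z => c s(u, z) = α).card ≤ (G.degree u + 1) / 2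

end

end Pool.Agent.MP_d1f1f3_co.H47
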