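import Pool.Agent.MP_d1f1f3_co.H2.Spec
import Pool.Agent.MP_d1f1f3_co.H47.Frame

/-!
Definitions and intermediate statements for graphs with vertices of degree two.
-/

namespace Pool.Agent.MP_d1f1f3_co.H47.TH

open Finset Relation H47 H2
open scoped Classical

noncomputable section

variable {V : Type} [Fintype V]

/-- The standing hypotheses on the graph. -/
structure Gr (G : SimpleGraph V) : Prop where
  con : H47.Con G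
  two : TwoK G
  ek : ∀ u w, G.Adj u w → K G u ∨ K G w
  nb : ∀ x y, dg G x = 2 → G.Adj x y → K G y
  sh : ∀ x y y', dg G x = 2 → dg G y = 2 → dg G y' = 2 → G.Adj x y → G.Adj x y' → y = y'
  paw : ∀ u x x', dg G u = 3 → dg G x = 2 → dg G x' = 2 → G.Adj u x → G.Adj u x' → ¬G.Adj x x'

/-- The inner vertex of a thread with one inner vertex. -/
def D1 (G : SimpleGraph V) (x : V) : Prop := dg G x = 2 ∧ ∀ y, G.Adj x y → Co G y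

/-- A thread from `u` through `x`, `x'` to `w`; `x = x'` if it has one inner vertex. -/
def Th (G : SimpleGraph V) (u x x' w : V) : Prop :=
  Co G u ∧ Co G w ∧ dg G x = 2 ∧ dg G x' = 2 ∧ G.Adj u x ∧ G.Adj x' w ∧
    ((x = x' ∧ u ≠ w) ∨ G.Adj x x')

/-- The colouring given by classes and levels. -/
def cl (a : V → V → ZMod 2) (b : V → V → ℤ) (u w : V) : ℕ := Frame.col (a u w) (b u w)

/-- Row COL: the inner edges of the threads are recoloured. -/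
def SCol : Prop :=
  ∀ (V : Type) [Fintype V] (G : SimpleGraph V) (z ρ : V) (γ τ : ℕ) (c : V → V → ℕ), Gr G →
    (∀ u w, c u w = c w u) → (∀ u w, 1 ≤ c u w ∧ c u w ≤ 4) →
    (∀ v, Co G v → ∀ α, #((N G v).filter fun w => c v w = α) ≤ (dg G v + 1) / 2) →
    (∀ u w, G.Adj u w → Co G u → Co G w → sg G c u ≠ sg G c w) →
    (∀ u x w, Th G u x x w → c u x ≠ c x w ∧ c u x + c x w ≠ sg G c u) →
    (∀ u x x' w, Th G u x x' w → G.Adj x x' → c u x ≠ c x' w ∧ ∃ m, 1 ≤ m ∧ m ≤ 4 ∧ m ≠ c u x ∧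
      m ≠ c x' w ∧ c u x + m ≠ sg G c u ∧ m + c x' w ≠ sg G c w) →
    (G.Adj z ρ → Co G ρ ∧ ¬K G z ∧ c z ρ = γ ∧ sg G c ρ ≠ τ) → Goal G z ρ γ τ

/-- The frame, with the extra information that merged arcs are separated. -/
def SGenH : Prop :=
  ∀ (V : Type) [Fintype V] (c : Cx V) (d : Ds V) (γ : ZMod 2), Ori c.G c.A c.z c.ρ →
    Par c.G c.A c.z c.ρ c.κ γ → c.Ok d → ∃ a E Y i o, Sys c d γ a E Y i o ∧
      (d.Pi = ∅ → ∀ v, Y v → ¬Fc c.G c.κ v (i v))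

/-- The data of a plan. -/
structure Pl (V : Type) where
  t : V → ℤ
  sF : V → V → ℕ
  Sf : Finset V
  v₀ : Option V
  v₁ : Option V
  Um : Finset V
  U : Finset V
  hA : Finset (V × V)
  fx : Prop
  st : Prop
  mx : Prop
  e₀ : V × V
  e₁ : V × V

/-- The design of a plan. -/
def Pl.ds (p : Pl V) (c : Cx V) : Ds V :=
  ⟨p.t, p.sF, ∅, ∅, if p.fx then {p.e₀} else ∅, ∅, id, p.v₀, none, True, p.Sf, c.Neg c.ρ, p.st,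
    p.e₀, p.e₁⟩

/-- Arcs with a prescribed level. -/
def Pl.Cn (p : Pl V) (c : Cx V) (e : V × V) : Prop :=
  c.A e.1 e.2 ∧ c.G.Adj e.1 e.2 ∧ ((¬Co c.G e.1 ∧ ¬((p.st ∨ p.mx) ∧ e = p.e₁)) ∨ e.1 ∈ p.Um ∨
    (p.fx ∧ e = p.e₀) ∨ e ∈ p.hA)

/-- The unseparated edges are oriented evenly. -/
def OF (c : Cx V) : Prop :=
  ∀ v, Co c.G v → #(c.Fi v) ≤ #(c.Fo v) + 1 ∧ #(c.Fo v) ≤ #(c.Fi v) + 1 ∧
    (c.To v → #(c.Fi v) ≤ #(c.Fo v)) ∧ (Odd (dg c.G v) → ¬c.To v → #(c.Fo v) ≤ #(c.Fi v))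

/-- The condition on a virtual root. -/
def RtOk (c : Cx V) : Prop :=
  ¬c.G.Adj c.z c.ρ → Wv c.G c.κ c.ρ → Co c.G c.ρ ∧
    ¬(df c.G c.κ c.ρ = 1 ∧ ∃ w ∈ c.Fo c.ρ, df c.G c.κ w = 1)

/-- Simple hypotheses that imply those of the frame. -/
structure Op (c : Cx V) (p : Pl V) : Prop where
  of : OF c
  rt : RtOk c
  t1 : ∀ v, Co c.G v → p.t v + df c.G c.κ v + ∑ w, (p.sF v w : ℤ) ≤ tau c.G c.κ v
  sym : ∀ u w, p.sF u w = p.sF w u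
  sdiag : ∀ u, p.sF u u = 0
  th : ∀ X : Finset V, (∀ v ∈ X, Co c.G v) → -1 ≤ Dl c.G c.κ p.t p.sF X
  neg : ∀ v, c.Neg v → v = c.ρ ∧ c.G.Adj c.z c.ρ ∧ p.v₀ = some v ∧ ¬(p.fx ∧ p.e₀.1 = v)
  vc : ∀ v, p.v₀ = some v → Co c.G v
  yb : ∀ v, Co c.G v → p.t v + c.fx (p.ds c) v + df c.G c.κ v ≤ tau c.G c.κ v + ind p.v₀ {v}
  y0 : ∀ v, Co c.G v → 0 ≤ c.y1 (p.ds c) v + ind p.v₀ {v}
  fx : p.fx → c.A p.e₀.1 p.e₀.2 ∧ c.G.Adj p.e₀.1 p.e₀.2 ∧ Co c.G p.e₀.1 ∧ ¬Co c.G p.e₀.2 ∧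
    (c.Wc p.e₀.1 → 6 ≤ dg c.G p.e₀.1) ∧ (p.v₀ = some p.e₀.1 ∨ ((∀ w, p.sF p.e₀.1 w = 0) ∧
      (dg c.G p.e₀.1 = 4 → df c.G c.κ p.e₀.1 = 1 → c.Fo p.e₀.1 = ∅)))
  sf : ∀ v ∈ p.Sf, dg c.G v = 3 ∧ 1 ≤ p.t v ∧ ∃ x, c.G.Adj v x ∧ ¬Co c.G x
  st : p.st → ¬p.fx ∧ c.A p.e₀.1 p.e₀.2 ∧ c.G.Adj p.e₀.1 p.e₀.2 ∧ Co c.G p.e₀.1 ∧
    ¬Co c.G p.e₀.2 ∧ c.κ p.e₀.1 = 1 ∧ c.A p.e₁.1 p.e₁.2 ∧ c.G.Adj p.e₁.1 p.e₁.2 ∧
    ¬Co c.G p.e₁.1 ∧ Co c.G p.e₁.2 ∧ p.e₁.1 ≠ c.z ∧ ∀ v, ¬c.Neg v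

/-- Row OKR. -/
def SOk : Prop :=
  ∀ (V : Type) [Fintype V] (c : Cx V) (p : Pl V), Ori c.G c.A c.z c.ρ → Op c p → c.Ok (p.ds c)

/-- The tokens suffice after the constants are removed. -/
structure Tp (c : Cx V) (p : Pl V) : Prop where
  uc : ∀ v ∈ p.U, Co c.G v
  um : ∀ v ∈ p.Um, dg c.G v = 3 ∧ v ∉ p.U ∧ ¬(p.fx ∧ p.e₀.1 = v) ∧ (df c.G c.κ v = 0 ∨
    (p.v₁ = some v ∧ p.v₀ = none ∧ ¬p.st ∧ df c.G c.κ v = 1 ∧ (c.To v → (c.Fo v).Nonempty) ∧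
      ∃ x, c.A x v ∧ c.G.Adj v x ∧ ¬Co c.G x))
  ha : ∀ e ∈ p.hA, c.A e.1 e.2 ∧ c.G.Adj e.1 e.2 ∧ Co c.G e.1 ∧ ¬c.Yc e.1 ∧ e.1 ∉ p.Um ∧
    e ≠ p.e₀ ∧ (df c.G c.κ e.1 = 0 ∨ (df c.G c.κ e.1 = 1 ∧ Fc c.G c.κ e.1 e.2))
  cnt : ∀ v, Co c.G v → v ∉ p.Um → (if v ∈ p.U then 2 else 0) + (#(p.hA.filter fun e => e.1 = v) : ℤ)
    ≤ c.y1 (p.ds c) v - c.Rb (p.ds c) v + ind p.v₁ {v}
  v01 : p.v₀ = none ∨ p.v₀ = p.v₁
  st : p.st → p.v₁ = none ∧ ¬p.mx ∧ p.e₀.1 ∉ p.Um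
  mx : p.mx → ¬p.fx ∧ p.e₀.2 = p.e₁.1 ∧ Th c.G p.e₀.1 p.e₀.2 p.e₀.2 p.e₁.2 ∧
    c.A p.e₀.1 p.e₀.2 ∧ c.A p.e₁.1 p.e₁.2 ∧ p.e₀.1 ∉ p.Um ∧ ¬c.Yc p.e₁.2 ∧
    df c.G c.κ p.e₁.2 = 0 ∧ (p.e₁.2 ∈ p.U → c.κ p.e₀.1 ≠ c.κ p.e₁.2)

/-- The classes and levels given by the frame. -/
structure Fa (c : Cx V) (p : Pl V) (γ : ZMod 2) (L : V × V → ℤ) (τ' : V → ℤ)
    (a : V → V → ZMod 2) (b : V → V → ℤ) : Prop where
  sa : ∀ u w, a u w = a w u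
  sb : ∀ u w, b u w = b w u
  bb : ∀ u w, b u w = 0 ∨ b u w = 1
  root : c.G.Adj c.z c.ρ → a c.z c.ρ = γ
  sum : ∀ v, K c.G v → ∑ w ∈ N c.G v, a v w = c.κ v
  cls : ∀ v, Co c.G v → ∀ j, #((N c.G v).filter fun w => a v w = j) ≤ (dg c.G v + 1) / 2 ∨
    (c.Yc v ∧ #((N c.G v).filter fun w => a v w = j) = (dg c.G v + 1) / 2 + 1 ∧ (v ∈ p.Um ∨
      ∃ x y, c.G.Adj v x ∧ c.G.Adj v y ∧ a v x = j ∧ a v y = j ∧ b v x ≠ b v y))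
  con : ∀ e, p.Cn c e → b e.1 e.2 = L e
  glue : p.st ∨ p.mx → b p.e₀.1 p.e₀.2 ≠ b p.e₁.1 p.e₁.2
  fc : ∀ u w, Fc c.G c.κ u w → sg c.G (cl a b) u ≠ sg c.G (cl a b) w
  un : ∀ v ∈ p.U, (sg c.G (cl a b) v : ℤ) ≠ τ' v

/-- Row REAL. -/
def SReal : Prop := SGenH → SBlev2 →
  ∀ (V : Type) [Fintype V] (c : Cx V) (p : Pl V) (γ : ZMod 2)
    (L : (V → V → ZMod 2) → V × V → ℤ) (τ' : (V → V → ZMod 2) → V → ℤ), Ori c.G c.A c.z c.ρ →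
    Par c.G c.A c.z c.ρ c.κ γ → c.Ok (p.ds c) → Tp c p → (∀ a e, L a e = 0 ∨ L a e = 1) →
    ∃ a b, Fa c p γ (L a) (τ' a) a b

/-- The local conditions at the threads. -/
structure Lc (c : Cx V) (Um : Finset V) (γ τ : ℕ) (a : V → V → ZMod 2) (b : V → V → ℤ) :
    Prop where
  q : ∀ v ∈ Um, dg c.G v = 3 ∧ (c.To v → (∀ x y, c.G.Adj v x → c.G.Adj v y → a v x = a v y) →
    ∃ x y, c.G.Adj v x ∧ c.G.Adj v y ∧ b v x ≠ b v y)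
  k1o : ∀ u x w, Th c.G u x x w → c.A u x → c.κ x = 1 → b x w = 0 ∧
    (dg c.G u = 3 → c.κ u = 1 → b u x = 0 ∨ ¬c.To u ∨ ∃ y, y ≠ x ∧ c.G.Adj u y ∧ b u y = 1) ∧
    (dg c.G w = 3 → c.κ w = 1 → b u x = 0 ∨ ∀ y, c.A w y → b w y = 1)
  k1e : ∀ u x w, Th c.G u x x w → c.A u x → c.κ x = 0 → b u x ≠ b x w ∧
    (c.κ u = 0 → b u x = 1 ∧
      (dg c.G u = 3 → ∃ y, y ≠ x ∧ c.G.Adj u y ∧ (b u y = 1 ∨ a u y = 0))) ∧
    (c.κ w = 0 → (dg c.G w = 4 → ∃ y, c.G.Adj w y ∧ b w y = 1) ∧ (dg c.G w = 3 →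
      (sg c.G (cl a b) w : ℤ) ≠ (if a u x = 1 then 4 else 6) ∨
      (b u x = 0 ∧ ∃ y, y ≠ x ∧ c.G.Adj w y ∧ b w y = 1)))
  k2o : ∀ u x x' w, Th c.G u x x' w → c.G.Adj x x' → c.A u x → c.κ x + c.κ x' = 1 →
    b x' w = (if a x' w = 1 then 1 else 0) ∧ (dg c.G u = 3 → c.κ u = c.κ w → b u x = 1)
  k2e : ∀ u x x' w, Th c.G u x x' w → c.G.Adj x x' → c.A u x → c.κ x + c.κ x' = 0 →
    b u x ≠ b x' w ∧ (dg c.G u = 3 → c.κ u = c.κ w → b u x = 0) ∧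
    (dg c.G w = 3 → c.κ u = c.κ w → c.To w → ∃ y, y ≠ x' ∧ c.G.Adj w y ∧ b w y = 1)
  root : c.G.Adj c.z c.ρ → Co c.G c.ρ ∧ b c.z c.ρ = ((γ - 1) / 2 : ℕ) ∧
    (c.κ c.ρ = τ → sg c.G (cl a b) c.ρ ≠ τ)

/-- Row LOC. -/
def SLoc : Prop := SCol →
  ∀ (V : Type) [Fintype V] (c : Cx V) (p : Pl V) (γ τ : ℕ) (L : V × V → ℤ) (τ' : V → ℤ)
    (a : V → V → ZMod 2) (b : V → V → ℤ), Gr c.G → Ori c.G c.A c.z c.ρ → 1 ≤ γ → γ ≤ 4 →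
    Fa c p γ L τ' a b → Lc c p.Um γ τ a b → Goal c.G c.z c.ρ γ τ

/-- Inner vertices of short threads in the odd mode. -/
def Od (G : SimpleGraph V) (κ : V → ZMod 2) (x : V) : Prop := D1 G x ∧ κ x = 1

/-- The root constraint is present at `v`. -/
def Bw (r : Option V) (τ : ZMod 2) (κ : V → ZMod 2) (v : V) : Prop := r = some v ∧ κ v = τ

/-- Vertices without constraints. -/
def Gd (G : SimpleGraph V) (r : Option V) (τ : ZMod 2) (κ : V → ZMod 2) (v : V) : Prop :=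
  df G κ v = 0 ∧ ¬Bw r τ κ v

/-- A paid end of a thread with two inner vertices. -/
def S2 (G : SimpleGraph V) (κ : V → ZMod 2) (u x : V) : Prop :=
  dg G u = 3 ∧ ∃ x' w, Th G u x x' w ∧ G.Adj x x' ∧ κ u = κ w

/-- The data of a state. -/
structure Sd (V : Type) where
  t : V → ℤ
  sF : V → V → ℕ
  ev : Prop
  bon : Prop
  g5 : Prop
  I : Finset V

/-- A good state. -/
structure Sta (G : SimpleGraph V) (r : Option V) (τ : ZMod 2) (κ : V → ZMod 2) (s : Sd V) :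
    Prop where
  t1 : ∀ v, Co G v → s.t v + df G κ v + ∑ w, (s.sF v w : ℤ) ≤ tau G κ v
  sym : ∀ u w, s.sF u w = s.sF w u
  sdiag : ∀ u, s.sF u u = 0
  th : ∀ X : Finset V, (∀ v ∈ X, Co G v) → -1 ≤ Dl G κ s.t s.sF X
  tb : ∀ v, Co G v → s.t v + df G κ v + (if Bw r τ κ v then 2 else 0) ≤ tau G κ v
  tn : ∀ v, Co G v → 0 ≤ s.t v ∨ (r = some v ∧ ¬s.bon ∧ -1 ≤ s.t v)
  inn : s.I = ∅ ∨ (∃ x, D1 G x ∧ s.I = {x}) ∨
    ∃ x x', dg G x = 2 ∧ dg G x' = 2 ∧ G.Adj x x' ∧ s.I = {x, x'}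
  evI : s.ev → s.I.Nonempty ∧ ∑ x ∈ s.I, κ x = 0
  m1 : ∀ x, D1 G x → κ x = 1 ∨ (s.ev ∧ s.I = {x})
  m2 : ∀ x x', dg G x = 2 → dg G x' = 2 → G.Adj x x' → κ x + κ x' = 1 ∨ (s.ev ∧ s.I = {x, x'})
  s1 : ∀ v x, dg G v = 3 → κ v = 1 → G.Adj v x → Od G κ x → Gd G r τ κ v ∨
    (df G κ v = 1 ∧ ¬Bw r τ κ v ∧ s.I = {x} ∧ (s.bon ∨ r = some v)) ∨ (s.g5 ∧ r = some v)
  s3 : ∀ v, dg G v = 3 → κ v = 1 → ∃ y, G.Adj v y ∧ ¬Od G κ y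
  s2 : ∀ u x, S2 G κ u x → (Gd G r τ κ u ∧ (((∀ y, S2 G κ u y → y = x) ∧
      (κ u = 1 → ∀ y, G.Adj u y → ¬Od G κ y)) ∨ (r = some u ∧ ¬s.ev))) ∨
    (df G κ u = 1 ∧ ¬Bw r τ κ u ∧ x ∈ s.I ∧ ¬s.ev ∧ ¬s.bon ∧ r = some u)
  e2 : s.ev → (∀ x, s.I ≠ {x}) → s.bon
  e1 : s.ev → ∀ x, s.I = {x} → (∀ u w, s.sF u w = 0) ∧
    (∀ y y', dg G y = 2 → dg G y' = 2 → ¬G.Adj y y') ∧
    (∀ p, G.Adj p x → κ p = 0 → (dg G p = 3 → Gd G r τ κ p ∧ 1 ≤ s.t p) ∧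
      (4 ≤ dg G p → s.t p + df G κ p + (if Bw r τ κ p then 2 else 0) + 1 ≤ tau G κ p)) ∧
    (s.bon ∨ ∃ p, G.Adj p x ∧ dg G p = 3 ∧ κ p = 1 ∧ Gd G r τ κ p ∧ ∀ y, G.Adj p y → ¬Od G κ y)
  g : s.g5 → ¬s.bon ∧ ¬s.ev ∧ (∀ z z', dg G z = 1 → dg G z' = 1 → z = z') ∧
    ∃ ρ x, r = some ρ ∧ s.I = {x} ∧ G.Adj ρ x ∧ dg G ρ = 3 ∧ κ ρ = 1 ∧ τ = 1 ∧ df G κ ρ = 0 ∧
      ∀ y, G.Adj ρ y → Od G κ y → y = x

/-- The real root has a pendant edge. -/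
def Rr (G : SimpleGraph V) (r : Option V) : Prop :=
  ∀ ρ, r = some ρ → Co G ρ ∧ ∃ z, G.Adj ρ z ∧ dg G z = 1

/-- The cost of a choice of the parities. -/
def Phi (G : SimpleGraph V) (ω : V → ZMod 2 → ℤ) (m : V → V → ℕ) (κ : V → ZMod 2) : ℤ :=
  ∑ v ∈ univ.filter (Co G), ((df G κ v : ℤ) + ∑ w, (if κ v = κ w then (m v w : ℤ) else 0) +
    2 * (if Wv G κ v then 1 else 0) + 2 * ω v (κ v))

/-- Number of separated core edges at a vertex. -/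
def hc (G : SimpleGraph V) (κ : V → ZMod 2) (v : V) : ℕ := #(univ.filter fun w => Hc G κ v w)

/-- Half of the change of the cost when the parity of `v` is changed. -/
def gn (G : SimpleGraph V) (ω : V → ZMod 2 → ℤ) (m : V → V → ℕ) (κ : V → ZMod 2) (v : V) : ℤ :=
  (hc G κ v : ℤ) - df G κ v + ∑ w, (if κ v = κ w then -(m v w : ℤ) else m v w) +
    (if Even (dg G v) then (if Wv G κ v then -1 else 1) else 0) + ω v (κ v + 1) - ω v (κ v)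

/-- Optimal choices. -/
def Opt (G : SimpleGraph V) (ω : V → ZMod 2 → ℤ) (m : V → V → ℕ) (κ : V → ZMod 2) : Prop :=
  ∀ κ', Phi G ω m κ ≤ Phi G ω m κ'

/-- Row POT. -/
def SPot : Prop :=
  ∀ (V : Type) [Fintype V] (G : SimpleGraph V) (ω : V → ZMod 2 → ℤ) (m : V → V → ℕ),
    (∀ u w, m u w = m w u) → (∀ u, m u u = 0) → (∀ u w, m u w ≠ 0 → Co G u) →
    (∃ κ, Opt G ω m κ) ∧
    (∀ κ κ', (∀ v, Co G v → κ' v = κ v) → Opt G ω m κ → Opt G ω m κ') ∧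
    (∀ κ v, Opt G ω m κ → Co G v → gn G ω m κ v ≤ 0 →
      Opt G ω m (Function.update κ v (κ v + 1))) ∧
    ∀ κ, Opt G ω m κ → ∀ X : Finset V, (∀ v ∈ X, Co G v) →
      0 ≤ ∑ v ∈ X, (gn G ω m κ v + #(X.filter fun w => Fc G κ v w) -
        #(X.filter fun w => Hc G κ v w) + ∑ w ∈ X, (if κ v = κ w then (m v w : ℤ) else 0))

/-- Row EXA: free parity, or a thread with two inner vertices. -/
def SExA : Prop := SPot →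
  ∀ (V : Type) [Fintype V] (G : SimpleGraph V) (r : Option V) (γ τ : ZMod 2) (fr : Prop), Gr G →
    Rr G r → (fr ∨ ∃ x x', dg G x = 2 ∧ dg G x' = 2 ∧ G.Adj x x') →
    ∃ κ s, Sta G r τ κ s ∧ (fr ∨ ∑ v ∈ univ.filter (K G), κ v = γ)

/-- Row EXB: all threads have one inner vertex. -/
def SExB : Prop := SPot →
  ∀ (V : Type) [Fintype V] (G : SimpleGraph V) (r : Option V) (γ τ : ZMod 2), Gr G → Rr G r →
    (∃ x, dg G x = 2) → (∀ x x', dg G x = 2 → dg G x' = 2 → ¬G.Adj x x') →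
    (∀ z z', dg G z = 1 → dg G z' = 1 → z = z') → (r = none → ∀ z, dg G z ≠ 1) →
    ∃ κ s, Sta G r τ κ s ∧ ∑ v ∈ univ.filter (K G), κ v = γ

/-- Prescribed pairs of edges. -/
def Ex (G : SimpleGraph V) (r : Option V) (τ : ZMod 2) (κ : V → ZMod 2) (s : Sd V) (v a b : V) :
    Prop :=
  a ≠ b ∧ G.Adj v a ∧ G.Adj v b ∧
    ((dg G v = 3 ∧ κ v = 1 ∧ Od G κ a ∧ Od G κ b) ∨
    (s.ev ∧ dg G v = 3 ∧ Gd G r τ κ v ∧ ∃ x, s.I = {x} ∧ G.Adj v x ∧ a ≠ x ∧ b ≠ x) ∨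
    (s.ev ∧ dg G v = 4 ∧ κ v = 0 ∧ df G κ v = 1 ∧ s.I = {a} ∧ Fc G κ v b) ∨
    (r = some v ∧ dg G v = 3 ∧ df G κ v = 0 ∧ K G a ∧ K G b ∧ ¬(s.ev ∧ ∃ x, s.I = {x})))

/-- A pairing of the edges at every vertex. -/
def Prs (G : SimpleGraph V) (π : V → V → V) : Prop :=
  ∀ v w, G.Adj v w → G.Adj v (π v w) ∧ π v (π v w) = w

/-- Paired edges have opposite directions. -/
def Opp (G : SimpleGraph V) (π : V → V → V) (A : V → V → Prop) : Prop :=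
  ∀ v w, K G v → G.Adj v w → π v w ≠ w → (A v w ↔ ¬A v (π v w))

/-- Row PAIR3. -/
def SPair3 : Prop :=
  ∀ (V : Type) [Fintype V] (G : SimpleGraph V) (r : Option V) (τ : ZMod 2) (κ : V → ZMod 2)
    (s : Sd V), Rr G r → Sta G r τ κ s → ∃ π, Prs G π ∧
      (∀ v a b, Ex G r τ κ s v a b → π v a = b ∧ ∀ y, y ≠ a → y ≠ b → π v y = y) ∧
      ∀ A z ρ, Ori G A z ρ → Opp G π A → OF ⟨G, A, z, ρ, κ⟩

/-- Row ORIR: orientations with a real root. -/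
def SOriR : Prop :=
  ∀ (V : Type) [Fintype V] (G : SimpleGraph V) (h z ρ : V) (π : V → V → V), dg G h = 0 →
    H47.Con G → TwoK G → N G z = {ρ} → K G ρ → Prs G π →
    (∃ A, Ori G A z ρ ∧ Opp G π A ∧ ((∃ z', z' ≠ z ∧ dg G z' = 1) → ∃ u w, A u w ∧ ¬K G w)) ∧
    ((∀ z', dg G z' = 1 → z' = z) → Odd (dg G ρ) → π ρ z = z → ∀ x, G.Adj ρ x → K G x →
      ∃ A, Ori G A z ρ ∧ Opp G π A ∧ A ρ x)

/-- Row ORI0: orientations with a virtual root. -/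
def SOri0 : Prop :=
  ∀ (V : Type) [Fintype V] (G : SimpleGraph V) (h : V) (π : V → V → V) (κ : V → ZMod 2),
    dg G h = 0 → TwoK G → (∀ v, dg G v ≠ 1) → (∃ v, Co G v) → Prs G π →
    ∃ A ρ, Ori G A h ρ ∧ Opp G π A ∧ RtOk ⟨G, A, h, ρ, κ⟩

/-- The context of the construction of a plan. -/
structure Bc (V : Type) where
  c : Cx V
  s : Sd V
  γ : ℕ
  τ : ℕ
  u : V
  x : V
  x' : V
  w : V

namespace Bc

variable (B : Bc V)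

/-- The real root. -/
def r : Option V := if B.c.G.Adj B.c.z B.c.ρ then some B.c.ρ else none

/-- No constraints. -/
def gd (v : V) : Prop := Gd B.c.G B.r B.τ B.c.κ v

/-- Vertices of degree three in the class of an adjacent short thread. -/
def S1 (v : V) : Prop := dg B.c.G v = 3 ∧ B.c.κ v = 1 ∧ ∃ y, B.c.G.Adj v y ∧ Od B.c.G B.c.κ y

/-- The chosen thread is short and in the even mode. -/
def e1 : Prop := B.s.ev ∧ B.s.I = {B.x}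

/-- The tail of the chosen thread is not paid. -/
def exT : Prop := ¬B.s.ev ∧ B.s.I.Nonempty ∧ dg B.c.G B.u = 3 ∧ df B.c.G B.c.κ B.u = 1 ∧
  ((B.s.I = {B.x} ∧ B.c.κ B.u = 1) ∨ S2 B.c.G B.c.κ B.u B.x)

/-- The head of the chosen thread is not paid. -/
def exH : Prop := ¬B.s.ev ∧ B.s.I = {B.x} ∧ dg B.c.G B.w = 3 ∧ df B.c.G B.c.κ B.w = 1 ∧
  B.c.κ B.w = 1 ∧ ¬B.exT

/-- The head of the chosen thread has degree three and is not separated. -/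
def d0 : Prop := B.e1 ∧ dg B.c.G B.w = 3 ∧ B.c.κ B.w = 0

/-- Vertices all of whose arcs going out are constant. -/
def um (v : V) : Prop := (B.gd v ∧ (B.S1 v ∨ (∃ y, S2 B.c.G B.c.κ v y) ∨
  (B.e1 ∧ v = B.u ∧ dg B.c.G v = 3) ∨ (B.d0 ∧ ¬B.s.bon ∧ v = B.w))) ∨ (B.exH ∧ v = B.w)

/-- The tail edge is fixed. -/
def fx : Prop := B.exT ∨ (B.s.ev ∧ B.c.κ B.u = 0 ∧ ¬B.um B.u)

/-- The two edges of the chosen thread are merged. -/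
def mx : Prop := B.e1 ∧ B.c.κ B.u = 1 ∧ ¬B.um B.u ∧ dg B.c.G B.w = 3 ∧ B.gd B.w

/-- The chain of the tail edge is made constant. -/
def st : Prop := B.s.ev ∧ B.c.κ B.u = 1 ∧ ¬B.um B.u ∧ ¬B.mx

/-- The high arc at a head of degree four. -/
def hb : V := @Classical.epsilon V ⟨B.w⟩ fun b => B.c.A B.w b ∧
  (df B.c.G B.c.κ B.w = 0 ∨ Fc B.c.G B.c.κ B.w b)

/-- The place of the deficit in the frame. -/
def v₀ : Option V := if ¬B.s.bon then B.r else if B.fx ∧ ¬B.e1 then some B.u else none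

/-- The place of the deficit at the end. -/
def v₁ : Option V := if ¬B.s.bon then B.r else if B.fx ∧ ¬B.e1 then some B.u
  else if B.exH ∨ B.d0 then some B.w else none

/-- The plan. -/
def pl : Pl V where
  t := B.s.t
  sF := B.s.sF
  Sf := univ.filter fun v => B.d0 ∧ B.s.bon ∧ v = B.w
  v₀ := B.v₀
  v₁ := B.v₁
  Um := univ.filter B.um
  U := univ.filter fun v => Bw B.r B.τ B.c.κ v ∨ (B.d0 ∧ B.s.bon ∧ v = B.w)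
  hA := if B.e1 ∧ dg B.c.G B.w = 4 ∧ B.c.κ B.w = 0 then {(B.w, B.hb)} else ∅
  fx := B.fx
  st := B.st
  mx := B.mx
  e₀ := (B.u, B.x)
  e₁ := (B.x', B.w)

/-- Low arcs going out. -/
def Low (a : V → V → ZMod 2) (v b : V) : Prop :=
  if B.e1 ∧ v = B.u ∧ B.c.κ v = 0 then b ≠ B.x ∧ a v b = 0
  else if B.S1 v then Od B.c.G B.c.κ b ∧ ¬∃ y, B.c.A y v ∧ Od B.c.G B.c.κ y
  else if B.s.ev ∧ v = B.u ∧ (B.s.I = {B.x} ∨ S2 B.c.G B.c.κ v B.x) then b = B.x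
  else B.c.To v ∧ b = @Classical.epsilon V ⟨v⟩ fun o => B.c.A v o ∧ ¬S2 B.c.G B.c.κ v o

/-- The levels of the arcs that start at core vertices. -/
def L0 (a : V → V → ZMod 2) (e : V × V) : ℤ :=
  if B.um e.1 then (if B.Low a e.1 e.2 then 0 else 1)
  else if e = (B.u, B.x) ∧ ¬B.s.ev ∧ B.x = B.x' then 0 else 1

/-- The levels of the constant arcs. -/
def L (a : V → V → ZMod 2) (e : V × V) : ℤ :=
  if Co B.c.G e.1 then B.L0 a e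
  else if e = (B.c.z, B.c.ρ) then (if B.γ ≤ 2 then 0 else 1)
  else if B.s.ev ∧ e = (B.x', B.w) then 1 - B.L0 a (B.u, B.x)
  else if ¬D1 B.c.G e.1 ∧ a e.1 e.2 = 1 then 1 else 0

/-- The forbidden sums. -/
def τ' (a : V → V → ZMod 2) (v : V) : ℤ :=
  if Bw B.r B.τ B.c.κ v then B.τ else if a B.u B.x = 1 then 4 else 6

/-- The hypotheses of the construction. -/
structure Hy : Prop where
  gr : Gr B.c.G
  ori : Ori B.c.G B.c.A B.c.z B.c.ρ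
  g1 : 1 ≤ B.γ
  g4 : B.γ ≤ 4
  rr : B.c.G.Adj B.c.z B.c.ρ → Co B.c.G B.c.ρ ∧ dg B.c.G B.c.z = 1
  sta : Sta B.c.G B.r B.τ B.c.κ B.s
  of : OF B.c
  rt : RtOk B.c
  ex : ∀ v a b, Ex B.c.G B.r B.τ B.c.κ B.s v a b → (B.c.A v a ↔ ¬B.c.A v b)
  th : B.s.I.Nonempty → Th B.c.G B.u B.x B.x' B.w ∧ B.s.I = {B.x, B.x'} ∧ B.c.A B.u B.x ∧
    B.c.A B.x' B.w
  g5 : B.s.g5 → B.u = B.c.ρ

end Bc

/-- Row B1. -/
def SB1 : Prop := ∀ (V : Type) [Fintype V] (B : Bc V), B.Hy → Op B.c B.pl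

/-- Row B2. -/
def SB2 : Prop := ∀ (V : Type) [Fintype V] (B : Bc V), B.Hy → Tp B.c B.pl

/-- Row B3. -/
def SB3 : Prop :=
  ∀ (V : Type) [Fintype V] (B : Bc V) (a : V → V → ZMod 2) (b : V → V → ℤ), B.Hy →
    Fa B.c B.pl B.γ (B.L a) (B.τ' a) a b → Lc B.c B.pl.Um B.γ B.τ a b

/-- The result for graphs with a vertex of degree two or with two leaves. -/
def SThr : Prop :=
  ∀ (V : Type) [Fintype V] (G : SimpleGraph V) (h : V), dg G h = 0 → Gr G →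
    (∀ z ρ γ τ, N G z = {ρ} → Co G ρ → 1 ≤ γ → γ ≤ 4 →
      ((∃ x, dg G x = 2) ∨ ∃ z', z' ≠ z ∧ dg G z' = 1) → Goal G z ρ γ τ) ∧
    ((∀ v, dg G v ≠ 1) → (∃ x, dg G x = 2) → (∃ v, Co G v) → ∃ c, Col G c)

/-- Row ASMT. -/
def SAsmT : Prop := SGenH → SBlev2 → SReal → SOk → SCol → SLoc → SPot → SExA → SExB → SPair3 →
  SOriR → SOri0 → SB1 → SB2 → SB3 → SThr

end

end Pool.Agent.MP_d1f1f3_co.H47.TH
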