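import Pool.Agent.MP_d1f1f3_co.H47.SpecT

/-!
Row B1: the plan satisfies the simple hypotheses.
-/

namespace Pool.Agent.MP_d1f1f3_co.H47.TH

open Finset Relation H47 H2
open scoped Classical

noncomputable section

namespace TB1

variable {V : Type} [Fintype V] {B : Bc V} {v : V}

theorem r_some (h : B.r = some v) : v = B.c.ρ ∧ B.c.G.Adj B.c.z B.c.ρ := by
  unfold Bc.r at h
  split_ifs at h with a
  exact ⟨(Option.some.inj h).symm, a⟩

theorem ind_one {v₀ : Option V} (h : v₀ = some v) : ind v₀ {v} = 1 :=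
  if_pos ⟨v, mem_singleton_self v, h⟩

theorem fx_ne (h : B.Hy) (hf : B.fx) : B.s.I.Nonempty :=
  hf.elim (fun a => a.2.1) fun a => (h.sta.evI a.1).1

theorem short (h : B.Hy) {y : V} (hI : B.s.I = {y}) : B.x = y ∧ B.x' = y := by
  have h1 := (h.th (hI ▸ singleton_nonempty y)).2.1
  rw [hI] at h1
  exact ⟨mem_singleton.1 (h1 ▸ mem_insert_self _ _),
    mem_singleton.1 (h1 ▸ mem_insert_of_mem (mem_singleton_self _))⟩

theorem nbr (h : B.Hy) (hI : B.s.I = {B.x}) {p : V} (hp : B.c.G.Adj p B.x) :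
    p = B.u ∨ p = B.w := by
  obtain ⟨-, -, h2, -, h3, h4, h5⟩ := (h.th (hI ▸ singleton_nonempty _)).1
  rw [(short h hI).2] at h4 h5
  have h6 : B.u ≠ B.w := (h5.resolve_right fun a => a.ne rfl).2
  by_contra a
  rw [not_or] at a
  have : 2 < #(N B.c.G B.x) := two_lt_card_iff.2 ⟨p, B.u, B.w, mem_filter.2 ⟨mem_univ _, hp.symm⟩,
    mem_filter.2 ⟨mem_univ _, h3.symm⟩, mem_filter.2 ⟨mem_univ _, h4⟩, a.1, a.2, h6⟩
  unfold dg at h2
  omega

theorem e1_of (h : B.Hy) (he : B.s.ev) (hb : ¬B.s.bon) : B.e1 :=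
  ⟨he, by_contra fun a => hb (h.sta.e2 he fun y e => a ((short h e).1 ▸ e))⟩

theorem exT_r (h : B.Hy) (he : B.exT) : B.s.bon ∨ B.r = some B.u := by
  obtain ⟨h1, h2, h3, h4, ⟨h5, h6⟩ | h5⟩ := he
  · have t := (h.th h2).1
    have d : D1 B.c.G B.x := ⟨t.2.2.1, fun y hy => by
      rcases nbr h h5 hy.symm with rfl | rfl
      exacts [t.1, t.2.1]⟩
    rcases h.sta.s1 B.u B.x h3 h6 t.2.2.2.2.1
      ⟨d, (h.sta.m1 _ d).resolve_right fun a => h1 a.1⟩ with a | a | a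
    · have := a.1
      omega
    · exact a.2.2.2
    · exact Or.inr a.2
  · rcases h.sta.s2 _ _ h5 with a | a
    · have := a.1.1
      omega
    · exact Or.inr a.2.2.2.2.2

theorem v0_r (hb : ¬B.s.bon) : B.v₀ = B.r := if_pos hb

theorem v0_u (hb : B.s.bon) (hf : B.fx) (he : ¬B.e1) : B.v₀ = some B.u := by
  rw [Bc.v₀, if_neg (not_not.2 hb), if_pos ⟨hf, he⟩]

theorem e1_tail (h : B.Hy) (he : B.e1) (hk : B.c.κ B.u = 0) (hu : ¬B.um B.u) :
    B.s.t B.u + df B.c.G B.c.κ B.u + 1 ≤ tau B.c.G B.c.κ B.u := by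
  have t := (h.th (he.2 ▸ singleton_nonempty _)).1
  obtain ⟨a, b⟩ := (h.sta.e1 he.1 _ he.2).2.2.1 B.u t.2.2.2.2.1 hk
  have c : 3 ≤ dg B.c.G B.u := t.1
  rcases c.eq_or_lt with e | e
  · exact (hu (Or.inl ⟨(a e.symm).1, Or.inr (Or.inr (Or.inl ⟨he, rfl, e.symm⟩))⟩)).elim
  · have := b e
    split_ifs at this <;> omega

theorem fx_cases (h : B.Hy) (hf : B.fx) : B.v₀ = some B.u ∨ (B.e1 ∧ B.c.κ B.u = 0 ∧
    B.s.t B.u + df B.c.G B.c.κ B.u + 1 ≤ tau B.c.G B.c.κ B.u) := by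
  rcases id hf with a | ⟨a, b, c⟩
  · by_cases hb : B.s.bon
    · exact Or.inl (v0_u hb hf fun e => a.1 e.1)
    · exact Or.inl ((v0_r hb).trans ((exT_r h a).resolve_left hb))
  · by_cases he : B.e1
    · exact Or.inr ⟨he, b, e1_tail h he b c⟩
    · exact Or.inl (v0_u (by_contra fun e => he (e1_of h a e)) hf he)

theorem fx_eq : B.c.fx (B.pl.ds B.c) v = if B.fx ∧ B.u = v then 1 else 0 := by
  change #((if B.fx then {(B.u, B.x)} else ∅ : Finset (V × V)).filter fun e => e.1 = v) = _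
  by_cases a : B.fx
  · rw [if_pos a, filter_singleton]
    by_cases b : B.u = v
    · rw [if_pos b, if_pos ⟨a, b⟩, card_singleton]
    · rw [if_neg b, if_neg fun e => b e.2, card_empty]
  · rw [if_neg a, if_neg fun e => a e.1, filter_empty, card_empty]

theorem y1_eq : B.c.y1 (B.pl.ds B.c) v =
    tau B.c.G B.c.κ v - df B.c.G B.c.κ v - B.c.fx (B.pl.ds B.c) v := by
  simp [Cx.y1, Cx.pin, Cx.pout, Pl.ds]

theorem tb (h : B.Hy) (hv : Co B.c.G v) : B.s.t v + df B.c.G B.c.κ v ≤ tau B.c.G B.c.κ v := by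
  have := h.sta.tb v hv
  split_ifs at this <;> omega

theorem not_wv {G : SimpleGraph V} {κ : V → ZMod 2} (h : dg G v = 3) : ¬Wv G κ v := fun e => by
  obtain ⟨k, hk⟩ := e.2.1
  omega

theorem neg (h : B.Hy) (hv : B.c.Neg v) : ¬B.s.bon ∧ B.r = some v ∧ ¬(B.fx ∧ B.u = v) := by
  have h1 := tb h hv.1
  have h2 := hv.2
  obtain ⟨a, b, c⟩ := (h.sta.tn v hv.1).resolve_left (by omega)
  refine ⟨b, a, ?_⟩
  rintro ⟨e | ⟨e1, e2, e3⟩, rfl⟩
  · rw [tau, if_neg (not_wv e.2.2.1), e.2.2.1, e.2.2.2.1] at h2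
    omega
  · have := e1_tail h (e1_of h e1 b) e2 e3
    omega

theorem yb (h : B.Hy) (hv : Co B.c.G v) : B.s.t v + B.c.fx (B.pl.ds B.c) v + df B.c.G B.c.κ v ≤
    tau B.c.G B.c.κ v + ind B.v₀ {v} := by
  have h1 := tb h hv
  rw [fx_eq]
  split_ifs with a
  · obtain ⟨a, rfl⟩ := a
    rcases fx_cases h a with b | b
    · rw [ind_one b]
      omega
    · omega
  · omega

theorem st_bon (h : B.Hy) (hs : B.st) : B.s.bon := by
  by_contra hb
  have he := e1_of h hs.1 hb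
  obtain ⟨p, a, b, -, c, -⟩ := (h.sta.e1 he.1 _ he.2).2.2.2.resolve_left hb
  rcases nbr h he.2 a with rfl | rfl
  · exact hs.2.2.1 (Or.inl ⟨c, Or.inr (Or.inr (Or.inl ⟨he, rfl, b⟩))⟩)
  · exact hs.2.2.2 ⟨he, hs.2.1, hs.2.2.1, b, c⟩

theorem not_co {G : SimpleGraph V} (h : dg G v = 2) : ¬Co G v := fun e => by
  unfold Co at e
  omega

end TB1

open TB1 in
theorem b1 : SB1 := by
  intro V _ B h
  refine ⟨h.of, h.rt, h.sta.t1, h.sta.sym, h.sta.sdiag, h.sta.th, fun v hv => ?_,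
    fun v (hv : B.v₀ = some v) => ?_, fun v hv => yb h hv, fun v hv => ?_, fun hf : B.fx => ?_,
    fun v hv => ?_, fun hs : B.st => ?_⟩
  · obtain ⟨a, b, c⟩ := neg h hv
    exact ⟨(r_some b).1, (r_some b).2, (v0_r a).trans b, c⟩
  · unfold Bc.v₀ at hv
    split_ifs at hv with a b
    · exact Option.some.inj hv ▸ (h.th (fx_ne h b.1)).1.1
    · exact (r_some hv).1 ▸ (h.rr (r_some hv).2).1
  · have h1 := yb h hv
    have h2 := tb h hv
    change 0 ≤ _ + (ind B.v₀ {v} : ℤ)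
    rw [y1_eq]
    rcases h.sta.tn v hv with a | ⟨a, b, c⟩
    · omega
    · rw [ind_one ((v0_r b).trans a), fx_eq]
      split_ifs with e
      · have := not_lt.1 fun g => (neg h ⟨hv, g⟩).2.2 e
        omega
      · omega
  · obtain ⟨t, -, a, -⟩ := h.th (fx_ne h hf)
    refine ⟨a, t.2.2.2.2.1, t.1, not_co t.2.2.1, fun (e : B.c.Wc B.u) => ?_,
      (fx_cases h hf).imp_right fun ⟨e, k, _⟩ => ⟨(h.sta.e1 e.1 _ e.2).1 _,
        fun d4 d1 => eq_empty_of_forall_notMem fun b hb => ?_⟩⟩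
    · rcases hf with g | g
      · exact (not_wv g.2.2.1 e.2).elim
      · obtain ⟨c, -, ⟨k, hk⟩, e⟩ := e
        have c' : 3 ≤ dg B.c.G B.u := c
        have d4 : dg B.c.G B.u ≠ 4 := fun d => e (by rw [g.2.1, d]; decide)
        change 6 ≤ dg B.c.G B.u
        omega
    · obtain ⟨b1, b2⟩ := (mem_filter.1 hb).2
      exact (h.ex B.u B.x b ⟨fun g => not_co t.2.2.1 (g ▸ b2.2.2.1), t.2.2.2.2.1, b2.1,
        Or.inr (Or.inr (Or.inl ⟨e.1, d4, k, d1, e.2, b2⟩))⟩).1 a b1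
  · obtain ⟨⟨e, d3, k⟩, -, rfl⟩ := (mem_filter.1 hv).2
    have t := (h.th (e.2 ▸ singleton_nonempty _)).1
    have a := t.2.2.2.2.2.1.symm
    exact ⟨d3, (((h.sta.e1 e.1 _ e.2).2.2.1 B.w ((short h e.2).2 ▸ a) k).1 d3).2, B.x', a,
      not_co t.2.2.2.1⟩
  · obtain ⟨t, -, a, b⟩ := h.th (h.sta.evI hs.1).1
    refine ⟨?_, a, t.2.2.2.2.1, t.1, not_co t.2.2.1, hs.2.1, b, t.2.2.2.2.2.1, not_co t.2.2.2.1,
      t.2.1, fun (e : B.x' = B.c.z) => h.ori.kz (e ▸ t.2.2.2.1.ge),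
      fun v hv => (neg h hv).1 (st_bon h hs)⟩
    rintro (g | g)
    · exact g.1 hs.1
    · exact zero_ne_one (g.2.1.symm.trans hs.2.1)

end

end Pool.Agent.MP_d1f1f3_co.H47.TH
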