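import Pool.Agent.MP_d1f1f3_co.H47.SpecT

/-!
Row B2: the tokens of the plan suffice.
-/

namespace Pool.Agent.MP_d1f1f3_co.H47.TH

open Finset Relation H47 H2
open scoped Classical

namespace TB2

variable {V : Type} [Fintype V]

theorem z01 : (0 : ZMod 2) ≠ 1 := by decide

section Gen

variable {c : Cx V} (hO : Ori c.G c.A c.z c.ρ) {v : V}
include hO

theorem out_ri (hv : K c.G v) : #(Out c.A v) + #(c.Ri v) = dg c.G v := by
  rw [← card_union_of_disjoint, dg]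
  · congr 1
    ext w
    simp only [Out, Cx.Ri, N, mem_union, mem_filter, mem_univ, true_and]
    exact ⟨fun h => h.elim (hO.outK v w hv) (·.2), fun h => (hO.real v w h).imp id fun e => ⟨e, h⟩⟩
  · rw [disjoint_left]
    intro w h1 h2
    simp only [Out, Cx.Ri, mem_filter, mem_univ, true_and] at h1 h2
    exact hO.asym _ _ h1 h2.1

theorem df_eq (v : V) : df c.G c.κ v = #(c.Fo v) + #(c.Fi v) := by
  rw [← card_union_of_disjoint, df]
  · congr 1
    ext w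
    simp only [Cx.Fo, Cx.Fi, mem_union, mem_filter, mem_univ, true_and]
    exact ⟨fun h => (hO.real v w h.1).imp (⟨·, h⟩) (⟨·, h⟩), fun h => h.elim (·.2) (·.2)⟩
  · rw [disjoint_left]
    intro w h1 h2
    simp only [Cx.Fo, Cx.Fi, mem_filter, mem_univ, true_and] at h1 h2
    exact hO.asym _ _ h1.1 h2.1

omit hO in
theorem two_in {a b : V} (ha : c.A a v) (hb : c.A b v) (ha' : c.G.Adj v a) (hb' : c.G.Adj v b)
    (h1 : dg c.G a = 1) (h2 : dg c.G b = 2) : #(c.Fi v) + 2 ≤ #(c.Ri v) := by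
  have hab : a ≠ b := fun e => by rw [e] at h1; omega
  rw [← card_pair hab, ← card_union_of_disjoint]
  · refine card_le_card fun w hw => ?_
    simp only [Cx.Fi, Cx.Ri, mem_union, mem_filter, mem_univ, true_and, mem_insert,
      mem_singleton] at hw ⊢
    rcases hw with h | rfl | rfl
    exacts [⟨h.1, h.2.1⟩, ⟨ha, ha'⟩, ⟨hb, hb'⟩]
  · rw [disjoint_left]
    intro w h3 h4
    simp only [Cx.Fi, mem_filter, mem_univ, true_and, mem_insert, mem_singleton] at h3 h4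
    have h5 : 3 ≤ dg c.G w := h3.2.2.2.1
    rcases h4 with rfl | rfl <;> omega

end Gen

theorem tau3 {G : SimpleGraph V} {κ : V → ZMod 2} {v : V} (h : dg G v = 3) : tau G κ v = 1 := by
  have h1 : ¬Wv G κ v := fun e => by
    have := e.2.1
    rw [h] at this
    exact absurd this (by decide)
  rw [tau, if_neg h1, h]
  rfl

theorem nw4 {G : SimpleGraph V} {κ : V → ZMod 2} {v : V} (h : dg G v = 4) (hk : κ v = 0) :
    ¬Wv G κ v := fun e => e.2.2 (by rw [h, hk]; decide)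

theorem tau4 {G : SimpleGraph V} {κ : V → ZMod 2} {v : V} (h : dg G v = 4) (hk : κ v = 0) :
    tau G κ v = 2 := by
  rw [tau, if_neg (nw4 h hk), h]
  rfl

omit [Fintype V] in
theorem ind_some {o : Option V} {v : V} (h : o = some v) : ind o {v} = 1 := by
  simp [ind, h]

variable {B : Bc V} (H : B.Hy)
include H

theorem root {v : V} (h : B.r = some v) : v = B.c.ρ ∧ Co B.c.G v ∧ B.c.A B.c.z v ∧
    B.c.G.Adj v B.c.z ∧ dg B.c.G B.c.z = 1 := by
  unfold Bc.r at h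
  split_ifs at h with h1
  obtain rfl := Option.some.inj h
  exact ⟨rfl, (H.rr h1).1, H.ori.root, h1.symm, (H.rr h1).2⟩

theorem one {y : V} (h : B.s.I = {y}) : y = B.x ∧ B.x = B.x' := by
  obtain ⟨-, h1, -⟩ := H.th (by rw [h]; exact singleton_nonempty y)
  rw [h] at h1
  have h2 : B.x ∈ ({y} : Finset V) := by rw [h1]; simp
  have h3 : B.x' ∈ ({y} : Finset V) := by rw [h1]; simp
  rw [mem_singleton] at h2 h3
  exact ⟨h2.symm, h2.trans h3.symm⟩

/-- the facts on a chosen short thread -/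
theorem short (h : B.s.I = {B.x}) : Th B.c.G B.u B.x B.x B.w ∧ B.u ≠ B.w ∧ B.c.A B.u B.x ∧
    B.c.A B.x B.w ∧ (∀ p, B.c.G.Adj p B.x → p = B.u ∨ p = B.w) ∧ D1 B.c.G B.x := by
  obtain ⟨h1, -, h2, h3⟩ := H.th (by rw [h]; exact singleton_nonempty _)
  rw [← (one H h).2] at h1 h3
  have h4 : B.u ≠ B.w := h1.2.2.2.2.2.2.elim (·.2) fun e => absurd rfl e.ne
  have h5 : ∀ p, B.c.G.Adj p B.x → p = B.u ∨ p = B.w := fun p hp => by
    have h6 : ({B.u, B.w} : Finset V) = N B.c.G B.x := by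
      refine eq_of_subset_of_card_le (fun q hq => ?_) (by rw [card_pair h4]; exact h1.2.2.1.le)
      rw [mem_insert, mem_singleton] at hq
      rcases hq with rfl | rfl
      exacts [Frame.mem_N.2 h1.2.2.2.2.1.symm, Frame.mem_N.2 h1.2.2.2.2.2.1]
    have h7 := Frame.mem_N.2 hp.symm
    rwa [← h6, mem_insert, mem_singleton] at h7
  refine ⟨h1, h4, h2, h3, h5, h1.2.2.1, fun y hy => ?_⟩
  rcases h5 y hy.symm with rfl | rfl
  exacts [h1.1, h1.2.1]

theorem e1_of (h : B.s.ev) (hb : ¬B.s.bon) : B.e1 := by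
  by_contra h1
  exact hb (H.sta.e2 h fun y hy => h1 ⟨h, by rw [hy, (one H hy).1]⟩)

theorem od (h : ¬B.s.ev) (hI : B.s.I = {B.x}) : Od B.c.G B.c.κ B.x :=
  ⟨(short H hI).2.2.2.2.2, (H.sta.m1 _ (short H hI).2.2.2.2.2).resolve_right fun e => h e.1⟩

theorem s1 {v : V} (h : ¬B.s.ev) (hI : B.s.I = {B.x}) (h3 : dg B.c.G v = 3)
    (hd : df B.c.G B.c.κ v = 1) (hk : B.c.κ v = 1) (ha : B.c.G.Adj v B.x) :
    ¬Bw B.r B.τ B.c.κ v ∧ (B.s.bon ∨ B.r = some v) := by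
  rcases H.sta.s1 v B.x h3 hk ha (od H h hI) with h1 | h1 | h1
  · have := h1.1
    omega
  · exact ⟨h1.2.1, h1.2.2.2⟩
  · obtain ⟨-, -, -, ρ, x, h2, -, -, -, -, -, h4, -⟩ := H.sta.g h1.1
    obtain rfl := Option.some.inj (h2.symm.trans h1.2)
    omega

theorem exT (h : B.exT) : ¬Bw B.r B.τ B.c.κ B.u := by
  obtain ⟨h1, -, h3, hd, ⟨hI, hk⟩ | h4⟩ := h
  · exact (s1 H h1 hI h3 hd hk (short H hI).1.2.2.2.2.1).1
  · rcases H.sta.s2 _ _ h4 with h5 | h5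
    exacts [h5.1.2, h5.2.1]

theorem exH (h : B.exH) : ¬Bw B.r B.τ B.c.κ B.w ∧ B.s.bon := by
  obtain ⟨h1, hI, h3, hd, hk, -⟩ := h
  obtain ⟨ht, -, -, hA, -⟩ := short H hI
  obtain ⟨h4, h5 | h5⟩ := s1 H h1 hI h3 hd hk ht.2.2.2.2.2.1.symm
  · exact ⟨h4, h5⟩
  obtain ⟨-, hc, h6, h7, h8⟩ := root H h5
  have hK : K B.c.G B.w := by unfold K; omega
  have a1 := two_in h6 hA h7 ht.2.2.2.2.2.1.symm h8 ht.2.2.1
  have a2 := out_ri H.ori hK
  have a3 := df_eq H.ori B.w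
  have a4 := (H.ori.smooth _ hK).1
  have a5 := (H.of _ hc).2.2.2 (by rw [h3]; decide) fun e => by
    have := e.2.2
    omega
  omega

omit H in
theorem um3 {v : V} (h : B.um v) : dg B.c.G v = 3 := by
  rcases h with ⟨-, h | ⟨y, h⟩ | h | ⟨h, -, rfl⟩⟩ | ⟨h, rfl⟩
  exacts [h.1, h.1, h.2.2, h.2.1, h.2.2.1]

theorem h3 (h : B.e1) {p : V} (ha : B.c.G.Adj p B.x) (hk : B.c.κ p = 0) :
    (dg B.c.G p = 3 → B.gd p ∧ 1 ≤ B.s.t p) ∧ (4 ≤ dg B.c.G p → B.s.t p + df B.c.G B.c.κ p +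
      (if Bw B.r B.τ B.c.κ p then 2 else 0) + 1 ≤ tau B.c.G B.c.κ p) :=
  (H.sta.e1 h.1 _ h.2).2.2.1 p ha hk

theorem h4 (h : B.st) : B.s.bon := by
  by_contra hb
  have he := e1_of H h.1 hb
  obtain ⟨p, a1, a2, -, a3, -⟩ := (H.sta.e1 he.1 _ he.2).2.2.2.resolve_left hb
  rcases (short H he.2).2.2.2.2.1 p a1 with rfl | rfl
  · exact h.2.2.1 (Or.inl ⟨a3, Or.inr (Or.inr (Or.inl ⟨he, rfl, a2⟩))⟩)
  · exact h.2.2.2 ⟨he, h.2.1, h.2.2.1, a2, a3⟩

theorem h5 (h : B.e1) (h3 : dg B.c.G B.w = 3) (hg : B.gd B.w) : ¬B.c.To B.w := fun ht => by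
  obtain ⟨hth, -, -, hA, -⟩ := short H h.2
  have hK : K B.c.G B.w := by unfold K; omega
  obtain ⟨a, b, hab, e⟩ := card_eq_two.1 (show #(Out B.c.A B.w) = 2 by rw [ht.2.2, h3])
  have ha : B.c.A B.w a := (mem_filter.1 (show a ∈ Out B.c.A B.w by rw [e]; simp)).2
  have hb : B.c.A B.w b := (mem_filter.1 (show b ∈ Out B.c.A B.w by rw [e]; simp)).2
  refine (H.ex B.w a b ⟨hab, H.ori.outK _ _ hK ha, H.ori.outK _ _ hK hb, Or.inr (Or.inl
    ⟨h.1, h3, hg, B.x, h.2, hth.2.2.2.2.2.1.symm, ?_, ?_⟩)⟩).1 ha hb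
  · rintro rfl
    exact H.ori.asym _ _ hA ha
  · rintro rfl
    exact H.ori.asym _ _ hA hb

theorem h6 (h : B.e1) (h4 : dg B.c.G B.w = 4) (hk : B.c.κ B.w = 0) : df B.c.G B.c.κ B.w ≤ 1 ∧
    B.c.A B.w B.hb ∧ (df B.c.G B.c.κ B.w = 0 ∨ Fc B.c.G B.c.κ B.w B.hb) := by
  obtain ⟨hth, -, -, hA, -⟩ := short H h.2
  have hK : K B.c.G B.w := by unfold K; omega
  have hx := hth.2.2.2.2.2.1.symm
  have a0 := (H.ori.smooth _ hK).1
  have hd : df B.c.G B.c.κ B.w ≤ 1 := by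
    have a1 := (h3 H h hx hk).2 h4.ge
    rw [tau4 h4 hk] at a1
    rcases H.sta.tn _ hth.2.1 with a2 | ⟨a2, -⟩
    · split_ifs at a1 <;> omega
    · obtain ⟨-, hc, h6, h7, h8⟩ := root H a2
      have a3 := two_in h6 hA h7 hx h8 hth.2.2.1
      have a4 := out_ri H.ori hK
      have a5 := df_eq H.ori B.w
      have a6 := (H.of _ hc).2.1
      omega
  refine ⟨hd, @Classical.epsilon_spec V (fun b => B.c.A B.w b ∧
    (df B.c.G B.c.κ B.w = 0 ∨ Fc B.c.G B.c.κ B.w b)) ?_⟩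
  rcases Nat.le_one_iff_eq_zero_or_eq_one.1 hd with a1 | a1
  · obtain ⟨b, hb⟩ := card_pos.1 (show 0 < #(Out B.c.A B.w) by omega)
    exact ⟨b, (mem_filter.1 hb).2, Or.inl a1⟩
  · obtain ⟨b, hb⟩ := card_pos.1 (show 0 < df B.c.G B.c.κ B.w by omega)
    have hF := (mem_filter.1 hb).2
    refine ⟨b, by_contra fun a2 => H.ori.asym _ _ hA ((H.ex B.w B.x b ⟨?_, hx, hF.1,
      Or.inr (Or.inr (Or.inl ⟨h.1, h4, hk, a1, h.2, hF⟩))⟩).2 a2), Or.inr hF⟩
    rintro rfl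
    have a3 : 3 ≤ dg B.c.G B.x := hF.2.2.1
    have := hth.2.2.1
    omega

omit H in
theorem v01 : B.v₀ = none ∨ B.v₀ = B.v₁ := by
  unfold Bc.v₀ Bc.v₁
  split_ifs <;> simp

omit H in
theorem y1_eq (v : V) : B.c.y1 (B.pl.ds B.c) v = tau B.c.G B.c.κ v - df B.c.G B.c.κ v -
    (if B.fx ∧ B.u = v then 1 else 0) ∧
    (B.c.fx (B.pl.ds B.c) v : ℤ) = if B.fx ∧ B.u = v then 1 else 0 := by
  have h : (B.c.fx (B.pl.ds B.c) v : ℤ) = if B.fx ∧ B.u = v then 1 else 0 := by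
    by_cases h1 : B.fx <;> by_cases h2 : B.u = v <;>
      simp [Cx.fx, Pl.ds, Bc.pl, h1, h2, filter_singleton]
  refine ⟨?_, h⟩
  rw [Cx.y1, h]
  simp [Cx.pin, Cx.pout, Pl.ds]

omit H in
theorem rb (v : V) : (B.c.Rb (B.pl.ds B.c) v ≤ 0 ∨ B.c.Rb (B.pl.ds B.c) v ≤ B.s.t v) ∧
    (B.d0 ∧ B.s.bon ∧ v = B.w → B.s.t v ≤ 1 → B.c.Rb (B.pl.ds B.c) v ≤ 0) := by
  have e1 : (B.pl.ds B.c).t v = B.s.t v := rfl
  have e2 : v ∈ (B.pl.ds B.c).Sf ↔ B.d0 ∧ B.s.bon ∧ v = B.w := by simp [Pl.ds, Bc.pl]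
  rw [Cx.Rb, e1, ← e2]
  split_ifs with h1 h2
  · simp
  · exact ⟨by omega, fun _ _ => by omega⟩
  · exact ⟨by omega, fun h => absurd h h2⟩

omit H in
theorem ha_eq (v : V) : (#(B.pl.hA.filter fun e => e.1 = v) : ℤ) =
    if (B.e1 ∧ dg B.c.G B.w = 4 ∧ B.c.κ B.w = 0) ∧ B.w = v then 1 else 0 := by
  have e : B.pl.hA = if B.e1 ∧ dg B.c.G B.w = 4 ∧ B.c.κ B.w = 0 then {(B.w, B.hb)} else ∅ := rfl
  rw [e]
  by_cases h1 : B.e1 ∧ dg B.c.G B.w = 4 ∧ B.c.κ B.w = 0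
  · rw [if_pos h1, filter_singleton]
    by_cases h2 : B.w = v
    · rw [if_pos h2, if_pos ⟨h1, h2⟩]
      rfl
    · rw [if_neg h2, if_neg fun e => h2 e.2]
      rfl
  · rw [if_neg h1, if_neg fun e => h1 e.1]
    rfl

omit H in
theorem mem_U {v : V} : v ∈ B.pl.U ↔ Bw B.r B.τ B.c.κ v ∨ (B.d0 ∧ B.s.bon ∧ v = B.w) := by
  simp [Bc.pl]

omit H in
theorem mem_Um {v : V} : v ∈ B.pl.Um ↔ B.um v := by simp [Bc.pl]

/-- a negative value of `t` is compensated by the deficit -/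
theorem tn {v : V} (hv : Co B.c.G v) :
    0 ≤ B.s.t v ∨ (-1 ≤ B.s.t v ∧ ind B.v₁ {v} = 1) :=
  (H.sta.tn v hv).imp id fun h => ⟨h.2.2, ind_some (by rw [Bc.v₁, if_pos h.2.1, h.1])⟩

theorem cnt (op : Op B.c B.pl) (v : V) (hv : Co B.c.G v) :
    (if v ∈ B.pl.U then 2 else 0) + (#(B.pl.hA.filter fun e => e.1 = v) : ℤ) ≤
      B.c.y1 (B.pl.ds B.c) v - B.c.Rb (B.pl.ds B.c) v + ind B.v₁ {v} := by
  obtain ⟨r1, r2⟩ := rb (B := B) v
  obtain ⟨y1, y2⟩ := y1_eq (B := B) v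
  have t1 := tn H hv
  rw [ha_eq]
  by_cases c1 : B.d0 ∧ B.s.bon ∧ v = B.w
  · obtain ⟨hd, hb, rfl⟩ := id c1
    obtain ⟨hth, hne, -⟩ := short H hd.1.2
    have a1 := ((h3 H hd.1 hth.2.2.2.2.2.1.symm hd.2.2).1 hd.2.1).1.1
    have a2 := H.sta.tb _ hv
    have a3 := tau3 (κ := B.c.κ) hd.2.1
    have a4 := r2 c1 (by split_ifs at a2 <;> omega)
    have a5 : ind B.v₁ {B.w} = 1 := ind_some (by
      rw [Bc.v₁, if_neg (not_not.2 hb), if_neg fun e => e.2 hd.1, if_pos (Or.inr hd)])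
    rw [if_neg fun e => hne e.2] at y1
    rw [if_pos (mem_U.2 (Or.inr c1)), if_neg fun e => by have := e.1.2.1; have := hd.2.1; omega]
    omega
  have hU : v ∈ B.pl.U ↔ Bw B.r B.τ B.c.κ v := by rw [mem_U, or_iff_left c1]
  simp only [hU]
  by_cases c2 : (B.e1 ∧ dg B.c.G B.w = 4 ∧ B.c.κ B.w = 0) ∧ B.w = v
  · obtain ⟨⟨he, h4, hk⟩, rfl⟩ := id c2
    obtain ⟨hth, hne, -⟩ := short H he.2
    have a1 := (h3 H he hth.2.2.2.2.2.1.symm hk).2 h4.ge
    have a2 := tau4 h4 hk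
    have a3 := (h6 H he h4 hk).1
    rw [if_neg fun e => hne e.2] at y1
    rw [if_pos c2]
    split_ifs at a1 ⊢ <;> omega
  rw [if_neg c2]
  by_cases c3 : Bw B.r B.τ B.c.κ v
  · have a1 := H.sta.tb v hv
    rw [if_pos c3] at a1 ⊢
    have a0 := op.y0 v hv
    by_cases c4 : B.fx ∧ B.u = v
    · rw [if_pos c4] at y1
      obtain ⟨hf, rfl⟩ := c4
      obtain ⟨he, hk, -⟩ := hf.resolve_left fun e => exT H e c3
      by_cases c5 : B.e1
      · have a2 := h3 H c5 (short H c5.2).1.2.2.2.2.1 hk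
        have a3 := a2.2 (by
          by_contra a4
          exact (a2.1 (by unfold Co at hv; omega)).1.2 c3)
        rw [if_pos c3] at a3
        omega
      · have hb : B.s.bon := by_contra fun e => c5 (e1_of H he e)
        have a2 := (H.sta.tn _ hv).resolve_right fun e => e.2.1 hb
        have a3 : ind B.v₁ {B.u} = 1 := ind_some (by
          rw [Bc.v₁, if_neg (not_not.2 hb), if_pos ⟨hf, c5⟩])
        omega
    · rw [if_neg c4] at y1
      omega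
  · rw [if_neg c3]
    have a1 := op.yb v hv
    have a2 := op.y0 v hv
    have a3 : ind B.pl.v₀ {v} ≤ ind B.v₁ {v} := by
      rcases v01 (B := B) with e | e
      · simp [ind, Bc.pl, e]
      · exact le_of_eq (congrArg (ind · {v}) e)
    have a4 : B.pl.t v = B.s.t v := rfl
    omega

end TB2

open TB2 in
theorem b2 (h : SB1) : SB2 := by
  intro V _ B H
  refine ⟨fun v hv => ?_, fun v hv => ?_, fun e he => ?_, fun v hv _ => cnt H (h V B H) v hv,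
    v01, fun hs => ?_, fun hm => ?_⟩
  · rcases mem_U.1 hv with h1 | ⟨h1, -, rfl⟩
    exacts [(root H h1.1).2.1, h1.2.1.ge]
  · have hu := mem_Um.1 hv
    refine ⟨um3 hu, ?_⟩
    rw [mem_U]
    rcases id hu with ⟨hg, h1⟩ | ⟨h1, rfl⟩
    · refine ⟨?_, ?_, Or.inl hg.1⟩
      · rintro (h2 | ⟨hd, hb, rfl⟩)
        · exact hg.2 h2
        rcases h1 with h1 | ⟨y, -, x', w, h1, h2, -⟩ | h1 | h1
        · exact z01 (hd.2.2.symm.trans h1.2.1)
        · exact (H.sta.e1 hd.1.1 _ hd.1.2).2.1 y x' h1.2.2.1 h1.2.2.2.1 h2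
        · exact (short H hd.1.2).2.1 h1.2.1.symm
        · exact h1.2.1 hb
      · rintro ⟨h2 | h2, rfl⟩
        · have a1 : df B.c.G B.c.κ B.u = 0 := hg.1
          have := h2.2.2.2.1
          omega
        · exact h2.2.2 hu
    · obtain ⟨h2, hb⟩ := exH H h1
      obtain ⟨hth, -, -, hA, -⟩ := short H h1.2.1
      have hf : ¬B.fx := fun e => e.elim h1.2.2.2.2.2 fun e => h1.1 e.1
      refine ⟨fun e => e.elim h2 fun e => h1.1 e.1.1.1, fun e => hf e.1, Or.inr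
        ⟨?_, ?_, fun e => h1.1 e.1, h1.2.2.2.1, fun ht => card_pos.1 ?_, B.x, hA,
          hth.2.2.2.2.2.1.symm, fun e => ?_⟩⟩
      · show B.v₁ = _
        rw [Bc.v₁, if_neg (not_not.2 hb), if_neg fun e => hf e.1, if_pos (Or.inl h1)]
      · show B.v₀ = _
        rw [Bc.v₀, if_neg (not_not.2 hb), if_neg fun e => hf e.1]
      · have a1 := (H.of _ hth.2.1).2.2.1 ht
        have a2 := df_eq H.ori B.w
        have a3 := h1.2.2.2.1
        omega
      · have := hth.2.2.1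
        unfold Co at e
        omega
  · have he' : e ∈ (if B.e1 ∧ dg B.c.G B.w = 4 ∧ B.c.κ B.w = 0 then {(B.w, B.hb)} else ∅ :
        Finset (V × V)) := he
    split_ifs at he' with h1
    · obtain rfl := mem_singleton.1 he'
      obtain ⟨h2, h4, hk⟩ := h1
      obtain ⟨a1, a2, a3⟩ := h6 H h2 h4 hk
      obtain ⟨hth, hne, -⟩ := short H h2.2
      refine ⟨a2, H.ori.outK B.w _ (by unfold K; omega) a2, hth.2.1, ?_, fun e => ?_,
        fun e => hne (congrArg Prod.fst e).symm, ?_⟩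
      · rintro (e | e)
        · exact nw4 h4 hk e.2
        · have := e.2.1
          rw [h4] at this
          exact absurd this (by decide)
      · have : dg B.c.G B.w = 3 := um3 (mem_Um.1 e)
        omega
      · rcases Nat.le_one_iff_eq_zero_or_eq_one.1 a1 with a4 | a4
        · exact Or.inl a4
        · exact Or.inr ⟨a4, a3.resolve_left (by omega)⟩
    · exact absurd he' (notMem_empty _)
  · have hs' : B.st := hs
    have hb := h4 H hs'
    have hf : ¬B.fx := fun e => e.elim (fun e => e.1 hs'.1) fun e => z01 (e.2.1.symm.trans hs'.2.1)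
    refine ⟨?_, hs'.2.2.2, fun e => hs'.2.2.1 (mem_Um.1 e)⟩
    show B.v₁ = _
    rw [Bc.v₁, if_neg (not_not.2 hb), if_neg fun e => hf e.1, if_neg]
    rintro (e | e)
    · exact e.1 hs'.1
    · exact hs'.2.2.2 ⟨e.1, hs'.2.1, hs'.2.2.1, e.2.1,
        ((h3 H e.1 (short H e.1.2).1.2.2.2.2.2.1.symm e.2.2).1 e.2.1).1⟩
  · obtain ⟨he, hk, hu, h3, hg⟩ : B.mx := hm
    obtain ⟨hth, -, hA, hA', -⟩ := short H he.2
    have hx := (one H he.2).2
    refine ⟨fun e => e.elim (fun e => e.1 he.1) fun e => z01 (e.2.1.symm.trans hk), hx, hth, hA,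
      ?_, fun e => hu (mem_Um.1 e), ?_, hg.1, fun e => ?_⟩
    · show B.c.A B.x' B.w
      rwa [← hx]
    · rintro (e | e)
      · have : Even (dg B.c.G B.w) := e.2.2.1
        rw [h3] at this
        exact absurd this (by decide)
      · exact h5 H he h3 hg e
    · rcases mem_U.1 e with e | e
      · exact absurd e hg.2
      · exact fun e' => z01 (e.1.2.2.symm.trans (e'.symm.trans hk))

end Pool.Agent.MP_d1f1f3_co.H47.TH
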