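import Pool.Agent.MP_d1f1f3_co.H47.SpecT
import Pool.Agent.MP_d1f1f3_co.H33.Spec

/-!
Row B3: the levels given by the plan satisfy the local conditions at the threads.
-/

namespace Pool.Agent.MP_d1f1f3_co.H47.TH

open Finset Relation H47 H2
open scoped Classical

noncomputable section

namespace TB3

variable {V : Type} [Fintype V] {G : SimpleGraph V} {B : Bc V} {a : V → V → ZMod 2}
  {b : V → V → ℤ} {u v w x y y' o : V}

theorem z01 : ∀ j : ZMod 2, j = 0 ∨ j = 1 := by decide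
theorem z3 : ∀ j : ZMod 2, j + (j + j) = j := by decide
theorem k2 (h : dg G v = 2) : K G v := h.ge
theorem k3 (h : dg G v = 3) : K G v := by unfold K; omega
theorem co3 (h : dg G v = 3) : Co G v := h.ge
theorem nco (h : dg G v = 2) : ¬Co G v := by unfold Co; omega
theorem cok (h : Co G v) : K G v := by unfold K; unfold Co at h; omega

theorem nb2 {p q : V} (h : dg G x = 2) (hp : G.Adj x p) (hq : G.Adj x q) (e : p ≠ q)
    (hy : G.Adj x y) : y = p ∨ y = q := by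
  have := Frame.mem_N.2 hy
  rw [H33.N2 h hp hq e] at this
  simpa using this

theorem three (h : dg G v = 3) (hx : G.Adj v x) :
    ∃ p q, p ≠ q ∧ x ≠ p ∧ x ≠ q ∧ G.Adj v p ∧ G.Adj v q := by
  have : #((N G v).erase x) = 2 := by
    rw [card_erase_of_mem (Frame.mem_N.2 hx), ← dg, h]
  obtain ⟨p, q, e, hs⟩ := card_eq_two.1 this
  have hp : p ∈ (N G v).erase x := by simp [hs]
  have hq : q ∈ (N G v).erase x := by simp [hs]
  rw [mem_erase, Frame.mem_N] at hp hq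
  exact ⟨p, q, e, hp.1.symm, hq.1.symm, hp.2, hq.2⟩

theorem sym {x' : V} (t : Th G u x x' w) : Th G w x' x u :=
  ⟨t.2.1, t.1, t.2.2.2.1, t.2.2.1, t.2.2.2.2.2.1.symm, t.2.2.2.2.1.symm,
    t.2.2.2.2.2.2.imp (fun h => ⟨h.1.symm, h.2.symm⟩) (fun h => h.symm)⟩

theorem ne1 (t : Th G u x x w) : u ≠ w :=
  t.2.2.2.2.2.2.elim (fun h => h.2) fun h => (h.ne rfl).elim

theorem nb1 (t : Th G u x x w) (h : G.Adj x y) : y = u ∨ y = w :=
  nb2 t.2.2.1 t.2.2.2.2.1.symm t.2.2.2.2.2.1 (ne1 t) h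

theorem d1 (t : Th G u x x w) : D1 G x :=
  ⟨t.2.2.1, fun _ h => (nb1 t h).elim (fun e => e ▸ t.1) fun e => e ▸ t.2.1⟩

theorem nd1 (h : dg G y' = 2) (e : G.Adj y y') : ¬D1 G y := fun d => nco h (d.2 _ e)

theorem nbl (t : Th G u y y' w) (e : G.Adj y y') (h : G.Adj y x) : x = u ∨ x = y' :=
  nb2 t.2.2.1 t.2.2.2.2.1.symm e (fun q => nco t.2.2.2.1 (q ▸ t.1)) h

theorem dir (H : B.Hy) (h : B.c.G.Adj v w) : B.c.A w v ↔ ¬B.c.A v w :=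
  ⟨fun p => H.ori.asym _ _ p, fun p => (H.ori.real _ _ h).resolve_left p⟩

theorem outs (H : B.Hy) (h : K B.c.G v) : Out B.c.A v = (N B.c.G v).filter (B.c.A v) := by
  ext w
  simp only [Out, mem_filter, mem_univ, true_and, Frame.mem_N]
  exact ⟨fun p => ⟨H.ori.outK _ _ h p, p⟩, fun p => p.2⟩

theorem pass (H : B.Hy) {p q : V} (h : dg B.c.G x = 2) (hp : B.c.G.Adj x p) (hq : B.c.G.Adj x q)
    (e : p ≠ q) (i : B.c.A p x) : B.c.A x q := by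
  have s := (H.ori.smooth x (k2 h)).1
  rw [outs H (k2 h), H33.N2 h hp hq e, h, card_filter, sum_pair e,
    if_neg (H.ori.asym _ _ i)] at s
  by_contra n
  rw [if_neg n] at s
  omega

theorem to3 (H : B.Hy) {p q : V} (h : dg B.c.G v = 3) (hx : B.c.G.Adj v x) (hp : B.c.G.Adj v p)
    (hq : B.c.G.Adj v q) (e₁ : x ≠ p) (e₂ : x ≠ q) (e₃ : p ≠ q) (t : B.c.To v) :
    (B.c.A v x ∧ B.c.A v p) ∨ (B.c.A v x ∧ B.c.A v q) ∨ (B.c.A v p ∧ B.c.A v q) := by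
  have s := t.2.2
  rw [outs H (k3 h), H33.N3 h hx hp hq e₁ e₂ e₃, h, card_filter, sum_insert (by simp [e₁, e₂]),
    sum_pair e₃] at s
  by_cases h1 : B.c.A v x <;> by_cases h2 : B.c.A v p <;> by_cases h3 : B.c.A v q <;>
    simp_all

theorem two (H : B.Hy) (h : dg B.c.G v = 3) (t : B.c.To v) (o : V) :
    ∃ q, q ≠ o ∧ B.c.A v q ∧ B.c.G.Adj v q := by
  obtain ⟨q, hq, e⟩ := exists_mem_ne (s := Out B.c.A v) (by rw [t.2.2, h]; norm_num) o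
  have := (mem_filter.1 hq).2
  exact ⟨q, e, this, H.ori.outK _ _ (k3 h) this⟩

theorem fw1 (H : B.Hy) (t : Th B.c.G u x x w) (i : B.c.A u x) : B.c.A x w :=
  pass H t.2.2.1 t.2.2.2.2.1.symm t.2.2.2.2.2.1 (ne1 t) i

theorem fw2 (H : B.Hy) (t : Th B.c.G u y y' w) (e : B.c.G.Adj y y') (i : B.c.A u y) :
    B.c.A y y' ∧ B.c.A y' w := by
  have := pass H t.2.2.1 t.2.2.2.2.1.symm e (fun q => nco t.2.2.2.1 (q ▸ t.1)) i
  exact ⟨this, pass H t.2.2.2.1 e.symm t.2.2.2.2.2.1 (fun q => nco t.2.2.1 (q ▸ t.2.1)) this⟩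

omit [Fintype V] in
theorem rr (h : B.r = some v) : v = B.c.ρ ∧ B.c.G.Adj B.c.z B.c.ρ := by
  unfold Bc.r at h
  split_ifs at h with e
  exact ⟨(Option.some.inj h).symm, e⟩

theorem sing (H : B.Hy) (h : B.s.I = {y}) : y = B.x ∧ B.x' = B.x ∧ Th B.c.G B.u B.x B.x B.w ∧
    B.c.A B.u B.x ∧ B.c.A B.x B.w := by
  obtain ⟨t, e, i, j⟩ := H.th (by simp [h])
  have e1 : B.x ∈ B.s.I := by simp [e]
  have e2 : B.x' ∈ B.s.I := by simp [e]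
  rw [h, mem_singleton] at e1 e2
  have e3 : B.x' = B.x := e2.trans e1.symm
  rw [e3] at t j
  exact ⟨e1.symm, e3, t, i, j⟩

theorem same1 (H : B.Hy) (h : B.s.I = {y}) (t : Th B.c.G u y y w) (i : B.c.A u y) :
    y = B.x ∧ u = B.u ∧ w = B.w := by
  obtain ⟨rfl, -, t', i', j'⟩ := sing H h
  have e : u = B.u := (nb1 t' t.2.2.2.2.1.symm).resolve_right fun q =>
    H.ori.asym _ _ i (q ▸ j')
  exact ⟨rfl, e, (nb1 t' t.2.2.2.2.2.1).resolve_left fun q => ne1 t (e.trans q.symm)⟩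

theorem same2 (H : B.Hy) (t : Th B.c.G u y y' w) (e : B.c.G.Adj y y') (i : B.c.A u y)
    (h : y ∈ B.s.I ∨ y' ∈ B.s.I) : y = B.x ∧ y' = B.x' ∧ u = B.u ∧ w = B.w := by
  obtain ⟨t', e', i', j'⟩ := H.th (h.elim (fun q => ⟨_, q⟩) fun q => ⟨_, q⟩)
  rw [e', mem_insert, mem_singleton, mem_insert, mem_singleton] at h
  have ad : B.c.G.Adj B.x B.x' := by
    refine t'.2.2.2.2.2.2.resolve_left fun q => ?_
    rw [← q.1] at t' h
    simp only [or_self] at h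
    rcases h with rfl | rfl
    exacts [nd1 t.2.2.2.1 e (d1 t'), nd1 t.2.2.1 e.symm (d1 t')]
  have f1 := (fw2 H t e i).1
  have f2 := (fw2 H t' ad i').1
  have l1 : ∀ q, dg B.c.G q = 2 → B.c.G.Adj y q → q = y' := fun q d p =>
    (nbl t e p).resolve_left fun r => nco d (r ▸ t.1)
  have l2 : ∀ q, dg B.c.G q = 2 → B.c.G.Adj y' q → q = y := fun q d p =>
    (nbl (sym t) e.symm p).resolve_left fun r => nco d (r ▸ t.2.1)
  have key : y = B.x ∧ y' = B.x' := by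
    rcases h with (rfl | rfl) | rfl | rfl
    · exact ⟨rfl, (l1 _ t'.2.2.2.1 ad).symm⟩
    · exact (H.ori.asym _ _ f1 (l1 _ t'.2.2.1 ad.symm ▸ f2)).elim
    · exact (H.ori.asym _ _ f1 (l2 _ t'.2.2.2.1 ad ▸ f2)).elim
    · exact ⟨(l2 _ t'.2.2.1 ad.symm).symm, rfl⟩
  obtain ⟨rfl, rfl⟩ := key
  exact ⟨rfl, rfl, (nbl t' ad t.2.2.2.2.1.symm).resolve_right fun r => nco t.2.2.2.1 (r ▸ t.1),
    (nbl (sym t') ad.symm t.2.2.2.2.2.1).resolve_right fun r => nco t.2.2.1 (r ▸ t.2.1)⟩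

theorem noev (H : B.Hy) (ev : B.s.ev) : ¬Od B.c.G B.c.κ B.x' := by
  intro od
  obtain ⟨ne, s⟩ := H.sta.evI ev
  obtain ⟨t, e, -⟩ := H.th ne
  rcases t.2.2.2.2.2.2 with q | q
  · rw [e, q.1] at s
    simp only [mem_singleton, insert_eq_of_mem, sum_singleton] at s
    exact zero_ne_one (s.symm.trans od.2)
  · exact nd1 t.2.2.1 q.symm od.1

theorem um3 (h : B.um v) : dg B.c.G v = 3 := by
  rcases h with ⟨-, h | ⟨y, h⟩ | h | ⟨h, -, rfl⟩⟩ | ⟨h, rfl⟩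
  exacts [h.1, h.1, h.2.2, h.2.1, h.2.2.1]

theorem gev (h : B.pl.st ∨ B.pl.mx) : B.s.ev := h.elim (fun q => q.1) fun q => q.1.1

theorem exS (H : B.Hy) (h : B.exH) : B.S1 B.w := by
  obtain ⟨-, -, t, -⟩ := sing H h.2.1
  exact ⟨h.2.2.1, h.2.2.2.2.1, B.x, t.2.2.2.2.2.1.symm, d1 t,
    (H.sta.m1 _ (d1 t)).resolve_right fun q => h.1 q.1⟩

theorem low1 (h : B.e1 ∧ v = B.u ∧ B.c.κ v = 0) : B.Low a v o ↔ o ≠ B.x ∧ a v o = 0 := by
  unfold Bc.Low; rw [if_pos h]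

theorem low2 (h : B.S1 v) :
    B.Low a v o ↔ Od B.c.G B.c.κ o ∧ ¬∃ y, B.c.A y v ∧ Od B.c.G B.c.κ y := by
  unfold Bc.Low; rw [if_neg fun q => zero_ne_one (q.2.2.symm.trans h.2.1), if_pos h]

theorem low3 (h1 : ¬(B.e1 ∧ v = B.u ∧ B.c.κ v = 0)) (h2 : ¬B.S1 v)
    (h : B.s.ev ∧ v = B.u ∧ (B.s.I = {B.x} ∨ S2 B.c.G B.c.κ v B.x)) : B.Low a v o ↔ o = B.x := by
  unfold Bc.Low; rw [if_neg h1, if_neg h2, if_pos h]

theorem low4 (h1 : ¬(B.e1 ∧ v = B.u ∧ B.c.κ v = 0)) (h2 : ¬B.S1 v)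
    (h : ¬(B.s.ev ∧ v = B.u ∧ (B.s.I = {B.x} ∨ S2 B.c.G B.c.κ v B.x))) : B.Low a v o ↔
    B.c.To v ∧ o = @Classical.epsilon V ⟨v⟩ fun o => B.c.A v o ∧ ¬S2 B.c.G B.c.κ v o := by
  unfold Bc.Low; rw [if_neg h1, if_neg h2, if_neg h]

theorem ks2 (h : S2 G B.c.κ v o) : K G o ∧ G.Adj v o := by
  obtain ⟨-, x', w, t, -⟩ := h
  exact ⟨k2 t.2.2.1, t.2.2.2.2.1⟩

theorem c4 (H : B.Hy) (d : dg B.c.G v = 3) (g : B.gd v) (t : B.c.To v) :
    ∃ o, B.c.A v o ∧ ¬S2 B.c.G B.c.κ v o := by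
  by_contra n
  push Not at n
  obtain ⟨p, -, hp, -⟩ := two H d t v
  obtain ⟨q, e, hq, -⟩ := two H d t p
  rcases H.sta.s2 v p (n p hp) with ⟨-, h | h⟩ | h
  · exact e (h.1 q (n q hq))
  · exact (H.ex v p q ⟨e.symm, (ks2 (n p hp)).2, (ks2 (n q hq)).2, .inr (.inr (.inr
      ⟨h.1, d, g.1, (ks2 (n p hp)).1, (ks2 (n q hq)).1, fun r => h.2 r.1⟩))⟩).1 hp hq
  · have := g.1
    omega

theorem e2 (H : B.Hy) (h : B.e1) (d : dg B.c.G v = 3) (g : B.gd v) (ad : B.c.G.Adj v B.x) :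
    ∃ p q, B.x ≠ p ∧ B.x ≠ q ∧ p ≠ q ∧ B.c.G.Adj v p ∧ B.c.G.Adj v q ∧ B.c.A v p ∧
      ¬B.c.A v q := by
  obtain ⟨p, q, e, ep, eq, hp, hq⟩ := three d ad
  have := H.ex v p q ⟨e, hp, hq, .inr (.inl ⟨h.1, d, g, B.x, h.2, ad, ep.symm, eq.symm⟩)⟩
  by_cases r : B.c.A v p
  · exact ⟨p, q, ep, eq, e, hp, hq, r, this.1 r⟩
  · exact ⟨q, p, eq, ep, e.symm, hq, hp, not_not.1 fun s => r (this.2 s), r⟩

variable (H : B.Hy) (F : Fa B.c B.pl B.γ (B.L a) (B.τ' a) a b)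
include H F

theorem lowIn (i : B.c.A y v) (ad : B.c.G.Adj y v) (d : dg B.c.G y = 2)
    (n : B.s.ev → y ≠ B.x') : b y v = if ¬D1 B.c.G y ∧ a y v = 1 then 1 else 0 := by
  have := F.con (y, v) ⟨i, ad, .inl ⟨nco d, fun q => n (gev q.1) (Prod.mk.inj q.2).1⟩⟩
  have nz : (y, v) ≠ (B.c.z, B.c.ρ) := fun q => H.ori.kz ((Prod.mk.inj q).1 ▸ k2 d)
  rw [this, Bc.L, if_neg (nco d), if_neg nz, if_neg fun q => n q.1 (Prod.mk.inj q.2).1]

theorem c1 (od : Od B.c.G B.c.κ y) (i : B.c.A y v) (ad : B.c.G.Adj y v) : b y v = 0 := by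
  rw [lowIn H F i ad od.1.1 fun ev q => noev H ev (q ▸ od), if_neg fun q => q.1 od.1]

theorem c2 (h : B.um v) (i : B.c.A v o) : b v o = if B.Low a v o then 0 else 1 := by
  have := F.con (v, o) ⟨i, H.ori.outK _ _ (k3 (um3 h)) i, .inr (.inl (by simpa [Bc.pl] using h))⟩
  rw [this, Bc.L, if_pos (co3 (um3 h)), Bc.L0, if_pos h]

theorem lo (h : B.um v) (i : B.c.A v o) (l : B.Low a v o) : b v o = 0 := by
  rw [c2 H F h i, if_pos l]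

theorem hi (h : B.um v) (i : B.c.A v o) (l : ¬B.Low a v o) : b v o = 1 := by
  rw [c2 H F h i, if_neg l]

theorem c5 (ne : B.s.I.Nonempty) (h : B.fx) (n : ¬B.um B.u) :
    b B.u B.x = if ¬B.s.ev ∧ B.x = B.x' then 0 else 1 := by
  obtain ⟨t, -, i, -⟩ := H.th ne
  have := F.con (B.u, B.x) ⟨i, t.2.2.2.2.1, .inr (.inr (.inl ⟨h, rfl⟩))⟩
  rw [this, Bc.L, if_pos t.1, Bc.L0, if_neg n]
  simp

theorem c5T (h : B.exT) : b B.u B.x = if B.x = B.x' then 0 else 1 := by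
  rw [c5 H F h.2.1 (.inl h)]
  · simp [h.1]
  · rintro (⟨g, -⟩ | ⟨g, -⟩)
    · have := g.1
      have := h.2.2.2.1
      omega
    · exact g.2.2.2.2.2 h

theorem glue (ev : B.s.ev) : b B.u B.x ≠ b B.x' B.w := by
  by_cases g : B.pl.st ∨ B.pl.mx
  · exact F.glue g
  obtain ⟨t, -, i, j⟩ := H.th (H.sta.evI ev).1
  have h1 := F.con (B.x', B.w) ⟨j, t.2.2.2.2.2.1, .inl ⟨nco t.2.2.2.1, fun q => g q.1⟩⟩
  have h2 := F.con (B.u, B.x) ⟨i, t.2.2.2.2.1, .inr (by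
    by_cases r : B.um B.u
    · exact .inl (by simpa [Bc.pl] using r)
    · rcases z01 (B.c.κ B.u) with k | k
      · exact .inr (.inl ⟨.inr ⟨ev, k, r⟩, rfl⟩)
      · exact (g (.inl ⟨ev, k, r, fun q => g (.inr q)⟩)).elim)⟩
  have nz : (B.x', B.w) ≠ (B.c.z, B.c.ρ) := fun q => H.ori.kz ((Prod.mk.inj q).1 ▸ k2 t.2.2.2.1)
  rw [Bc.L, if_neg (nco t.2.2.2.1), if_neg nz, if_pos ⟨ev, rfl⟩] at h1
  rw [Bc.L, if_pos t.1] at h2
  have := F.bb B.u B.x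
  dsimp only at h1 h2
  omega

theorem q (h : B.um v) (t : B.c.To v)
    (al : ∀ x y, B.c.G.Adj v x → B.c.G.Adj v y → a v x = a v y) :
    ∃ x y, B.c.G.Adj v x ∧ B.c.G.Adj v y ∧ b v x ≠ b v y := by
  have d := um3 h
  have oa : ∀ o, B.c.A v o → B.c.G.Adj v o := fun o => H.ori.outK _ _ (k3 d)
  have fin : ∀ p r, B.c.G.Adj v p → B.c.A v r → b v p = 0 → ¬B.Low a v r →
      ∃ x y, B.c.G.Adj v x ∧ B.c.G.Adj v y ∧ b v x ≠ b v y := fun p r hp hr e l =>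
    ⟨p, r, hp, oa r hr, by rw [e, hi H F h hr l]; norm_num⟩
  by_cases h1 : B.e1 ∧ v = B.u ∧ B.c.κ v = 0
  · obtain ⟨-, -, -, i, -⟩ := sing H h1.1.2
    rw [← h1.2.1] at i
    obtain ⟨o, e, ho, ao⟩ := two H d t B.x
    obtain ⟨p, r, e₁, e₂, e₃, hp, hr⟩ := three d ao
    have s := F.sum v (k3 d)
    rw [H33.N3 d ao hp hr e₂ e₃ e₁, sum_insert (by simp [e₂, e₃]), sum_pair e₁, al p o hp ao,
      al r o hr ao, z3, h1.2.2] at s
    exact fin o B.x ao i (lo H F h ho ((low1 h1).2 ⟨e, s⟩)) fun l => ((low1 h1).1 l).1 rfl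
  by_cases h2 : B.S1 v
  · by_cases n : ∃ y, B.c.A y v ∧ Od B.c.G B.c.κ y
    · obtain ⟨o, -, ho, -⟩ := two H d t v
      have n' := n
      obtain ⟨y, i, od⟩ := n
      have ad := (H.ori.inK _ _ (k3 d) i).resolve_right fun r => H.ori.kz (r.1 ▸ k2 od.1.1)
      exact fin y o ad ho (F.sb _ _ ▸ c1 H F od i ad.symm) fun l => ((low2 h2).1 l).2 n'
    · obtain ⟨y, ad, od⟩ := h2.2.2
      have i : B.c.A v y := not_not.1 fun r => n ⟨y, (dir H ad).2 r, od⟩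
      obtain ⟨o, e, ho, ao⟩ := two H d t y
      exact fin y o ad ho (lo H F h i ((low2 h2).2 ⟨od, n⟩)) fun l =>
        (H.ex v y o ⟨e.symm, ad, ao, .inl ⟨d, h2.2.1, od, ((low2 h2).1 l).1⟩⟩).1 i ho
  by_cases h3 : B.s.ev ∧ v = B.u ∧ (B.s.I = {B.x} ∨ S2 B.c.G B.c.κ v B.x)
  · obtain ⟨-, -, i, -⟩ := H.th (H.sta.evI h3.1).1
    rw [← h3.2.1] at i
    obtain ⟨o, e, ho, -⟩ := two H d t B.x
    exact fin B.x o (oa _ i) ho (lo H F h i ((low3 h1 h2 h3).2 rfl)) fun l =>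
      e ((low3 h1 h2 h3).1 l)
  have g : B.gd v := h.elim (fun r => r.1) fun r => (h2 (r.2 ▸ exS H r.1)).elim
  have s := (@Classical.epsilon_spec V _ (c4 H d g t)).1
  obtain ⟨o, e, ho, -⟩ := two H d t
    (@Classical.epsilon V ⟨v⟩ fun o => B.c.A v o ∧ ¬S2 B.c.G B.c.κ v o)
  exact fin _ o (oa _ s) ho (lo H F h s ((low4 h1 h2 h3).2 ⟨t, rfl⟩)) fun l =>
    e ((low4 h1 h2 h3).1 l).2

theorem k1o (t : Th B.c.G u y y w) (i : B.c.A u y) (k : B.c.κ y = 1) : b y w = 0 ∧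
    (dg B.c.G u = 3 → B.c.κ u = 1 → b u y = 0 ∨ ¬B.c.To u ∨
      ∃ p, p ≠ y ∧ B.c.G.Adj u p ∧ b u p = 1) ∧
    (dg B.c.G w = 3 → B.c.κ w = 1 → b u y = 0 ∨ ∀ p, B.c.A w p → b w p = 1) := by
  have od : Od B.c.G B.c.κ y := ⟨d1 t, k⟩
  have j := fw1 H t i
  have au := t.2.2.2.2.1
  have aw := t.2.2.2.2.2.1
  have nev : B.s.I = {y} → ¬B.s.ev := fun e ev => by
    obtain ⟨e1, e2, -⟩ := sing H e
    exact noev H ev (e2 ▸ e1 ▸ od)
  refine ⟨c1 H F od j aw, fun d ku => ?_, fun d kw => ?_⟩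
  · have s : B.S1 u := ⟨d, ku, y, au, od⟩
    rcases H.sta.s1 u y d ku au od with g | ⟨f, -, e, -⟩ | ⟨g, r⟩
    · have um : B.um u := .inl ⟨g, .inl s⟩
      by_cases n : ∃ y, B.c.A y u ∧ Od B.c.G B.c.κ y
      · refine .inr (or_iff_not_imp_left.2 fun tt => ?_)
        obtain ⟨o, e, ho, ao⟩ := two H d (not_not.1 tt) y
        exact ⟨o, e, ao, hi H F um ho fun l => ((low2 s).1 l).2 n⟩
      · exact .inl (lo H F um i ((low2 s).2 ⟨od, n⟩))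
    · obtain ⟨rfl, rfl, rfl⟩ := same1 H e t i
      exact .inl (by rw [c5T H F ⟨nev e, by simp [e], d, f, .inl ⟨e, ku⟩⟩,
        if_pos (sing H e).2.1.symm])
    · obtain ⟨-, ne, l, ρ, x, r', -, -, -, -, -, f, -⟩ := H.sta.g g
      obtain rfl : u = ρ := Option.some.inj (r.symm.trans r')
      obtain ⟨eu, az⟩ := rr r
      have dz := (H.rr az).2
      rw [← eu] at az
      have nz := H.ori.noin u
      have ky := k2 od.1.1
      refine .inr (.inl fun tt => ?_)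
      obtain ⟨o, e, ho, ao⟩ := two H d tt y
      have ko : K B.c.G o := by
        have h1 := Red.one_le_dg ao.symm
        have h2 : dg B.c.G o ≠ 1 := fun h => nz (l _ _ h dz ▸ ho)
        unfold K; omega
      exact (H.ex u y o ⟨e.symm, au, ao, .inr (.inr (.inr
        ⟨r, d, f, ky, ko, fun s => ne s.1⟩))⟩).1 i ho
  · have s : B.S1 w := ⟨d, kw, y, aw.symm, od⟩
    have up : B.um w → ∀ p, B.c.A w p → b w p = 1 := fun um p hp =>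
      hi H F um hp fun l => ((low2 s).1 l).2 ⟨y, j, od⟩
    rcases H.sta.s1 w y d kw aw.symm od with g | ⟨f, -, e, -⟩ | ⟨g, r⟩
    · exact .inr (up (.inl ⟨g, .inl s⟩))
    · obtain ⟨rfl, rfl, rfl⟩ := same1 H e t i
      by_cases n : B.exT
      · exact .inl (by rw [c5T H F n, if_pos (sing H e).2.1.symm])
      · exact .inr (up (.inr ⟨⟨nev e, e, d, f, kw, n⟩, rfl⟩))
    · obtain ⟨-, -, -, ρ, x, r', e, -, -, -, -, -, l⟩ := H.sta.g g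
      obtain rfl : w = ρ := Option.some.inj (r.symm.trans r')
      obtain rfl := l y aw.symm od
      exact (ne1 t ((same1 H e t i).2.1.trans ((H.g5 g).trans (rr r).1.symm))).elim

theorem k1e (T : Tp B.c B.pl) (t : Th B.c.G u y y w) (i : B.c.A u y) (k : B.c.κ y = 0) :
    b u y ≠ b y w ∧ (B.c.κ u = 0 → b u y = 1 ∧
      (dg B.c.G u = 3 → ∃ p, p ≠ y ∧ B.c.G.Adj u p ∧ (b u p = 1 ∨ a u p = 0))) ∧
    (B.c.κ w = 0 → (dg B.c.G w = 4 → ∃ p, B.c.G.Adj w p ∧ b w p = 1) ∧ (dg B.c.G w = 3 →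
      (sg B.c.G (cl a b) w : ℤ) ≠ (if a u y = 1 then 4 else 6) ∨
      (b u y = 0 ∧ ∃ p, p ≠ y ∧ B.c.G.Adj w p ∧ b w p = 1))) := by
  obtain ⟨ev, e⟩ := (H.sta.m1 y (d1 t)).resolve_left fun r => zero_ne_one (k.symm.trans r)
  obtain ⟨rfl, rfl, rfl⟩ := same1 H e t i
  have e1 : B.e1 := ⟨ev, e⟩
  have j := fw1 H t i
  have au := t.2.2.2.2.1
  have aw := t.2.2.2.2.2.1.symm
  obtain ⟨-, -, s1, s2⟩ := H.sta.e1 ev _ e
  refine ⟨(sing H e).2.1 ▸ glue H F ev, fun ku => ?_, fun kw => ⟨fun d => ?_, fun d => ?_⟩⟩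
  · have um : dg B.c.G B.u = 3 → B.um B.u := fun d =>
      .inl ⟨((s1 _ au ku).1 d).1, .inr (.inr (.inl ⟨e1, rfl, d⟩))⟩
    refine ⟨?_, fun d => ?_⟩
    · by_cases n : B.um B.u
      · exact hi H F n i fun l => ((low1 ⟨e1, rfl, ku⟩).1 l).1 rfl
      · rw [c5 H F (by simp [e]) (.inr ⟨ev, ku, n⟩) n, if_neg fun r => r.1 ev]
    · obtain ⟨p, -, ep, -, -, hp, -, o, -⟩ := e2 H e1 d ((s1 _ au ku).1 d).1 au
      exact ⟨p, ep.symm, hp, or_iff_not_imp_right.2 fun n =>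
        hi H F (um d) o fun l => n ((low1 ⟨e1, rfl, ku⟩).1 l).2⟩
  · have m : (B.w, B.hb) ∈ B.pl.hA := by simp [Bc.pl, e1, d, kw]
    obtain ⟨h1, h2, h3, -, h4, h5, -⟩ := T.ha _ m
    refine ⟨B.hb, h2, ?_⟩
    have := F.con _ ⟨h1, h2, .inr (.inr (.inr m))⟩
    rw [Bc.L, if_pos h3, Bc.L0, if_neg (by simpa [Bc.pl] using h4), if_neg fun r => h5 r.1] at this
    exact this
  · have d0 : B.d0 := ⟨e1, d, kw⟩
    have g : B.gd B.w := ((s1 _ aw kw).1 d).1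
    by_cases bon : B.s.bon
    · have := F.un B.w (by simp [Bc.pl, d0, bon])
      rw [Bc.τ', if_neg g.2] at this
      exact .inl this
    obtain ⟨p, ap, dp, kp, gp, np⟩ := s2.resolve_left bon
    obtain rfl : p = B.u := (nb1 t ap.symm).resolve_right fun r =>
      zero_ne_one (kw.symm.trans (r ▸ kp))
    refine .inr ⟨lo H F (.inl ⟨gp, .inr (.inr (.inl ⟨e1, rfl, dp⟩))⟩) i ((low3
      (fun r => zero_ne_one (r.2.2.symm.trans kp)) (fun r => r.2.2.elim fun y s => np y s.1 s.2)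
      ⟨ev, rfl, .inl e⟩).2 rfl), ?_⟩
    obtain ⟨p, p', ep, ep', e', hp, hp', o, o'⟩ := e2 H e1 d g aw
    refine ⟨p, ep.symm, hp, hi H F (.inl ⟨g, .inr (.inr (.inr ⟨d0, bon, rfl⟩))⟩) o fun l => ?_⟩
    have tt := ((low4 (fun r => ne1 t r.2.1.symm) (fun r => zero_ne_one (kw.symm.trans r.2.1))
      fun r => ne1 t r.2.1.symm).1 l).1
    have := H.ori.asym _ _ j
    rcases to3 H d aw hp hp' ep ep' e' tt with r | r | r
    exacts [this r.1, this r.1, o' r.2]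

theorem k2o (t : Th B.c.G u y y' w) (e : B.c.G.Adj y y') (i : B.c.A u y)
    (k : B.c.κ y + B.c.κ y' = 1) : b y' w = (if a y' w = 1 then 1 else 0) ∧
    (dg B.c.G u = 3 → B.c.κ u = B.c.κ w → b u y = 1) := by
  have nev : B.s.ev → ¬(y = B.x ∨ y' = B.x') := fun ev r => by
    obtain ⟨ne, s⟩ := H.sta.evI ev
    obtain ⟨-, eI, -⟩ := H.th ne
    obtain ⟨rfl, rfl, -⟩ := same2 H t e i (r.imp (fun r => by simp [eI, r]) fun r => by
      simp [eI, r])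
    rw [eI, sum_pair e.ne] at s
    exact zero_ne_one (s.symm.trans k)
  refine ⟨?_, fun d ku => ?_⟩
  · rw [lowIn H F (fw2 H t e i).2 t.2.2.2.2.2.1 t.2.2.2.1 fun ev r => nev ev (.inr r)]
    simp [nd1 t.2.2.1 e.symm]
  have s : S2 B.c.G B.c.κ u y := ⟨d, y', w, t, e, ku⟩
  rcases H.sta.s2 u y s with ⟨g, -⟩ | ⟨f, -, m, ne, -⟩
  · refine hi H F (.inl ⟨g, .inr (.inl ⟨y, s⟩)⟩) i fun l => ?_
    have h1 : ¬(B.e1 ∧ u = B.u ∧ B.c.κ u = 0) := fun r =>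
      (H.sta.e1 r.1.1 _ r.1.2).2.1 y y' t.2.2.1 t.2.2.2.1 e
    by_cases h2 : B.S1 u
    · exact nd1 t.2.2.2.1 e ((low2 h2).1 l).1.1
    by_cases h3 : B.s.ev ∧ u = B.u ∧ (B.s.I = {B.x} ∨ S2 B.c.G B.c.κ u B.x)
    · exact nev h3.1 (.inl ((low3 h1 h2 h3).1 l))
    obtain ⟨tt, r⟩ := (low4 h1 h2 h3).1 l
    exact (@Classical.epsilon_spec V _ (c4 H d g tt)).2 (r ▸ s)
  · obtain ⟨rfl, rfl, rfl, rfl⟩ := same2 H t e i (.inl m)
    rw [c5T H F ⟨ne, ⟨_, m⟩, d, f, .inr s⟩, if_neg e.ne]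

theorem k2e (t : Th B.c.G u y y' w) (e : B.c.G.Adj y y') (i : B.c.A u y)
    (k : B.c.κ y + B.c.κ y' = 0) : b u y ≠ b y' w ∧
    (dg B.c.G u = 3 → B.c.κ u = B.c.κ w → b u y = 0) ∧
    (dg B.c.G w = 3 → B.c.κ u = B.c.κ w → B.c.To w →
      ∃ p, p ≠ y' ∧ B.c.G.Adj w p ∧ b w p = 1) := by
  obtain ⟨ev, eI⟩ := (H.sta.m2 y y' t.2.2.1 t.2.2.2.1 e).resolve_left fun r =>
    zero_ne_one (k.symm.trans r)
  obtain ⟨rfl, rfl, rfl, rfl⟩ := same2 H t e i (.inl (by simp [eI]))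
  have n1 : ¬B.e1 := fun r => e.ne (sing H r.2).2.1.symm
  have key : ∀ v x, S2 B.c.G B.c.κ v x → B.um v ∧ ¬B.S1 v := fun v x s => by
    rcases H.sta.s2 v x s with ⟨g, r | r⟩ | r
    · exact ⟨.inl ⟨g, .inr (.inl ⟨x, s⟩)⟩, fun q => q.2.2.elim fun y p => r.2 q.2.1 y p.1 p.2⟩
    · exact (r.2 ev).elim
    · exact (r.2.2.2.1 ev).elim
  refine ⟨glue H F ev, fun d ku => ?_, fun d ku tt => ?_⟩
  · have s : S2 B.c.G B.c.κ B.u B.x := ⟨d, _, _, t, e, ku⟩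
    exact lo H F (key _ _ s).1 i ((low3 (fun r => n1 r.1) (key _ _ s).2 ⟨ev, rfl, .inr s⟩).2 rfl)
  · have s := key _ _ ⟨d, _, _, sym t, e.symm, ku.symm⟩
    obtain ⟨p, ep, o, ap⟩ := two H d tt
      (@Classical.epsilon V ⟨B.w⟩ fun o => B.c.A B.w o ∧ ¬S2 B.c.G B.c.κ B.w o)
    refine ⟨p, fun r => H.ori.asym _ _ (fw2 H t e i).2 (r ▸ o), ap, hi H F s.1 o fun l =>
      ep ((low4 (fun r => n1 r.1) s.2 fun r => ?_).1 l).2⟩
    exact H.gr.paw _ _ _ d t.2.2.1 t.2.2.2.1 (r.2.1 ▸ t.2.2.2.2.1) t.2.2.2.2.2.1.symm e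

theorem root (h : B.c.G.Adj B.c.z B.c.ρ) : Co B.c.G B.c.ρ ∧
    b B.c.z B.c.ρ = ((B.γ - 1) / 2 : ℕ) ∧
    (B.c.κ B.c.ρ = B.τ → sg B.c.G (cl a b) B.c.ρ ≠ B.τ) := by
  have nz : ¬Co B.c.G B.c.z := fun r => H.ori.kz (cok r)
  refine ⟨(H.rr h).1, ?_, fun k r => ?_⟩
  · have := F.con (B.c.z, B.c.ρ) ⟨H.ori.root, h, .inl ⟨nz, fun r => H.ori.kz
      ((Prod.mk.inj r.2).1 ▸ k2 (H.th (H.sta.evI (gev r.1)).1).1.2.2.2.1)⟩⟩
    rw [Bc.L, if_neg nz, if_pos rfl] at this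
    have h1 := H.g1
    have h4 := H.g4
    dsimp only at this
    split_ifs at this <;> omega
  · have bw : Bw B.r B.τ B.c.κ B.c.ρ := ⟨if_pos h, k⟩
    have := F.un B.c.ρ (by simp [Bc.pl, bw])
    rw [Bc.τ', if_pos bw, r] at this
    exact this rfl

end TB3

theorem b3 (h : SB2) : SB3 := fun V _ B _ _ H F =>
  ⟨fun v hv => have um : B.um v := by simpa [Bc.pl] using hv
    ⟨TB3.um3 um, TB3.q H F um⟩, fun _ _ _ => TB3.k1o H F, fun _ _ _ => TB3.k1e H F (h V B H),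
    fun _ _ _ _ => TB3.k2o H F, fun _ _ _ _ => TB3.k2e H F, TB3.root H F⟩

end

end Pool.Agent.MP_d1f1f3_co.H47.TH
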