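import Pool.Agent.MP_d1f1f3_co.H47.SpecT
import Pool.Agent.MP_d1f1f3_co.H33.Spec

/-!
The inner edges of the threads with two inner vertices are recoloured.
-/

namespace Pool.Agent.MP_d1f1f3_co.H47.TH

open Finset Relation H47 H2
open scoped Classical

namespace TCol

variable {V : Type} [Fintype V] {G : SimpleGraph V} {c : V → V → ℕ}

theorem th_symm {u x x' w : V} (h : Th G u x x' w) : Th G w x' x u := by
  obtain ⟨h1, h2, h3, h4, h5, h6, h7⟩ := h
  exact ⟨h2, h1, h4, h3, h6.symm, h5.symm, h7.imp (fun e => ⟨e.1.symm, e.2.symm⟩) (·.symm)⟩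

/-- Admissible colours of the inner edge. -/
def Q (G : SimpleGraph V) (c : V → V → ℕ) (x x' : V) (m : ℕ) : Prop :=
  (1 ≤ m ∧ m ≤ 4) ∧ ∀ u w, Th G u x x' w →
    m ≠ c u x ∧ m ≠ c x' w ∧ c u x + m ≠ sg G c u ∧ m + c x' w ≠ sg G c w

theorem Q_symm (hs : ∀ u w, c u w = c w u) (x x' : V) : Q G c x x' = Q G c x' x := by
  have k : ∀ x x' m, Q G c x x' m → Q G c x' x m := fun x x' m h => ⟨h.1, fun u w t => by
    have := h.2 w u (th_symm t)
    rw [hs u x', hs x w]
    omega⟩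
  funext m
  exact propext ⟨k _ _ _, k _ _ _⟩

/-- The new colouring. -/
noncomputable def rc (G : SimpleGraph V) (c : V → V → ℕ) (x x' : V) : ℕ :=
  if dg G x = 2 ∧ dg G x' = 2 ∧ G.Adj x x' then Classical.epsilon (Q G c x x') else c x x'

theorem rc_symm (hs : ∀ u w, c u w = c w u) (x x' : V) : rc G c x x' = rc G c x' x := by
  unfold rc
  rw [Q_symm hs x x', hs x x']
  exact if_congr ⟨fun h => ⟨h.2.1, h.1, h.2.2.symm⟩, fun h => ⟨h.2.1, h.1, h.2.2.symm⟩⟩ rfl rfl

theorem rc_left {x : V} (h : dg G x ≠ 2) (y : V) : rc G c x y = c x y := if_neg fun h' => h h'.1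

theorem rc_right {y : V} (h : dg G y ≠ 2) (x : V) : rc G c x y = c x y :=
  if_neg fun h' => h h'.2.1

/-- The other neighbour of an inner vertex of a long thread. -/
theorem ends (hG : Gr G) {x x' : V} (hx : dg G x = 2) (hx' : dg G x' = 2) (h : G.Adj x x') :
    ∃ u, Co G u ∧ G.Adj x u ∧ u ≠ x' ∧ N G x = {u, x'} ∧ ∀ v, Co G v → G.Adj x v → v = u := by
  obtain ⟨u, hne, hu⟩ := H33.other hx x'
  have hN := H33.N2 hx hu h hne
  have k : 2 ≤ dg G u := hG.nb x u hx hu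
  have k2 : dg G u ≠ 2 := fun e => hne (hG.sh x u x' hx e hx' hu h)
  refine ⟨u, by unfold Co; omega, hu, hne, hN, fun v hv hxv => ?_⟩
  have := Frame.mem_N.2 hxv
  rw [hN, mem_insert, mem_singleton] at this
  refine this.resolve_right fun e => ?_
  unfold Co at hv
  rw [e] at hv
  omega

theorem rc_Q (hG : Gr G)
    (h2 : ∀ u x x' w, Th G u x x' w → G.Adj x x' → c u x ≠ c x' w ∧ ∃ m, 1 ≤ m ∧ m ≤ 4 ∧
      m ≠ c u x ∧ m ≠ c x' w ∧ c u x + m ≠ sg G c u ∧ m + c x' w ≠ sg G c w)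
    {x x' : V} (hx : dg G x = 2) (hx' : dg G x' = 2) (h : G.Adj x x') :
    Q G c x x' (rc G c x x') := by
  rw [rc, if_pos ⟨hx, hx', h⟩]
  obtain ⟨u, cu, au, -, -, uu⟩ := ends hG hx hx' h
  obtain ⟨w, cw, aw, -, -, uw⟩ := ends hG hx' hx h.symm
  obtain ⟨-, m, m1, m4, hm⟩ := h2 u x x' w ⟨cu, cw, hx, hx', au.symm, aw, Or.inr h⟩ h
  refine Classical.epsilon_spec ⟨m, ⟨m1, m4⟩, fun u' w' t => ?_⟩
  rw [uu u' t.1 t.2.2.2.2.1.symm, uw w' t.2.1 t.2.2.2.2.2.1]
  exact hm

end TCol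

open TCol in
theorem col : SCol := by
  intro V _ G z ρ γ τ c hG hs hr hq h0 h1 h2 hρ
  have sm : ∀ v, dg G v ≠ 2 → sg G (rc G c) v = sg G c v ∧ (H33.QM G c v → H33.QM G (rc G c) v) :=
    fun v hv => H33.same rfl fun w _ => rc_left hv w
  have co : ∀ v, Co G v → dg G v ≠ 2 := fun v hv => by unfold Co at hv; omega
  have rg : ∀ u w, 1 ≤ rc G c u w ∧ rc G c u w ≤ 4 := fun u w => by
    by_cases h : dg G u = 2 ∧ dg G w = 2 ∧ G.Adj u w
    · exact (rc_Q hG h2 h.1 h.2.1 h.2.2).1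
    · rw [rc, if_neg h]
      exact hr u w
  have D : ∀ x y, dg G x = 2 → G.Adj x y →
      H33.QM G (rc G c) x ∧ sg G (rc G c) x ≠ sg G (rc G c) y := by
    intro x y hx hy
    obtain ⟨y', hne, hy'⟩ := H33.other hx y
    obtain ⟨-, e, q⟩ := H33.loc2 (c := rc G c) (H33.N2 hx hy hy' hne.symm) hne.symm
    have k : 2 ≤ dg G y := hG.nb x y hx hy
    have k' : 2 ≤ dg G y' := hG.nb x y' hx hy'
    rw [q, e]
    by_cases d : dg G y = 2
    · have d' : dg G y' ≠ 2 := fun d' => hne (hG.sh x y' y hx d' d hy' hy)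
      obtain ⟨w, cw, aw, nw, hN, -⟩ := ends hG d hx hy.symm
      have t : Th G y' x y w := ⟨by unfold Co; omega, cw, hx, d, hy'.symm, aw, Or.inr hy⟩
      have a1 := (rc_Q hG h2 hx d hy).2 y' w t
      have a2 := (h2 y' x y w t hy).1
      rw [(H33.loc2 (c := rc G c) hN nw).2.1, rc_right d' x, rc_right (co w cw) y,
        rc_symm hs y x, hs x y']
      omega
    have cy : Co G y := by unfold Co; omega
    rw [(sm y d).1, rc_right d x, hs x y]
    by_cases d' : dg G y' = 2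
    · obtain ⟨w, cw, aw, -, -, -⟩ := ends hG d' hx hy'.symm
      have a1 := (rc_Q hG h2 hx d' hy').2 y w ⟨cy, cw, hx, d', hy.symm, aw, Or.inr hy'⟩
      omega
    · rw [rc_right d' x]
      exact h1 y x y' ⟨cy, by unfold Co; omega, hx, hx, hy.symm, hy', Or.inl ⟨rfl, hne.symm⟩⟩
  refine ⟨rc G c, ⟨rc_symm hs, fun u w _ => rg u w, fun u w h => ?_, fun u => ?_⟩, fun h => ?_⟩
  · by_cases hu : K G u
    · by_cases hw : K G w
      · by_cases du : dg G u = 2
        · exact (D u w du h).2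
        by_cases dw : dg G w = 2
        · exact (D w u dw h.symm).2.symm
        rw [(sm u du).1, (sm w dw).1]
        unfold K at hu hw
        exact h0 u w h (by unfold Co; omega) (by unfold Co; omega)
      · exact (Frame.leaf (rc_symm hs) (fun u w => (rg u w).1) h.symm hw hu).ne'
    · exact (Frame.leaf (rc_symm hs) (fun u w => (rg u w).1) h hu
        ((hG.ek u w h).resolve_left hu)).ne
  · by_cases du : dg G u = 2
    · obtain ⟨y, -, hy⟩ := H33.other du u
      exact (D u y du hy).1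
    by_cases cu : Co G u
    · exact (sm u du).2 (hq u cu)
    intro α
    have := card_filter_le (N G u) fun w => rc G c u w = α
    unfold Co at cu
    unfold dg at cu du ⊢
    omega
  · obtain ⟨cρ, -, e, hτ⟩ := hρ h
    rw [rc_right (co ρ cρ) z, (sm ρ (co ρ cρ)).1]
    exact ⟨e, hτ⟩

end Pool.Agent.MP_d1f1f3_co.H47.TH
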