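import Pool.Agent.MP_d1f1f3_co.H47.SpecT

/-!
A good state exists if the parity is free or some thread has two inner vertices.
-/

namespace Pool.Agent.MP_d1f1f3_co.H47.TH

open Finset Relation H47 H2
open scoped Classical

namespace TExA

noncomputable section

variable {V : Type} [Fintype V] (G : SimpleGraph V) (r : Option V) (τ : ZMod 2) (κ : V → ZMod 2)

/-- Threads with two inner vertices and an end of degree three. -/
def Lt (u w : V) : Finset (V × V) :=
  univ.filter fun p => Th G u p.1 p.2 w ∧ G.Adj p.1 p.2 ∧ (dg G u = 3 ∨ dg G w = 3)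

def mm (u w : V) : ℕ := #(Lt G u w)

def sF (u w : V) : ℕ := if κ u = κ w then mm G u w else 0

def n1 (v : V) : ℕ := #(univ.filter fun x => G.Adj v x ∧ D1 G x)

def n2 (v : V) : ℕ := #(univ.filter fun x => G.Adj v x ∧ dg G x = 2 ∧ ¬D1 G x)

def om (v : V) (j : ZMod 2) : ℤ :=
  (if r = some v ∧ j = τ then 2 else 0) + if dg G v = 3 ∧ j = 1 then (n1 G v : ℤ) else 0

def tk (v : V) : ℤ := tau G κ v - df G κ v - ∑ w, (sF G κ v w : ℤ) - om G r τ v (κ v)

variable {G r τ κ}

theorem mm_le (u w : V) : mm G u w ≤ mm G w u :=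
  card_le_card_of_injOn Prod.swap (fun p hp => by
    obtain ⟨⟨a, b, c, d, e, f, -⟩, g, h⟩ := (mem_filter.1 hp).2
    exact mem_filter.2 ⟨mem_univ _, ⟨b, a, d, c, f.symm, e.symm, .inr g.symm⟩, g.symm, h.symm⟩)
    Prod.swap_injective.injOn

theorem mm_symm (u w : V) : mm G u w = mm G w u := (mm_le u w).antisymm (mm_le w u)

theorem mm_self (hG : Gr G) (u : V) : mm G u u = 0 :=
  card_eq_zero.2 (filter_eq_empty_iff.2 fun p _ ⟨⟨_, _, c, d, e, f, _⟩, g, h⟩ =>
    hG.paw u p.1 p.2 (h.elim id id) c d e f.symm g)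

theorem mm_co (u w : V) (h : mm G u w ≠ 0) : Co G u := by
  obtain ⟨p, hp⟩ := card_ne_zero.1 h
  exact (mem_filter.1 hp).2.1.1

theorem mm_sum (hG : Gr G) (v : V) : ∑ w, mm G v w ≤ n2 G v := by
  refine (card_sigma univ (Lt G v)).symm.trans_le (card_le_card_of_injOn (fun q => q.2.1)
    (fun q hq => ?_) ?_)
  · obtain ⟨⟨-, -, c, d, e, -⟩, g, -⟩ := (mem_filter.1 (mem_sigma.1 hq).2).2
    exact mem_filter.2 ⟨mem_univ _, e, c, fun h => by have := h.2 _ g; unfold Co at this; omega⟩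
  · rintro ⟨w, x, y⟩ hq ⟨w', x', y'⟩ hq' (rfl : x = x')
    obtain ⟨⟨-, b, c, d, -, f, -⟩, g, -⟩ := (mem_filter.1 (mem_sigma.1 hq).2).2
    obtain ⟨⟨-, b', -, d', -, f', -⟩, g', -⟩ := (mem_filter.1 (mem_sigma.1 hq').2).2
    dsimp only at *
    obtain rfl := hG.sh x y y' c d d' g g'
    obtain rfl : w = w' := by
      by_contra k
      have : 2 < dg G y := two_lt_card_iff.2 ⟨x, w, w', Frame.mem_N.2 g.symm, Frame.mem_N.2 f,
        Frame.mem_N.2 f', by rintro rfl; unfold Co at b; omega,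
        by rintro rfl; unfold Co at b'; omega, k⟩
      omega
    rfl

theorem s2_le (u : V) : (#(univ.filter (S2 G κ u)) : ℤ) ≤ ∑ w, (sF G κ u w : ℤ) := by
  have : #(univ.filter (S2 G κ u)) ≤ #((univ.filter fun w => κ u = κ w).sigma (Lt G u)) :=
    card_le_card_of_surjOn (fun q => q.2.1) fun x hx => by
      obtain ⟨a, y, w, b, c, d⟩ := (mem_filter.1 hx).2
      exact ⟨⟨w, x, y⟩, mem_sigma.2 ⟨mem_filter.2 ⟨mem_univ _, d⟩,
        mem_filter.2 ⟨mem_univ _, b, c, .inl a⟩⟩, rfl⟩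
  rw [card_sigma, sum_filter] at this
  exact_mod_cast this

theorem cnt (hR : Rr G r) {v : V} (hv : Co G v) :
    df G κ v + hc G κ v + n1 G v + n2 G v + (if r = some v then 1 else 0) ≤ dg G v := by
  have h0 : (if r = some v then 1 else 0) ≤ #(univ.filter fun x => G.Adj v x ∧ dg G x = 1) := by
    split_ifs with h
    · obtain ⟨-, z, hz⟩ := hR v h
      exact card_pos.2 ⟨z, mem_filter.2 ⟨mem_univ _, hz⟩⟩
    · exact Nat.zero_le _
  refine (Nat.add_le_add_left h0 _).trans ?_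
  rw [df, hc, n1, n2, show dg G v = #(univ.filter fun w => G.Adj v w) from rfl]
  simp only [card_filter, ← sum_add_distrib]
  refine sum_le_sum fun w _ => ?_
  by_cases a : G.Adj v w
  · by_cases b : Co G w
    · have c : dg G w ≠ 2 ∧ dg G w ≠ 1 := by unfold Co at b; omega
      by_cases d : κ v = κ w <;> simp [Fc, Hc, D1, a, b, c, d, hv]
    · by_cases c : dg G w = 2
      · by_cases d : D1 G w <;> simp [Fc, Hc, a, b, c, d]
      · by_cases d : dg G w = 1 <;> simp [Fc, Hc, D1, a, b, c, d]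
  · simp [Fc, Hc, a]

theorem key (hG : Gr G) (hR : Rr G r) {v : V} (hv : Co G v) :
    gn G (om G r τ) (mm G) κ v ≤ 2 * tk G r τ κ v + 1 + if r = some v then 1 else 0 := by
  have h1 : (df G κ v + hc G κ v + n1 G v + n2 G v + (if r = some v then 1 else 0) : ℤ) ≤ dg G v := by
    exact_mod_cast cnt (κ := κ) hR hv
  have h2 : ∑ w, (mm G v w : ℤ) ≤ n2 G v := by exact_mod_cast mm_sum hG v
  have h3 : ∑ w, (if κ v = κ w then -(mm G v w : ℤ) else mm G v w) =
      ∑ w, (mm G v w : ℤ) - 2 * ∑ w, (sF G κ v w : ℤ) := by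
    rw [mul_sum, ← sum_sub_distrib]
    refine sum_congr rfl fun w _ => ?_
    unfold sF
    split_ifs
    · ring
    · simp
  have h4 : 2 * tau G κ v + 1 =
      dg G v + if Even (dg G v) then (if Wv G κ v then -1 else 1) else 0 := by
    unfold tau
    by_cases e : Even (dg G v)
    · have := Nat.even_iff.1 e
      rw [if_pos e]
      split_ifs <;> omega
    · have := Nat.not_even_iff.1 e
      rw [if_neg e, if_neg fun h : Wv G κ v => e h.2.1]
      omega
  have h5 : om G r τ v (κ v + 1) + om G r τ v (κ v) ≤ 2 * (if r = some v then 1 else 0) + n1 G v := by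
    unfold om
    generalize κ v = j
    have a : ¬(j + 1 = τ ∧ j = τ) := fun h => by simpa using h.1.trans h.2.symm
    have b : ¬(j + 1 = 1 ∧ j = 1) := fun h => by simpa using h.1.trans h.2.symm
    split_ifs <;> first | omega | tauto
  rw [gn, tk, h3]
  linarith

theorem tau3 {v : V} (h : dg G v = 3) : tau G κ v = 1 := by
  rw [tau, if_neg fun k : Wv G κ v => by have := k.2.1; rw [h] at this; revert this; decide, h]
  rfl

theorem sta (hP : SPot) (hG : Gr G) (hR : Rr G r) (hO : Opt G (om G r τ) (mm G) κ) (ev : Prop)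
    (I : Finset V) (h1 : ∀ x, D1 G x → κ x = 1) (h0 : ev → ∀ v, Co G v → 0 ≤ tk G r τ κ v)
    (inn : I = ∅ ∨ (∃ x, D1 G x ∧ I = {x}) ∨
      ∃ x x', dg G x = 2 ∧ dg G x' = 2 ∧ G.Adj x x' ∧ I = {x, x'})
    (evI : ev → (I.Nonempty ∧ ∑ x ∈ I, κ x = 0) ∧ ∀ x, I ≠ {x})
    (m2 : ∀ x x', dg G x = 2 → dg G x' = 2 → G.Adj x x' → κ x + κ x' = 1 ∨ (ev ∧ I = {x, x'}))
    (hI : ¬ev → ∀ v x, r = some v → dg G v = 3 → df G κ v = 1 → G.Adj v x → dg G x = 2 →
      x ∈ I ∧ (D1 G x → I = {x})) :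
    Sta G r τ κ ⟨tk G r τ κ, sF G κ, ev, ev, False, I⟩ := by
  have p4 := (hP V G (om G r τ) (mm G) mm_symm (mm_self hG) mm_co).2.2.2 κ hO
  have s0 : ∀ v, 0 ≤ ∑ w, (sF G κ v w : ℤ) := fun v => by positivity
  have e0 : ∀ v, tk G r τ κ v + df G κ v + ∑ w, (sF G κ v w : ℤ) + (if Bw r τ κ v then 2 else 0) +
      (if dg G v = 3 ∧ κ v = 1 then (n1 G v : ℤ) else 0) = tau G κ v := fun v => by
    rw [tk, om, if_congr (show Bw r τ κ v ↔ r = some v ∧ κ v = τ from .rfl) rfl rfl]
    ring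
  have tn : ∀ v, Co G v → 0 ≤ tk G r τ κ v ∨ (r = some v ∧ ¬ev ∧ -1 ≤ tk G r τ κ v) := fun v hv => by
    have a := p4 {v} (by simpa using hv)
    have b := key (τ := τ) (κ := κ) hG hR hv
    simp [filter_singleton, Fc, Hc, mm_self hG] at a
    by_cases c : ev
    · exact .inl (h0 c v hv)
    split_ifs at b with d
    exacts [.inr ⟨d, c, by omega⟩, .inl (by omega)]
  have c3 : ∀ v, dg G v = 3 → Co G v := fun v h => h.ge
  refine ⟨fun v _ => ?_, fun u w => ?_, fun u => ?_, fun X hX => ?_, fun v _ => ?_, tn, inn,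
    fun h => (evI h).1, fun x h => .inl (h1 x h), m2, fun v x a b c d => ?_, fun v a b => ?_,
    fun u x h => ?_, fun h _ => h, fun h x k => absurd k ((evI h).2 x), False.elim⟩
  · have := e0 v
    dsimp only
    split_ifs at this <;> omega
  · simp only [sF, mm_symm u w, eq_comm]
  · simp [sF, mm_self hG]
  · have a := p4 X hX
    have b : ∑ v ∈ X, (if r = some v then (1 : ℤ) else 0) ≤ 1 := by
      rcases r with _ | ρ
      · simp
      · simp only [Option.some.injEq, sum_ite_eq]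
        split_ifs <;> norm_num
    have c : _ ≤ Dl G κ (tk G r τ κ) (sF G κ) X + ∑ v ∈ X, (if r = some v then (1 : ℤ) else 0) :=
      a.trans (by
        rw [Dl, ← sum_add_distrib]
        refine sum_le_sum fun v hv => ?_
        have := key (τ := τ) (κ := κ) hG hR (hX v hv)
        simp only [sF, Nat.cast_ite, Nat.cast_zero]
        linarith)
    dsimp only
    linarith
  · have := e0 v
    have := s0 v
    dsimp only
    split_ifs at * <;> omega
  · have e := e0 v
    have := s0 v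
    have : 0 < n1 G v := card_pos.2 ⟨x, mem_filter.2 ⟨mem_univ _, c, d.1⟩⟩
    rw [tau3 a, if_pos (show _ ∧ _ from ⟨a, b⟩)] at e
    have t := tn v (c3 v a)
    have nb : ¬Bw r τ κ v := fun k => by rw [if_pos k] at e; omega
    rw [if_neg nb] at e
    by_cases f : df G κ v = 0
    · exact .inl ⟨f, nb⟩
    obtain ⟨t1, t2, t3⟩ := t.resolve_left (by omega)
    exact .inr (.inl ⟨by omega, nb, (hI t2 v x t1 a (by omega) c d.1.1).2 d.1, .inr t1⟩)
  · by_contra! k
    have e := e0 v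
    have := s0 v
    have : n1 G v = dg G v := congrArg card (filter_congr fun y _ => and_iff_left_of_imp fun l => (k y l).1)
    rw [tau3 a, if_pos (show _ ∧ _ from ⟨a, b⟩)] at e
    have t := tn v (c3 v a)
    split_ifs at e <;> omega
  · have e := e0 u
    have s := s2_le (G := G) (κ := κ) u
    have : 0 < #(univ.filter (S2 G κ u)) := card_pos.2 ⟨x, mem_filter.2 ⟨mem_univ _, h⟩⟩
    rw [tau3 h.1] at e
    have t := tn u (c3 u h.1)
    have nb : ¬Bw r τ κ u := fun k => by rw [if_pos k] at e; split_ifs at e <;> omega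
    rw [if_neg nb] at e
    rcases t with t | ⟨t1, t2, t3⟩
    · refine .inl ⟨⟨by split_ifs at e <;> omega, nb⟩, .inl ⟨fun y hy => card_le_one.1
        (show #(univ.filter (S2 G κ u)) ≤ 1 by split_ifs at e <;> omega) y
        (mem_filter.2 ⟨mem_univ _, hy⟩) x (mem_filter.2 ⟨mem_univ _, h⟩), fun b y c d => ?_⟩⟩
      have : 0 < n1 G u := card_pos.2 ⟨y, mem_filter.2 ⟨mem_univ _, c, d.1⟩⟩
      rw [if_pos ⟨h.1, b⟩] at e
      omega
    by_cases f : df G κ u = 0
    · exact .inl ⟨⟨f, nb⟩, .inr ⟨t1, t2⟩⟩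
    have f1 : df G κ u = 1 := by split_ifs at e <;> omega
    obtain ⟨a, _, _, b, -⟩ := h
    exact .inr ⟨f1, nb, (hI t2 u x t1 a f1 b.2.2.2.2.1 b.2.2.1).1, t2, t2, t1⟩

/-- Normal values on the vertices of degree two. -/
def Nm (G : SimpleGraph V) (κ : V → ZMod 2) : Prop :=
  (∀ x, D1 G x → κ x = 1) ∧ ∀ x x', dg G x = 2 → dg G x' = 2 → G.Adj x x' → κ x + κ x' = 1

theorem staN (hP : SPot) (hG : Gr G) (hR : Rr G r) (hO : Opt G (om G r τ) (mm G) κ) (hN : Nm G κ) :
    ∃ s, Sta G r τ κ s := by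
  suffices ∃ I : Finset V, (I = ∅ ∨ (∃ x, D1 G x ∧ I = {x}) ∨
      ∃ x x', dg G x = 2 ∧ dg G x' = 2 ∧ G.Adj x x' ∧ I = {x, x'}) ∧
      ∀ v x, r = some v → dg G v = 3 → df G κ v = 1 → G.Adj v x → dg G x = 2 →
        x ∈ I ∧ (D1 G x → I = {x}) by
    obtain ⟨I, h1, h2⟩ := this
    exact ⟨_, sta hP hG hR hO False I hN.1 False.elim h1 False.elim
      (fun x x' a b c => .inl (hN.2 x x' a b c)) fun _ => h2⟩
  by_cases h : ∃ v x, r = some v ∧ dg G v = 3 ∧ df G κ v = 1 ∧ G.Adj v x ∧ dg G x = 2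
  swap
  · exact ⟨∅, .inl rfl, fun v x a b c d e => absurd ⟨v, x, a, b, c, d, e⟩ h⟩
  obtain ⟨v, x, a, b, c, d, e⟩ := h
  have u : ∀ v' y, r = some v' → G.Adj v' y → dg G y = 2 → y = x := fun v' y a' d' e' => by
    obtain rfl : v = v' := Option.some.inj (a.symm.trans a')
    have k := cnt (κ := κ) hR (show Co G v from b.ge)
    rw [if_pos a] at k
    have l : #(univ.filter fun x => G.Adj v x ∧ dg G x = 2) ≤ n1 G v + n2 G v :=
      (card_le_card fun y hy => by
        by_cases m : D1 G y <;> simp [(mem_filter.1 hy).2, m]).trans (card_union_le _ _)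
    exact card_le_one.1 (l.trans (by omega)) y (mem_filter.2 ⟨mem_univ _, d', e'⟩) x
      (mem_filter.2 ⟨mem_univ _, d, e⟩)
  by_cases f : D1 G x
  · exact ⟨{x}, .inr (.inl ⟨x, f, rfl⟩), fun v' y a' _ _ d' e' => by simp [u v' y a' d' e']⟩
  · obtain ⟨y, g, k⟩ : ∃ y, G.Adj x y ∧ ¬Co G y := by simpa [D1, e] using f
    have := hG.nb x y e g
    exact ⟨{x, y}, .inr (.inr ⟨x, y, e, by unfold K Co at *; omega, g, rfl⟩),
      fun v' y a' _ _ d' e' => by simp [u v' y a' d' e', f]⟩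

theorem par {y : V} (hy : K G y) {γ : ZMod 2} (h : ∑ v ∈ univ.filter (K G), κ v ≠ γ) :
    ∑ v ∈ univ.filter (K G), Function.update κ y (κ y + 1) v = γ := by
  have m : y ∈ univ.filter (K G) := mem_filter.2 ⟨mem_univ _, hy⟩
  rw [sum_update_of_mem m]
  rw [sum_eq_add_sum_sdiff_singleton_of_mem m] at h
  revert h
  generalize ∑ v ∈ _, κ v = a, κ y = b
  revert a b γ
  decide

end

end TExA

open TExA

theorem exA : SExA := by
  intro hP V _ G r γ τ fr hG hR hf
  obtain ⟨⟨κ₀, h0⟩, p2, p3, -⟩ := hP V G (om G r τ) (mm G) mm_symm (mm_self hG) mm_co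
  have nc : ∀ x, dg G x = 2 → ¬Co G x := fun x h => by unfold Co; omega
  obtain ⟨κ, hO, hN⟩ : ∃ κ, Opt G (om G r τ) (mm G) κ ∧ Nm G κ := by
    set e := Fintype.equivFin V
    refine ⟨fun x => if Co G x then κ₀ x else if ∃ y, dg G y = 2 ∧ G.Adj x y ∧ e y < e x then 0 else 1,
      p2 _ _ (fun v hv => if_pos hv) h0, fun x h => ?_, fun x y a b c => ?_⟩
    · exact (if_neg (nc x h.1)).trans (if_neg fun ⟨y, a, b, _⟩ => nc y a (h.2 y b))
    · have k : ∀ x y, dg G x = 2 → dg G y = 2 → G.Adj x y →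
          ((∃ y, dg G y = 2 ∧ G.Adj x y ∧ e y < e x) ↔ e y < e x) := fun x y a b c =>
        ⟨fun ⟨y', d, f, g⟩ => hG.sh x y' y a d b f c ▸ g, fun g => ⟨y, b, c, g⟩⟩
      simp only [if_neg (nc x a), if_neg (nc y b), k x y a b c, k y x b a c.symm]
      rcases lt_or_gt_of_ne (e.injective.ne c.ne) with l | l <;> simp [l, l.not_gt]
  by_cases h : fr ∨ ∑ v ∈ univ.filter (K G), κ v = γ
  · obtain ⟨s, hs⟩ := staN hP hG hR hO hN
    exact ⟨κ, s, hs, h⟩
  obtain ⟨x, x', a, b, c⟩ := hf.resolve_left fun k => h (.inl k)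
  have h' := fun k => h (.inr k)
  have up : ∀ v, v ≠ x → Function.update κ x (κ x + 1) v = κ v := fun v hv =>
    Function.update_of_ne hv _ _
  have cx : ∀ v, Co G v → v ≠ x := fun v hv k => nc x a (k ▸ hv)
  have hO' := p2 κ _ (fun v hv => up v (cx v hv)) hO
  by_cases t : ∀ v, Co G v → 0 ≤ tk G r τ (Function.update κ x (κ x + 1)) v
  · refine ⟨_, _, sta hP hG hR hO' True {x, x'} (fun y hy => ?_) (fun _ => t)
      (.inr (.inr ⟨x, x', a, b, c, rfl⟩)) (fun _ => ⟨⟨insert_nonempty _ _, ?_⟩, fun y k => ?_⟩)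
      (fun y y' d e f => ?_) fun k => absurd trivial k, .inr (par a.ge h')⟩
    · rw [up y (by rintro rfl; exact nc x' b (hy.2 x' c)), hN.1 y hy]
    · rw [sum_pair c.ne, Function.update_self, up x' c.ne', add_right_comm, hN.2 x x' a b c]
      rfl
    · simpa [card_pair c.ne] using congrArg card k
    · rcases eq_or_ne y x with rfl | g
      · exact .inr ⟨trivial, by rw [hG.sh y y' x' a e b f c]⟩
      rcases eq_or_ne y' x with rfl | g'
      · exact .inr ⟨trivial, by rw [hG.sh y' y x' a d b f.symm c, pair_comm]⟩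
      · exact .inl (by rw [up y g, up y' g', hN.2 y y' d e f])
  · push Not at t
    obtain ⟨v, hv, t⟩ := t
    have k := key (τ := τ) (κ := Function.update κ x (κ x + 1)) hG hR hv
    have o := p2 _ (Function.update κ v (κ v + 1)) (fun u hu => by
      rcases eq_or_ne u v with rfl | l
      · rw [Function.update_self, Function.update_self, up u (cx u hu)]
      · rw [Function.update_of_ne l, Function.update_of_ne l, up u (cx u hu)])
      (p3 _ v hO' hv (by split_ifs at k <;> omega))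
    have uv : ∀ y, dg G y = 2 → Function.update κ v (κ v + 1) y = κ y := fun y hy =>
      Function.update_of_ne (by rintro rfl; exact nc y hy hv) _ _
    obtain ⟨s, hs⟩ := staN hP hG hR o ⟨fun y hy => by rw [uv y hy.1, hN.1 y hy],
      fun y y' d e f => by rw [uv y d, uv y' e, hN.2 y y' d e f]⟩
    exact ⟨_, s, hs, .inr (par (show K G v by unfold Co K at *; omega) h')⟩

end Pool.Agent.MP_d1f1f3_co.H47.TH
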