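import Pool.Agent.MP_d1f1f3_co.H47.TExB1

/-!
Row EXB: all threads have one inner vertex.
-/

namespace Pool.Agent.MP_d1f1f3_co.H47.TH

open Finset Relation H47 H2
open scoped Classical

noncomputable section

namespace TExB

variable {V : Type} [Fintype V] {D : Dt V} {κ : V → ZMod 2} {u v w : V}

/-- The conclusion of the row. -/
def Dt.Res (D : Dt V) : Prop :=
  ∃ κ s, Sta D.G D.r D.τ κ s ∧ ∑ v ∈ univ.filter (K D.G), κ v = D.γ

theorem E3_co (a : D.E3 v) : Co D.G v := a.1.ge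

theorem Fc_fl (h : D.Ok) (hu : u ≠ v) (hw : w ≠ v) : Fc D.G (D.fl κ v) u w ↔ Fc D.G κ u w :=
  and_congr_right fun _ => and_congr_right fun a => and_congr_right fun b => by
    rw [fl_ne h κ a hu, fl_ne h κ b hw]

theorem t_fl (h : D.Ok) (κ : V → ZMod 2) (hu : Co D.G u) (hv : u ≠ v) :
    D.t (D.fl κ v) u + df D.G (D.fl κ v) u = D.t κ u + df D.G κ u := by
  simp only [Dt.t, tau, Wv, Bw, fl_ne h κ hu hv]
  ring_nf

theorem df_pos (a : Fc D.G κ u w) : 1 ≤ df D.G κ u :=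
  card_pos.2 ⟨w, mem_filter.2 ⟨mem_univ _, a⟩⟩

theorem hc_pos (a : Hc D.G κ u w) : 1 ≤ hc D.G κ u :=
  card_pos.2 ⟨w, mem_filter.2 ⟨mem_univ _, a⟩⟩

theorem df_zero (a : ∀ w, ¬Fc D.G κ u w) : df D.G κ u = 0 :=
  card_eq_zero.2 (filter_eq_empty_iff.2 fun w _ => a w)

theorem not_Fc (h : D.Ok) (hu : u ≠ v) (a : Fc D.G (D.fl κ v) u v) : κ u ≠ κ v := by
  have := a.2.2.2
  rw [fl_ne h κ a.2.1 hu, fl_self h κ a.2.2.1] at this
  exact fun e => (z3 _ _).1 this.symm e.symm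

theorem df_le (h : D.Ok) (hu : u ≠ v) (a : D.G.Adj u v → κ u = κ v) :
    df D.G (D.fl κ v) u ≤ df D.G κ u :=
  card_le_card (monotone_filter_right _ fun w _ b =>
    (Fc_fl h hu fun e => by subst e; exact not_Fc h hu b (a b.1)).1 b)

theorem df_lt (h : D.Ok) (a : Fc D.G κ u v) : df D.G (D.fl κ v) u < df D.G κ u :=
  card_lt_card ⟨monotone_filter_right _ fun w _ b =>
    (Fc_fl h a.1.ne fun e => by subst e; exact not_Fc h a.1.ne b a.2.2.2).1 b, fun b =>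
      not_Fc h a.1.ne (mem_filter.1 (b (mem_filter.2 ⟨mem_univ _, a⟩))).2 a.2.2.2⟩

theorem g_E3 (h : D.Ok) (κ : V → ZMod 2) (a : D.E3 v) (b : D.r ≠ some v) :
    D.g κ v = 2 * D.t κ v := by
  rw [key h κ (E3_co a), if_pos a.1, if_pos a.2, if_neg b]
  ring

theorem paid (a : dg D.G v = 3) (b : 1 ≤ D.t κ v) : df D.G κ v = 0 := by
  rw [t3 κ a] at b
  split_ifs at b <;> omega

theorem t_all (h : D.Ok) (hκ : D.Cd κ) (a : ∀ v, D.r = some v → 0 ≤ D.t κ v) (hv : Co D.G v) :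
    0 ≤ D.t κ v := by
  by_cases b : D.r = some v
  exacts [a v b, t_ge h hκ hv b]

theorem G1 (h : D.Ok) (hκ : D.Cd κ) (hx : κ D.x = 1) (a : ∀ v, D.r = some v → 0 ≤ D.t κ v) :
    D.Res :=
  state h hκ True False (fun _ => a)
    (fun _ _ b _ _ _ => Or.inr ⟨t_all h hκ a b.ge, fun _ _ => Or.inl trivial⟩)
    (fun e => absurd (hx.symm.trans e) (by decide)) False.elim

theorem G3 (h : D.Ok) (hκ : D.Cd κ) (hx : κ D.x = 0) (a : ∀ v, D.r = some v → 0 ≤ D.t κ v)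
    (b : ∀ p, D.E3 p → κ p = 0 → 1 ≤ D.t κ p) : D.Res :=
  state h hκ True False (fun _ => a)
    (fun _ _ b _ _ _ => Or.inr ⟨t_all h hκ a b.ge, fun _ _ => Or.inl trivial⟩)
    (fun _ => ⟨b, Or.inl trivial⟩) False.elim

theorem caseB (h : D.Ok) {ρ : V} (hr : D.r = some ρ) (hρ : D.E3 ρ) (hw : D.wb = 1) : D.Res := by
  have cρ := E3_co hρ
  have k : ∀ κ, D.g κ ρ = 2 * D.t κ ρ + if κ ρ = D.τ then 2 else 0 := fun κ => by
    rw [key h κ cρ, if_pos hρ.1, if_pos hρ.2, if_pos hr, hw]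
    split_ifs <;> ring
  have rt : ∀ κ, D.Cd κ → κ ρ ≠ D.τ → ∀ v, D.r = some v → 0 ≤ D.t κ v := fun κ a b v e => by
    obtain rfl := Option.some.inj (hr.symm.trans e)
    have h1 := g_ge h a cρ
    rw [k, if_neg b] at h1
    omega
  obtain ⟨κ, hκ, nb⟩ : ∃ κ, D.Cd κ ∧ κ ρ ≠ D.τ := by
    obtain ⟨κ, hκ⟩ := ex h
    by_cases a : κ ρ = D.τ
    · refine ⟨_, flip h hκ cρ ?_, ?_⟩
      · rw [k, if_pos a, t3 κ hρ.1, if_pos (show Bw D.r D.τ κ ρ from ⟨hr, a⟩)]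
        split_ifs <;> omega
      · rw [fl_self h κ cρ]
        exact fun e => (z3 _ _).1 e a
    · exact ⟨κ, hκ, a⟩
  rcases z2 (κ D.x) with hx | hx
  swap
  · exact G1 h hκ hx (rt κ hκ nb)
  have nr : ∀ q, q ≠ ρ → D.r ≠ some q := fun q a e => a (Option.some.inj (e.symm.trans hr))
  by_cases a : ∃ q, D.E3 q ∧ q ≠ ρ ∧ D.t κ q ≤ 0
  · obtain ⟨q, a1, a2, a3⟩ := a
    have c := flip h hκ (E3_co a1) (by rw [g_E3 h κ a1 (nr q a2)]; omega)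
    exact G1 h c (by rw [fl_x h κ (E3_co a1), hx, zero_add])
      (rt _ c (by rwa [fl_ne h κ cρ a2.symm]))
  push Not at a
  by_cases b : κ ρ = 0 → 1 ≤ D.t κ ρ
  · refine G3 h hκ hx (rt κ hκ nb) fun p c d => ?_
    by_cases e : p = ρ
    · exact e ▸ b (e ▸ d)
    · exact a p c e
  obtain ⟨b1, b2⟩ := Classical.not_imp.1 b
  have c := flip h hκ cρ (by rw [k, if_neg nb]; omega)
  have d1 := deg h κ cρ
  have d2 := t3 κ hρ.1
  rw [if_neg (by rw [b1]; decide), if_neg fun e : Bw D.r D.τ κ ρ => nb e.2] at d2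
  rw [if_pos hρ.2, if_pos hr, hρ.1] at d1
  have f1 : D.fl κ ρ ρ = 1 := by rw [fl_self h κ cρ, b1, zero_add]
  have nh : ∀ y, D.G.Adj ρ y → Co D.G y → D.fl κ ρ y ≠ 1 := fun y e1 e2 e3 => by
    rw [fl_ne h κ e2 e1.ne'] at e3
    have := hc_pos (κ := κ) ⟨e1, cρ, e2, by rw [b1, e3]; decide⟩
    omega
  refine state h c False True False.elim (fun v y e1 e2 _ _ => ?_)
    (fun e => absurd e (by rw [fl_x h κ cρ, hx]; decide)) fun _ => ⟨id,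
      by rw [fl_x h κ cρ, hx, zero_add], (z2 D.τ).resolve_left fun e => nb (b1.trans e.symm),
      ρ, hr, hρ, f1, df_zero fun y e => nh y e.1 e.2.2.1 (e.2.2.2.symm.trans f1), by omega⟩
  by_cases e : v = ρ
  · exact Or.inl ⟨trivial, e ▸ hr⟩
  refine Or.inr ⟨t_ge h c e1.ge (nr v e), fun _ e3 => Or.inr ?_⟩
  have h1 := paid e1 (a v ⟨e1, e3⟩ e)
  have h2 := df_le (κ := κ) h e fun e4 => absurd e2 (nh v e4.symm e1.ge)
  omega

theorem caseA (h : D.Ok) (hw : D.wb = 2)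
    (hA : ∀ v y, D.r = some v → dg D.G v = 3 → D.G.Adj v y → dg D.G y ≠ 2) : D.Res := by
  have nr : ∀ p, D.E3 p → D.r ≠ some p := fun p a e => hA p _ e a.1 a.2 h.dx
  have G24 : ∀ κ, D.Cd κ → (κ D.x = 1 → ∀ p, D.E3 p → κ p = 1 → 1 ≤ D.t κ p) →
      (κ D.x = 0 → (∀ p, D.E3 p → κ p = 0 → 1 ≤ D.t κ p) ∧
        ∃ p, D.E3 p ∧ κ p = 1 ∧ 1 ≤ D.t κ p) → D.Res := fun κ hκ a b =>
    state h hκ False False False.elim (fun v y e1 e2 e3 e4 => Or.inr ⟨t_ge h hκ e1.ge fun e =>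
      hA v y e e1 e3 e4, fun e5 e6 => Or.inr (paid e1 (a e5 v ⟨e1, e6⟩ e2))⟩)
      (fun e => ⟨(b e).1, Or.inr (b e).2⟩) False.elim
  have fE : ∀ κ p, D.Cd κ → D.E3 p → D.t κ p ≤ 0 → D.Cd (D.fl κ p) := fun κ p a b c =>
    flip h a (E3_co b) (by rw [g_E3 h κ b (nr p b)]; omega)
  have fR : ∀ κ ρ, D.Cd κ → D.r = some ρ → -1 ≤ D.t κ ρ ∧ (D.t κ ρ < 0 → D.Cd (D.fl κ ρ)) :=
    fun κ ρ a b => by
      have h1 := g_le h κ (h.rr ρ b).1
      have h2 := g_ge h a (h.rr ρ b).1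
      rw [if_pos b] at h1
      exact ⟨by omega, fun c => flip h a (h.rr ρ b).1 (by omega)⟩
  obtain ⟨κ, hκ, hm⟩ := exists_max_image (univ.filter D.Cd)
    (fun κ => #(univ.filter fun p => D.E3 p ∧ κ p = 0))
    ((ex h).imp fun κ a => mem_filter.2 ⟨mem_univ _, a⟩)
  replace hκ := (mem_filter.1 hκ).2
  have mx : ∀ κ', D.Cd κ' → (∀ p, D.E3 p → κ' p = κ p) → ∀ p, D.E3 p → κ' p = 1 →
      1 ≤ D.t κ' p := fun κ' a b p c d => by
    by_contra e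
    refine (hm _ (mem_filter.2 ⟨mem_univ _, fE κ' p a c (by omega)⟩)).not_gt
      (card_lt_card ⟨monotone_filter_right _ fun q _ f => ⟨f.1, ?_⟩, fun f => ?_⟩)
    · have : q ≠ p := fun g => absurd (d.symm.trans ((b p c).trans (g ▸ f.2))) (by decide)
      rw [fl_ne h κ' (E3_co f.1) this, b q f.1, f.2]
    · have := (mem_filter.1 (f (mem_filter.2 ⟨mem_univ p, c, by
        rw [fl_self h κ' (E3_co c), d]; decide⟩))).2.2
      exact absurd (d.symm.trans ((b p c).trans this)) (by decide)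
  rcases z2 (κ D.x) with hx | hx
  swap
  · exact G24 κ hκ (fun _ => mx κ hκ fun _ _ => rfl) fun e => absurd (hx.symm.trans e) (by decide)
  by_cases a : ∃ ρ, D.r = some ρ ∧ D.t κ ρ < 0
  · obtain ⟨ρ, a1, a2⟩ := a
    have c := (fR κ ρ hκ a1).2 a2
    exact G24 _ c (fun _ => mx _ c fun p e => fl_ne h κ (E3_co e) fun f => nr p e (f ▸ a1))
      fun e => absurd e (by rw [fl_x h κ (h.rr ρ a1).1, hx]; decide)
  push Not at a
  by_cases b : ∀ p, D.E3 p → κ p = 0 → 1 ≤ D.t κ p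
  · exact G3 h hκ hx a b
  push Not at b
  obtain ⟨p, b1, b2, b3⟩ := b
  by_cases c : ∃ q, D.E3 q ∧ D.t κ q ≤ 0 ∧ ∀ v, D.r = some v → 0 ≤ D.t (D.fl κ q) v
  · obtain ⟨q, c1, c2, c3⟩ := c
    exact G1 h (fE κ q hκ c1 c2) (by rw [fl_x h κ (E3_co c1), hx, zero_add]) c3
  push Not at c
  obtain ⟨ρ, hr, tρ⟩ := c p b1 (by omega)
  have cρ := (h.rr ρ hr).1
  have cp := E3_co b1
  have ne : ∀ q, D.E3 q → ρ ≠ q := fun q e f => nr q e (f ▸ hr)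
  have ad : ∀ q, D.E3 q → D.t κ q ≤ 0 → D.G.Adj ρ q ∧ κ ρ ≠ κ q := fun q e1 e2 => by
    obtain ⟨ρ', e3, e4⟩ := c q e1 e2
    obtain rfl := Option.some.inj (hr.symm.trans e3)
    by_contra e5
    have h1 := df_le (κ := κ) h (ne q e1) fun e => by_contra fun f => e5 ⟨e, f⟩
    have h2 := t_fl h κ cρ (ne q e1)
    have h3 := a ρ hr
    omega
  obtain ⟨a1, a2⟩ := ad p b1 (by omega)
  have c1 := fE κ p hκ b1 (by omega)
  have c2 := (fR _ ρ c1 hr).2 tρ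
  have kρ : κ ρ = 1 := (z2 _).resolve_left fun e => a2 (e.trans b2.symm)
  have f1 : D.fl (D.fl κ p) ρ p = 1 := by
    rw [fl_ne h _ cp a1.ne', fl_self h κ cp, b2, zero_add]
  have f2 : D.fl (D.fl κ p) ρ ρ = 0 := by
    rw [fl_self h _ cρ, fl_ne h κ cρ a1.ne, kρ]
    decide
  have f3 : D.fl (D.fl κ p) ρ D.x = 0 := by
    rw [fl_x h _ cρ, fl_x h κ cp, hx]
    decide
  have f4 : ∀ y, Co D.G y → y ≠ p → y ≠ ρ → D.fl (D.fl κ p) ρ y = κ y := fun y e1 e2 e3 => by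
    rw [fl_ne h _ e1 e3, fl_ne h κ e1 e2]
  generalize D.fl (D.fl κ p) ρ = κ₂ at c2 f1 f2 f3 f4
  have nb : ∀ κ' q, D.E3 q → ¬Bw D.r D.τ κ' q := fun κ' q e f => nr q e f.1
  by_cases d : ∀ q, D.E3 q → κ₂ q = 0 → 1 ≤ D.t κ₂ q
  · refine G24 _ c2 (fun e => absurd (e.symm.trans f3) (by decide)) fun _ => ⟨d, p, b1, f1, ?_⟩
    have d1 := deg h κ cp
    have d2 := t3 κ b1.1
    have d3 : Hc D.G κ p ρ := ⟨a1.symm, cp, cρ, a2.symm⟩
    have d4 := hc_pos d3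
    rw [if_neg (by rw [b2]; decide), if_neg (nb κ p b1)] at d2
    rw [if_pos b1.2, if_neg (nr p b1), b1.1] at d1
    have d5 : df D.G κ₂ p = 0 := df_zero fun y e => by
      have e1 : y ≠ ρ := fun f => absurd (f1.symm.trans (e.2.2.2.trans (f ▸ f2))) (by decide)
      have e2 : Hc D.G κ p y := ⟨e.1, cp, e.2.2.1, by
        rw [← f4 y e.2.2.1 e.1.ne' e1, ← e.2.2.2, f1, b2]; decide⟩
      have : 1 < hc D.G κ p := one_lt_card.2 ⟨y, mem_filter.2 ⟨mem_univ _, e2⟩, ρ,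
        mem_filter.2 ⟨mem_univ _, d3⟩, e1⟩
      omega
    rw [t3 κ₂ b1.1, if_pos f1, if_neg (nb _ p b1)]
    omega
  push Not at d
  obtain ⟨q, d1, d2, d3⟩ := d
  have cq := E3_co d1
  have qp : q ≠ p := fun e => absurd (f1.symm.trans (e ▸ d2)) (by decide)
  have a3 : D.G.Adj ρ q := by_contra fun e => by
    refine e (ad q d1 ?_).1
    rw [t3 κ₂ d1.1, if_neg (by rw [d2]; decide), if_neg (nb _ q d1)] at d3
    obtain ⟨y, hy⟩ := card_pos.1 (show 0 < df D.G κ₂ q by omega)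
    have e1 := (mem_filter.1 hy).2
    have e2 : y ≠ p := fun f => absurd (f1.symm.trans (f ▸ e1.2.2.2.symm.trans d2)) (by decide)
    have e3 : y ≠ ρ := fun f => e (f ▸ e1.1.symm)
    have := df_pos (κ := κ) ⟨e1.1, cq, e1.2.2.1, by
      rw [← f4 q cq qp (ne q d1).symm, ← f4 y e1.2.2.1 e2 e3, e1.2.2.2]⟩
    rw [t3 κ d1.1]
    split_ifs <;> omega
  refine G1 h (fE κ₂ q c2 d1 (by omega)) (by rw [fl_x h _ cq, f3, zero_add]) fun v e => ?_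
  obtain rfl := Option.some.inj (hr.symm.trans e)
  have h1 := df_lt (κ := κ₂) h ⟨a3, cρ, cq, f2.trans d2.symm⟩
  have h2 := t_fl h κ₂ cρ a3.ne
  have h3 := (fR κ₂ ρ c2 hr).1
  omega

end TExB

open TExB in
theorem exB : SExB := by
  intro pot V _ G r γ τ gr rr ⟨x, hx⟩ nd one no
  by_cases a : ∃ v y, r = some v ∧ dg G v = 3 ∧ G.Adj v y ∧ dg G y = 2
  · obtain ⟨ρ, y, a1, a2, a3, a4⟩ := a
    exact caseB (D := ⟨G, r, γ, τ, y, 1⟩) ⟨pot, gr, rr, a4, nd, one, no, Or.inr ⟨rfl,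
      fun v e => Option.some.inj (a1.symm.trans e) ▸ ⟨a2, a3⟩⟩⟩ a1 ⟨a2, a3⟩ rfl
  · push Not at a
    exact caseA (D := ⟨G, r, γ, τ, x, 2⟩) ⟨pot, gr, rr, hx, nd, one, no, Or.inl rfl⟩ rfl a

end

end Pool.Agent.MP_d1f1f3_co.H47.TH
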