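import Pool.Agent.MP_d1f1f3_co.H47.SpecT
import Pool.Agent.MP_d1f1f3_co.H47.Alev
import Pool.Agent.MP_d1f1f3_co.H47.Tree
import Pool.Agent.MP_d1f1f3_co.H2.Gen
import Pool.Agent.MP_d1f1f3_co.H2.Pre
import Pool.Agent.MP_d1f1f3_co.H2.Exch
import Pool.Agent.MP_d1f1f3_co.H2.Ga
import Pool.Agent.MP_d1f1f3_co.H2.Gx
import Pool.Agent.MP_d1f1f3_co.H2.Gs
import Pool.Agent.MP_d1f1f3_co.H2.Gn0
import Pool.Agent.MP_d1f1f3_co.H2.Gn1
import Pool.Agent.MP_d1f1f3_co.H2.Gns
import Pool.Agent.MP_d1f1f3_co.H2.Gc1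
import Pool.Agent.MP_d1f1f3_co.H2.Gc2
import Pool.Agent.MP_d1f1f3_co.H2.Gh2

/-!
The frame, with the extra information that merged arcs are separated.
-/

namespace Pool.Agent.MP_d1f1f3_co.H47.TH

open Finset Relation H47 H2 H2.Gen
open scoped Classical

theorem genH : SGenH := by
  intro V _ c d γ ho hp hk
  have z : ∀ j : ZMod 2, j ≠ 1 → j = 0 := by decide
  obtain ⟨a, i₀, o₀, m⟩ := ga pre (alev tree) V c d γ ho hp hk
  set f : Fr V := ⟨c, d, a, i₀, o₀⟩
  obtain ⟨hE, t⟩ := gx V f γ m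
  obtain ⟨i, o, p1, p2, p3⟩ := exch V _ f.E f.Bf f.Li f.Lo f.al f.om f.loc f.sp f.i f.o hE
    fun ⟨l, j⟩ B r s => by
      by_cases h : l = none ∨ j = 1
      · exact (gns V f γ _ B r m hE s h).trans_le (Nat.zero_le _)
      push Not at h
      obtain ⟨p, rfl⟩ := Option.ne_none_iff_exists'.1 h.1
      obtain rfl := z j h.2
      have s := gs V f γ p B r m hE s
      by_cases e : ¬Co f.c.G p ∨ ¬f.d.J ∨ f.c.κ p = 1 ∨ f.d.t p < 0
      · exact (gn1 V f γ p B r m s e).trans_le (Nat.zero_le _)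
      push Not at e
      exact gn0 V f γ p B r m s e.1 e.2.1 (z _ e.2.2.1) e.2.2.2
  have p : f.Post i o := ⟨p1, p2, p3⟩
  obtain ⟨ch, st⟩ := gc1 V f γ i o m p
  have cf := gc2 V f γ i o m p ch
  refine ⟨a, f.E, f.Y, f.fi i, f.fo o, ⟨m.sym, m.root, m.sum, fun v hv j => ?_, fun v y => ?_, ch,
    fun u w e h => ?_, ⟨h1 m t cf, fun u w F => ?_⟩, fun v hv n => ?_, st⟩, fun hP v y => ?_⟩
  · refine (le_or_gt _ _).imp_right fun h => ?_
    have y : f.Y v := ⟨hv, j, h⟩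
    obtain rfl := big m y h
    exact ⟨y, (Gen.cl m p y).1, (Gen.cl m p y).2, (m.yc v y).2.2.1⟩
  · refine ⟨(m.yc v y).1, (Gen.cl m p y).1.trans (Gen.cl m p y).2.symm, ?_⟩
    rw [show a v (f.fi i v) = _ from (Gen.cl m p y).1]
    exact (m.yc v y).2.2.1
  · rw [Fr.E, rv m (h.imp_right fun h => h.imp_right fun h => ⟨h.1, h.2.1⟩),
      rv m (u := w) (by tauto), and_iff_right e]
  · rcases ho.real u w F.1 with h | h
    · exact gh2 V f γ i o m t cf u w (mem_filter.2 ⟨mem_univ _, h, F⟩)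
    · have := gh2 V f γ i o m t cf w u
        (mem_filter.2 ⟨mem_univ _, h, F.1.symm, F.2.2.1, F.2.1, F.2.2.2.symm⟩)
      rw [pair_comm, add_comm (f.val i o w u)] at this
      exact this
  · have := tk t cf hv
    rw [if_neg fun r => n (run_pi r).2] at this
    have := Nat.cast_nonneg (α := ℤ) #(f.Gs v)
    linarith
  · have n : v ∉ f.d.Pi := fun h => notMem_empty v (hP ▸ h)
    unfold Fr.fi
    split_ifs with h1 h2
    · exact (mem_filter.1 (p.mem v h1).1).2.2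
    · exact absurd (run_pi h2).2 n
    · have := (m.yc v y).2.2.2.1
      rw [Cx.II, if_neg n] at this
      split_ifs at this
      · rw [mem_singleton.1 this]
        exact fun F => ho.kz (le_trans (by norm_num) F.2.2.1)
      · exact (mem_filter.1 this).2.1

end Pool.Agent.MP_d1f1f3_co.H47.TH
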