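import Pool.Agent.MP_d1f1f3_co.H47.SpecT
import Pool.Agent.MP_d1f1f3_co.H33.Spec

/-! Row LOC: the local conditions at the threads give the colouring. -/

namespace Pool.Agent.MP_d1f1f3_co.H47.TH

open Finset Relation H47 H2
open scoped Classical

namespace TLoc

variable {V : Type} [Fintype V] {c : Cx V} {p : Pl V} {γ τ : ℕ} {L : V × V → ℤ} {τ' : V → ℤ}
  {a : V → V → ZMod 2} {b : V → V → ℤ}

theorem z01 (x : ZMod 2) : x = 0 ∨ x = 1 := by revert x; decide

theorem cast_eq (m n : ℕ) : (m : ZMod 2) = n ↔ m % 2 = n % 2 := ZMod.natCast_eq_natCast_iff' m n 2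

theorem cast1 (m : ℕ) : (m : ZMod 2) = 1 ↔ m % 2 = 1 := cast_eq m 1

theorem cast0 (m : ℕ) : (m : ZMod 2) = 0 ↔ m % 2 = 0 := cast_eq m 0

omit [Fintype V] in
theorem cl_cast (u w : V) : (cl a b u w : ZMod 2) = a u w := Frame.col_cast _ _

omit [Fintype V] in
theorem a1 (u w : V) : a u w = 1 ↔ cl a b u w % 2 = 1 := by rw [← cast1, cl_cast]

omit [Fintype V] in
theorem a0 (u w : V) : a u w = 0 ↔ cl a b u w % 2 = 0 := by rw [← cast0, cl_cast]

theorem in_out (hO : Ori c.G c.A c.z c.ρ) {x u w : V} (hd : dg c.G x = 2) (hN : N c.G x = {u, w})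
    (h : c.A u x) : c.A x w := by
  have hK : K c.G x := hd.ge
  obtain ⟨y, hy⟩ := card_pos.1 (show 0 < #(Out c.A x) by have := (hO.smooth x hK).1; omega)
  have h1 : c.A x y := (mem_filter.1 hy).2
  have h2 := Frame.mem_N.2 (hO.outK x y hK h1)
  rw [hN, mem_insert, mem_singleton] at h2
  rcases h2 with rfl | rfl
  exacts [absurd h1 (hO.asym _ _ h), h1]

theorem out_in (hO : Ori c.G c.A c.z c.ρ) {x u w : V} (hd : dg c.G x = 2) (hw : c.G.Adj x w)
    (hne : u ≠ w) (h : c.A x u) : c.A w x := by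
  refine (hO.real x w hw).resolve_left fun h' => ?_
  have h1 : ({u, w} : Finset V) ⊆ Out c.A x := by
    intro y hy
    rw [mem_insert, mem_singleton] at hy
    rcases hy with rfl | rfl <;> exact mem_filter.2 ⟨mem_univ _, ‹_›⟩
  have h2 := card_le_card h1
  have h3 := (hO.smooth x hd.ge).2
  rw [card_pair hne] at h2
  omega

theorem head3 (hO : Ori c.G c.A c.z c.ρ) {w x y y' : V} (hd : dg c.G w = 3)
    (hN : ∀ t, c.G.Adj w t → t = x ∨ t = y ∨ t = y') (h : c.A x w) :
    (c.A w y ∨ c.A w y') ∧ (c.To w → c.A w y ∧ c.A w y') := by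
  have hK : K c.G w := by unfold K; omega
  have h1 : ∀ t ∈ Out c.A w, c.A w t ∧ (t = y ∨ t = y') := fun t ht =>
    have h2 := (mem_filter.1 ht).2
    ⟨h2, (hN t (hO.outK w t hK h2)).resolve_left fun e => hO.asym _ _ h (e ▸ h2)⟩
  refine ⟨?_, fun hT => ?_⟩
  · obtain ⟨t, ht⟩ := card_pos.1 (show 0 < #(Out c.A w) by have := (hO.smooth w hK).1; omega)
    obtain ⟨h2, rfl | rfl⟩ := h1 t ht
    exacts [Or.inl h2, Or.inr h2]
  · obtain ⟨s, hs, t, ht, hne⟩ := one_lt_card.1 (show 1 < #(Out c.A w) by have := hT.2.2; omega)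
    obtain ⟨h2, rfl | rfl⟩ := h1 s hs <;> obtain ⟨h3, rfl | rfl⟩ := h1 t ht
    exacts [absurd rfl hne, ⟨h2, h3⟩, ⟨h3, h2⟩, absurd rfl hne]

theorem to3 {v : V} (hd : dg c.G v = 3) (hY : c.Yc v) : c.To v :=
  hY.resolve_left fun h => by
    have := h.2.2.1
    rw [hd] at this
    exact absurd this (by decide)

section

variable (hF : Fa c p γ L τ' a b)
include hF

theorem sym (u w : V) : cl a b u w = cl a b w u := by simp only [cl, hF.sa u w, hF.sb u w]

theorem rng (u w : V) : 1 ≤ cl a b u w ∧ cl a b u w ≤ 4 := Frame.col_range _ (hF.bb u w)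

theorem b01 (u w : V) : b u w = 0 ∧ cl a b u w ≤ 2 ∨ b u w = 1 ∧ 3 ≤ cl a b u w := by
  have h := Frame.col_int (a u w) (hF.bb u w)
  have := hF.bb u w
  unfold cl
  split_ifs at h <;> omega

theorem kap {v : V} (hv : K c.G v) : c.κ v = (sg c.G (cl a b) v : ℕ) := by
  rw [sg, Nat.cast_sum, ← hF.sum v hv]
  exact sum_congr rfl fun w _ => (cl_cast _ _).symm

theorem qm (hL : Lc c p.Um γ τ a b) {v : V} (hv : Co c.G v) : H33.QM c.G (cl a b) v := by
  intro α
  have hs : ((N c.G v).filter fun w => cl a b v w = α) ⊆ (N c.G v).filter fun w => a v w = α :=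
    fun w hw => mem_filter.2 ⟨(mem_filter.1 hw).1, by rw [← (mem_filter.1 hw).2, cl_cast]⟩
  rcases hF.cls v hv α with h | ⟨hY, hc, h⟩
  · exact (card_le_card hs).trans h
  obtain ⟨x, y, hx, hy, e1, e2, hne⟩ : ∃ x y, c.G.Adj v x ∧ c.G.Adj v y ∧ a v x = α ∧ a v y = α ∧
      b v x ≠ b v y := by
    refine h.elim (fun hU => ?_) id
    obtain ⟨hd, hq⟩ := hL.q v hU
    have e : ((N c.G v).filter fun w => a v w = α) = N c.G v :=
      eq_of_subset_of_card_le (filter_subset _ _) (by rw [hc, ← dg, hd])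
    have e' : ∀ w, c.G.Adj v w → a v w = α := fun w hw =>
      (mem_filter.1 (e.symm ▸ Frame.mem_N.2 hw : w ∈ (N c.G v).filter fun w => a v w = α)).2
    obtain ⟨x, y, hx, hy, hne⟩ := hq (to3 hd hY) fun x y hx hy => by rw [e' x hx, e' y hy]
    exact ⟨x, y, hx, hy, e' x hx, e' y hy, hne⟩
  refine Nat.le_of_lt_succ ((card_lt_card ⟨hs, fun h' => ?_⟩).trans_eq hc)
  have f1 := (mem_filter.1 (h' (mem_filter.2 ⟨Frame.mem_N.2 hx, e1⟩))).2
  have f2 := (mem_filter.1 (h' (mem_filter.2 ⟨Frame.mem_N.2 hy, e2⟩))).2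
  have := b01 hF v x
  have := b01 hF v y
  omega

/-- the three kinds of ends -/
theorem ends (hL : Lc c p.Um γ τ a b) {v x : V} (hv : Co c.G v) (hx : c.G.Adj v x) :
    (dg c.G v = 3 ∧ ∃ y y', (∀ t, c.G.Adj v t → t = x ∨ t = y ∨ t = y') ∧
      sg c.G (cl a b) v = cl a b v x + cl a b v y + cl a b v y' ∧
      ¬(cl a b v x = cl a b v y ∧ cl a b v x = cl a b v y') ∧
      (cl a b v x % 2 = cl a b v y % 2 ∧ cl a b v x % 2 = cl a b v y' % 2 → c.To v)) ∨
    (dg c.G v = 4 ∧ cl a b v x + 4 ≤ sg c.G (cl a b) v ∧ (sg c.G (cl a b) v = cl a b v x + 4 →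
      cl a b v x ≠ 1 ∧ ∀ y, y ≠ x → c.G.Adj v y → cl a b v y ≤ 2)) ∨
    cl a b v x + 5 ≤ sg c.G (cl a b) v := by
  have hq := qm hF hL hv
  have h1 := (H33.sg_ge (fun w _ => (rng hF v w).1) hq {x}
    (singleton_subset_iff.2 (Frame.mem_N.2 hx))).1
  rw [sum_singleton, card_singleton] at h1
  have hv' : 3 ≤ dg c.G v := hv
  rcases hv'.eq_or_lt with h3 | h3
  · refine Or.inl ⟨h3.symm, ?_⟩
    obtain ⟨y, y', hne, e⟩ := card_eq_two.1 (show #((N c.G v).erase x) = 2 by
      rw [card_erase_of_mem (Frame.mem_N.2 hx), ← dg, ← h3])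
    have hN : N c.G v = {x, y, y'} := by rw [← e, insert_erase (Frame.mem_N.2 hx)]
    have n1 : x ≠ y := fun h => notMem_erase x (N c.G v) (by rw [e, h]; simp)
    have n2 : x ≠ y' := fun h => notMem_erase x (N c.G v) (by rw [e, h]; simp)
    have hm : ∀ t, c.G.Adj v t → t = x ∨ t = y ∨ t = y' := fun t ht => by
      simpa [hN] using Frame.mem_N.2 ht
    obtain ⟨-, e1, e2⟩ := H33.loc3 (c := cl a b) hN n1 n2 hne
    refine ⟨y, y', hm, e1, e2.1 hq, fun h => ?_⟩
    have e3 : ((N c.G v).filter fun w => a v w = a v x) = N c.G v := filter_true_of_mem fun t ht => by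
      rw [← cl_cast (a := a) (b := b) v t, ← cl_cast (a := a) (b := b) v x, cast_eq]
      rcases hm t (Frame.mem_N.1 ht) with rfl | rfl | rfl
      exacts [rfl, h.1.symm, h.2.symm]
    rcases hF.cls v hv (a v x) with h' | h'
    · rw [e3, ← dg] at h'
      omega
    · exact to3 h3.symm h'.1
  rcases (Nat.succ_le_of_lt h3).eq_or_lt with h4 | h4
  · refine Or.inr (Or.inl ⟨h4.symm, by omega, fun e => ⟨fun e1 => ?_, fun y hy hvy => ?_⟩⟩)
    · rw [filter_true_of_mem (by simpa using e1), card_singleton] at h1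
      omega
    · have h2 := (H33.sg_ge (fun w _ => (rng hF v w).1) hq {y, x} (insert_subset
        (Frame.mem_N.2 hvy) (singleton_subset_iff.2 (Frame.mem_N.2 hx)))).1
      rw [sum_pair hy, card_pair hy] at h2
      omega
  · exact Or.inr (Or.inr (by omega))

theorem short (hO : Ori c.G c.A c.z c.ρ) (hL : Lc c p.Um γ τ a b) {u x w : V}
    (h : Th c.G u x x w) (hA : c.A u x) : cl a b u x ≠ cl a b x w ∧
      cl a b u x + cl a b x w ≠ sg c.G (cl a b) u ∧ cl a b u x + cl a b x w ≠ sg c.G (cl a b) w := by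
  obtain ⟨cu, cw, dx, -, ux, xw, h7⟩ := id h
  have uw : u ≠ w := (h7.resolve_right (c.G.loopless.irrefl x)).2
  have hN := H33.N2 dx ux.symm xw uw
  have Axw := in_out hO dx hN hA
  have sx := (H33.loc2 (c := cl a b) hN uw).2.1
  have kx := kap hF (v := x) dx.ge
  have ku := kap hF (v := u) (le_trans (by norm_num) cu)
  have kw := kap hF (v := w) (le_trans (by norm_num) cw)
  have s1 := sym hF x u
  have s2 := sym hF w x
  have r0 := rng hF u x
  have r1 := rng hF x w
  have l0 := b01 hF u x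
  have l1 := b01 hF x w
  clear h7
  rcases z01 (c.κ x) with k | k
  · have q1 := (hL.k1e u x w h hA k).1
    have k' := k
    rw [kx, cast0] at k'
    refine ⟨by omega, fun e => ?_, fun e => ?_⟩
    · have k2 : c.κ u = 0 := by rw [ku, cast0]; omega
      have q4 := ((hL.k1e u x w h hA k).2.1 k2).1
      rcases ends hF hL cu ux with ⟨d, y, y', m, e1, -, -⟩ | ⟨-, e1, -⟩ | e1
      · obtain ⟨t, t1, t2, t3⟩ := ((hL.k1e u x w h hA k).2.1 k2).2 d
        have := rng hF u y
        have := rng hF u y'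
        have := b01 hF u t
        rw [a0 (b := b)] at t3
        rcases m t t2 with rfl | rfl | rfl
        exacts [t1 rfl, by omega, by omega]
      · omega
      · omega
    · have k2 : c.κ w = 0 := by rw [kw, cast0]; omega
      rcases ends hF hL cw xw.symm with ⟨d, y, y', m, e1, -, -⟩ | ⟨d, e1, e2⟩ | e1
      · rcases ((hL.k1e u x w h hA k).2.2 k2).2 d with q6 | ⟨q6, t, t1, t2, t3⟩
        · rw [if_congr (a1 (b := b) u x) rfl rfl] at q6
          split_ifs at q6 <;> omega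
        · have := rng hF w y
          have := rng hF w y'
          have := b01 hF w t
          rcases m t t2 with rfl | rfl | rfl
          exacts [t1 rfl, by omega, by omega]
      · obtain ⟨t, t2, t3⟩ := ((hL.k1e u x w h hA k).2.2 k2).1 d
        replace e2 := (e2 (e.symm.trans (by omega))).2 t
        have := b01 hF w t
        by_cases t1 : t = x
        · subst t1
          omega
        · replace e2 := e2 t1 t2
          omega
      · omega
  · have q1 := (hL.k1o u x w h hA k).1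
    have k' := k
    rw [kx, cast1] at k'
    refine ⟨by omega, fun e => ?_, fun e => ?_⟩
    · have k2 : c.κ u = 1 := by rw [ku, cast1]; omega
      rcases ends hF hL cu ux with ⟨d, y, y', m, e1, e2, e3⟩ | ⟨-, e1, -⟩ | e1
      · have := rng hF u y
        have := rng hF u y'
        rcases (hL.k1o u x w h hA k).2.1 d k2 with q4 | q4 | ⟨t, t1, t2, t3⟩
        · clear e3
          omega
        · exact q4 (e3 (by clear e3; omega))
        · have := b01 hF u t
          clear e3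
          rcases m t t2 with rfl | rfl | rfl
          exacts [t1 rfl, by omega, by omega]
      · omega
      · omega
    · have k2 : c.κ w = 1 := by rw [kw, cast1]; omega
      rcases ends hF hL cw xw.symm with ⟨d, y, y', m, e1, e2, e3⟩ | ⟨d, e1, e2⟩ | e1
      · have := rng hF w y
        have := rng hF w y'
        rcases (hL.k1o u x w h hA k).2.2 d k2 with q4 | q4
        · clear e3
          omega
        · obtain ⟨o1, o2⟩ := head3 hO d m Axw
          have := b01 hF w y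
          have := b01 hF w y'
          have o3 : b w y = 1 ∨ b w y' = 1 := o1.imp (q4 _) (q4 _)
          obtain ⟨o4, o5⟩ := o2 (e3 (by clear e3 o1 o2; omega))
          have := q4 _ o4
          have := q4 _ o5
          clear e3 o1 o2
          omega
      · exact (e2 (by clear e2; omega)).1 (by clear e2; omega)
      · omega

omit [Fintype V] hF in
theorem pick {c0 c1 su sw : ℕ} (h : c0 = 1 ∨ c1 = 1 →
    (2 = c0 ∨ 2 = c1 ∨ c0 + 2 = su ∨ 2 + c1 = sw) → (3 = c0 ∨ 3 = c1 ∨ c0 + 3 = su ∨ 3 + c1 = sw) →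
    (4 = c0 ∨ 4 = c1 ∨ c0 + 4 = su ∨ 4 + c1 = sw) → False) (gu : c0 + 2 ≤ su) (gw : c1 + 2 ≤ sw) :
    ∃ m, 1 ≤ m ∧ m ≤ 4 ∧ m ≠ c0 ∧ m ≠ c1 ∧ c0 + m ≠ su ∧ m + c1 ≠ sw := by
  by_contra hc
  push Not at hc
  refine h ?_ ?_ ?_ ?_ <;> clear h
  · have := hc 1
    omega
  · have := hc 2
    omega
  · have := hc 3
    omega
  · have := hc 4
    omega

theorem low (hL : Lc c p.Um γ τ a b) {v x : V} (hv : Co c.G v) (hx : c.G.Adj v x) :
    cl a b v x + 2 ≤ sg c.G (cl a b) v := by
  rcases ends hF hL hv hx with ⟨-, y, y', -, e1, -, -⟩ | ⟨-, e1, -⟩ | e1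
  · have := rng hF v y
    have := rng hF v y'
    omega
  · omega
  · omega

theorem long (hL : Lc c p.Um γ τ a b) {u x x' w : V} (h : Th c.G u x x' w)
    (xx : c.G.Adj x x') (hA : c.A u x) : cl a b u x ≠ cl a b x' w ∧ ∃ m, 1 ≤ m ∧ m ≤ 4 ∧
      m ≠ cl a b u x ∧ m ≠ cl a b x' w ∧ cl a b u x + m ≠ sg c.G (cl a b) u ∧
      m + cl a b x' w ≠ sg c.G (cl a b) w := by
  obtain ⟨cu, cw, dx, dx', ux, xw, -⟩ := id h
  have n1 : u ≠ x' := fun e => by have : 3 ≤ dg c.G x' := e ▸ cu; omega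
  have n2 : x ≠ w := fun e => by have : 3 ≤ dg c.G x := e ▸ cw; omega
  have sx := (H33.loc2 (c := cl a b) (H33.N2 dx ux.symm xx n1) n1).2.1
  have sx' := (H33.loc2 (c := cl a b) (H33.N2 dx' xx.symm xw n2) n2).2.1
  have kx : c.κ x + c.κ x' = (cl a b u x + cl a b x' w + 2 * cl a b x x' : ℕ) := by
    rw [kap hF (v := x) dx.ge, kap hF (v := x') dx'.ge, ← Nat.cast_add, sx, sx', sym hF x u,
      sym hF x' x]
    congr 1
    ring
  have kk : c.κ u = c.κ w ↔ sg c.G (cl a b) u % 2 = sg c.G (cl a b) w % 2 := by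
    rw [kap hF (v := u) (le_trans (by norm_num) cu), kap hF (v := w) (le_trans (by norm_num) cw),
      cast_eq]
  have s2 := sym hF w x'
  have r0 := rng hF u x
  have r1 := rng hF x' w
  have l0 := b01 hF u x
  have l1 := b01 hF x' w
  have gu := low hF hL cu ux
  have gw := low hF hL cw xw.symm
  replace kk := kk.2
  clear sx sx'
  rcases z01 (c.κ x + c.κ x') with k | k
  · have q1 := (hL.k2e u x x' w h xx hA k).1
    have k' := k
    rw [kx, cast0] at k'
    refine ⟨by clear kk; omega, pick (fun m1 m2 m3 m4 => ?_) gu (s2 ▸ gw)⟩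
    replace kk := kk (by clear kk; omega)
    rcases (show cl a b u x + 2 = sg c.G (cl a b) u ∨ 2 + cl a b x' w = sg c.G (cl a b) w by omega)
      with e | e
    · rcases ends hF hL cu ux with ⟨d, y, y', -, e1, e2, -⟩ | ⟨-, e1, -⟩ | e1
      · have := rng hF u y
        have := rng hF u y'
        have := (hL.k2e u x x' w h xx hA k).2.1 d kk
        omega
      · omega
      · omega
    · rcases ends hF hL cw xw.symm with ⟨d, y, y', m, e1, -, e3⟩ | ⟨-, e1, -⟩ | e1
      · have := rng hF w y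
        have := rng hF w y'
        obtain ⟨t, t1, t2, t3⟩ := (hL.k2e u x x' w h xx hA k).2.2 d kk (e3 (by clear e3; omega))
        have := b01 hF w t
        clear e3
        rcases m t t2 with rfl | rfl | rfl
        exacts [t1 rfl, by omega, by omega]
      · omega
      · omega
  · have q1 := (hL.k2o u x x' w h xx hA k).1
    have k' := k
    rw [kx, cast1] at k'
    rw [if_congr (a1 (b := b) x' w) rfl rfl] at q1
    have q3 : cl a b x' w = 2 ∨ cl a b x' w = 3 := by clear kk; split_ifs at q1 <;> omega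
    clear q1
    refine ⟨by clear kk; omega, pick (fun m1 m2 m3 m4 => ?_) gu (s2 ▸ gw)⟩
    rcases ends hF hL cu ux with ⟨d, y, y', -, e1, -⟩ | ⟨-, e1, e2⟩ | e1
    · have := (hL.k2o u x x' w h xx hA k).2 d (kk (by clear kk; omega))
      clear kk
      omega
    · exact (e2 (by clear kk e2; omega)).1 (by clear kk e2; omega)
    · clear kk
      omega

end

theorem mirror {G : SimpleGraph V} {u x x' w : V} (h : Th G u x x' w) : Th G w x' x u :=
  ⟨h.2.1, h.1, h.2.2.2.1, h.2.2.1, h.2.2.2.2.2.1.symm, h.2.2.2.2.1.symm,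
    h.2.2.2.2.2.2.imp (fun e => ⟨e.1.symm, e.2.symm⟩) fun e => e.symm⟩

end TLoc

open TLoc in
theorem loc : SLoc := by
  intro hC V _ c p γ τ L τ' a b hG hO g1 g4 hF hL
  refine hC V c.G c.z c.ρ γ τ (cl a b) hG (sym hF) (rng hF) (fun v hv => qm hF hL hv)
    (fun u w h cu cw e => ?_) (fun u x w h => ?_) (fun u x x' w h xx => ?_) fun h => ?_
  · refine hF.fc u w ⟨h, cu, cw, ?_⟩ e
    rw [kap hF (v := u) (le_trans (by norm_num) cu), kap hF (v := w) (le_trans (by norm_num) cw), e]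
  · obtain ⟨-, -, dx, -, ux, xw, h7⟩ := id h
    rcases hO.real u x ux with hA | hA
    · exact ⟨(short hF hO hL h hA).1, (short hF hO hL h hA).2.1⟩
    · obtain ⟨h1, -, h2⟩ := short hF hO hL (mirror h)
        (out_in hO dx xw (h7.resolve_right (c.G.loopless.irrefl x)).2 hA)
      rw [sym hF w x, sym hF x u] at h1 h2
      exact ⟨h1.symm, by rwa [add_comm]⟩
  · obtain ⟨cu, cw, dx, dx', ux, xw, -⟩ := id h
    rcases hO.real u x ux with hA | hA
    · exact long hF hL h xx hA
    · have n1 : u ≠ x' := fun e => by have : 3 ≤ dg c.G x' := e ▸ cu; omega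
      have n2 : x ≠ w := fun e => by have : 3 ≤ dg c.G x := e ▸ cw; omega
      obtain ⟨h1, m, m1, m2, m3, m4, m5, m6⟩ := long hF hL (mirror h) xx.symm
        (out_in hO dx' xw n2 (out_in hO dx xx n1 hA))
      rw [sym hF w x'] at h1 m3 m5
      rw [sym hF x u] at h1 m4 m6
      exact ⟨h1.symm, m, m1, m2, m4, m3, by rwa [add_comm], by rwa [add_comm]⟩
  · obtain ⟨h1, h2, h3⟩ := hL.root h
    refine ⟨h1, hO.kz, ?_, fun e => h3 (by rw [kap hF hO.kr, e]) e⟩
    rw [cl, hF.root h, h2]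
    exact Frame.col_root g1 g4

end Pool.Agent.MP_d1f1f3_co.H47.TH
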