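import Pool.Agent.MP_d1f1f3_co.H47.SpecT

/-!
The simple hypotheses on a plan imply those of the frame.
-/

namespace Pool.Agent.MP_d1f1f3_co.H47.TH

open Finset Relation H47 H2
open scoped Classical

namespace TOk

variable {V : Type} [Fintype V] {c : Cx V} {p : Pl V}

theorem pin (v : V) : c.pin (p.ds c) v = 0 := rfl

theorem pout (v : V) : c.pout (p.ds c) v = 0 := rfl

theorem fx (v : V) : (c.fx (p.ds c) v = 1 ∧ p.fx ∧ p.e₀.1 = v) ∨
    (c.fx (p.ds c) v = 0 ∧ ¬(p.fx ∧ p.e₀.1 = v)) := by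
  by_cases a : p.fx <;> by_cases b : p.e₀.1 = v <;> simp [Cx.fx, Pl.ds, a, b, filter_singleton]

theorem y1 (v : V) : c.y1 (p.ds c) v = tau c.G c.κ v - df c.G c.κ v - c.fx (p.ds c) v := by
  simp [Cx.y1, pin, pout]

theorem rb (v : V) : c.Rb (p.ds c) v = 0 ∨ c.Rb (p.ds c) v ≤ p.t v := by
  unfold Cx.Rb
  split_ifs
  exacts [.inl rfl, .inr (sub_le_self _ zero_le_one), .inr le_rfl]

theorem ri (v : V) : c.Ri v \ c.Ig (p.ds c) v = c.Fi v := by
  ext a
  have : Fc c.G c.κ v a → c.G.Adj v a := fun h => h.1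
  simp only [Cx.Ri, Cx.Ig, Cx.Fi, Pl.ds, mem_sdiff, mem_filter, mem_univ, true_and, notMem_empty]
  tauto

theorem ri' (v : V) : #(c.Fi v) + #(c.Ig (p.ds c) v) = #(c.Ri v) := by
  rw [← ri (p := p)]
  exact card_sdiff_add_card_eq_card (filter_subset _ _)

theorem og (v : V) : #(Out c.A v \ c.Og (p.ds c) v) ≤ c.fx (p.ds c) v := by
  refine card_le_card_of_injOn (fun b => (v, b)) (fun b hb => ?_) fun _ _ _ _ h => (Prod.mk.inj h).2
  simp only [Cx.Og, coe_sdiff, coe_filter, Set.mem_sdiff, mem_coe, Set.mem_ofPred_eq] at hb ⊢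
  exact ⟨by_contra fun h => hb.2 ⟨hb.1, notMem_empty _, h⟩, trivial⟩

theorem og' (v : V) : #(Out c.A v) ≤ #(c.Og (p.ds c) v) + c.fx (p.ds c) v := by
  have := card_sdiff_add_card_eq_card (show c.Og (p.ds c) v ⊆ Out c.A v from filter_subset _ _)
  have := og (c := c) (p := p) v
  omega

theorem tau1 {v : V} (h : Wv c.G c.κ v) : tau c.G c.κ v = (dg c.G v / 2 : ℕ) - 1 := by
  rw [tau, if_pos h]

theorem tau0 {v : V} (h : ¬Wv c.G c.κ v) : tau c.G c.κ v = (dg c.G v / 2 : ℕ) := by
  rw [tau, if_neg h, sub_zero]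

omit [Fintype V] in
theorem ind1 (v₀ : Option V) (v : V) : ind v₀ {v} = if v₀ = some v then 1 else 0 := by simp [ind]

omit [Fintype V] in
theorem inds (v₀ : Option V) (X : Finset V) : ∑ v ∈ X, (ind v₀ {v} : ℤ) = ind v₀ X := by
  cases v₀ <;> simp [ind]

variable (O : Ori c.G c.A c.z c.ρ)
include O

theorem df' (v : V) : df c.G c.κ v = #(c.Fo v) + #(c.Fi v) := by
  rw [Cx.Fo, Cx.Fi, df,
    ← card_union_of_disjoint (disjoint_filter.2 fun a _ h h' => O.asym _ _ h.1 h'.1)]
  congr 1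
  ext a
  have : Fc c.G c.κ v a → c.A v a ∨ c.A a v := fun h => O.real _ _ h.1
  simp only [mem_union, mem_filter, mem_univ, true_and]
  tauto

theorem dg' {v : V} (h : Co c.G v) : dg c.G v = #(Out c.A v) + #(c.Ri v) := by
  rw [Out, Cx.Ri, dg, N,
    ← card_union_of_disjoint (disjoint_filter.2 fun a _ h h' => O.asym _ _ h h'.1)]
  congr 1
  ext a
  have := O.real v a
  have := O.outK v a (le_of_lt h)
  simp only [mem_union, mem_filter, mem_univ, true_and]
  tauto

end TOk

open TOk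

theorem okr : SOk := by
  intro V _ c p O h
  have ub : ∀ v, c.Neg v → c.Ub (p.ds c) v := fun v a =>
    ⟨show c.Neg c.ρ from (h.neg v a).1 ▸ a, (h.neg v a).1⟩
  have le : ∀ v, Co c.G v → ¬c.Ub (p.ds c) v → (df c.G c.κ v : ℤ) ≤ tau c.G c.κ v :=
    fun v a b => not_lt.1 fun e => b (ub v ⟨a, e⟩)
  have x : ∀ v, Co c.G v → 0 ≤ c.y1 (p.ds c) v - c.Rb (p.ds c) v + ind p.v₀ {v} := fun v a => by
    have := h.y0 v a
    have := h.yb v a
    have := y1 (c := c) (p := p) v
    have := rb (c := c) (p := p) v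
    omega
  have six : ∀ v, c.Wc v → c.fx (p.ds c) v = 0 ∨ c.fx (p.ds c) v = 1 ∧ 6 ≤ dg c.G v := fun v a =>
    (fx (c := c) (p := p) v).symm.imp (·.1) fun ⟨e1, e2, e3⟩ =>
      ⟨e1, e3 ▸ (h.fx e2).2.2.2.2.1 (e3 ▸ a)⟩
  have ne : ∀ q ∈ p.Sf, ∀ B : Finset V, #B = 3 → ¬∀ y ∈ B, c.L2 y ∧ c.G.Adj q y :=
    fun q hq B b1 b2 => by
      obtain ⟨a1, -, y, a2, a3⟩ := h.sf q hq
      have : B = N c.G q := eq_of_subset_of_card_le
        (fun y hy => Frame.mem_N.2 (b2 y hy).2) (a1.trans b1.symm).le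
      exact a3 (b2 y (this ▸ Frame.mem_N.2 a2)).1.1.1
  exact {
    t1 := h.t1
    sym := h.sym
    sdiag := h.sdiag
    th := fun _ => h.th
    nj := fun a => (a trivial).elim
    c1 := fun v a b => by
      have := df' O v
      have := (h.of v a).1
      exact card_pos.1 (by omega)
    pa := fun _ a => (notMem_empty _ a).elim
    po := fun _ => zero_le_one
    fa := fun e a => by
      obtain ⟨b, rfl⟩ : p.fx ∧ e = p.e₀ := by by_cases b : p.fx <;> simp_all [Pl.ds]
      obtain ⟨b1, b2, b3, b4, -⟩ := h.fx b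
      exact ⟨b1, b2, b3, b4⟩
    uc := fun _ a => (notMem_empty _ a).elim
    pi2 := Nat.zero_le _
    pi := fun _ a => (notMem_empty _ a).elim
    pij := fun _ _ a => (notMem_empty _ a).elim
    pir := fun a => (a trivial).elim
    pw := fun v a b => by
      have := le v a.1 b.2.1
      have := df' O v
      have := (h.of v a.1).1
      have := tau1 a.2
      have := og (c := c) (p := p) v
      have := six v a
      rw [ri]
      omega
    pt := fun v a b => by
      have := le v a.1 b.2.1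
      have := df' O v
      have := dg' O a.1
      have := (h.of v a.1).2.2.1 a
      have := tau0 (c := c) fun e => Nat.not_even_iff_odd.2 a.2.1 e.2.1
      have := og' (c := c) (p := p) v
      have := ri' (c := c) (p := p) v
      have := fx (c := c) (p := p) v
      have := a.2.2
      have : 3 ≤ dg c.G v := a.1
      have := Nat.odd_iff.1 a.2.1
      refine ⟨card_pos.1 (by omega), card_pos.1 (by omega), ?_⟩
      rw [← sdiff_eq_empty_iff_subset, ri, ← card_eq_zero]
      omega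
    ub := fun a => by
      obtain ⟨-, b1, b2, b3⟩ := h.neg _ a
      have e := ((fx (c := c) c.ρ).resolve_left fun e => b3 e.2).1
      refine ⟨b1, a.1, fun _ => ⟨rfl, e⟩, fun b => card_pos.1 ?_, .inl b2⟩
      have := og' (c := c) (p := p) c.ρ
      have := b.2.2
      have : 3 ≤ dg c.G c.ρ := a.1
      omega
    r2 := fun _ _ => rfl
    ng := fun _ v a _ _ b => (b (ub v a)).elim
    hv := fun _ _ a => (notMem_empty _ a).elim
    sf := fun _ q a => ⟨(h.sf q a).1.ge, (h.sf q a).2.1, fun _ y b _ => .inr (ub y b)⟩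
    ne := fun _ q w a ⟨_, _, _, _, _, B, b1, b2, _⟩ => a.elim
      (fun a => ne q a B b1 fun y hy => ⟨(b2 y hy).1, (b2 y hy).2.1⟩)
      fun a => ne w a B b1 fun y hy => ⟨(b2 y hy).1, (b2 y hy).2.2⟩
    yb := fun v a => by simpa [Pl.ds] using h.yb v a
    x0 := fun v a b _ => by simpa [ind1, show p.v₀ ≠ some v from b] using x v a
    x1 := fun _ v a => ⟨h.vc v a, by
      have := x v (h.vc v a)
      rw [ind1, if_pos (show p.v₀ = some v from a)] at this
      omega⟩
    bg := fun _ a => nomatch a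
    k2 := fun u w a b1 b2 b3 b4 => by
      have f := (mem_filter.1 a).2.2
      have := card_pos.2 ⟨w, a⟩
      have := df' O u
      have ev : Even (dg c.G u) := Nat.not_odd_iff_even.1 fun e => by
        have := (h.of u f.2.1).2.2.2 e fun t => b3 (.inr t)
        omega
      have := Nat.even_iff.1 ev
      have := tau0 (c := c) fun e => b3 (.inl ⟨f.2.1, e⟩)
      have := y1 (c := c) (p := p) u
      have : 3 ≤ dg c.G u := f.2.1
      have key : 1 ≤ c.y1 (p.ds c) u ∧ (c.y1 (p.ds c) u ≤ p.t u → p.sF u w = 0) := by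
        rcases fx (c := c) (p := p) u with ⟨e1, e2, rfl⟩ | ⟨e1, -⟩
        · obtain ⟨e3, e4⟩ := (h.fx e2).2.2.2.2.2.resolve_left b4
          have : dg c.G p.e₀.1 ≠ 4 := fun e => ne_empty_of_mem a (e4 e b1)
          exact ⟨by omega, fun _ => e3 w⟩
        · have := h.t1 u f.2.1
          have := single_le_sum (f := fun w => (p.sF u w : ℤ)) (fun _ _ => Int.natCast_nonneg _)
            (mem_univ w)
          exact ⟨by omega, fun _ => by omega⟩
      rcases (by decide : ∀ a : ZMod 2, a = 0 ∨ a = 1) (c.κ u) with e | e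
      · by_cases t : p.t u + 1 ≤ c.y1 (p.ds c) u
        · exact .inl ⟨key.1, t⟩
        · exact .inr (.inr (.inr ⟨trivial, e, .inr (.inl
            ⟨show 1 ≤ p.t u by omega, rfl, key.2 (by omega)⟩)⟩))
      · have := h.y0 w f.2.2.1
        exact .inr (.inr (.inl ⟨.inr e,
          show 1 ≤ c.y1 (p.ds c) u + c.y1 (p.ds c) w + ind p.v₀ {w} by omega⟩))
    k3 := fun _ _ _ _ a => (notMem_empty _ a).elim
    hl := fun X a => by
      rw [show (p.ds c).v₀ = p.v₀ from rfl, ← inds, ← sum_add_distrib]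
      refine sum_nonneg fun v b => ?_
      have := x v (a v b)
      rw [if_neg (show v ∉ (p.ds c).U from notMem_empty _)]
      omega
    rt := fun a b => by
      obtain ⟨b1, b2⟩ := h.rt a b
      have u : ¬c.Ub (p.ds c) c.ρ := fun e => a (h.neg _ e.1).2.1
      have := le _ b1 u
      have := df' O c.ρ
      have := dg' O b1
      have := O.fake a
      have := tau1 b
      have := og' (c := c) (p := p) c.ρ
      have := ri' (c := c) (p := p) c.ρ
      have := six _ ⟨b1, b⟩
      have : 3 ≤ dg c.G c.ρ := b1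
      have := Nat.even_iff.1 b.2.1
      exact ⟨b1, ⟨notMem_empty _, u, fun ⟨_, e1, _, _, w, e2, e3⟩ =>
        b2 ⟨e1, w, e2, e3.resolve_right fun e => notMem_empty _ e.1⟩⟩, card_pos.1 (by omega),
        by omega⟩
    st := fun a => by
      obtain ⟨b0, b1, b2, b3, b4, b5⟩ := h.st a
      exact ⟨b1, b2, b3, b4, by simp [Pl.ds, b0], b5⟩ }

end Pool.Agent.MP_d1f1f3_co.H47.TH
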