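import Pool.Agent.MP_d1f1f3_co.H47.SpecT
import Pool.Agent.MP_d1f1f3_co.H47.Asm0
import Pool.Agent.MP_d1f1f3_co.H47.Ori
import Pool.Agent.MP_d1f1f3_co.H47.GoodM

/-!
Row ORI0: orientations with a virtual root.
-/

namespace Pool.Agent.MP_d1f1f3_co.H47.TH

open Finset Relation H47 H2
open scoped Classical

namespace TOri0

variable {V : Type} [Fintype V] {G : SimpleGraph V}

/-- If some degree is odd, an odd vertex has many arcs going out. -/
theorem odd_root {D : V → V → Prop} (h1 : ∀ u w, D u w → G.Adj u w)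
    (h2 : ∀ u w, G.Adj u w → (D u w ↔ ¬D w u))
    (h3 : ∀ v, dg G v / 2 ≤ #(Out D v) ∧ #(Out D v) ≤ (dg G v + 1) / 2)
    {r : V} (hr : Odd (dg G r)) : ∃ ρ, Odd (dg G ρ) ∧ #(Out D ρ) = (dg G ρ + 1) / 2 := by
  by_contra hn
  have key : ∀ v, Odd (dg G v) → #(Out D v) < #(Inn D v) := fun v hv => by
    have a1 := h3 v
    have a2 := Asm0.dg_eq h1 h2 v
    have a3 : #(Out D v) ≠ (dg G v + 1) / 2 := fun h => hn ⟨v, hv, h⟩
    obtain ⟨k, hk⟩ := hv
    omega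
  refine (sum_lt_sum (fun v _ => ?_) ⟨r, mem_univ r, key r hr⟩).ne (Asm0.sum_out D)
  rcases Nat.even_or_odd (dg G v) with ⟨k, hk⟩ | hv
  · have a1 := h3 v
    have a2 := Asm0.dg_eq h1 h2 v
    omega
  · exact (key v hv).le

theorem mem_Fo {c : Cx V} {v y : V} (h : y ∈ c.Fo v) : c.A v y ∧ Fc c.G c.κ v y :=
  (mem_filter.1 h).2

end TOri0

open TOri0 in
theorem ori0 : SOri0 := by
  intro V _ G h π κ hh hT hl hC hπ
  obtain ⟨v, hv⟩ := hC
  have kz : ¬K G h := by unfold K; omega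
  have kd : ∀ v, 1 ≤ dg G v → K G v := fun v hv => by
    have := hl v
    unfold K
    omega
  have ck : ∀ v, Co G v → K G v := fun v hv => by
    unfold Co at hv
    unfold K
    omega
  have ka : ∀ u w, G.Adj u w → K G u := fun u w a => kd u (Asm0.one_le a)
  have ec : core G = G := by
    ext u w
    exact ⟨fun a => a.1, fun a => ⟨a, ka u w a, ka w u a.symm⟩⟩
  have h2 : Two G := fun X u w a b c d => by
    have := hT X u w a b (kd u c) (kd w d)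
    rwa [ec] at this
  obtain ⟨w₀, m₀⟩ : (N G v).Nonempty := card_pos.1 (lt_of_lt_of_le two_pos (ck v hv))
  obtain ⟨D, d1, d2, -, d3, d4, d5⟩ := H47.ori H47.goodM V G π v w₀ h2 hπ (Asm0.mem_N.1 m₀)
  have ne : ∀ u, K G u → u ≠ h := fun u hu e => kz (e ▸ hu)
  have opp : ∀ ρ, Opp G π fun u w => D u w ∨ (u = h ∧ w = ρ) := by
    intro ρ u w hu a b
    have := d3 u w a b
    simp only [ne u hu, false_and, or_false]
    exact this
  by_cases ho : ∃ r, Odd (dg G r)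
  · obtain ⟨r, hr⟩ := ho
    obtain ⟨ρ, o, e⟩ := odd_root d1 d2 d4 hr
    refine ⟨_, ρ, Asm0.ori hh d1 d2 d4 d5 (kd ρ o.pos) e, opp ρ, fun _ hW => ?_⟩
    exact absurd hW.2.1 (Nat.not_even_iff_odd.2 o)
  have ev : ∀ u, #(Out D u) = (dg G u + 1) / 2 := fun u => by
    have a1 := d4 u
    obtain ⟨k, hk⟩ : Even (dg G u) := Nat.not_odd_iff_even.1 fun o => ho ⟨u, o⟩
    omega
  by_cases hb : ∃ w, D v w ∧ Fc G κ v w ∧ df G κ w = 1
  · obtain ⟨w, a, f, e⟩ := hb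
    have cw : Co G w := f.2.2.1
    refine ⟨_, w, Asm0.ori hh d1 d2 d4 d5 (ck w cw) (ev w), opp w, fun _ _ => ⟨cw, ?_⟩⟩
    rintro ⟨-, y, hy, -⟩
    obtain ⟨b, g⟩ := mem_Fo hy
    have f' : Fc G κ w v := ⟨f.1.symm, cw, hv, f.2.2.2.symm⟩
    have e' : y = v := card_le_one.1 e.le y (mem_filter.2 ⟨mem_univ _, g⟩) v
      (mem_filter.2 ⟨mem_univ _, f'⟩)
    subst e'
    rcases b with b | b
    · exact (d2 _ _ f.1).1 a b
    · exact ne w (ck w cw) b.1
  · refine ⟨_, v, Asm0.ori hh d1 d2 d4 d5 (ck v hv) (ev v), opp v, fun _ _ => ⟨hv, ?_⟩⟩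
    rintro ⟨-, y, hy, e⟩
    obtain ⟨b, g⟩ := mem_Fo hy
    rcases b with b | b
    · exact hb ⟨y, b, g, e⟩
    · exact ne v (ck v hv) b.1

end Pool.Agent.MP_d1f1f3_co.H47.TH
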