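import Pool.Agent.MP_d1f1f3_co.H47.SpecT
import Pool.Agent.MP_d1f1f3_co.H47.Pair

/-!
Row PAIR3: the pairing of the edges at every vertex.
-/

namespace Pool.Agent.MP_d1f1f3_co.H47.TH

open Finset Relation H47 H2 H47.Frame
open scoped Classical

namespace TPair

variable {V : Type} [Fintype V] {G : SimpleGraph V} {κ : V → ZMod 2} {v : V}

/-- Unseparated neighbours. -/
noncomputable def FF (G : SimpleGraph V) (κ : V → ZMod 2) (v : V) : Finset V :=
  univ.filter fun w => Fc G κ v w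

/-- The other neighbours. -/
noncomputable def HH (G : SimpleGraph V) (κ : V → ZMod 2) (v : V) : Finset V :=
  (N G v).filter fun w => ¬Fc G κ v w

/-- The condition at one vertex. -/
def Loc (c : Cx V) (v : V) : Prop :=
  #(c.Fi v) ≤ #(c.Fo v) + 1 ∧ #(c.Fo v) ≤ #(c.Fi v) + 1 ∧
    (c.To v → #(c.Fi v) ≤ #(c.Fo v)) ∧ (Odd (dg c.G v) → ¬c.To v → #(c.Fo v) ≤ #(c.Fi v))

theorem dg_eq : df G κ v + #(HH G κ v) = dg G v := by
  rw [dg, ← card_filter_add_card_filter_not (s := N G v) fun w => Fc G κ v w, df, HH]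
  congr 2
  ext w
  simpa [mem_N] using fun h : Fc G κ v w => h.1

theorem key {A : V → V → Prop} {z ρ : V} (hO : Ori G A z ρ) (hv : Co G v)
    (h1 : df G κ v / 2 ≤ #((FF G κ v).filter (A v)) ∧
      df G κ v / 2 ≤ #((FF G κ v).filter fun w => ¬A v w))
    (h2 : Odd (dg G v) → Odd (df G κ v) → #(HH G κ v) / 2 ≤ #((HH G κ v).filter (A v)) ∧
      #(HH G κ v) / 2 ≤ #((HH G κ v).filter fun w => ¬A v w)) : Loc ⟨G, A, z, ρ, κ⟩ v := by
  have hK : K G v := le_trans (by norm_num) hv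
  have e1 : Cx.Fo ⟨G, A, z, ρ, κ⟩ v = (FF G κ v).filter (A v) := by
    ext w; simp [Cx.Fo, FF, and_comm]
  have e2 : Cx.Fi ⟨G, A, z, ρ, κ⟩ v = (FF G κ v).filter fun w => ¬A v w := by
    ext w
    simp only [Cx.Fi, FF, mem_filter, mem_univ, true_and]
    exact ⟨fun h => ⟨h.2, hO.asym _ _ h.1⟩, fun h => ⟨(hO.real _ _ h.1.1).resolve_left h.2, h.1⟩⟩
  have e3 : #((FF G κ v).filter (A v)) + #((HH G κ v).filter (A v)) = #(Out A v) := by
    rw [← card_filter_add_card_filter_not (s := Out A v) fun w => Fc G κ v w]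
    congr 2
    · ext w; simp [FF, Out, and_comm]
    · ext w
      simp only [HH, Out, mem_filter, mem_univ, true_and, mem_N]
      exact ⟨fun h => ⟨h.2, h.1.2⟩, fun h => ⟨⟨hO.outK _ _ hK h.1, h.2⟩, h.1⟩⟩
  have e4 := dg_eq (G := G) (κ := κ) (v := v)
  have e5 : _ = df G κ v := card_filter_add_card_filter_not (s := FF G κ v) (A v)
  have e6 := card_filter_add_card_filter_not (s := HH G κ v) (A v)
  have e7 := hO.smooth v hK
  simp only [Loc, e1, e2, Cx.To, hv, true_and, Nat.odd_iff] at h2 ⊢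
  omega

variable {r : Option V} {τ : ZMod 2} {s : Sd V}

theorem uniq (hr : Rr G r) (hs : Sta G r τ κ s) {a b a' b' : V} (h : Ex G r τ κ s v a b)
    (h' : Ex G r τ κ s v a' b') : (a' = a ∧ b' = b) ∨ (a' = b ∧ b' = a) := by
  obtain ⟨n, ha, hb, h⟩ := h
  obtain ⟨n', ha', hb', h'⟩ := h'
  have t : dg G v = 3 → ∀ y, G.Adj v y → a ≠ y → b ≠ y → a' ≠ y → b' ≠ y →
      (a' = a ∧ b' = b) ∨ (a' = b ∧ b' = a) := fun d y hy c1 c2 c3 c4 => by
    have e : ({a, b, y} : Finset V) = N G v := eq_of_subset_of_card_le (by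
      intro w hw
      simp only [mem_insert, mem_singleton] at hw
      rcases hw with rfl | rfl | rfl <;> exact mem_N.2 ‹_›) (by
        rw [card_eq_three.2 ⟨a, b, y, n, c1, c2, rfl⟩]; exact d.le)
    have m1 := mem_N.2 ha'
    have m2 := mem_N.2 hb'
    simp only [← e, mem_insert, mem_singleton, c3, c4, or_false] at m1 m2
    rcases m1 with rfl | rfl <;> rcases m2 with rfl | rfl <;> simp_all
  have o1 : ∀ {x y}, s.ev → s.I = {x} → Od G κ y → y ≠ x := fun e i o h => by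
    have := (hs.evI e).2
    rw [i, sum_singleton, ← h, o.2] at this
    exact one_ne_zero this
  have o2 : ∀ {x y}, dg G x = 1 → K G y → y ≠ x := fun e i h => by
    rw [K, h, e] at i; omega
  have o3 : ∀ {y}, Od G κ y → K G y := fun o => o.1.1.ge
  rcases h with ⟨d, k, p, q⟩ | ⟨e, d, -, x, i, p, q, q'⟩ | ⟨e, d, -, f, i, p⟩ | ⟨e, d, -, p, q, i⟩
  · rcases h' with ⟨-, -, p', q'⟩ | ⟨e, -, -, x, i, c1, c2, c3⟩ | ⟨-, d', -⟩ | ⟨e, -, -, p', q', -⟩
    · obtain ⟨y, c1, c2⟩ := hs.s3 v d k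
      exact t d y c1 (fun h => c2 (h ▸ p)) (fun h => c2 (h ▸ q)) (fun h => c2 (h ▸ p'))
        fun h => c2 (h ▸ q')
    · exact t d x c1 (o1 e i p) (o1 e i q) c2 c3
    · omega
    · obtain ⟨-, z, c1, c2⟩ := hr v e
      exact t d z c1 (o2 c2 (o3 p)) (o2 c2 (o3 q)) (o2 c2 p') (o2 c2 q')
  · rcases h' with ⟨-, -, c1, c2⟩ | ⟨-, -, -, x', i', -, c2, c3⟩ | ⟨-, d', -⟩ | ⟨-, -, -, -, -, c⟩
    · exact t d x p q q' (o1 e i c1) (o1 e i c2)
    · obtain rfl : x = x' := singleton_injective (i.symm.trans i')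
      exact t d x p q q' c2 c3
    · omega
    · exact (c ⟨e, x, i⟩).elim
  · rcases h' with ⟨d', -⟩ | ⟨-, d', -⟩ | ⟨-, -, -, -, i', p'⟩ | ⟨-, d', -⟩
    · omega
    · omega
    · exact Or.inl ⟨singleton_injective (i'.symm.trans i), card_le_one.1 f.le _
        (mem_filter.2 ⟨mem_univ _, p'⟩) _ (mem_filter.2 ⟨mem_univ _, p⟩)⟩
    · omega
  · obtain ⟨-, z, c1, c2⟩ := hr v e
    rcases h' with ⟨-, -, p', q'⟩ | ⟨e', -, -, x, i', -⟩ | ⟨-, d', -⟩ | ⟨-, -, -, p', q', -⟩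
    · exact t d z c1 (o2 c2 p) (o2 c2 q) (o2 c2 (o3 p')) (o2 c2 (o3 q'))
    · exact (i ⟨e', x, i'⟩).elim
    · omega
    · exact t d z c1 (o2 c2 p) (o2 c2 q) (o2 c2 p') (o2 c2 q')

omit [Fintype V] in
theorem two (S : Finset V) : ∃ π : V → V, (∀ w, π (π w) = w) ∧ (∀ w ∈ S, π w ∈ S) ∧
    (∀ w ∉ S, π w = w) ∧ ∀ d : V → Prop, (∀ w ∈ S, π w ≠ w → (d w ↔ ¬d (π w))) →
      #S / 2 ≤ #(S.filter d) ∧ #S / 2 ≤ #(S.filter fun w => ¬d w) := by
  obtain ⟨π, p1, p2, p3⟩ := Pair.all _ S ∅ rfl (empty_subset _)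
  refine ⟨π, p1, fun w hw => ?_, fun w hw => by_contra fun h => hw (p2 w h), fun d hd =>
    ⟨(p3 d fun w h => hd w (p2 w h) h).1, ?_⟩⟩
  · by_cases e : π w = w
    · rwa [e]
    · exact p2 _ (by rw [p1]; exact Ne.symm e)
  · convert (p3 (fun w => ¬d w) fun w h => not_congr (hd w (p2 w h) h)).1

theorem one (hr : Rr G r) (hs : Sta G r τ κ s) (v : V) : ∃ p : V → V,
    (∀ w, G.Adj v w → G.Adj v (p w) ∧ p (p w) = w) ∧
    (∀ a b, Ex G r τ κ s v a b → p a = b ∧ ∀ y, y ≠ a → y ≠ b → p y = y) ∧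
    ∀ A z ρ, Ori G A z ρ → (∀ w, G.Adj v w → p w ≠ w → (A v w ↔ ¬A v (p w))) → Co G v →
      Loc ⟨G, A, z, ρ, κ⟩ v := by
  by_cases h : ∃ a b, Ex G r τ κ s v a b
  · obtain ⟨a, b, h⟩ := h
    refine ⟨Equiv.swap a b, fun w hw => ⟨?_, Equiv.swap_apply_self _ _ _⟩, fun a' b' h' => ?_,
      fun A z ρ hO hA hv => ?_⟩
    · rw [Equiv.swap_apply_def]
      split_ifs
      exacts [h.2.2.1, h.2.1, hw]
    · rcases uniq hr hs h h' with ⟨rfl, rfl⟩ | ⟨rfl, rfl⟩
      · exact ⟨by simp, fun y => Equiv.swap_apply_of_ne_of_ne⟩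
      · exact ⟨by simp, fun y c c' => Equiv.swap_apply_of_ne_of_ne c' c⟩
    obtain ⟨n, ha, hb, h⟩ := h
    have e := dg_eq (G := G) (κ := κ) (v := v)
    have o := hA a ha (by simpa using n.symm)
    rw [Equiv.swap_apply_left] at o
    rcases h with ⟨d, -, p, q⟩ | ⟨-, -, f, -⟩ | ⟨-, d, -, f, -⟩ | ⟨-, -, f, -⟩
    · have m : ∀ {y}, G.Adj v y → Od G κ y → y ∈ HH G κ v := fun c c' =>
        mem_filter.2 ⟨mem_N.2 c, fun f => by have := f.2.2.1; rw [Co, c'.1.1] at this; omega⟩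
      have c1 : 0 < #((HH G κ v).filter (A v)) := card_pos.2 (by
        by_cases c : A v a
        · exact ⟨a, mem_filter.2 ⟨m ha p, c⟩⟩
        · exact ⟨b, mem_filter.2 ⟨m hb q, by tauto⟩⟩)
      have c2 : 0 < #((HH G κ v).filter fun w => ¬A v w) := card_pos.2 (by
        by_cases c : A v a
        · exact ⟨b, mem_filter.2 ⟨m hb q, o.1 c⟩⟩
        · exact ⟨a, mem_filter.2 ⟨m ha p, c⟩⟩)
      have e6 := card_filter_add_card_filter_not (s := HH G κ v) (A v)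
      exact key hO hv (by omega) fun _ _ => by omega
    · exact key hO hv (by simp [f.1]) fun _ c => by simp [f.1] at c
    · exact key hO hv (by simp [f]) fun c _ => by rw [d, Nat.odd_iff] at c; omega
    · exact key hO hv (by simp [f]) fun _ c => by simp [f] at c
  obtain ⟨π, p1, p2, -, p4⟩ := two (FF G κ v)
  obtain ⟨π', q1, q2, -, q4⟩ := two (HH G κ v)
  have m : ∀ {w}, w ∈ FF G κ v ↔ Fc G κ v w := by simp [FF]
  have m' : ∀ {w}, w ∈ HH G κ v ↔ G.Adj v w ∧ ¬Fc G κ v w := by simp [HH, mem_N]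
  refine ⟨fun w => if Fc G κ v w then π w else π' w, fun w hw => ?_,
    fun a b h' => (h ⟨a, b, h'⟩).elim, fun A z ρ hO hA hv => key hO hv (p4 _ fun w hw => ?_)
      fun _ _ => q4 _ fun w hw => ?_⟩
  · by_cases c : Fc G κ v w
    · have := m.1 (p2 w (m.2 c))
      simp only [c, this, if_true, p1, and_true]
      exact this.1
    · have := m'.1 (q2 w (m'.2 ⟨hw, c⟩))
      simp only [c, this, if_false, q1, and_true]
  · simpa only [m.1 hw, if_true] using hA w (m.1 hw).1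
  · simpa only [(m'.1 hw).2, if_false] using hA w (m'.1 hw).1

end TPair

theorem pair3 : SPair3 := by
  intro V _ G r τ κ s hr hs
  choose π h1 h2 h3 using TPair.one hr hs
  exact ⟨π, h1, h2, fun A z ρ hO hA v hv =>
    h3 v A z ρ hO (fun w => hA v w (le_trans (by norm_num) hv)) hv⟩

end Pool.Agent.MP_d1f1f3_co.H47.TH
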