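import Pool.Agent.MP_d1f1f3_co.H47.SpecT

/-!
The change of the cost when the parity is changed on a set.
-/

namespace Pool.Agent.MP_d1f1f3_co.H47.TH

open Finset Relation H47 H2
open scoped Classical

noncomputable section

namespace TPot

variable {V : Type} [Fintype V]

/-- The parity is changed on `X`. -/
def fl (X : Finset V) (κ : V → ZMod 2) (v : V) : ZMod 2 := if v ∈ X then κ v + 1 else κ v

/-- Signed weights. -/
def sw (M : V → V → ℤ) (κ : V → ZMod 2) (v w : V) : ℤ := if κ v = κ w then M v w else -M v w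

/-- The weight of the unseparated pairs. -/
def pw (M : V → V → ℤ) (κ : V → ZMod 2) : ℤ := ∑ v, ∑ w, if κ v = κ w then M v w else 0

theorem z1 : ∀ a b : ZMod 2, a + 1 = b ↔ ¬a = b := by decide

theorem z2 : ∀ a b : ZMod 2, a = b + 1 ↔ ¬a = b := by decide

theorem pw_fl {M : V → V → ℤ} (hM : ∀ u w, M u w = M w u) (X : Finset V) (κ : V → ZMod 2) :
    pw M (fl X κ) = pw M κ + 2 * ∑ v ∈ X, (∑ w ∈ X, sw M κ v w - ∑ w, sw M κ v w) := by
  have h : ∀ v w, (if fl X κ v = fl X κ w then M v w else 0) =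
      (if κ v = κ w then M v w else 0) +
        2 * (if v ∈ X then if w ∈ X then sw M κ v w else 0 else 0) -
        (if v ∈ X then sw M κ v w else 0) - if w ∈ X then sw M κ w v else 0 := by
    intro v w
    have e : sw M κ w v = sw M κ v w := by simp only [sw, hM w v, eq_comm]
    rw [e]
    by_cases hv : v ∈ X <;> by_cases hw : w ∈ X <;> by_cases hk : κ v = κ w <;>
      simp [fl, sw, hv, hw, hk, z1, z2] <;> ring
  have a1 : ∑ v, ∑ w, (if v ∈ X then sw M κ v w else 0) = ∑ v ∈ X, ∑ w, sw M κ v w := by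
    rw [← sum_ite_mem_eq X]
    exact sum_congr rfl fun v _ => by split_ifs <;> simp
  have a2 : ∑ v, ∑ w, (if w ∈ X then sw M κ w v else 0) = ∑ v ∈ X, ∑ w, sw M κ v w :=
    sum_comm.trans a1
  have a3 : ∑ v, ∑ w, (if v ∈ X then if w ∈ X then sw M κ v w else 0 else 0) =
      ∑ v ∈ X, ∑ w ∈ X, sw M κ v w := by
    rw [← sum_ite_mem_eq X]
    exact sum_congr rfl fun v _ => by split_ifs <;> simp
  simp only [pw, h, sum_sub_distrib, sum_add_distrib, ← mul_sum, a1, a2, a3]
  ring

variable (G : SimpleGraph V) (ω : V → ZMod 2 → ℤ) (m : V → V → ℕ)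

/-- The weight of a pair. -/
def wt (v w : V) : ℤ := (if G.Adj v w ∧ Co G v ∧ Co G w then 1 else 0) + m v w

/-- The cost of one vertex. -/
def ux (κ : V → ZMod 2) (v : V) : ℤ := (if Wv G κ v then 1 else 0) + ω v (κ v)

theorem phi_eq (h3 : ∀ u w, m u w ≠ 0 → Co G u) (κ : V → ZMod 2) :
    Phi G ω m κ = pw (wt G m) κ + 2 * ∑ v ∈ univ.filter (Co G), ux G ω κ v := by
  have h : ∀ v, ∑ w, (if κ v = κ w then wt G m v w else 0) =
      df G κ v + ∑ w, if κ v = κ w then (m v w : ℤ) else 0 := fun v => by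
    rw [df, card_filter, Nat.cast_sum, ← sum_add_distrib]
    refine sum_congr rfl fun w _ => ?_
    by_cases hk : κ v = κ w <;> simp [wt, Fc, hk]
  have h' : pw (wt G m) κ = ∑ v ∈ univ.filter (Co G), ∑ w,
      if κ v = κ w then wt G m v w else 0 := by
    refine (sum_subset (filter_subset _ _) fun v _ hv => sum_eq_zero fun w _ => ?_).symm
    have hv' : ¬Co G v := by simpa using hv
    have : m v w = 0 := by_contra fun e => hv' (h3 v w e)
    simp [wt, hv', this]
  rw [h', Phi, mul_sum, ← sum_add_distrib]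
  refine sum_congr rfl fun v _ => ?_
  rw [h, ux]
  ring

theorem sw_sum (κ : V → ZMod 2) (v : V) (X : Finset V) : ∑ w ∈ X, sw (wt G m) κ v w =
    (#(X.filter fun w => Fc G κ v w) : ℤ) - #(X.filter fun w => Hc G κ v w) +
      ∑ w ∈ X, if κ v = κ w then (m v w : ℤ) else -m v w := by
  rw [card_filter, card_filter, Nat.cast_sum, Nat.cast_sum, ← sum_sub_distrib, ← sum_add_distrib]
  refine sum_congr rfl fun w _ => ?_
  by_cases hk : κ v = κ w <;> simp [sw, wt, Fc, Hc, hk]
  ring

theorem ux_fl (κ : V → ZMod 2) {X : Finset V} (hX : ∀ v ∈ X, Co G v) :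
    ∑ v ∈ univ.filter (Co G), ux G ω (fl X κ) v = ∑ v ∈ univ.filter (Co G), ux G ω κ v +
      ∑ v ∈ X, ((if Even (dg G v) then (if Wv G κ v then -1 else 1) else 0) + ω v (κ v + 1) -
        ω v (κ v)) := by
  have hs : X ⊆ univ.filter (Co G) := fun v hv => mem_filter.2 ⟨mem_univ _, hX v hv⟩
  rw [← sum_sdiff hs, ← sum_sdiff hs, add_assoc, ← sum_add_distrib]
  congr 1
  · refine sum_congr rfl fun v hv => ?_
    have e : fl X κ v = κ v := if_neg (mem_sdiff.1 hv).2
    have e' : Wv G (fl X κ) v ↔ Wv G κ v := by rw [Wv, Wv, e]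
    simp only [ux, e, e']
  · refine sum_congr rfl fun v hv => ?_
    have hK : K G v := le_trans (by norm_num) (hX v hv)
    by_cases he : Even (dg G v) <;> by_cases hk : κ v = ((dg G v / 2 : ℕ) : ZMod 2) <;>
      simp [ux, Wv, fl, hv, hK, he, hk, z1]

theorem phi_fl (h1 : ∀ u w, m u w = m w u) (h3 : ∀ u w, m u w ≠ 0 → Co G u) (κ : V → ZMod 2)
    {X : Finset V} (hX : ∀ v ∈ X, Co G v) :
    Phi G ω m (fl X κ) = Phi G ω m κ + 2 * ∑ v ∈ X, (gn G ω m κ v +
      #(X.filter fun w => Fc G κ v w) - #(X.filter fun w => Hc G κ v w) +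
      ∑ w ∈ X, if κ v = κ w then (m v w : ℤ) else -m v w) := by
  have hM : ∀ u w, wt G m u w = wt G m w u := fun u w => by
    simp only [wt, h1 u w, G.adj_comm u w, and_comm (a := Co G u)]
  rw [phi_eq G ω m h3, phi_eq G ω m h3, pw_fl hM, ux_fl G ω κ hX, mul_add, add_add_add_comm,
    ← mul_add _ (∑ v ∈ X, _), ← sum_add_distrib]
  congr 2
  refine sum_congr rfl fun v _ => ?_
  have e : ∑ w, (if κ v = κ w then -(m v w : ℤ) else m v w) =
      -∑ w, if κ v = κ w then (m v w : ℤ) else -m v w := by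
    rw [← sum_neg_distrib]
    exact sum_congr rfl fun w _ => by split_ifs <;> simp
  rw [sw_sum, sw_sum, gn, hc, df, e]
  ring

theorem phi_congr (h1 : ∀ u w, m u w = m w u) (h3 : ∀ u w, m u w ≠ 0 → Co G u)
    {κ κ' : V → ZMod 2} (h : ∀ v, Co G v → κ' v = κ v) : Phi G ω m κ' = Phi G ω m κ := by
  refine sum_congr rfl fun v hv => ?_
  have hv' : Co G v := by simpa using hv
  have e1 : df G κ' v = df G κ v := by
    refine congrArg card (filter_congr fun w _ => ?_)
    exact and_congr_right fun _ => and_congr_right fun a => and_congr_right fun b => by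
      rw [h v a, h w b]
  have e2 : ∑ w, (if κ' v = κ' w then (m v w : ℤ) else 0) =
      ∑ w, if κ v = κ w then (m v w : ℤ) else 0 := by
    refine sum_congr rfl fun w _ => ?_
    by_cases e : m v w = 0
    · simp [e]
    · rw [h v hv', h w (h3 w v (h1 v w ▸ e))]
  have e3 : Wv G κ' v ↔ Wv G κ v := by rw [Wv, Wv, h v hv']
  rw [e1, e2, h v hv']
  simp only [e3]

end TPot

open TPot in
theorem pot : SPot := by
  intro V _ G ω m h1 h2 h3
  refine ⟨Finite.exists_min _, fun κ κ' h hκ κ'' => (phi_congr G ω m h1 h3 h).trans_le (hκ κ''),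
    fun κ v hκ hv hg κ' => le_trans ?_ (hκ κ'), fun κ hκ X hX => ?_⟩
  · have e : Function.update κ v (κ v + 1) = fl {v} κ := by
      funext w
      by_cases hw : w = v <;> simp [fl, hw]
    rw [e, phi_fl G ω m h1 h3 κ fun w hw => mem_singleton.1 hw ▸ hv]
    rw [sum_singleton, sum_singleton, filter_singleton, filter_singleton,
      if_neg fun h : Fc G κ v v => G.irrefl h.1, if_neg fun h : Hc G κ v v => G.irrefl h.1, h2]
    simp only [card_empty, Nat.cast_zero, neg_zero, ite_self]
    omega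
  · have := hκ (fl X κ)
    rw [phi_fl G ω m h1 h3 κ hX, le_add_iff_nonneg_right, mul_nonneg_iff_of_pos_left two_pos]
      at this
    refine this.trans (sum_le_sum fun v _ => add_le_add le_rfl (sum_le_sum fun w _ => ?_))
    split_ifs <;> simp

end

end Pool.Agent.MP_d1f1f3_co.H47.TH
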