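import Pool.Agent.MP_d1f1f3_co.H47.SpecT
import Pool.Agent.MP_d1f1f3_co.H2.Blev

/-!
The classes and levels of a plan.
-/

namespace Pool.Agent.MP_d1f1f3_co.H47.TH

open Finset Relation H47 H2
open scoped Classical

noncomputable section

namespace TReal

variable {V : Type}

/-- The vertices that merge. -/
def Y2 (p : Pl V) (Y : V → Prop) (v : V) : Prop := (Y v ∧ v ∉ p.Um) ∨ (p.mx ∧ v = p.e₀.2)

/-- The merged arc coming in. -/
def i2 (p : Pl V) (i : V → V) (v : V) : V := if p.mx ∧ v = p.e₀.2 then p.e₀.1 else i v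

/-- The merged arc going out. -/
def o2 (p : Pl V) (o : V → V) (v : V) : V := if p.mx ∧ v = p.e₀.2 then p.e₁.2 else o v

theorem ind_one (v₀ : Option V) (v : V) : ind v₀ {v} = if v₀ = some v then 1 else 0 := by
  simp [ind]

theorem ind_sum (v₀ : Option V) (X : Finset V) : ∑ v ∈ X, ind v₀ {v} = ind v₀ X := by
  rcases v₀ with _ | r
  · simp [ind]
  · simp only [ind, mem_singleton, Option.some.injEq, exists_eq_left, sum_ite_eq, exists_eq_right']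

theorem ind_two (v₀ : Option V) {u w : V} (h : u ≠ w) :
    ind v₀ {u, w} = ind v₀ {u} + ind v₀ {w} := by
  rw [← ind_sum, sum_pair h]

theorem along {Y : V → Prop} {i o : V → V} {b : V → V → ℤ} (sb : ∀ u w, b u w = b w u)
    (bb : ∀ u w, b u w = 0 ∨ b u w = 1) (h : ∀ v, Y v → b v (i v) ≠ b v (o v)) {s : V × V}
    {f : (V × V) × ZMod 2} (r : ReflTransGen (Nx2 Y i o) (s, 0) f) :
    b f.1.1 f.1.2 = if f.2 = 0 then b s.1 s.2 else 1 - b s.1 s.2 := by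
  induction r with
  | refl => simp
  | @tail f g _ n ih =>
    obtain ⟨⟨n1, n2, n3⟩, n4⟩ := n
    have k : ∀ π : ZMod 2, π + 1 = 0 ↔ ¬π = 0 := by decide
    have h1 := h _ n1
    rw [← n2, sb] at h1
    have h2 := bb f.1.1 f.1.2
    have h3 := bb f.1.2 (o f.1.2)
    rw [n3, n4, if_congr (k _) rfl rfl]
    dsimp only
    split_ifs at ih ⊢ <;> omega

variable [Fintype V]

/-- The constant arcs. -/
def Cs (c : Cx V) (p : Pl V) (s₀ s : V × V) : Prop :=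
  (p.Cn c s ∧ ¬(p.fx ∧ s = p.e₀)) ∨ (p.fx ∧ s = p.e₀.swap) ∨ (p.st ∧ (s = p.e₁ ∨ s = s₀))

/-- The tokens that remain. -/
def Tk (c : Cx V) (p : Pl V) (E : V → V → Prop) (Y : V → Prop) (i o : V → V) (s₀ : V × V)
    (v : V) : Finset V :=
  if Co c.G v ∧ v ∉ p.Um then (Tks E Y i o v).filter fun b =>
    ¬Cs c p s₀ (v, b) ∧ ¬Vr (Y2 p Y) (i2 p i) (o2 p o) (v, b) else ∅

/-- The hypotheses. -/
structure Hp (c : Cx V) (p : Pl V) (γ : ZMod 2) (a : V → V → ZMod 2) (E : V → V → Prop)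
    (Y : V → Prop) (i o : V → V) : Prop where
  ori : Ori c.G c.A c.z c.ρ
  ok : c.Ok (p.ds c)
  tp : Tp c p
  sys : Sys c (p.ds c) γ a E Y i o
  hin : ∀ v, Y v → ¬Fc c.G c.κ v (i v)

theorem fc_symm {G : SimpleGraph V} {κ : V → ZMod 2} {u w : V} (F : Fc G κ u w) : Fc G κ w u :=
  ⟨F.1.symm, F.2.2.1, F.2.1, F.2.2.2.symm⟩

theorem df_pos {G : SimpleGraph V} {κ : V → ZMod 2} {u w : V} (F : Fc G κ u w) : df G κ u ≠ 0 :=
  card_ne_zero.2 ⟨w, mem_filter.2 ⟨mem_univ _, F⟩⟩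

theorem df_one {G : SimpleGraph V} {κ : V → ZMod 2} {u w w' : V} (h : df G κ u = 1)
    (F : Fc G κ u w) (F' : Fc G κ u w') : w = w' :=
  card_le_one.1 h.le _ (mem_filter.2 ⟨mem_univ _, F⟩) _ (mem_filter.2 ⟨mem_univ _, F'⟩)

variable {c : Cx V} {p : Pl V} {γ : ZMod 2} {a : V → V → ZMod 2} {E : V → V → Prop}
  {Y : V → Prop} {i o : V → V}

namespace Hp

variable (H : Hp c p γ a E Y i o)
include H

theorem yc {v : V} (h : Y v) : Co c.G v := (H.sys.yc v h).1.elim (·.1) (·.1)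

theorem xn (m : p.mx) : ¬Co c.G p.e₀.2 := by
  have := (H.tp.mx m).2.2.1.2.2.1
  unfold Co
  omega

theorem co {v : V} (h : Co c.G v) :
    (Y2 p Y v ↔ Y v ∧ v ∉ p.Um) ∧ i2 p i v = i v ∧ o2 p o v = o v := by
  have n : ¬(p.mx ∧ v = p.e₀.2) := fun m => H.xn m.1 (m.2 ▸ h)
  exact ⟨or_iff_left n, if_neg n, if_neg n⟩

theorem umc {v : V} (h : v ∈ p.Um) : Co c.G v := (H.tp.um v h).1.ge

theorem fxa (f : p.fx) :
    c.A p.e₀.1 p.e₀.2 ∧ c.G.Adj p.e₀.1 p.e₀.2 ∧ Co c.G p.e₀.1 ∧ ¬Co c.G p.e₀.2 :=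
  H.ok.fa p.e₀ (by simp [Pl.ds, f])

theorem eA {u w : V} (h : c.G.Adj u w) :
    E u w ↔ (c.A u w ∧ ¬(p.fx ∧ (u, w) = p.e₀)) ∨ (p.fx ∧ (w, u) = p.e₀) := by
  have k : ∀ e, e ∈ (p.ds c).Fx ↔ p.fx ∧ e = p.e₀ := fun e => by
    by_cases f : p.fx <;> simp [Pl.ds, f]
  rw [H.sys.eA u w h (Or.inr (Or.inr ⟨rfl, notMem_empty _, notMem_empty _⟩)), k, k]

theorem step {e f : V × V} (n : Nxt (Y2 p Y) (i2 p i) (o2 p o) e f) :
    (p.mx ∧ e.1 = p.e₀.1 ∧ e.2 = p.e₀.2 ∧ f = (p.e₀.2, p.e₁.2)) ∨ Nxt Y i o e f := by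
  obtain ⟨n1 | n1, n2, n3⟩ := n
  · obtain ⟨-, k1, k2⟩ := H.co (H.yc n1.1)
    exact Or.inr ⟨n1.1, k1 ▸ n2, k2 ▸ n3⟩
  · rw [i2, if_pos n1] at n2
    rw [o2, if_pos n1, n1.2] at n3
    exact Or.inl ⟨n1.1, n2, n1.2, n3⟩

theorem stop (m : p.mx) {f : V × V} : ¬Nxt (Y2 p Y) (i2 p i) (o2 p o) (p.e₀.2, p.e₁.2) f :=
  fun n => (H.tp.mx m).2.2.2.2.2.2.1
    (H.sys.yc _ ((H.co (H.tp.mx m).2.2.1.2.1).1.1 n.1).1).1

theorem chs : Chs c.G E (Y2 p Y) (i2 p i) (o2 p o) := by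
  refine ⟨H.sys.chs.adj, H.sys.chs.ori, fun v h => ?_, fun e h => ?_⟩
  · rcases h with h | h
    · obtain ⟨-, k1, k2⟩ := H.co (H.yc h.1)
      rw [k1, k2]
      exact H.sys.chs.arc v h.1
    · obtain ⟨f, e, t, a0, a1, -⟩ := H.tp.mx h.1
      rw [i2, o2, if_pos h, if_pos h, h.2, H.eA t.2.2.2.2.1, H.eA t.2.2.2.2.2.1]
      exact ⟨Or.inl ⟨a0, fun k => f k.1⟩, Or.inl ⟨e ▸ a1, fun k => f k.1⟩⟩
  · have key : ∀ f, TransGen (Nxt (Y2 p Y) (i2 p i) (o2 p o)) e f →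
        (p.mx ∧ f = (p.e₀.2, p.e₁.2)) ∨ TransGen (Nxt Y i o) e f := fun f r => by
      induction r with
      | single n => exact (H.step n).imp (fun k => ⟨k.1, k.2.2.2⟩) .single
      | tail _ n ih =>
        rcases ih with ⟨m, rfl⟩ | ih
        · exact absurd n (H.stop m)
        · exact (H.step n).imp (fun k => ⟨k.1, k.2.2.2⟩) ih.tail
    rcases key e h with ⟨m, rfl⟩ | k
    · obtain ⟨f, n, -⟩ := TransGen.head'_iff.1 h
      exact H.stop m n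
    · exact H.sys.chs.acyc e k

theorem inv {s : V × V} (hs : Co c.G s.1) {f : (V × V) × ZMod 2}
    (r : ReflTransGen (Nx2 (Y2 p Y) (i2 p i) (o2 p o)) (s, 0) f) :
    (p.mx ∧ f.1 = (p.e₀.2, p.e₁.2) ∧ c.κ p.e₀.1 + 1 = c.κ s.1 + f.2) ∨
      (Co c.G f.1.1 ∧ c.κ f.1.1 = c.κ s.1 + f.2 ∧ ReflTransGen (Nx2 Y i o) (s, 0) f) := by
  induction r with
  | refl => exact Or.inr ⟨hs, by simp, .refl⟩
  | @tail f g _ n ih =>
    rcases ih with ⟨m, e, -⟩ | ⟨k1, k2, k3⟩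
    · exact absurd (e ▸ n.1) (H.stop m)
    rcases H.step n.1 with ⟨m, e1, -, e3⟩ | n'
    · exact Or.inl ⟨m, e3, by rw [← e1, k2, n.2, add_assoc]⟩
    · have y := H.yc n'.1
      have e : g.1.1 = f.1.2 := by rw [n'.2.2]
      refine Or.inr ⟨e ▸ y, ?_, k3.tail ⟨n', n.2⟩⟩
      have q : c.κ f.1.2 ≠ c.κ f.1.1 := fun q => H.hin _ n'.1
        ⟨(H.sys.chs.adj _ _ (H.sys.chs.arc _ n'.1).1).symm, y, n'.2.1 ▸ k1, n'.2.1 ▸ q⟩
      have k : ∀ s t : ZMod 2, s ≠ t → s = t + 1 := by decide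
      rw [e, k _ _ q, k2, n.2, add_assoc]

theorem vr {v b : V} (hv : Co c.G v) (hu : v ∉ p.Um) (h : p.mx → v = p.e₁.2 → v ∈ p.U)
    (r : Vr (Y2 p Y) (i2 p i) (o2 p o) (v, b)) : Vr Y i o (v, b) := by
  obtain ⟨e, ⟨r1, r2⟩, r3⟩ := r
  rcases H.inv hv r1 with ⟨m, e1, e2⟩ | ⟨-, -, k⟩
  · have e3 : v = p.e₁.2 := r3.symm.trans (congrArg Prod.snd e1 :)
    exact absurd (add_right_cancel e2) (e3 ▸ (H.tp.mx m).2.2.2.2.2.2.2.2 (e3 ▸ h m e3))
  · obtain ⟨k1, k2, -⟩ := H.co (v := e.2) (r3 ▸ hv)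
    exact ⟨e, ⟨k, fun y => r2 ⟨k1.2 ⟨y.1, r3 ▸ hu⟩, k2 ▸ y.2⟩⟩, r3⟩

theorem out_in {v y : V} (hv : Co c.G v) (hd : dg c.G v ≤ #(Out c.A v) + 1) (a1 : c.A y v)
    (a2 : c.G.Adj v y) {y' : V} (a3 : c.A y' v) (a4 : c.G.Adj v y') : y = y' := by
  by_contra n
  have k : K c.G v := le_trans (by norm_num) hv
  have s : insert y (insert y' (Out c.A v)) ⊆ N c.G v :=
    insert_subset (Frame.mem_N.2 a2) (insert_subset (Frame.mem_N.2 a4) fun b hb =>
      Frame.mem_N.2 (H.ori.outK v b k (mem_filter.1 hb).2))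
  have := card_le_card s
  rw [card_insert_of_notMem, card_insert_of_notMem] at this
  · unfold dg at hd
    omega
  · exact fun m => H.ori.asym _ _ a3 (mem_filter.1 m).2
  · exact fun m => (mem_insert.1 m).elim n fun m => H.ori.asym _ _ a1 (mem_filter.1 m).2

theorem vd {v y b : V} (F : Fc c.G c.κ v y) (r : Vd (Y2 p Y) (i2 p i) (o2 p o) (v, b) y) :
    Vd Y i o (v, b) y := by
  obtain ⟨e, ⟨r1, r2⟩, rfl⟩ := r
  have d := df_pos (fc_symm F)
  rcases H.inv F.2.1 r1 with ⟨m, e1, -⟩ | ⟨k0, -, k⟩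
  · exact absurd ((congrArg Prod.snd e1).symm ▸ (H.tp.mx m).2.2.2.2.2.2.2.1) d
  obtain ⟨k1, k2, -⟩ := H.co F.2.2.1
  refine ⟨e, ⟨k, fun y => ?_⟩, rfl⟩
  by_cases hu : e.2 ∈ p.Um
  swap
  · exact r2 ⟨k1.2 ⟨y.1, hu⟩, k2 ▸ y.2⟩
  obtain ⟨d3, -, nf, h | ⟨-, -, -, -, -, x, x1, x2, x3⟩⟩ := H.tp.um _ hu
  · exact d h
  have t : c.To e.2 := (H.sys.yc _ y.1).1.resolve_left fun w => by
    have := w.2.2.1
    rw [d3] at this
    exact absurd this (by decide)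
  have e1 := (H.sys.chs.arc _ y.1).1
  have e2 := H.sys.chs.adj _ _ e1
  rcases (H.eA e2).1 e1 with h | h
  · have := H.out_in F.2.2.1 (by have := t.2.2; omega) x1 x2 h.1 e2.symm
    exact x3 (this ▸ y.2 ▸ k0)
  · exact nf ⟨h.1, by rw [← h.2]⟩

theorem self {v y : V} (F : Fc c.G c.κ v y) : Vd Y i o (v, y) y :=
  ⟨(v, y), ⟨.refl, fun h => H.hin y h.1 (h.2 ▸ fc_symm F)⟩, rfl⟩

theorem cs {s₀ : V × V} {v b : V} (hv : Co c.G v) (hu : v ∉ p.Um) (h : Cs c p s₀ (v, b)) :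
    (v, b) ∈ p.hA ∨ (p.st ∧ (v, b) = s₀) := by
  rcases h with ⟨⟨-, -, h | h | h | h⟩, n⟩ | h | ⟨s, h | h⟩
  · exact absurd hv h.1
  · exact absurd h hu
  · exact absurd h n
  · exact Or.inl h
  · exact absurd (show Co c.G p.e₀.swap.1 from h.2 ▸ hv) (H.fxa h.1).2.2.2
  · exact absurd (show Co c.G p.e₁.1 from h ▸ hv) (H.ok.st s).2.2.2.2.2.2.2.2.1
  · exact Or.inr ⟨s, h⟩

theorem one (s₀ : V × V) {v : V} (hv : Co c.G v) : df c.G c.κ v + (if v ∈ p.U then 2 else 0) ≤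
    #(Tk c p E Y i o s₀ v) + ind (if p.st then some s₀.1 else p.v₁) {v} := by
  by_cases hu : v ∈ p.Um
  · obtain ⟨-, n, -, h | ⟨h1, -, h2, h3, -⟩⟩ := H.tp.um v hu
    · simp [n, h]
    · simp [n, h1, h2, h3, ind_one]
  by_cases h : p.mx → v = p.e₁.2 → v ∈ p.U
  swap
  · push Not at h
    have := (H.tp.mx h.1).2.2.2.2.2.2.2.1
    rw [← h.2.1] at this
    simp [h.2.2, this]
  have s : Tks E Y i o v ⊆ Tk c p E Y i o s₀ v ∪ (p.hA.filter fun e => e.1 = v).image Prod.snd ∪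
      if p.st ∧ s₀.1 = v then {s₀.2} else ∅ := fun b hb => by
    by_cases k : Cs c p s₀ (v, b)
    · rcases H.cs hv hu k with k | ⟨k', rfl⟩
      · exact mem_union_left _ (mem_union_right _ (mem_image.2 ⟨_, mem_filter.2 ⟨k, rfl⟩, rfl⟩))
      · simp [k']
    · rw [Tk, if_pos ⟨hv, hu⟩]
      exact mem_union_left _ (mem_union_left _ (mem_filter.2
        ⟨hb, k, fun r => (mem_filter.1 hb).2.2.2 (H.vr hv hu h r)⟩))
  have s1 := (card_le_card s).trans ((card_union_le _ _).trans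
    (Nat.add_le_add_right ((card_union_le _ _).trans (Nat.add_le_add_left card_image_le _)) _))
  have s2 := H.sys.tk v hv (notMem_empty _)
  have s3 := H.tp.cnt v hv hu
  by_cases st : p.st
  · rw [(H.tp.st st).1] at s3
    simp only [st, true_and, ind_one, if_true, Option.some.injEq, reduceCtorEq, if_false] at *
    split_ifs at * <;> simp only [card_singleton, card_empty] at s1 <;> omega
  · simp only [st, false_and, if_false, card_empty] at *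
    split_ifs at * <;> omega

theorem val (s₀ : V × V) {v y : V} (F : Fc c.G c.κ v y) (hu : v ∉ p.Um) :
    #((Tks E Y i o v).filter fun b => ¬Vd Y i o (v, b) y) ≤
      #((Tk c p E Y i o s₀ v).filter fun b => ¬Vd (Y2 p Y) (i2 p i) (o2 p o) (v, b) y) +
        if p.st ∧ s₀.1 = v then 1 else 0 := by
  have s : ((Tks E Y i o v).filter fun b => ¬Vd Y i o (v, b) y) ⊆
      ((Tk c p E Y i o s₀ v).filter fun b => ¬Vd (Y2 p Y) (i2 p i) (o2 p o) (v, b) y) ∪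
        if p.st ∧ s₀.1 = v then {s₀.2} else ∅ := fun b hb => by
    obtain ⟨b1, b2⟩ := mem_filter.1 hb
    by_cases k : Cs c p s₀ (v, b)
    · rcases H.cs F.2.1 hu k with k | ⟨k', rfl⟩
      · rcases (H.tp.ha _ k).2.2.2.2.2.2 with d | d
        · exact absurd d (df_pos F)
        · obtain rfl : y = b := df_one d.1 F d.2
          exact absurd (H.self F) b2
      · simp [k']
    · rw [Tk, if_pos ⟨F.2.1, hu⟩]
      exact mem_union_left _ (mem_filter.2 ⟨mem_filter.2 ⟨b1, k, fun r =>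
        (mem_filter.1 b1).2.2.2 (H.vr F.2.1 hu (fun m e => absurd
          (e ▸ (H.tp.mx m).2.2.2.2.2.2.2.1) (df_pos F)) r)⟩, fun r => b2 (H.vd F r)⟩)
  refine ((card_le_card s).trans (card_union_le _ _)).trans (le_of_eq ?_)
  split_ifs <;> rfl

theorem exc {v y : V} (F : Fc c.G c.κ v y) (hu : v ∈ p.Um) :
    p.v₁ = some v ∧ p.v₀ = none ∧ ¬p.st ∧
      #((Tks E Y i o v).filter fun b => ¬Vd Y i o (v, b) y) ≤ 1 := by
  obtain ⟨d3, -, -, h | ⟨h1, h2, h3, h4, h5, -⟩⟩ := H.tp.um v hu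
  · exact absurd h (df_pos F)
  refine ⟨h1, h2, h3, ?_⟩
  have s : ((Tks E Y i o v).filter fun b => ¬Vd Y i o (v, b) y) ⊆ (Out c.A v).erase y :=
    fun b hb => by
      obtain ⟨b1, b2⟩ := mem_filter.1 hb
      have e := (mem_filter.1 b1).2.1
      refine mem_erase.2 ⟨fun k => b2 (by rw [k]; exact H.self F), mem_filter.2 ⟨mem_univ _, ?_⟩⟩
      rcases (H.eA (H.sys.chs.adj _ _ e)).1 e with k | k
      · exact k.1
      · exact absurd (show Co c.G p.e₀.2 from k.2 ▸ F.2.1) (H.fxa k.1).2.2.2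
  refine (card_le_card s).trans ?_
  have sm := (H.ori.smooth v (le_trans (by norm_num) F.2.1)).2
  by_cases t : c.To v
  · obtain ⟨b, hb⟩ := h5 t
    obtain rfl := df_one h4 F (mem_filter.1 hb).2.2
    rw [card_erase_of_mem (s := Out c.A v) (mem_filter.2 ⟨mem_univ _, (mem_filter.1 hb).2.1⟩)]
    omega
  · have : #(Out c.A v) ≠ (dg c.G v + 1) / 2 := fun k => t ⟨F.2.1, by rw [d3]; decide, k⟩
    exact card_erase_le.trans (by omega)

theorem tok (s₀ : V × V) : Tok c.G c.κ (Y2 p Y) (i2 p i) (o2 p o) p.U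
    (if p.st then some s₀.1 else p.v₁) (Tk c p E Y i o s₀) := by
  refine ⟨fun X hX => ?_, fun u w F => ?_⟩
  · have := sum_le_sum fun v hv => H.one s₀ (hX v hv)
    rw [sum_add_distrib (f := fun v => #(Tk _ _ _ _ _ _ _ v)), ind_sum] at this
    omega
  have h := H.sys.tok.h2 u w F
  change _ ≤ _ + _ + ind p.v₀ _ at h
  rw [ind_two _ F.1.ne, ind_one, ind_one] at h ⊢
  by_cases hu : u ∈ p.Um
  · obtain ⟨k1, k2, k3, k4⟩ := H.exc F hu
    have k5 := H.val s₀ (fc_symm F) fun hw => F.1.ne (Option.some.inj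
      (k1.symm.trans (H.exc (fc_symm F) hw).1))
    simp only [k1, k2, k3, false_and, if_false, if_true, reduceCtorEq] at h k5 ⊢
    omega
  by_cases hw : w ∈ p.Um
  · obtain ⟨k1, k2, k3, k4⟩ := H.exc (fc_symm F) hw
    have k5 := H.val s₀ F hu
    simp only [k1, k2, k3, false_and, if_false, if_true, reduceCtorEq] at h k5 ⊢
    omega
  have k1 := H.val s₀ F hu
  have k2 := H.val s₀ (fc_symm F) hw
  by_cases st : p.st
  · have e : p.v₀ = none := H.tp.v01.elim id fun e => e.trans (H.tp.st st).1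
    simp only [st, e, true_and, if_true, Option.some.injEq, reduceCtorEq, if_false] at h k1 k2 ⊢
    omega
  · simp only [st, false_and, if_false] at k1 k2 ⊢
    rcases H.tp.v01 with e | e
    · simp only [e, reduceCtorEq, if_false] at h
      omega
    · rw [e] at h
      omega

end Hp

end TReal

open TReal in
theorem real : SReal := by
  intro hG hB V _ c p γ L τ' ho hp hk T hL
  obtain ⟨a, E, Y, i, o, S, hin⟩ := hG V c (p.ds c) γ ho hp hk
  have H : Hp c p γ a E Y i o := ⟨ho, hk, T, S, hin rfl⟩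
  obtain ⟨⟨s₀, π⟩, hg⟩ := BlevA.st_ex H.chs p.e₀
  have e0 : p.st → E p.e₀.1 p.e₀.2 ∧ ¬p.fx := fun s => by
    obtain ⟨k1, k2, -, -, k3, -⟩ := hk.st s
    have f : ¬p.fx := fun f => k3 (by simp [Pl.ds, f])
    exact ⟨(H.eA k2).2 (Or.inl ⟨k1, fun k => f k.1⟩), f⟩
  have ny : ∀ v, ¬Co c.G v → Y2 p Y v → p.mx ∧ v = p.e₀.2 := fun v n y =>
    y.resolve_left fun y => n (H.yc y.1)
  have sπ : p.st → s₀ = p.e₁ → π = 1 := fun s e => by
    refine S.star s π ?_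
    have r := (hg (e0 s).1).2
    rw [e] at r
    exact ReflTransGen.mono (r := Nx2 (Y2 p Y) (i2 p i) (o2 p o))
      (fun f g n => ⟨(H.step n.1).resolve_left fun m => (T.st s).2.1 m.1, n.2⟩) _ _ r
  obtain ⟨b, sb, bb, bc, by2, bf, bu⟩ := hB V c.G c.κ E _ _ _ p.U _ (Tk c p E Y i o s₀)
    (Cs c p s₀) (fun s => if p.fx ∧ s = p.e₀.swap then L a p.e₀ else
      if p.st ∧ s = p.e₁ then (if π = 0 then 1 - L a s₀ else L a s₀) else L a s)
    (fun v => ∑ w ∈ N c.G v, if a v w = 1 then 1 else 2) (τ' a) H.chs T.uc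
    (fun s h => by
      refine and_assoc.1 ⟨?_, ?_⟩
      · rcases h with ⟨⟨a1, a2, h⟩, n⟩ | ⟨f, rfl⟩ | ⟨st, rfl | rfl⟩
        · refine ⟨(H.eA a2).2 (Or.inl ⟨a1, n⟩), fun y => ?_⟩
          rcases h with h | h | h | h
          · have m := ny _ h.1 y.1
            rw [o2, if_pos m] at y
            exact h.2 ⟨Or.inr m.1, Prod.ext (m.2.trans (T.mx m.1).2.1) y.2⟩
          · exact ((H.co (H.umc h)).1.1 y.1).2 h
          · exact n h
          · exact (T.ha s h).2.2.2.1 (S.yc _ ((H.co (T.ha s h).2.2.1).1.1 y.1).1).1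
        · exact ⟨(H.eA (H.fxa f).2.1.symm).2 (Or.inr ⟨f, rfl⟩),
            fun y => (T.mx (ny _ (H.fxa f).2.2.2 y.1).1).1 f⟩
        · obtain ⟨-, -, -, -, -, -, k1, k2, k3, -⟩ := hk.st st
          exact ⟨(H.eA k2).2 (Or.inl ⟨k1, fun k => (e0 st).2 k.1⟩),
            fun y => (T.st st).2.1 (ny _ k3 y.1).1⟩
        · exact (hg (e0 st).1).1
      · have h1 := hL a p.e₀
        have h2 := hL a s₀
        have h3 := hL a s
        split_ifs <;> omega)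
    (fun v b hb => by
      unfold Tk at hb
      split_ifs at hb with k
      · obtain ⟨b1, b2⟩ := mem_filter.1 hb
        obtain ⟨k1, -, k2⟩ := H.co k.1
        exact ⟨(mem_filter.1 b1).2.1, fun y => (mem_filter.1 b1).2.2.1
          ⟨(k1.1 y.1).1, k2 ▸ y.2⟩, b2⟩
      · exact absurd hb (notMem_empty _))
    (H.tok s₀)
  have sI : ∀ v, (sg c.G (cl a b) v : ℤ) =
      (∑ w ∈ N c.G v, if a v w = 1 then 1 else 2) + 2 * ∑ w ∈ N c.G v, b v w := fun v => by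
    rw [sg, Nat.cast_sum, mul_sum, ← sum_add_distrib]
    exact sum_congr rfl fun w _ => Frame.col_int _ (bb v w)
  refine ⟨a, b, S.sym, sb, bb, S.root, S.sum, fun v hv j => ?_, fun e h => ?_, fun h => ?_,
    fun u w F e => bf u w F (by rw [← sI, ← sI, e]), fun v hv => sI v ▸ bu v hv⟩
  · refine (S.qm v hv j).imp_right fun ⟨y, q1, q2, q3⟩ => ⟨(S.yc v y).1, q3, ?_⟩
    refine or_iff_not_imp_left.2 fun hu => ?_
    obtain ⟨k1, k2, k3⟩ := H.co hv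
    have := by2 v (k1.2 ⟨y, hu⟩)
    rw [k2, k3] at this
    exact ⟨i v, o v, (S.chs.adj _ _ (S.chs.arc v y).1).symm, S.chs.adj _ _ (S.chs.arc v y).2,
      q1, q2, this⟩
  · by_cases f : p.fx ∧ e = p.e₀
    · have := bc _ (Or.inr (Or.inl ⟨f.1, rfl⟩))
      rw [if_pos ⟨f.1, rfl⟩] at this
      rw [f.2, sb]
      exact this
    rw [bc e (Or.inl ⟨h, f⟩), if_neg, if_neg]
    · rintro ⟨st, rfl⟩
      have k := (hk.st st).2.2.2.2.2.2.2.2.1
      rcases h.2.2 with h | h | h | h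
      exacts [h.2 ⟨Or.inl st, rfl⟩, k (H.umc h), f h, k (T.ha _ h).2.2.1]
    · rintro ⟨f', rfl⟩
      exact ho.asym _ _ (H.fxa f').1 h.1
  · rcases h with st | m
    · have r := along sb bb by2 (hg (e0 st).1).2
      have k1 := bc _ (Or.inr (Or.inr ⟨st, Or.inl rfl⟩))
      have k2 := bc _ (Or.inr (Or.inr ⟨st, Or.inr rfl⟩))
      rw [if_neg fun k => (e0 st).2 k.1] at k1 k2
      rw [if_pos ⟨st, rfl⟩] at k1
      have k3 : b s₀.1 s₀.2 = L a s₀ := by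
        rw [k2]
        split_ifs with k k'
        · exact absurd (k'.symm.trans (sπ st k.2)) (by decide)
        · rfl
        · rfl
      have := hL a s₀
      simp only at r
      rw [r, k1, k3]
      split_ifs <;> omega
    · have := by2 _ (Or.inr ⟨m, rfl⟩)
      rwa [i2, o2, if_pos ⟨m, rfl⟩, if_pos ⟨m, rfl⟩, sb, (T.mx m).2.1, ← (T.mx m).2.1,
        show b p.e₀.2 p.e₁.2 = b p.e₁.1 p.e₁.2 by rw [(T.mx m).2.1]] at this

end

end Pool.Agent.MP_d1f1f3_co.H47.TH
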