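import Pool.Agent.MP_d1f1f3_co.H47.SpecT
import Pool.Agent.MP_d1f1f3_co.H33.All

/-!
From the two base cases to all graphs.
-/

namespace Pool.Agent.MP_d1f1f3_co.H47.TH

open Finset Relation H47 H2 H33
open scoped Classical

/-- The base case without vertices of degree two and with at most one leaf. -/
def SOne : Prop :=
  ∀ (V : Type) [Fintype V] (G : SimpleGraph V) (h : V), IH tp G → dg G h = 0 → H47.Con G →
    TwoK G → (∀ v, dg G v ≠ 2) →
    (∀ z ρ γ τ, N G z = {ρ} → Co G ρ → 1 ≤ γ → γ ≤ 4 → (∀ z', dg G z' = 1 → z' = z) →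
      Goal G z ρ γ τ) ∧
    ((∀ v, dg G v ≠ 1) → (∃ v, Co G v) → ∃ c, Col G c)

theorem gr {V : Type} [Fintype V] {G : SimpleGraph V} (ih : IH tp G) (hc : H47.Con G)
    (h2 : TwoK G) {r r' : V} (k : K G r) (k' : K G r') (n : r' ≠ r) :
    (Star tp G ∧ Mai tp G) ∨ Gr G := by
  refine or_iff_not_imp_left.2 fun h => ⟨hc, h2, Red.K_end hc k, fun x y dx a => ?_,
    fun x y y' dx dy dy' a a' => by_contra fun e => h (thr ih h2 dy dx dy' a.symm a' e),
    fun u x x' du dx dx' a a' e => h (paw ih du dx dx' a e a'.symm)⟩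
  by_cases e : r = x
  · exact no_leaf h2 dx k' (e ▸ n) a
  · exact no_leaf h2 dx k e a

theorem top (h1 : SOne) (h2 : SThr) (V : Type) [Fintype V] (G : SimpleGraph V) : Mai tp G := by
  refine (red2 tp (fun G ih hT h z ρ γ τ hh hc hd hz kρ g1 g4 => ?_)
    (fun G h ih hh hc hd hT hl h5 => ?_) G).2
  · by_cases s : ∀ v, K G v → v = ρ
    · exact star1 V tp G ρ s h z ρ γ τ hh hc hd hz kρ g1 g4
    push Not at s
    obtain ⟨v, kv, n⟩ := s
    rcases gr ih hc hT kρ kv n with r | g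
    · exact r.1 h z ρ γ τ hh hc hd hz kρ g1 g4
    have c : Co G ρ := by
      by_contra c
      have := g.nb ρ z (by unfold Co at c; unfold K at kρ; omega)
        (Frame.mem_N.1 (hz ▸ mem_singleton_self ρ)).symm
      rw [K, dg, hz, card_singleton] at this
      omega
    by_cases e : (∃ x, dg G x = 2) ∨ ∃ z', z' ≠ z ∧ dg G z' = 1
    · exact (h2 V G h hh g).1 z ρ γ τ hz c g1 g4 e
    · push Not at e
      exact (h1 V G h ih hh hc hT e.1).1 z ρ γ τ hz c g1 g4 fun z' d => by_contra fun k =>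
        e.2 z' k d
  · by_cases s : ∀ v, dg G v = 0 ∨ dg G v = 2
    · exact cyc V G hc s h5
    push Not at s
    obtain ⟨v, v0, v2⟩ := s
    have v1 := hl v
    have c : Co G v := by unfold Co; omega
    by_cases e : ∃ x, dg G x = 2
    · obtain ⟨x, dx⟩ := e
      have k : K G v := le_trans (by norm_num) c
      rcases gr ih hc hT k dx.ge (fun e => v2 (e ▸ dx)) with r | g
      · exact r.2 h hh hc hd (Red.K_end hc k) h5
      · exact (h2 V G h hh g).2 hl ⟨x, dx⟩ ⟨v, c⟩
    · exact (h1 V G h ih hh hc hT (not_exists.1 e)).2 hl ⟨v, c⟩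

end Pool.Agent.MP_d1f1f3_co.H47.TH
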