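import Pool.Agent.MP_d1f1f3_co.H47.TAsm
import Pool.Agent.MP_d1f1f3_co.H47.TB1
import Pool.Agent.MP_d1f1f3_co.H47.TB2
import Pool.Agent.MP_d1f1f3_co.H47.TB3
import Pool.Agent.MP_d1f1f3_co.H47.TCol
import Pool.Agent.MP_d1f1f3_co.H47.TExA
import Pool.Agent.MP_d1f1f3_co.H47.TExB
import Pool.Agent.MP_d1f1f3_co.H47.TGen
import Pool.Agent.MP_d1f1f3_co.H47.TLoc
import Pool.Agent.MP_d1f1f3_co.H47.TOk
import Pool.Agent.MP_d1f1f3_co.H47.TOri0
import Pool.Agent.MP_d1f1f3_co.H47.TOriR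
import Pool.Agent.MP_d1f1f3_co.H47.TPair
import Pool.Agent.MP_d1f1f3_co.H47.TPot
import Pool.Agent.MP_d1f1f3_co.H47.TReal
import Pool.Agent.MP_d1f1f3_co.H47.TTop

/-!
Graphs with a vertex of degree two or with two leaves, assembled.
-/

namespace Pool.Agent.MP_d1f1f3_co.H47.TH

theorem thr2 : SThr :=
  asmT genH H2.blev2 real okr col loc pot exA exB pair3 oriR ori0 b1 (b2 b1) (b3 (b2 b1))

end Pool.Agent.MP_d1f1f3_co.H47.TH
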