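import Pool.Agent.MP_d1f1f3_co.H47.SpecT
import Pool.Agent.MP_d1f1f3_co.H33.Spec

/-!
Assembly of the rows for graphs with vertices of degree two.
-/

namespace Pool.Agent.MP_d1f1f3_co.H47.TH

open Finset Relation H47 H2
open scoped Classical

namespace TAsm

variable {V : Type} [Fintype V] {G : SimpleGraph V} {A : V → V → Prop} {z ρ : V}

theorem pos {u w : V} (h : G.Adj u w) : 1 ≤ dg G w :=
  card_pos.2 ⟨u, Frame.mem_N.2 h.symm⟩

theorem thru (hO : Ori G A z ρ) {x a b : V} (hd : dg G x = 2) (ha : G.Adj x a) (hb : G.Adj x b)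
    (hab : a ≠ b) : (A a x ∧ A x b) ∨ (A b x ∧ A x a) := by
  have hK : K G x := hd.ge
  have h1 := hO.smooth x hK
  rw [hd] at h1
  obtain ⟨o, ho⟩ := card_eq_one.1 (le_antisymm h1.2 h1.1)
  have h2 : ∀ y, A x y ↔ y = o := fun y => by simpa [Out] using Finset.ext_iff.1 ho y
  have h3 := Frame.mem_N.2 (hO.outK x o hK ((h2 o).2 rfl))
  rw [H33.N2 hd ha hb hab, mem_insert, mem_singleton] at h3
  rcases h3 with rfl | rfl
  · exact Or.inr ⟨(hO.real x b hb).resolve_left fun h => hab ((h2 b).1 h).symm, (h2 _).2 rfl⟩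
  · exact Or.inl ⟨(hO.real x a ha).resolve_left fun h => hab ((h2 a).1 h), (h2 _).2 rfl⟩

theorem other (hG : Gr G) {x x' : V} (h : dg G x = 2) (h' : dg G x' = 2) (ha : G.Adj x x') :
    ∃ u, u ≠ x' ∧ G.Adj x u ∧ Co G u := by
  obtain ⟨u, h1, h2⟩ := H33.other h x'
  refine ⟨u, h1, h2, ?_⟩
  have h3 : 2 ≤ dg G u := hG.nb x u h h2
  have h4 : dg G u ≠ 2 := fun e => h1 (hG.sh x u x' h e h' h2 ha)
  unfold Co
  omega

theorem thread (hG : Gr G) (hO : Ori G A z ρ) {I : Finset V}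
    (h : I = ∅ ∨ (∃ x, D1 G x ∧ I = {x}) ∨
      ∃ x x', dg G x = 2 ∧ dg G x' = 2 ∧ G.Adj x x' ∧ I = {x, x'}) :
    ∃ u x x' w, I.Nonempty → Th G u x x' w ∧ I = {x, x'} ∧ A u x ∧ A x' w := by
  rcases h with rfl | ⟨x, ⟨h1, h2⟩, rfl⟩ | ⟨x, x', h1, h2, h3, rfl⟩
  · exact ⟨z, z, z, z, fun h => absurd h not_nonempty_empty⟩
  · obtain ⟨a, -, ha⟩ := H33.other h1 x
    obtain ⟨b, hab, hb⟩ := H33.other h1 a
    rcases thru hO h1 hb ha hab with h | h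
    · exact ⟨b, x, x, a, fun _ => ⟨⟨h2 b hb, h2 a ha, h1, h1, hb.symm, ha, Or.inl ⟨rfl, hab⟩⟩,
        by simp, h⟩⟩
    · exact ⟨a, x, x, b, fun _ => ⟨⟨h2 a ha, h2 b hb, h1, h1, ha.symm, hb,
        Or.inl ⟨rfl, hab.symm⟩⟩, by simp, h⟩⟩
  · obtain ⟨u, u1, u2, u3⟩ := other hG h1 h2 h3
    obtain ⟨w, w1, w2, w3⟩ := other hG h2 h1 h3.symm
    rcases thru hO h1 u2 h3 u1 with h | h <;> rcases thru hO h2 w2 h3.symm w1 with h' | h'
    · exact absurd h'.2 (hO.asym _ _ h.2)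
    · exact ⟨u, x, x', w, fun _ => ⟨⟨u3, w3, h1, h2, u2.symm, w2, Or.inr h3⟩, rfl, h.1, h'.2⟩⟩
    · exact ⟨w, x', x, u, fun _ => ⟨⟨w3, u3, h2, h1, w2.symm, u2, Or.inr h3.symm⟩,
        pair_comm _ _, h'.1, h.2⟩⟩
    · exact absurd h'.1 (hO.asym _ _ h.1)

theorem last (h1 : SGenH) (h2 : SBlev2) (h3 : SReal) (h4 : SOk) (h5 : SCol) (h6 : SLoc)
    (b1 : SB1) (b2 : SB2) (b3 : SB3) (hG : Gr G) (hO : Ori G A z ρ) {γ τ : ℕ} (g1 : 1 ≤ γ)
    (g4 : γ ≤ 4) (hr : G.Adj z ρ → Co G ρ ∧ dg G z = 1) {r : Option V}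
    (er : (if G.Adj z ρ then some ρ else none) = r) {κ : V → ZMod 2} {s : Sd V}
    (hs : Sta G r τ κ s) {π : V → V → V} (hπ : ∀ v a b, Ex G r τ κ s v a b → π v a = b)
    (hp : Opp G π A) (hf : OF ⟨G, A, z, ρ, κ⟩) (ht : RtOk ⟨G, A, z, ρ, κ⟩)
    (hP : Par G A z ρ κ γ) (h5' : s.g5 → ∃ x, s.I = {x} ∧ G.Adj ρ x ∧ A ρ x) :
    Goal G z ρ γ τ := by
  subst er
  obtain ⟨u, x, x', w, hth⟩ := thread hG hO hs.inn
  let B : Bc V := ⟨⟨G, A, z, ρ, κ⟩, s, γ, τ, u, x, x', w⟩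
  have hB : B.Hy := by
    refine ⟨hG, hO, g1, g4, hr, hs, hf, ht, fun v a b e => ?_, hth, fun e => ?_⟩
    · have e1 := hπ v a b e
      have e2 := hp v a (one_lt_card.2 ⟨a, Frame.mem_N.2 e.2.1, b, Frame.mem_N.2 e.2.2.1, e.1⟩)
        e.2.1 (by rw [e1]; exact e.1.symm)
      rwa [e1] at e2
    · obtain ⟨y, e1, e2, e3⟩ := h5' e
      obtain ⟨⟨-, -, t1, -, t2, t3, t4⟩, t5, -, t6⟩ := hth (by simp [e1])
      rw [e1] at t5
      obtain rfl : x = y := mem_singleton.1 (by simp [t5])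
      obtain rfl : x' = x := mem_singleton.1 (by rw [t5]; simp)
      have e4 := Frame.mem_N.2 e2.symm
      rw [H33.N2 t1 t2.symm t3 (t4.resolve_right G.irrefl).2, mem_insert, mem_singleton] at e4
      rcases e4 with rfl | rfl
      · rfl
      · exact absurd t6 (hO.asym _ _ e3)
  have hL0 : ∀ a e, B.L0 a e = 0 ∨ B.L0 a e = 1 := fun a e => by
    unfold Bc.L0
    split_ifs <;> simp
  obtain ⟨a, b, hab⟩ := h3 h1 h2 V B.c B.pl γ B.L B.τ' hO hP (h4 V _ _ hO (b1 V B hB))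
    (b2 V B hB) fun a e => by
      have := hL0 a e
      have := hL0 a (B.u, B.x)
      unfold Bc.L
      split_ifs <;> omega
  exact h6 h5 V B.c B.pl γ τ _ _ a b hG hO g1 g4 hab (b3 V B a b hB hab)

end TAsm

open TAsm in
theorem asmT : SAsmT := by
  intro h1 h2 h3 h4 h5 h6 hPot hA hB hP hR h0 b1 b2 b3 V _ G h hh hG
  refine ⟨fun z ρ γ τ hz hρ g1 g4 hx => ?_, fun hl hx hc => ?_⟩
  · have a1 : G.Adj z ρ := Frame.mem_N.1 (by simp [hz])
    have a2 : dg G z = 1 := by rw [dg, hz, card_singleton]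
    have a3 : Rr G (some ρ) := fun _ e => by
      obtain rfl := Option.some.inj e
      exact ⟨hρ, z, a1.symm, a2⟩
    have a4 : K G ρ := le_trans (by norm_num) hρ
    obtain ⟨κ, s, hs, hγ⟩ : ∃ κ s, Sta G (some ρ) τ κ s ∧ ((∃ z', z' ≠ z ∧ dg G z' = 1) ∨
        ∑ v ∈ univ.filter (K G), κ v = γ) := by
      by_cases e : (∃ z', z' ≠ z ∧ dg G z' = 1) ∨ ∃ x x', dg G x = 2 ∧ dg G x' = 2 ∧ G.Adj x x'
      · exact hA hPot V G _ γ τ _ hG a3 e
      · obtain ⟨e1, e2⟩ := not_or.1 e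
        have e3 : ∀ y, dg G y = 1 → y = z := fun y hy => by_contra fun e => e1 ⟨y, e, hy⟩
        obtain ⟨κ, s, k1, k2⟩ := hB hPot V G _ γ τ hG a3 (hx.resolve_right e1)
          (fun x x' a b c => e2 ⟨x, x', a, b, c⟩) (fun y y' a b => (e3 y a).trans (e3 y' b).symm)
          (by simp)
        exact ⟨κ, s, k1, Or.inr k2⟩
    obtain ⟨π, p1, p2, p3⟩ := hP V G _ τ κ s a3 hs
    obtain ⟨r1, r2⟩ := hR V G h z ρ π hh hG.con hG.two hz a4 p1
    obtain ⟨A, o1, o2, o3, o4⟩ : ∃ A, Ori G A z ρ ∧ Opp G π A ∧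
        ((∃ z', z' ≠ z ∧ dg G z' = 1) → ∃ u w, A u w ∧ ¬K G w) ∧
        (s.g5 → ∃ x, s.I = {x} ∧ G.Adj ρ x ∧ A ρ x) := by
      by_cases e : s.g5
      · obtain ⟨-, e1, e2, ρ', x, e3, e4, e5, e6, -, -, e7, -⟩ := hs.g e
        obtain rfl := Option.some.inj e3
        have e8 : dg G x = 2 := by
          rcases hs.inn with i | ⟨y, i, j⟩ | ⟨y, y', i, -, -, j⟩
          · simp [e4] at i
          · rw [e4, singleton_inj] at j
            exact j ▸ i.1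
          · obtain rfl : y = x := mem_singleton.1 (by simp [← e4, j])
            exact i
        obtain ⟨b, c1, c2⟩ : ∃ b ∈ N G ρ, b ∉ ({z, x} : Finset V) :=
          exists_mem_notMem_of_card_lt_card (card_le_two.trans_lt (le_of_eq e6.symm))
        rw [mem_insert, mem_singleton, not_or] at c2
        have c3 := Frame.mem_N.1 c1
        have c4 : K G b := lt_of_le_of_ne (pos c3) fun e => c2.1 (e2 b z e.symm a2)
        obtain ⟨A, o1, o2, o3⟩ := r2 (fun y hy => e2 y z hy a2) (by rw [e6]; decide)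
          ((p2 ρ x b ⟨Ne.symm c2.2, e5, c3, Or.inr (Or.inr (Or.inr
            ⟨rfl, e6, e7, e8.ge, c4, fun h => e1 h.1⟩))⟩).2 z (fun e => by subst e; omega)
            (Ne.symm c2.1)) x e5 e8.ge
        exact ⟨A, o1, o2, fun ⟨y, a, b⟩ => absurd (e2 y z b a2) a, fun _ => ⟨x, e4, e5, o3⟩⟩
      · obtain ⟨A, o1, o2, o3⟩ := r1
        exact ⟨A, o1, o2, o3, fun e' => absurd e' e⟩
    exact last h1 h2 h3 h4 h5 h6 b1 b2 b3 hG o1 g1 g4 (fun _ => ⟨hρ, a2⟩) (if_pos a1) hs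
      (fun v a b e => (p2 v a b e).1) o2 (p3 A z ρ o1 o2) (fun e => absurd a1 e)
      (hγ.imp o3 fun e => by rw [if_pos a1, e]) o4
  · have a3 : Rr G none := fun _ e => by simp at e
    obtain ⟨κ, s, hs, hγ⟩ : ∃ κ s, Sta G none ((0 : ℕ) : ZMod 2) κ s ∧
        ∑ v ∈ univ.filter (K G), κ v = 0 := by
      by_cases e : ∃ x x', dg G x = 2 ∧ dg G x' = 2 ∧ G.Adj x x'
      · simpa using hA hPot V G _ 0 0 False hG a3 (Or.inr e)
      · exact hB hPot V G _ 0 _ hG a3 hx (fun x x' a b c => e ⟨x, x', a, b, c⟩)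
          (fun y _ a => absurd a (hl y)) fun _ => hl
    obtain ⟨π, p1, p2, p3⟩ := hP V G _ _ κ s a3 hs
    obtain ⟨A, ρ, o1, o2, o3⟩ := h0 V G h π κ hh hG.two hl hc p1
    have a1 : ¬G.Adj h ρ := fun e => by
      have := pos e.symm
      omega
    obtain ⟨c, hc, -⟩ := last h1 h2 h3 h4 h5 h6 b1 b2 b3 hG o1 (γ := 2) (by norm_num)
      (by norm_num) (fun e => absurd e a1) (if_neg a1) hs (fun v a b e => (p2 v a b e).1) o2
      (p3 A h ρ o1 o2) o3 (Or.inr (by rw [if_neg a1, hγ])) fun e => by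
        obtain ⟨-, -, -, _, _, e, -⟩ := hs.g e
        simp at e
    exact ⟨c, hc⟩

end Pool.Agent.MP_d1f1f3_co.H47.TH
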