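import Pool.Agent.MP_d1f1f3_co.H47.SpecT

/-!
Row EXB, first part: the potential, the slack and the construction of a state.
-/

namespace Pool.Agent.MP_d1f1f3_co.H47.TH

open Finset Relation H47 H2
open scoped Classical

noncomputable section

namespace TExB

variable {V : Type} [Fintype V]

/-- The data of the row. -/
structure Dt (V : Type) where
  G : SimpleGraph V
  r : Option V
  γ : ZMod 2
  τ : ZMod 2
  x : V
  wb : ℤ

namespace Dt

variable (D : Dt V)

/-- Neighbours of degree two other than `x`. -/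
def nn (v : V) : ℕ := #(univ.filter fun y => D.G.Adj v y ∧ dg D.G y = 2 ∧ y ≠ D.x)

/-- The weights. -/
def om (v : V) (j : ZMod 2) : ℤ :=
  (if D.r = some v ∧ j = D.τ then D.wb else 0) + (if dg D.G v = 3 ∧ j = 1 then (D.nn v : ℤ) else 0) +
    if 4 ≤ dg D.G v ∧ D.G.Adj v D.x ∧ j = 0 then 1 else 0

/-- The slack. -/
def t (κ : V → ZMod 2) (v : V) : ℤ :=
  tau D.G κ v - df D.G κ v - (if dg D.G v = 3 ∧ κ v = 1 then (D.nn v : ℤ) else 0) -
    (if Bw D.r D.τ κ v then 2 else 0) - if 4 ≤ dg D.G v ∧ D.G.Adj v D.x ∧ κ v = 0 then 1 else 0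

/-- The gain. -/
def g (κ : V → ZMod 2) (v : V) : ℤ := gn D.G D.om (fun _ _ => 0) κ v

/-- Optimal normalised choices with the right parity. -/
def Cd (κ : V → ZMod 2) : Prop :=
  Opt D.G D.om (fun _ _ => 0) κ ∧ (∀ y, dg D.G y = 2 → y ≠ D.x → κ y = 1) ∧
    ∑ v ∈ univ.filter (K D.G), κ v = D.γ

/-- The parity is changed at `v` and at `x`. -/
def fl (κ : V → ZMod 2) (v u : V) : ZMod 2 :=
  κ u + (if u = v then 1 else 0) + if u = D.x then 1 else 0

/-- Ends of degree three. -/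
def E3 (v : V) : Prop := dg D.G v = 3 ∧ D.G.Adj v D.x

/-- The hypotheses of the row. -/
structure Ok : Prop where
  pot : SPot
  gr : Gr D.G
  rr : Rr D.G D.r
  dx : dg D.G D.x = 2
  nd : ∀ x x', dg D.G x = 2 → dg D.G x' = 2 → ¬D.G.Adj x x'
  one : ∀ z z', dg D.G z = 1 → dg D.G z' = 1 → z = z'
  no : D.r = none → ∀ z, dg D.G z ≠ 1
  wb : D.wb = 2 ∨ (D.wb = 1 ∧ ∀ v, D.r = some v → D.E3 v)

end Dt

variable {D : Dt V} {κ : V → ZMod 2} {u v w : V}

theorem z2 (a : ZMod 2) : a = 0 ∨ a = 1 := by revert a; decide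

theorem z3 (a b : ZMod 2) : a + 1 = b ↔ ¬a = b := by revert a b; decide

theorem d1 (h : D.Ok) (hv : dg D.G v = 2) : D1 D.G v := ⟨hv, fun y hy => by
  have h1 : 2 ≤ dg D.G y := h.gr.nb v y hv hy
  have h2 : dg D.G y ≠ 2 := fun e => h.nd v y hv e hy
  unfold Co
  omega⟩

theorem ne_x (h : D.Ok) (hv : Co D.G v) : v ≠ D.x := fun e => by
  have := h.dx
  rw [Co, e] at hv
  omega

theorem leaf (h : D.Ok) (v : V) :
    #(univ.filter fun w => D.G.Adj v w ∧ dg D.G w = 1) = if D.r = some v then 1 else 0 := by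
  split_ifs with a
  · obtain ⟨-, z, h1, h2⟩ := h.rr v a
    exact card_eq_one.2 ⟨z, eq_singleton_iff_unique_mem.2
      ⟨mem_filter.2 ⟨mem_univ _, h1, h2⟩, fun y hy => h.one _ _ (mem_filter.1 hy).2.2 h2⟩⟩
  · refine card_eq_zero.2 (filter_eq_empty_iff.2 fun w _ hw => ?_)
    obtain e | ⟨ρ, e⟩ := Option.eq_none_or_eq_some D.r
    · exact h.no e w hw.2
    · obtain ⟨-, z, h1, h2⟩ := h.rr ρ e
      obtain rfl := h.one _ _ hw.2 h2
      obtain rfl := card_le_one.1 h2.le _ (Frame.mem_N.2 hw.1.symm) _ (Frame.mem_N.2 h1.symm)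
      exact a e

theorem deg (h : D.Ok) (κ : V → ZMod 2) (hv : Co D.G v) :
    dg D.G v = df D.G κ v + hc D.G κ v + D.nn v + (if D.G.Adj v D.x then 1 else 0) +
      if D.r = some v then 1 else 0 := by
  have e : (if D.G.Adj v D.x then 1 else 0) = ∑ w, if w = D.x then
      (if D.G.Adj v D.x then 1 else 0) else 0 := by simp
  rw [← leaf h v, e, dg, N, df, hc, Dt.nn]
  simp only [card_filter, ← sum_add_distrib]
  refine sum_congr rfl fun w _ => ?_
  by_cases a : D.G.Adj v w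
  · have h1 : 1 ≤ dg D.G w := card_pos.2 ⟨v, Frame.mem_N.2 a.symm⟩
    have h2 := h.dx
    have h3 : 3 ≤ dg D.G v := hv
    by_cases b : w = D.x
    · subst b
      simp [a, Fc, Hc, Co, h2]
    · by_cases c : κ v = κ w <;> simp only [a, b, c, Fc, Hc, h3, true_and, and_true, if_true,
        if_false, ne_eq, not_true, not_false_iff, and_false, Co] <;> split_ifs <;> omega
  · by_cases b : w = D.x
    · subst b
      simp [a, Fc, Hc]
    · simp [a, b, Fc, Hc]

theorem key (h : D.Ok) (κ : V → ZMod 2) (hv : Co D.G v) :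
    D.g κ v = 2 * D.t κ v + 1 - (if dg D.G v = 3 then (if D.G.Adj v D.x then 1 else 0)
      else (D.nn v : ℤ)) +
      if D.r = some v then (if κ v = D.τ then 3 - D.wb else D.wb - 1) else 0 := by
  have h1 := deg h κ hv
  have h2 : 2 * tau D.G κ v + 1 =
      dg D.G v + if Even (dg D.G v) then (if Wv D.G κ v then -1 else 1) else 0 := by
    unfold tau
    by_cases a : Even (dg D.G v)
    · have := Nat.even_iff.1 a
      rw [if_pos a]
      split_ifs <;> omega
    · have := Nat.odd_iff.1 (Nat.not_even_iff_odd.1 a)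
      rw [if_neg a, if_neg fun b => a b.2.1]
      omega
  have h3 : 3 ≤ dg D.G v := hv
  have h4 : 4 ≤ dg D.G v ↔ ¬dg D.G v = 3 := by omega
  have h5 : κ v = 0 ↔ ¬κ v = 1 := by generalize κ v = a; revert a; decide
  simp only [Dt.g, gn, Dt.t, Dt.om, Bw, z3, h4, h5, Nat.cast_zero, neg_zero, ite_self,
    sum_const_zero]
  generalize (if Even (dg D.G v) then (if Wv D.G κ v then -1 else 1) else 0 : ℤ) = W at h2 ⊢
  by_cases a : D.r = some v <;> rcases Classical.prop_complete (κ v = D.τ) with b | b <;>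
    by_cases c : dg D.G v = 3 <;> by_cases d : D.G.Adj v D.x <;>
    rcases Classical.prop_complete (κ v = 1) with e | e <;>
    simp only [a, b, c, d, e, and_true, and_false, if_true, if_false,
      not_true, not_false_iff] at h1 h2 ⊢ <;> omega

theorem g_le (h : D.Ok) (κ : V → ZMod 2) (hv : Co D.G v) :
    D.g κ v ≤ 2 * D.t κ v + 1 + if D.r = some v then 1 else 0 := by
  rw [key h κ hv]
  by_cases a : D.r = some v
  · rcases h.wb with b | ⟨b, c⟩
    · split_ifs <;> omega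
    · rw [if_pos (c v a).1, if_pos (c v a).2]
      split_ifs <;> omega
  · split_ifs <;> omega

theorem pot (h : D.Ok) : (∃ κ, Opt D.G D.om (fun _ _ => 0) κ) ∧
    (∀ κ κ', (∀ v, Co D.G v → κ' v = κ v) → Opt D.G D.om (fun _ _ => 0) κ →
      Opt D.G D.om (fun _ _ => 0) κ') ∧
    (∀ κ v, Opt D.G D.om (fun _ _ => 0) κ → Co D.G v → D.g κ v ≤ 0 →
      Opt D.G D.om (fun _ _ => 0) (Function.update κ v (κ v + 1))) ∧
    ∀ κ, Opt D.G D.om (fun _ _ => 0) κ → ∀ X : Finset V, (∀ v ∈ X, Co D.G v) →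
      0 ≤ ∑ v ∈ X, (D.g κ v + #(X.filter fun w => Fc D.G κ v w) -
        #(X.filter fun w => Hc D.G κ v w)) := by
  simpa [Dt.g] using h.pot V D.G D.om (fun _ _ => 0) (fun _ _ => rfl) (fun _ => rfl)
    fun _ _ a => absurd rfl a

theorem g_ge (h : D.Ok) (hκ : D.Cd κ) (hv : Co D.G v) : 0 ≤ D.g κ v := by
  have := (pot h).2.2.2 κ hκ.1 {v} (by simpa using hv)
  rw [sum_singleton, filter_singleton, filter_singleton, if_neg fun a : Fc D.G κ v v => a.1.ne rfl,
    if_neg fun a : Hc D.G κ v v => a.1.ne rfl] at this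
  simpa using this

theorem t_ge (h : D.Ok) (hκ : D.Cd κ) (hv : Co D.G v) (hr : D.r ≠ some v) : 0 ≤ D.t κ v := by
  have h1 := g_le h κ hv
  have h2 := g_ge h hκ hv
  rw [if_neg hr] at h1
  omega

theorem fl_self (h : D.Ok) (κ : V → ZMod 2) (hv : Co D.G v) : D.fl κ v v = κ v + 1 := by
  simp [Dt.fl, ne_x h hv]

theorem fl_x (h : D.Ok) (κ : V → ZMod 2) (hv : Co D.G v) : D.fl κ v D.x = κ D.x + 1 := by
  simp [Dt.fl, (ne_x h hv).symm]

theorem fl_ne (h : D.Ok) (κ : V → ZMod 2) (hu : Co D.G u) (hv : u ≠ v) : D.fl κ v u = κ u := by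
  simp [Dt.fl, ne_x h hu, hv]

theorem flip (h : D.Ok) (hκ : D.Cd κ) (hv : Co D.G v) (hg : D.g κ v ≤ 0) : D.Cd (D.fl κ v) := by
  refine ⟨(pot h).2.1 _ _ (fun u hu => ?_) ((pot h).2.2.1 κ v hκ.1 hv hg), fun y hy hx => ?_, ?_⟩
  · by_cases a : u = v
    · rw [a, fl_self h κ hv, Function.update_self]
    · rw [fl_ne h κ hu a, Function.update_of_ne a]
  · have : y ≠ v := fun e => by
      rw [Co, ← e] at hv
      omega
    simp [Dt.fl, hx, this, hκ.2.1 y hy hx]
  · have h1 : K D.G v := le_trans (by norm_num) hv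
    have h2 : K D.G D.x := h.dx.ge
    simp only [Dt.fl, sum_add_distrib, sum_ite_eq', mem_filter, mem_univ, true_and, h1, h2,
      if_true, hκ.2.2]
    generalize D.γ = a
    revert a
    decide

theorem ex (h : D.Ok) : ∃ κ, D.Cd κ := by
  obtain ⟨κ, hκ⟩ := (pot h).1
  have h1 : ∀ b : ZMod 2, Opt D.G D.om (fun _ _ => 0) fun v =>
      (if dg D.G v = 2 then 1 else κ v) + if v = D.x then b else 0 := fun b =>
    (pot h).2.1 _ _ (fun u hu => by
      have : 3 ≤ dg D.G u := hu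
      simp [ne_x h hu, show dg D.G u ≠ 2 by omega]) hκ
  have h2 : K D.G D.x := h.dx.ge
  refine ⟨_, h1 (D.γ - ∑ v ∈ univ.filter (K D.G), if dg D.G v = 2 then 1 else κ v),
    fun y hy hx => by simp [hy, hx], ?_⟩
  simp only [sum_add_distrib, sum_ite_eq', mem_filter, mem_univ, true_and, h2, if_true]
  ring

theorem t3 (κ : V → ZMod 2) (hv : dg D.G v = 3) : D.t κ v = 1 - df D.G κ v -
    (if κ v = 1 then (D.nn v : ℤ) else 0) - if Bw D.r D.τ κ v then 2 else 0 := by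
  have : ¬Wv D.G κ v := fun a => by
    have := a.2.1
    rw [hv] at this
    exact absurd this (by decide)
  simp [Dt.t, tau, hv, this]

theorem nn_pos (h1 : D.G.Adj v w) (h2 : dg D.G w = 2) (h3 : w ≠ D.x) : 1 ≤ D.nn v :=
  card_pos.2 ⟨w, mem_filter.2 ⟨mem_univ _, h1, h2, h3⟩⟩

theorem state (h : D.Ok) (hκ : D.Cd κ) (bon g5 : Prop)
    (ha : bon → ∀ v, D.r = some v → 0 ≤ D.t κ v)
    (hb : ∀ v y, dg D.G v = 3 → κ v = 1 → D.G.Adj v y → dg D.G y = 2 → (g5 ∧ D.r = some v) ∨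
      (0 ≤ D.t κ v ∧ (κ D.x = 1 → D.G.Adj v D.x → bon ∨ df D.G κ v = 0)))
    (hc : κ D.x = 0 → (∀ p, D.E3 p → κ p = 0 → 1 ≤ D.t κ p) ∧
      (bon ∨ ∃ p, D.E3 p ∧ κ p = 1 ∧ 1 ≤ D.t κ p))
    (hd : g5 → ¬bon ∧ κ D.x = 1 ∧ D.τ = 1 ∧ ∃ ρ, D.r = some ρ ∧ D.E3 ρ ∧ κ ρ = 1 ∧
      df D.G κ ρ = 0 ∧ D.nn ρ = 0) :
    ∃ κ s, Sta D.G D.r D.τ κ s ∧ ∑ v ∈ univ.filter (K D.G), κ v = D.γ := by
  have tb : ∀ v, D.t κ v + df D.G κ v + (if Bw D.r D.τ κ v then 2 else 0) +
      (if 4 ≤ dg D.G v ∧ D.G.Adj v D.x ∧ κ v = 0 then 1 else 0) ≤ tau D.G κ v := fun v => by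
    unfold Dt.t
    split_ifs <;> omega
  have gd : ∀ v, dg D.G v = 3 → 1 ≤ D.t κ v → Gd D.G D.r D.τ κ v := fun v a b => by
    rw [t3 κ a] at b
    exact ⟨by split_ifs at b <;> omega, fun c => by rw [if_pos c] at b; split_ifs at b <;> omega⟩
  refine ⟨κ, ⟨D.t κ, fun _ _ => 0, κ D.x = 0, bon, g5, {D.x}⟩, ⟨fun v _ => ?_, fun _ _ => rfl,
    fun _ => rfl, fun X hX => ?_, fun v _ => ?_, fun v hv => ?_, Or.inr (Or.inl ⟨_, d1 h h.dx, rfl⟩),
    fun a => ⟨singleton_nonempty _, by simpa using a⟩, fun y hy => ?_,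
    fun y y' a b c => absurd c (h.nd y y' a b), fun v y a b c d => ?_, fun v a b => ?_,
    fun u y a => ?_, fun _ a => absurd rfl (a _), fun a y b => ?_, fun a => ?_⟩, hκ.2.2⟩
  · have := tb v
    simp only [Nat.cast_zero, sum_const_zero]
    split_ifs at this <;> omega
  · have h1 := (pot h).2.2.2 κ hκ.1 X hX
    have h2 : ∑ v ∈ X, (if D.r = some v then 1 else 0 : ℤ) ≤ 1 := by
      rw [sum_boole, Nat.cast_le_one]
      exact card_le_one.2 fun a ha b hb =>
        Option.some.inj ((mem_filter.1 ha).2.symm.trans (mem_filter.1 hb).2)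
    have h3 := sum_le_sum (s := X) fun v hv => sub_le_sub_right (add_le_add_left
      (g_le h κ (hX v hv)) (#(X.filter fun w => Fc D.G κ v w) : ℤ))
      (#(X.filter fun w => Hc D.G κ v w) : ℤ)
    simp only [Dl, Nat.cast_zero, sum_const_zero, add_zero, sum_add_distrib, sum_sub_distrib]
      at h1 h3 ⊢
    omega
  · have := tb v
    dsimp only
    split_ifs at this ⊢ <;> omega
  · by_cases a : D.r = some v
    · by_cases b : bon
      · exact Or.inl (ha b v a)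
      · have h1 := g_le h κ hv
        have h2 := g_ge h hκ hv
        rw [if_pos a] at h1
        exact Or.inr ⟨a, b, by dsimp only; omega⟩
    · exact Or.inl (t_ge h hκ hv a)
  · by_cases a : y = D.x
    · exact (z2 (κ y)).symm.imp_right fun b => ⟨a ▸ b, by rw [a]⟩
    · exact Or.inl (hκ.2.1 y hy.1 a)
  · rcases hb v y a b c d.1.1 with e | ⟨e1, e2⟩
    · exact Or.inr (Or.inr e)
    rw [t3 κ a, if_pos b] at e1
    have e3 : ¬Bw D.r D.τ κ v := fun e => by rw [if_pos e] at e1; omega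
    rw [if_neg e3] at e1
    by_cases e4 : df D.G κ v = 0
    · exact Or.inl ⟨e4, e3⟩
    have e5 : y = D.x := by_contra fun e => by have := nn_pos c d.1.1 e; omega
    subst e5
    exact Or.inr (Or.inl ⟨by omega, e3, rfl, Or.inl ((e2 d.2 c).resolve_right e4)⟩)
  · by_contra c
    push Not at c
    have hv : Co D.G v := a.ge
    have n : ∀ y, D.G.Adj v y → dg D.G y = 2 := fun y e => (c y e).1.1
    have e1 : D.r ≠ some v := fun e => by
      obtain ⟨-, z, h1, h2⟩ := h.rr v e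
      have := n z h1
      omega
    have e2 : df D.G κ v = 0 := card_eq_zero.2 (filter_eq_empty_iff.2 fun y _ e => by
      have := n y e.1
      have : 3 ≤ dg D.G y := e.2.2.1
      omega)
    have e3 : TH.hc D.G κ v = 0 := card_eq_zero.2 (filter_eq_empty_iff.2 fun y _ e => by
      have := n y e.1
      have : 3 ≤ dg D.G y := e.2.2.1
      omega)
    have e4 := deg h κ hv
    have e5 := t_ge h hκ hv e1
    rw [t3 κ a, if_pos b] at e5
    rw [if_neg e1] at e4
    split_ifs at e4 e5 <;> omega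
  · obtain ⟨-, y', w, h1, h2, -⟩ := a
    exact absurd h2 (h.nd _ _ h1.2.2.1 h1.2.2.2.1)
  · obtain rfl := singleton_injective b
    obtain ⟨c1, c2⟩ := hc a
    refine ⟨fun _ _ => rfl, h.nd, fun p e1 e2 => ⟨fun e3 => ⟨gd p e3 (c1 p ⟨e3, e1⟩ e2),
      c1 p ⟨e3, e1⟩ e2⟩, fun e3 => ?_⟩, c2.imp_right ?_⟩
    · have := tb p
      rwa [if_pos (show 4 ≤ dg D.G p ∧ D.G.Adj p D.x ∧ κ p = 0 from ⟨e3, e1, e2⟩)] at this
    · rintro ⟨p, e1, e2, e3⟩
      refine ⟨p, e1.2, e1.1, e2, gd p e1.1 e3, fun y e4 e5 => ?_⟩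
      by_cases e6 : y = D.x
      · exact absurd ((e6 ▸ e5.2).symm.trans a) (by decide)
      · have := nn_pos e4 e5.1.1 e6
        rw [t3 κ e1.1, if_pos e2] at e3
        split_ifs at e3 <;> omega
  · obtain ⟨a1, a2, a3, ρ, a4, a5, a6, a7, a8⟩ := hd a
    refine ⟨a1, fun e => absurd (a2.symm.trans e) (by decide), h.one, ρ, D.x, a4, rfl, a5.2, a5.1,
      a6, a3, a7, fun y e1 e2 => by_contra fun e => ?_⟩
    have := nn_pos e1 e2.1.1 e
    omega

end TExB

end

end Pool.Agent.MP_d1f1f3_co.H47.TH
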