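import Pool.Agent.MP_d1f1f3_co.H47.SpecT
import Pool.Agent.MP_d1f1f3_co.H47.AsmL
import Pool.Agent.MP_d1f1f3_co.H47.AsmM
import Pool.Agent.MP_d1f1f3_co.H47.Asm0
import Pool.Agent.MP_d1f1f3_co.H47.Ori
import Pool.Agent.MP_d1f1f3_co.H47.GoodM

/-!
Row ORIR: orientations with a real root and prescribed transitions.
-/

namespace Pool.Agent.MP_d1f1f3_co.H47.TH

open Finset Relation H47 H2
open scoped Classical

namespace TOriR

open AsmM

variable {V : Type} [Fintype V] {G : SimpleGraph V} {h z ρ : V} {π : V → V → V}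

/-- The pairing restricted to the edges that satisfy `P`. -/
noncomputable def rs (P : V → V → Prop) (π : V → V → V) (v w : V) : V :=
  if P v w then π v w else w

omit [Fintype V] in
theorem rs_prs {G' : SimpleGraph V} {P : V → V → Prop}
    (hP : ∀ v w, P v w → G'.Adj v (π v w) ∧ P v (π v w) ∧ π v (π v w) = w) (v w : V)
    (a : G'.Adj v w) : G'.Adj v (rs P π v w) ∧ rs P π v (rs P π v w) = w := by
  by_cases c : P v w
  · have e : rs P π v w = π v w := if_pos c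
    rw [e, rs, if_pos (hP v w c).2.1]
    exact ⟨(hP v w c).1, (hP v w c).2.2⟩
  · have e : rs P π v w = w := if_neg c
    rw [e, e]
    exact ⟨a, rfl⟩

omit [Fintype V] in
theorem rs_opp {G' : SimpleGraph V} {P D : V → V → Prop}
    (hD : ∀ v w, G'.Adj v w → rs P π v w ≠ w → (D v w ↔ ¬D v (rs P π v w))) {v w : V}
    (a : G'.Adj v w) (c : P v w) (e : π v w ≠ w) : D v w ↔ ¬D v (π v w) := by
  have e1 : rs P π v w = π v w := if_pos c
  have := hD v w a
  rw [e1] at this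
  exact this e

theorem one (hh : dg G h = 0) (hT : TwoK G) (hN : N G z = {ρ}) (hρ : K G ρ) (hπ : Prs G π)
    (hone : ∀ z', dg G z' = 1 → z' = z) : ∃ A, Ori G A z ρ ∧ Opp G π A := by
  have nz : ∀ w, G.Adj z w ↔ w = ρ := fun w => by rw [← mem_N, hN, mem_singleton]
  have hzρ : G.Adj z ρ := (nz ρ).2 rfl
  have dz : dg G z = 1 := by simp [dg, hN]
  have hz : ¬K G z := by simp [K, dz]
  have hl : ∀ a b, G.Adj a b → K G a ∨ a = z := fun a b hab =>
    or_iff_not_imp_left.2 fun h2 => hone a (by have := dg_pos hab; unfold K at h2; omega)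
  obtain ⟨y, hyz, hodd⟩ := G.exists_ne_odd_degree_of_exists_odd_degree z
    (by simp [← AsmL.dg_eq, dz])
  rw [← AsmL.dg_eq] at hodd
  have hy : K G y := by
    have := mt (hone y) hyz
    obtain ⟨k, hk⟩ := hodd
    unfold K
    omega
  have kh : ¬K G h := by simp [K, hh]
  have hhz : h ≠ z := fun e => by rw [e] at hh; omega
  obtain ⟨D, d1, d2, d3, dp, d4, d5⟩ := H47.ori goodM V (AsmL.ext G h z y)
    (rs (fun v w => K G v ∧ G.Adj v w) π) z ρ (AsmL.two_ext hT kh hz hhz hzρ hρ hy hl)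
    (rs_prs fun v w c => ⟨Or.inl (hπ v w c.2).1, ⟨c.1, (hπ v w c.2).1⟩, (hπ v w c.2).2⟩)
    (Or.inl hzρ)
  refine ⟨_, AsmL.ori hh hN hρ hy hodd hl d1 d2 d3 d4 d5, fun v w k a e => ?_⟩
  simp only [a, (hπ v w a).1, and_true]
  exact rs_opp dp (Or.inl a) ⟨k, a⟩ e

theorem more (hh : dg G h = 0) (hcon : H47.Con G) (h2 : TwoK G) (hz : N G z = {ρ}) (hρ : K G ρ)
    (hπ : Prs G π) {z' : V} (hz' : dg G z' = 1) (hne : z' ≠ z) :
    ∃ A, Ori G A z ρ ∧ Opp G π A ∧ ∃ u w, A u w ∧ ¬K G w := by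
  have hK := adjK hcon hρ
  have dz : dg G z = 1 := by rw [dg, hz, card_singleton]
  have az : ∀ w, G.Adj z w ↔ w = ρ := fun w => by rw [← mem_N, hz, mem_singleton]
  have kz : ¬K G z := by unfold K; omega
  obtain ⟨D, d1, d2, d3, dp, d4, d5⟩ := H47.ori goodM V (G1 G h)
    (rs (fun v w => K G v ∧ G.Adj v w) π) z ρ (two hh hK h2 dz hz' hne)
    (rs_prs fun v w c => ⟨le1 (hπ v w c.2).1, ⟨c.1, (hπ v w c.2).1⟩, (hπ v w c.2).2⟩)
    (le1 ((az ρ).2 rfl))
  have both : ∀ l p, dg G l = 1 → G.Adj l p → D l p → ¬D l h := by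
    intro l p hl hp a b
    have e1 := (d4 l).2
    have e2 := dg_l hh hl
    have e3 : 1 < #(Out D l) := one_lt_card.2
      ⟨p, by simp [Out, a], h, by simp [Out, b], ne_h hh (dg_pos hp.symm)⟩
    omega
  have kh : ∀ v, K G v → v ≠ h := fun v hv => ne_h hh (by unfold K at hv; omega)
  let A : V → V → Prop := fun u w => D u w ∧ ¬(u = h ∧ w = z)
  have root : A z ρ := ⟨d3, fun a => ne_h hh dz.ge a.1⟩
  have only : ∀ w, A z w → w = ρ := fun w a =>
    (adj_l hh dz az (d1 _ _ a.1)).resolve_right fun e => both z ρ dz ((az ρ).2 rfl) d3 (e ▸ a.1)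
  have hOri : Ori G A z ρ := by
    refine ⟨root, fun w a => ?_, only, hρ, kz, fun u w a b => (d2 u w (d1 _ _ a.1)).1 a.1 b.1,
      fun u w a => ?_, fun v w k a => adj_K hh k (d1 _ _ a.1),
      fun v w k a => Or.inl (adj_K hh k (d1 _ _ a.1).symm), fun v k => ?_,
      fun a => absurd ((az ρ).2 rfl) a, fun u w a => ?_⟩
    · rcases adj_l hh dz az (d1 _ _ a.1).symm with e | e
      · exact (d2 z ρ (d1 _ _ d3)).1 d3 (e ▸ a.1)
      · exact a.2 ⟨e, rfl⟩
    · by_cases c : D w u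
      · exact Or.inr ⟨c, fun b => ne_h hh (dg_pos a.symm) b.1⟩
      · exact Or.inl ⟨(d2 u w (le1 a)).2 c, fun b => ne_h hh (dg_pos a) b.1⟩
    · have e : Out A v = Out D v := by
        ext w
        simp [Out, A, kh v k]
      rw [e, ← dg_K hh k]
      exact d4 v
    · let Y : V → Prop := fun v => ∃ a, ReflTransGen (Tr A (St.free V)) (z, ρ) (a, v)
      have step : ∀ v b, Y v → A v b → ReflTransGen (Tr A (St.free V)) (z, ρ) (v, b) := by
        rintro v b ⟨x, hx⟩ c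
        exact hx.tail ⟨c, rfl, Or.inr ⟨rfl, not_false⟩⟩
      by_cases c : u = z
      · rw [c, only w (c ▸ a)]
      refine step u w ?_ a
      by_contra hY
      obtain ⟨x, y, x1, y1, c1⟩ := d5 (univ.filter fun v => ¬Y v ∧ v ≠ z) u z (by simp [hY, c])
        (by simp) (dg_pos (d1 _ _ a.1)) (dg_pos (d1 _ _ d3))
      obtain ⟨y2, y3⟩ := (mem_filter.1 y1).2
      have c2 : A x y := ⟨c1, fun b => y3 b.2⟩
      by_cases c3 : x = z
      · exact y2 ⟨z, by rw [only y (c3 ▸ c2)]⟩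
      · refine y2 ⟨x, step x y ?_ c2⟩
        by_contra c4
        exact x1 (mem_filter.2 ⟨mem_univ _, c4, c3⟩)
  refine ⟨A, hOri, fun v w k a e => ?_, ?_⟩
  · simp only [A, kh v k, false_and, not_false_eq_true, and_true]
    exact rs_opp dp (le1 a) ⟨k, a⟩ e
  · obtain ⟨p, hp⟩ := ex_adj hz'.ge
    have kz' : ¬K G z' := by unfold K; omega
    by_cases c : D z' p
    · exact ⟨h, z', ⟨(d2 h z' (adj_lh hh hz').symm).2 (both z' p hz' hp c),
        fun b => hne b.2⟩, kz'⟩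
    · exact ⟨p, z', ⟨(d2 p z' (le1 hp.symm)).2 c, fun b => hne b.2⟩, kz'⟩

theorem first (hT : TwoK G) (hN : N G z = {ρ}) (hρ : K G ρ) (hπ : Prs G π)
    (hone : ∀ z', dg G z' = 1 → z' = z) (hodd : Odd (dg G ρ)) (hz0 : π ρ z = z) {x : V}
    (hx : G.Adj ρ x) (kx : K G x) : ∃ A, Ori G A z ρ ∧ Opp G π A ∧ A ρ x := by
  have nz : ∀ w, G.Adj z w ↔ w = ρ := fun w => by rw [← mem_N, hN, mem_singleton]
  have hzρ : G.Adj z ρ := (nz ρ).2 rfl
  have dz : dg G z = 1 := by simp [dg, hN]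
  have hz : ¬K G z := by simp [K, dz]
  have hl : ∀ u w, G.Adj u w → K G w ∨ (u = ρ ∧ w = z) := fun u w a =>
    or_iff_not_imp_left.2 fun h2 => by
      have e : w = z := hone w (by have := dg_pos a.symm; unfold K at h2; omega)
      exact ⟨(nz u).1 (e ▸ a.symm), e⟩
  have kz : ∀ v, K G v → v ≠ z := fun v k e => hz (e ▸ k)
  have h2 : Two (core G) := fun X u w a b c d => by
    obtain ⟨u', hu⟩ := ex_adj c
    obtain ⟨w', hw⟩ := ex_adj d
    exact hT X u w a b hu.2.1 hw.2.1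
  have hc : ∀ v w, (core G).Adj v w → (core G).Adj v (π v w) := fun v w c => by
    obtain ⟨p1, p2⟩ := hπ v w c.1
    refine ⟨p1, c.2.1, (hl _ _ p1).resolve_right fun e => ?_⟩
    rw [e.2, e.1, hz0] at p2
    exact kz w c.2.2 p2.symm
  obtain ⟨D, d1, d2, d3, dp, d4, d5⟩ := H47.ori goodM V (core G) (rs (core G).Adj π) ρ x h2
    (rs_prs fun v w c => ⟨hc v w c, hc v w c, (hπ v w c.1).2⟩) ⟨hx, hρ, kx⟩
  have c0 : dg (core G) z = 0 := by
    by_contra c
    obtain ⟨w, hw⟩ := ex_adj (Nat.one_le_iff_ne_zero.2 c)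
    exact hz hw.2.1
  have c1 : dg G ρ = dg (core G) ρ + 1 := by
    have e : N G ρ = insert z (N (core G) ρ) := by
      ext w
      simp only [mem_insert, mem_N]
      exact ⟨fun a => (hl _ _ a).elim (fun k => Or.inr ⟨a, hρ, k⟩) fun e => Or.inl e.2,
        fun a => a.elim (fun e => e ▸ hzρ.symm) fun a => a.1⟩
    rw [dg, e, card_insert_of_notMem fun a => hz ((mem_N (G := core G)).1 a).2.2, dg]
  have c2 : ∀ v, K G v → v ≠ ρ → dg (core G) v = dg G v := fun v k e => by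
    unfold dg
    congr 1
    ext w
    simp only [mem_N]
    exact ⟨fun a => a.1, fun a => ⟨a, k, (hl _ _ a).resolve_right fun f => e f.1⟩⟩
  obtain ⟨n, hn⟩ := hodd
  have c3 : K (core G) ρ := by
    unfold K at hρ ⊢
    omega
  have ho := Asm0.ori c0 d1 d2 d4 d5 c3 (by have := d4 ρ; omega)
  refine ⟨_, ⟨ho.root, ho.noin, ho.only, hρ, hz, ho.asym, fun u w a => ?_, ?_, ?_, fun v k => ?_,
    fun a => absurd hzρ a, ho.rt⟩, fun v w k a e => ?_, Or.inl d3⟩
  · rcases hl _ _ a with k | e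
    · rcases hl _ _ a.symm with k' | e
      · exact ho.real u w ⟨a, k', k⟩
      · exact Or.inl (Or.inr ⟨e.2, e.1⟩)
    · exact Or.inr (Or.inr ⟨e.2, e.1⟩)
  · rintro v w k (a | a)
    · exact (d1 _ _ a).1
    · exact absurd a.1 (kz v k)
  · rintro v w - (a | a)
    · exact Or.inl (d1 _ _ a).1.symm
    · exact Or.inr a
  · by_cases e : v = ρ
    · have := ho.smooth ρ c3
      rw [e]
      omega
    · have e1 := c2 v k e
      have := ho.smooth v (by unfold K at k ⊢; omega)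
      rwa [e1] at this
  · have c : (core G).Adj v w := ⟨a, k, (hl _ _ a).resolve_right fun f => e (by
      rw [f.1, f.2, hz0])⟩
    simp only [kz v k, false_and, or_false]
    exact rs_opp dp c c e

end TOriR

theorem oriR : SOriR := by
  intro V _ G h z ρ π hh hcon hT hN hρ hπ
  refine ⟨?_, fun hone hodd hz0 x hx kx => TOriR.first hT hN hρ hπ hone hodd hz0 hx kx⟩
  by_cases c : ∃ z', z' ≠ z ∧ dg G z' = 1
  · obtain ⟨z', hne, hz'⟩ := c
    obtain ⟨A, h1, h2, h3⟩ := TOriR.more hh hcon hT hN hρ hπ hz' hne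
    exact ⟨A, h1, h2, fun _ => h3⟩
  · obtain ⟨A, h1, h2⟩ := TOriR.one hh hT hN hρ hπ fun z' hz' =>
      by_contra fun e => c ⟨z', e, hz'⟩
    exact ⟨A, h1, h2, fun e => absurd e c⟩

end Pool.Agent.MP_d1f1f3_co.H47.TH
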