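import Pool.Agent.MP_d1f1f3_co.H47.Alev
import Pool.Agent.MP_d1f1f3_co.H47.Asm0
import Pool.Agent.MP_d1f1f3_co.H47.AsmL
import Pool.Agent.MP_d1f1f3_co.H47.AsmM
import Pool.Agent.MP_d1f1f3_co.H47.Blev
import Pool.Agent.MP_d1f1f3_co.H47.Cnt
import Pool.Agent.MP_d1f1f3_co.H47.CntM
import Pool.Agent.MP_d1f1f3_co.H47.CntOf
import Pool.Agent.MP_d1f1f3_co.H47.Exc
import Pool.Agent.MP_d1f1f3_co.H47.Frame
import Pool.Agent.MP_d1f1f3_co.H47.GoodM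
import Pool.Agent.MP_d1f1f3_co.H47.Kev
import Pool.Agent.MP_d1f1f3_co.H47.Ori
import Pool.Agent.MP_d1f1f3_co.H47.Pair
import Pool.Agent.MP_d1f1f3_co.H47.Red
import Pool.Agent.MP_d1f1f3_co.H47.Tree

/-!
Assembly of the rows.
-/

namespace Pool.Agent.MP_d1f1f3_co.H47

theorem main10 (V : Type) [Fintype V] : Main (fun d => 10 ≤ d) V := by
  have ho := ori2 (ori goodM) pair
  have hf := frame exc (alev tree) blev
  refine red _ V (fun G h z ρ γ τ h1 h2 h3 h4 h5 h6 h7 h8 => ?_) (asm0 kev ho cnt cntOf hf V)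
  by_cases h9 : ∀ z', dg G z' = 1 → z' = z
  · exact asmL kev ho cnt cntOf hf V G h z ρ γ τ h1 h3 h4 h5 h6 h7 h8 h9
  · push Not at h9
    obtain ⟨z', a, b⟩ := h9
    exact asmM ho cntM cntOf hf V G h z ρ z' γ τ h1 h2 h3 h4 h5 h6 h7 h8 a b

end Pool.Agent.MP_d1f1f3_co.H47
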